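import Pool.Agent.LibZE10.Defs
import Pool.Agent.LibNZ69.A1

set_option autoImplicit false

namespace Pool.Agent.LibZE10

open Pool.Agent.LibNZ69

/-! Row A1 (SHORT). Continuants. -/

theorem kk_nil : kk [] = 1 := rfl

theorem kk_cons (x : ℕ) (w : List ℕ) : kk (x :: w) = x * kk w + (con w).2 := rfl

theorem con_cons_snd (x : ℕ) (w : List ℕ) : (con (x :: w)).2 = kk w := rfl

theorem con_snd_eq (w : List ℕ) (hw : w ≠ []) : (con w).2 = kk w.tail := by
  cases w with
  | nil => exact absurd rfl hw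
  | cons x w => rfl

theorem con_snd_le (w : List ℕ) (hw : ∀ x ∈ w, 1 ≤ x) : (con w).2 ≤ kk w := by
  cases w with
  | nil => exact Nat.zero_le _
  | cons x w =>
    rw [con_cons_snd, kk_cons]
    have hx : 1 ≤ x := hw x (List.mem_cons_self)
    nlinarith [Nat.zero_le (kk w), Nat.zero_le (con w).2, Nat.mul_le_mul_right (kk w) hx]

theorem act01 (w : List ℕ) : act w (0, 1) = (((con w).2 : ℤ), (kk w : ℤ)) := by
  induction w with
  | nil => simp [act, con, kk]
  | cons x w ih =>
    simp only [act, ih, gl]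
    rw [con_cons_snd, kk_cons]
    ext
    · rfl
    · simp only
      push_cast
      ring

theorem kk_pos (w : List ℕ) (hw : ∀ x ∈ w, 1 ≤ x) : 1 ≤ kk w := by
  induction w with
  | nil => exact le_refl 1
  | cons x w ih =>
    have hx : 1 ≤ x := hw x (List.mem_cons_self)
    have h1 := ih (fun y hy => hw y (List.mem_cons_of_mem x hy))
    rw [kk_cons]
    have h2 : 1 * kk w ≤ x * kk w := Nat.mul_le_mul_right (kk w) hx
    omega

theorem kk_le_cons (x : ℕ) (w : List ℕ) (hw : ∀ y ∈ x :: w, 1 ≤ y) : kk w ≤ kk (x :: w) := by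
  have hx : 1 ≤ x := hw x (List.mem_cons_self)
  rw [kk_cons]
  have h2 : 1 * kk w ≤ x * kk w := Nat.mul_le_mul_right (kk w) hx
  omega

theorem kk_cons_le (x : ℕ) (w : List ℕ) (hw : ∀ y ∈ w, 1 ≤ y) : kk (x :: w) ≤ (x + 1) * kk w := by
  have h := con_snd_le w hw
  rw [kk_cons, add_mul, one_mul]
  omega

/-- `row [a₁, …, a_m] = act [a_m, …, a₁]` (the matrices are symmetric) -/
theorem row_eq (w : List ℕ) (u : ℤ × ℤ) : row w u = act w.reverse u := by
  induction w generalizing u with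
  | nil => rfl
  | cons x w ih =>
    rw [List.reverse_cons, act_append, ← ih]
    rfl

/-- `K(w) = ⟨(0,1), act w (0,1)⟩` and `dt_row`, `row_eq` -/
theorem kk_reverse (w : List ℕ) : kk w.reverse = kk w := by
  have h1 := dt_row w (0, 1) (0, 1)
  rw [row_eq, act01, act01] at h1
  simp only [dt] at h1
  have h2 : (kk w.reverse : ℤ) = (kk w : ℤ) := by linarith
  exact_mod_cast h2

private theorem A1_ge (u w : List ℕ) :
    kk u * kk w ≤ kk (u ++ w) ∧ (con u).2 * kk w ≤ (con (u ++ w)).2 := by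
  induction u with
  | nil =>
    constructor
    · rw [kk_nil, one_mul, List.nil_append]
    · have h : (con ([] : List ℕ)).2 = 0 := rfl
      rw [h, zero_mul]
      exact Nat.zero_le _
  | cons x u ih =>
    obtain ⟨h1, h2⟩ := ih
    rw [List.cons_append, con_cons_snd, con_cons_snd, kk_cons, kk_cons]
    refine ⟨?_, h1⟩
    rw [add_mul, mul_assoc]
    exact add_le_add (Nat.mul_le_mul_left x h1) h2

theorem kk_append_ge (u w : List ℕ) : kk u * kk w ≤ kk (u ++ w) := (A1_ge u w).1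

private theorem A1_le (u : List ℕ) (hu : ∀ x ∈ u, 1 ≤ x) (hne : u ≠ []) :
    ∃ p q : ℕ, p ≤ kk u ∧ q ≤ (con u).2 ∧ ∀ w : List ℕ,
      kk (u ++ w) = kk u * kk w + p * (con w).2 ∧
      (con (u ++ w)).2 = (con u).2 * kk w + q * (con w).2 := by
  induction u with
  | nil => exact absurd rfl hne
  | cons x u ih =>
    have hx : 1 ≤ x := hu x (List.mem_cons_self)
    rcases u with _ | ⟨y, u⟩
    · refine ⟨1, 0, ?_, Nat.zero_le _, fun w => ⟨?_, ?_⟩⟩
      · rw [kk_cons, kk_nil]
        have h : (con ([] : List ℕ)).2 = 0 := rfl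
        rw [h]
        omega
      · rw [List.cons_append, List.nil_append, kk_cons, kk_cons, kk_nil]
        have h : (con ([] : List ℕ)).2 = 0 := rfl
        rw [h]
        ring
      · rw [List.cons_append, List.nil_append, con_cons_snd, con_cons_snd, kk_nil]
        ring
    · obtain ⟨p, q, hp, hq, h⟩ :=
        ih (fun z hz => hu z (List.mem_cons_of_mem x hz)) (List.cons_ne_nil y u)
      refine ⟨x * p + q, p, ?_, ?_, fun w => ⟨?_, ?_⟩⟩
      · rw [kk_cons x (y :: u)]
        exact add_le_add (Nat.mul_le_mul_left x hp) hq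
      · rw [con_cons_snd x (y :: u)]
        exact hp
      · have e : (x :: y :: u) ++ w = x :: ((y :: u) ++ w) := rfl
        rw [e, kk_cons x, kk_cons x, (h w).1, (h w).2]
        ring
      · have e : (x :: y :: u) ++ w = x :: ((y :: u) ++ w) := rfl
        rw [e, con_cons_snd x, con_cons_snd x, (h w).1]

/-- `K(uw) = K(u) K(w) + (con u.reverse).2 (con w).2` -/
theorem kk_append_le (u w : List ℕ) (hu : ∀ x ∈ u, 1 ≤ x) (hw : ∀ x ∈ w, 1 ≤ x) :
    kk (u ++ w) ≤ 2 * (kk u * kk w) := by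
  rcases u with _ | ⟨x, u⟩
  · rw [List.nil_append, kk_nil]
    omega
  · obtain ⟨p, q, hp, _, h⟩ := A1_le (x :: u) hu (List.cons_ne_nil x u)
    rw [(h w).1]
    have h1 : p * (con w).2 ≤ kk (x :: u) * kk w := Nat.mul_le_mul hp (con_snd_le w hw)
    omega

theorem kk_double (x y : ℕ) (w : List ℕ) (hw : ∀ z ∈ x :: y :: w, 1 ≤ z) :
    2 * kk w ≤ kk (x :: y :: w) := by
  have hx : 1 ≤ x := hw x (List.mem_cons_self)
  have h1 : kk w ≤ kk (y :: w) := kk_le_cons y w (fun z hz => hw z (List.mem_cons_of_mem x hz))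
  rw [kk_cons x, con_cons_snd]
  have h2 : 1 * kk (y :: w) ≤ x * kk (y :: w) := Nat.mul_le_mul_right _ hx
  omega

private theorem A1_len (w : List ℕ) (hw : ∀ x ∈ w, 1 ≤ x) :
    w.length ≤ kk w ∧ w.length ≤ (con w).2 + 1 := by
  induction w with
  | nil => exact ⟨Nat.zero_le _, Nat.zero_le _⟩
  | cons x w ih =>
    have hx : 1 ≤ x := hw x (List.mem_cons_self)
    have hw' : ∀ z ∈ w, 1 ≤ z := fun z hz => hw z (List.mem_cons_of_mem x hz)
    obtain ⟨h1, _⟩ := ih hw'
    rw [con_cons_snd, List.length_cons]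
    refine ⟨?_, by omega⟩
    have h2 : 1 * kk w ≤ x * kk w := Nat.mul_le_mul_right _ hx
    rw [kk_cons]
    rcases w with _ | ⟨y, w⟩
    · rw [kk_nil] at h2 ⊢
      have h : (con ([] : List ℕ)).2 = 0 := rfl
      rw [h, List.length_nil]
      omega
    · have h3 : 1 ≤ (con (y :: w)).2 := by
        rw [con_cons_snd]
        exact kk_pos w (fun z hz => hw' z (List.mem_cons_of_mem y hz))
      omega

theorem length_le_kk (w : List ℕ) (hw : ∀ x ∈ w, 1 ≤ x) : w.length ≤ kk w := (A1_len w hw).1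

theorem kk_suffix_le (u w : List ℕ) (hu : ∀ x ∈ u ++ w, 1 ≤ x) : kk w ≤ kk (u ++ w) := by
  have h1 := kk_append_ge u w
  have h2 : 1 ≤ kk u := kk_pos u (fun x hx => hu x (List.mem_append_left w hx))
  have h3 : 1 * kk w ≤ kk u * kk w := Nat.mul_le_mul_right _ h2
  omega

theorem kk_prefix_le (u w : List ℕ) (hu : ∀ x ∈ u ++ w, 1 ≤ x) : kk u ≤ kk (u ++ w) := by
  have h1 := kk_append_ge u w
  have h2 : 1 ≤ kk w := kk_pos w (fun x hx => hu x (List.mem_append_right u hx))
  have h3 : kk u * 1 ≤ kk u * kk w := Nat.mul_le_mul_left _ h2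
  omega

end Pool.Agent.LibZE10
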