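import Pool.Agent.LibZE10.A1
import Pool.Agent.LibNW69.E2

set_option autoImplicit false

namespace Pool.Agent.LibZE10

open Pool.Agent.LibNZ69

/-! Row A2 (SHORT/MEDIUM). The sets of words. `LibNW69.mem_wd_letters` describes the words of length
`n`; `length_le_kk` bounds the length. -/

theorem mem_wP {A : Finset ℕ} (hA : ∀ x ∈ A, 1 ≤ x) (P : ℕ) (w : List ℕ) :
    w ∈ wP A P ↔ WA A w ∧ kk w ≤ P := by
  classical
  unfold wP
  rw [Finset.mem_filter, Finset.mem_biUnion]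
  constructor
  · rintro ⟨⟨n, _, hw⟩, hk⟩
    exact ⟨((Pool.Agent.LibNW69.mem_wd_letters A n w).1 hw).2, hk⟩
  · rintro ⟨hw, hk⟩
    refine ⟨⟨w.length, ?_, (Pool.Agent.LibNW69.mem_wd_letters A w.length w).2 ⟨rfl, hw⟩⟩, hk⟩
    rw [Finset.mem_range]
    have := length_le_kk w (fun x hx => hA x (hw x hx))
    omega

/-- if `kk v.tail < L` and `v ≠ []` then `kk v ≤ a * kk v.tail ≤ a * L` -/
theorem mem_Cut {A : Finset ℕ} {a : ℕ} (hA : ∀ x ∈ A, 1 ≤ x ∧ x < a) {L : ℕ} (hL : 2 ≤ L)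
    (v : List ℕ) : v ∈ Cut A a L ↔ WA A v ∧ L ≤ kk v ∧ kk v.tail < L := by
  unfold Cut
  rw [Finset.mem_filter, mem_wP (fun x hx => (hA x hx).1)]
  constructor
  · rintro ⟨⟨h1, _⟩, h3, h4⟩
    exact ⟨h1, h3, h4⟩
  · rintro ⟨h1, h3, h4⟩
    refine ⟨⟨h1, ?_⟩, h3, h4⟩
    cases v with
    | nil =>
      rw [kk_nil] at h3
      omega
    | cons x w =>
      have hx := hA x (h1 x List.mem_cons_self)
      have h5 := kk_cons_le x w (fun y hy => (hA y (h1 y (List.mem_cons_of_mem _ hy))).1)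
      have h6 : kk w ≤ L := le_of_lt h4
      exact h5.trans (Nat.mul_le_mul hx.2 h6)

theorem Cut_bounds {A : Finset ℕ} {a : ℕ} (hA : ∀ x ∈ A, 1 ≤ x ∧ x < a) {L : ℕ} {v : List ℕ}
    (hv : v ∈ Cut A a L) : WA A v ∧ L ≤ kk v ∧ kk v ≤ a * L ∧ kk v.tail < L := by
  unfold Cut at hv
  rw [Finset.mem_filter, mem_wP (fun x hx => (hA x hx).1)] at hv
  exact ⟨hv.1.1, hv.2.1, hv.1.2, hv.2.2⟩

theorem mem_Wz {A : Finset ℕ} (hA : ∀ x ∈ A, 1 ≤ x) (Z C₀ : ℕ) (w : List ℕ) :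
    w ∈ Wz A Z C₀ ↔ WA A w ∧ kk w ≤ Z ∧ Z ≤ C₀ * kk w := by
  unfold Wz
  rw [Finset.mem_filter, mem_wP hA, and_assoc]

/-- every long word has a suffix in the cut set -/
theorem exists_cut {A : Finset ℕ} {a : ℕ} (hA : ∀ x ∈ A, 1 ≤ x ∧ x < a) {L : ℕ} (hL : 2 ≤ L)
    (z : List ℕ) (hz : WA A z) (hk : L ≤ kk z) :
    ∃ y v, z = y ++ v ∧ v ∈ Cut A a L ∧ WA A y := by
  induction z with
  | nil =>
    rw [kk_nil] at hk
    omega
  | cons x z ih =>
    by_cases h : L ≤ kk z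
    · obtain ⟨y, v, h1, h2, h3⟩ := ih (fun y hy => hz y (List.mem_cons_of_mem _ hy)) h
      refine ⟨x :: y, v, by rw [h1, List.cons_append], h2, ?_⟩
      intro t ht
      rcases List.mem_cons.1 ht with h4 | h4
      · rw [h4]
        exact hz x List.mem_cons_self
      · exact h3 t h4
    · refine ⟨[], x :: z, rfl, (mem_Cut hA hL _).2 ⟨hz, hk, not_le.1 h⟩, ?_⟩
      intro t ht
      exact absurd ht List.not_mem_nil

private theorem A2_aux {A : Finset ℕ} {a : ℕ} (hA : ∀ x ∈ A, 1 ≤ x ∧ x < a) {L : ℕ}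
    {c v v' : List ℕ} (hv : v ∈ Cut A a L) (hv' : v' ∈ Cut A a L) (h : v = c ++ v') : c = [] := by
  cases c with
  | nil => rfl
  | cons x c =>
    exfalso
    obtain ⟨h1, _, _, h4⟩ := Cut_bounds hA hv
    obtain ⟨_, h6, _, _⟩ := Cut_bounds hA hv'
    rw [h, List.cons_append, List.tail_cons] at h4
    have h7 : ∀ t ∈ c ++ v', 1 ≤ t := by
      intro t ht
      refine (hA t (h1 t ?_)).1
      rw [h, List.cons_append]
      exact List.mem_cons_of_mem _ ht
    have h8 := kk_suffix_le c v' h7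
    omega

/-- only one (suffixes of one word are nested and `kk` is monotone) -/
theorem cut_unique {A : Finset ℕ} {a : ℕ} (hA : ∀ x ∈ A, 1 ≤ x ∧ x < a) {L : ℕ} {y y' v v' : List ℕ}
    (hv : v ∈ Cut A a L) (hv' : v' ∈ Cut A a L) (h : y ++ v = y' ++ v') : y = y' ∧ v = v' := by
  rcases List.append_eq_append_iff.1 h with ⟨c, h1, h2⟩ | ⟨c, h1, h2⟩
  · have h3 := A2_aux hA hv hv' h2
    subst h3
    rw [List.append_nil] at h1
    rw [List.nil_append] at h2
    exact ⟨h1.symm, h2⟩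
  · have h3 := A2_aux hA hv' hv h2
    subst h3
    rw [List.append_nil] at h1
    rw [List.nil_append] at h2
    exact ⟨h1, h2.symm⟩

theorem wP_mono {A : Finset ℕ} (hA : ∀ x ∈ A, 1 ≤ x) {P P' : ℕ} (h : P ≤ P') : wP A P ⊆ wP A P' := by
  intro w hw
  rw [mem_wP hA] at hw ⊢
  exact ⟨hw.1, hw.2.trans h⟩

theorem WA_append {A : Finset ℕ} (u w : List ℕ) : WA A (u ++ w) ↔ WA A u ∧ WA A w := by
  unfold WA
  constructor
  · intro h
    exact ⟨fun x hx => h x (List.mem_append_left _ hx), fun x hx => h x (List.mem_append_right _ hx)⟩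
  · rintro ⟨h1, h2⟩ x hx
    rcases List.mem_append.1 hx with h | h
    · exact h1 x h
    · exact h2 x h

theorem WA_reverse {A : Finset ℕ} (u : List ℕ) : WA A u.reverse ↔ WA A u := by
  unfold WA
  constructor
  · intro h x hx
    exact h x (List.mem_reverse.2 hx)
  · intro h x hx
    exact h x (List.mem_reverse.1 hx)

end Pool.Agent.LibZE10
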