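import Pool.Agent.LibZE10.A1
import Pool.Agent.LibNZ69.A2

set_option autoImplicit false

namespace Pool.Agent.LibZE10

open Pool.Agent.LibNZ69

/-! Row A3 (MEDIUM). Vectors of words and norms. -/

private theorem A3_vec (w : List ℕ) (hw : ∀ x ∈ w, 1 ≤ x) :
    0 < (vec w).1 ∧ (vec w).1 ≤ (vec w).2 ∧ 2 * (kk w : ℤ) ≤ (vec w).2 ∧
      (vec w).2 ≤ 3 * (kk w : ℤ) ∧ 2 * ((con w).2 : ℤ) ≤ (vec w).1 ∧
      (vec w).1 + (vec w).2 ≤ 3 * ((kk w : ℤ) + (con w).2) := by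
  induction w with
  | nil => simp [vec, act, kk, con]
  | cons a w ih =>
    have ha : (1 : ℤ) ≤ (a : ℤ) := by exact_mod_cast hw a (List.mem_cons_self ..)
    obtain ⟨h1, h2, h3, h4, h5, h6⟩ := ih fun x hx => hw x (List.mem_cons_of_mem _ hx)
    have e1 : (vec (a :: w)).1 = (vec w).2 := rfl
    have e2 : (vec (a :: w)).2 = (vec w).1 + a * (vec w).2 := rfl
    have e3 : (kk (a :: w) : ℤ) = a * kk w + (con w).2 := by
      rw [kk_cons]; push_cast; ring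
    have e4 : ((con (a :: w)).2 : ℤ) = kk w := by rw [con_cons_snd]
    have hk : (0 : ℤ) ≤ (kk w : ℤ) := Int.natCast_nonneg _
    have h7 : ((a : ℤ) - 1) * (2 * kk w) ≤ (a - 1) * (vec w).2 :=
      mul_le_mul_of_nonneg_left h3 (by linarith)
    have h8 : ((a : ℤ) - 1) * (vec w).2 ≤ (a - 1) * (3 * kk w) :=
      mul_le_mul_of_nonneg_left h4 (by linarith)
    have h9 : 0 ≤ ((a : ℤ) - 1) * (vec w).2 := mul_nonneg (by linarith) (by linarith)
    rw [e1, e2, e3, e4]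
    refine ⟨by linarith, by nlinarith, by nlinarith, by nlinarith, by linarith, by nlinarith⟩

private theorem A3_col (w : List ℕ) (hw : ∀ x ∈ w, 1 ≤ x) :
    0 ≤ (act w (1, 0)).1 ∧ 0 ≤ (act w (1, 0)).2 ∧ (act w (1, 0)).1 ≤ (kk w : ℤ) ∧
      (act w (1, 0)).2 ≤ (kk w : ℤ) ∧
      (act w (1, 0)).1 + (act w (1, 0)).2 ≤ (kk w : ℤ) + (con w).2 := by
  induction w with
  | nil => simp [act, kk, con]
  | cons a w ih =>
    have ha : (1 : ℤ) ≤ (a : ℤ) := by exact_mod_cast hw a (List.mem_cons_self ..)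
    obtain ⟨h1, h2, h3, h4, h5⟩ := ih fun x hx => hw x (List.mem_cons_of_mem _ hx)
    have e1 : (act (a :: w) (1, 0)).1 = (act w (1, 0)).2 := rfl
    have e2 : (act (a :: w) (1, 0)).2 = (act w (1, 0)).1 + a * (act w (1, 0)).2 := rfl
    have e3 : (kk (a :: w) : ℤ) = a * kk w + (con w).2 := by
      rw [kk_cons]; push_cast; ring
    have e4 : ((con (a :: w)).2 : ℤ) = kk w := by rw [con_cons_snd]
    have hk : (0 : ℤ) ≤ (kk w : ℤ) := Int.natCast_nonneg _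
    have hc : (0 : ℤ) ≤ ((con w).2 : ℤ) := Int.natCast_nonneg _
    have h8 : ((a : ℤ) - 1) * (act w (1, 0)).2 ≤ (a - 1) * kk w :=
      mul_le_mul_of_nonneg_left h4 (by linarith)
    have h9 : 0 ≤ (a : ℤ) * (act w (1, 0)).2 := mul_nonneg (by linarith) h2
    have h10 : 0 ≤ ((a : ℤ) - 1) * kk w := mul_nonneg (by linarith) hk
    rw [e1, e2, e3, e4]
    refine ⟨h2, by linarith, by nlinarith, by nlinarith, by nlinarith⟩

private theorem A3_last (a : ℕ) (w : List ℕ) (hw : ∀ x ∈ w, 1 ≤ x ∧ x < a) (hne : w ≠ []) :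
    (kk w : ℤ) ≤ a * (act w (1, 0)).2 ∧
      (kk w : ℤ) + (con w).2 ≤ a * ((act w (1, 0)).1 + (act w (1, 0)).2) := by
  induction w with
  | nil => exact absurd rfl hne
  | cons c w ih =>
    have hc1 : (1 : ℤ) ≤ (c : ℤ) := by exact_mod_cast (hw c (List.mem_cons_self ..)).1
    have hca : (c : ℤ) + 1 ≤ (a : ℤ) := by exact_mod_cast (hw c (List.mem_cons_self ..)).2
    have e1 : (act (c :: w) (1, 0)).1 = (act w (1, 0)).2 := rfl
    have e2 : (act (c :: w) (1, 0)).2 = (act w (1, 0)).1 + c * (act w (1, 0)).2 := rfl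
    have e3 : (kk (c :: w) : ℤ) = c * kk w + (con w).2 := by
      rw [kk_cons]; push_cast; ring
    have e4 : ((con (c :: w)).2 : ℤ) = kk w := by rw [con_cons_snd]
    rw [e1, e2, e3, e4]
    by_cases hw0 : w = []
    · subst hw0
      simp only [act, kk, con, Nat.cast_one, Nat.cast_zero]
      constructor <;> nlinarith
    · obtain ⟨h1, h2⟩ := ih (fun x hx => hw x (List.mem_cons_of_mem _ hx)) hw0
      have h3 : ((c : ℤ) - 1) * kk w ≤ (c - 1) * (a * (act w (1, 0)).2) :=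
        mul_le_mul_of_nonneg_left h1 (by linarith)
      constructor <;> nlinarith

private theorem A3_lin (w : List ℕ) (x : ℤ × ℤ) :
    (act w x).1 = x.1 * (act w (1, 0)).1 + x.2 * (con w).2 ∧
      (act w x).2 = x.1 * (act w (1, 0)).2 + x.2 * kk w := by
  have hx : x = x.1 • ((1, 0) : ℤ × ℤ) + x.2 • ((0, 1) : ℤ × ℤ) := by
    refine Prod.ext ?_ ?_
    · simp
    · simp
  have h1 : act w x = x.1 • act w (1, 0) + x.2 • act w (0, 1) := by
    conv_lhs => rw [hx]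
    rw [act_add, act_smul, act_smul]
  rw [act01] at h1
  rw [h1]
  constructor
  · simp
  · simp

private theorem A3_nonneg (w : List ℕ) (x : ℤ × ℤ) (h1 : 0 ≤ x.1) (h2 : 0 ≤ x.2) :
    0 ≤ (act w x).1 ∧ 0 ≤ (act w x).2 := by
  induction w with
  | nil => exact ⟨h1, h2⟩
  | cons a w ih =>
    have e1 : (act (a :: w) x).1 = (act w x).2 := rfl
    have e2 : (act (a :: w) x).2 = (act w x).1 + a * (act w x).2 := rfl
    rw [e1, e2]
    exact ⟨ih.2, add_nonneg ih.1 (mul_nonneg (Int.natCast_nonneg _) ih.2)⟩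

private theorem A3_nm01 (w : List ℕ) (hw : ∀ x ∈ w, 1 ≤ x) : nm (act w (0, 1)) ≤ kk w := by
  rw [act01]
  unfold nm
  have h := con_snd_le w hw
  refine max_le ?_ ?_
  · rw [abs_of_nonneg (Int.natCast_nonneg _)]
    exact_mod_cast h
  · rw [abs_of_nonneg (Int.natCast_nonneg _)]

private theorem A3_nm10 (w : List ℕ) (hw : ∀ x ∈ w, 1 ≤ x) : nm (act w (1, 0)) ≤ kk w := by
  obtain ⟨h1, h2, h3, h4, -⟩ := A3_col w hw
  unfold nm
  refine max_le ?_ ?_
  · rw [abs_of_nonneg h1]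
    exact h3
  · rw [abs_of_nonneg h2]
    exact h4

private theorem A3_same (a : ℕ) (ha : 1 ≤ a) (w : List ℕ) (hw : ∀ x ∈ w, 1 ≤ x ∧ x < a)
    (x : ℤ × ℤ) (h1 : 0 ≤ x.1) (h2 : 0 ≤ x.2) :
    (kk w : ℤ) * nm x ≤ a * nm (act w x) := by
  have ha' : (1 : ℤ) ≤ (a : ℤ) := by exact_mod_cast ha
  have hn : 0 ≤ nm (act w x) := nm_nonneg _
  have hz : (act w x).2 ≤ nm (act w x) := (le_abs_self _).trans (abs_snd_le _)
  have hk : (0 : ℤ) ≤ (kk w : ℤ) := Int.natCast_nonneg _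
  obtain ⟨c1, c2, c3, c4, -⟩ := A3_col w fun y hy => (hw y hy).1
  have hl := (A3_lin w x).2
  have hnx : nm x = max x.1 x.2 := by
    unfold nm
    rw [abs_of_nonneg h1, abs_of_nonneg h2]
  rw [hnx]
  rcases le_total x.1 x.2 with h | h
  · rw [max_eq_right h]
    have h3 : 0 ≤ x.1 * (act w (1, 0)).2 := mul_nonneg h1 c2
    have h4 : (kk w : ℤ) * x.2 ≤ nm (act w x) := by
      have : x.2 * (kk w : ℤ) = kk w * x.2 := mul_comm _ _
      linarith
    have h5 : 1 * nm (act w x) ≤ a * nm (act w x) := mul_le_mul_of_nonneg_right ha' hn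
    linarith
  · rw [max_eq_left h]
    by_cases hw0 : w = []
    · subst hw0
      have h5 : 1 * nm (act [] x) ≤ a * nm (act [] x) := mul_le_mul_of_nonneg_right ha' hn
      have h6 : x.1 ≤ nm (act [] x) := (le_abs_self _).trans (abs_fst_le x)
      have h7 : (kk [] : ℤ) = 1 := by rw [kk_nil]; rfl
      rw [h7]
      linarith
    · have h3 := (A3_last a w hw hw0).1
      have h4 : (kk w : ℤ) * x.1 ≤ a * (act w (1, 0)).2 * x.1 :=
        mul_le_mul_of_nonneg_right h3 h1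
      have h5 : 0 ≤ x.2 * (kk w : ℤ) := mul_nonneg h2 hk
      have h6 : (a : ℤ) * (x.1 * (act w (1, 0)).2) ≤ a * nm (act w x) :=
        mul_le_mul_of_nonneg_left (by linarith) (by linarith)
      linarith

/-- `vec w = (K(w⁻ …), …)`: `(vec w).2 = 2 K(w) + K(w without its last letter)` -/
theorem vec_bounds (w : List ℕ) (hw : ∀ x ∈ w, 1 ≤ x) :
    0 < (vec w).1 ∧ (vec w).1 ≤ (vec w).2 ∧ nm (vec w) = (vec w).2 ∧
      2 * (kk w : ℤ) ≤ (vec w).2 ∧ (vec w).2 ≤ 3 * (kk w : ℤ) := by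
  obtain ⟨h1, h2, h3, h4, -, -⟩ := A3_vec w hw
  refine ⟨h1, h2, ?_, h3, h4⟩
  unfold nm
  rw [abs_of_pos h1, abs_of_pos (h1.trans_le h2), max_eq_right h2]

/-- the entries of the matrix of `w` are nonnegative and at most `K(w)` -/
theorem nm_act_le (w : List ℕ) (hw : ∀ x ∈ w, 1 ≤ x) (x : ℤ × ℤ) :
    nm (act w x) ≤ 2 * kk w * nm x := by
  obtain ⟨c1, c2, c3, c4, -⟩ := A3_col w hw
  obtain ⟨l1, l2⟩ := A3_lin w x
  have hn : 0 ≤ nm x := nm_nonneg x
  have hk : (0 : ℤ) ≤ (kk w : ℤ) := Int.natCast_nonneg _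
  have hc : ((con w).2 : ℤ) ≤ kk w := by exact_mod_cast con_snd_le w hw
  have hc0 : (0 : ℤ) ≤ ((con w).2 : ℤ) := Int.natCast_nonneg _
  have key : ∀ p q : ℤ, 0 ≤ p → p ≤ kk w → 0 ≤ q → q ≤ kk w →
      |x.1 * p + x.2 * q| ≤ 2 * kk w * nm x := by
    intro p q hp hp' hq hq'
    have h1 : |x.1 * p| ≤ nm x * kk w := by
      rw [abs_mul, abs_of_nonneg hp]
      exact mul_le_mul (abs_fst_le x) hp' hp hn
    have h2 : |x.2 * q| ≤ nm x * kk w := by
      rw [abs_mul, abs_of_nonneg hq]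
      exact mul_le_mul (abs_snd_le x) hq' hq hn
    have h3 := abs_add_le (x.1 * p) (x.2 * q)
    have h4 : 2 * (kk w : ℤ) * nm x = nm x * kk w + nm x * kk w := by ring
    linarith
  unfold nm at key ⊢
  refine max_le ?_ ?_
  · rw [l1]
    exact key _ _ c1 c3 hc0 hc
  · rw [l2]
    exact key _ _ c2 c4 hk le_rfl

/-- the same for the inverse matrix (`act_acti`, `acti_act`) -/
theorem nm_le_act (w : List ℕ) (hw : ∀ x ∈ w, 1 ≤ x) (x : ℤ × ℤ) :
    nm x ≤ 2 * kk w * nm (act w x) := by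
  have hn : 0 ≤ nm (act w x) := nm_nonneg _
  have h1 : |x.1| ≤ 2 * kk w * nm (act w x) := by
    have e1 : wdg x (0, 1) = x.1 := by simp [wdg]
    have e2 := abs_wdg_act w x (0, 1)
    rw [e1] at e2
    have e3 := abs_wdg_le (act w x) (act w (0, 1))
    rw [e2] at e3
    have e4 : nm (act w x) * nm (act w (0, 1)) ≤ nm (act w x) * kk w :=
      mul_le_mul_of_nonneg_left (A3_nm01 w hw) hn
    have e5 : 2 * (kk w : ℤ) * nm (act w x) = 2 * (nm (act w x) * kk w) := by ring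
    linarith
  have h2 : |x.2| ≤ 2 * kk w * nm (act w x) := by
    have e1 : wdg x (1, 0) = -x.2 := by simp [wdg]
    have e2 := abs_wdg_act w x (1, 0)
    rw [e1, abs_neg] at e2
    have e3 := abs_wdg_le (act w x) (act w (1, 0))
    rw [e2] at e3
    have e4 : nm (act w x) * nm (act w (1, 0)) ≤ nm (act w x) * kk w :=
      mul_le_mul_of_nonneg_left (A3_nm10 w hw) hn
    have e5 : 2 * (kk w : ℤ) * nm (act w x) = 2 * (nm (act w x) * kk w) := by ring
    linarith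
  exact max_le h1 h2

/-- vectors with coordinates of one weak sign; `K(w) ≤ a K(w without its last letter)` for `w ≠ []` -/
theorem act_same_sign (a : ℕ) (ha : 1 ≤ a) (w : List ℕ) (hw : ∀ x ∈ w, 1 ≤ x ∧ x < a) (x : ℤ × ℤ)
    (h : (0 ≤ x.1 ∧ 0 ≤ x.2) ∨ (x.1 ≤ 0 ∧ x.2 ≤ 0)) :
    (kk w : ℤ) * nm x ≤ a * nm (act w x) ∧
      ((0 ≤ (act w x).1 ∧ 0 ≤ (act w x).2) ∨ ((act w x).1 ≤ 0 ∧ (act w x).2 ≤ 0)) := by
  rcases h with ⟨h1, h2⟩ | ⟨h1, h2⟩
  · exact ⟨A3_same a ha w hw x h1 h2, Or.inl (A3_nonneg w x h1 h2)⟩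
  · have g1 : 0 ≤ (-x).1 := by rw [Prod.fst_neg]; linarith
    have g2 : 0 ≤ (-x).2 := by rw [Prod.snd_neg]; linarith
    have h3 := A3_same a ha w hw (-x) g1 g2
    have h4 := A3_nonneg w (-x) g1 g2
    rw [act_neg] at h3 h4
    rw [nm_neg, nm_neg] at h3
    rw [Prod.fst_neg, Prod.snd_neg] at h4
    exact ⟨h3, Or.inr ⟨by linarith [h4.1], by linarith [h4.2]⟩⟩

/-- one letter: `nm x ≤ a * nm (gl b x)` and `nm (gi b x) ≤ a * nm x` for `1 ≤ b < a` -/
theorem nm_gl (a b : ℕ) (hb : 1 ≤ b) (hba : b < a) (x : ℤ × ℤ) :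
    nm x ≤ a * nm (gl b x) ∧ nm (gi b x) ≤ a * nm x := by
  have hb' : (1 : ℤ) ≤ (b : ℤ) := by exact_mod_cast hb
  have hba' : (b : ℤ) + 1 ≤ (a : ℤ) := by exact_mod_cast hba
  have key : ∀ N u v : ℤ, 0 ≤ N → |u| ≤ N → |v| ≤ N → |u - b * v| ≤ a * N := by
    intro N u v hN hu hv
    have h1 : |u - b * v| ≤ |u| + |(b : ℤ) * v| := abs_sub _ _
    have h2 : |(b : ℤ) * v| ≤ b * N := by
      rw [abs_mul, abs_of_nonneg (by linarith : (0 : ℤ) ≤ (b : ℤ))]
      exact mul_le_mul_of_nonneg_left hv (by linarith)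
    have h3 : ((b : ℤ) + 1) * N ≤ a * N := mul_le_mul_of_nonneg_right hba' hN
    linarith
  have one : ∀ N u : ℤ, 0 ≤ N → |u| ≤ N → |u| ≤ a * N := by
    intro N u hN hu
    have h3 : 1 * N ≤ a * N := mul_le_mul_of_nonneg_right (by linarith) hN
    linarith
  constructor
  · have hN := nm_nonneg (gl b x)
    have f1 : |x.2| ≤ nm (gl b x) := abs_fst_le (gl b x)
    have f2 : |x.1 + b * x.2| ≤ nm (gl b x) := abs_snd_le (gl b x)
    refine max_le ?_ (one _ _ hN f1)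
    have h := key _ _ _ hN f2 f1
    have e : x.1 + b * x.2 - b * x.2 = x.1 := by ring
    rwa [e] at h
  · have hN := nm_nonneg x
    exact max_le (key _ _ _ hN (abs_snd_le x) (abs_fst_le x)) (one _ _ hN (abs_fst_le x))

theorem nz_split (w v : List ℕ) : nz (w.reverse ++ v) = dt (vec w) (vec v) := by
  have h1 : vec (w.reverse ++ v) = act w.reverse (vec v) := by
    unfold vec
    rw [act_append]
  unfold nz
  rw [h1, ← dt_row, row_eq, List.reverse_reverse]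
  rfl

theorem dt_bounds (w v : List ℕ) (hw : ∀ x ∈ w, 1 ≤ x) (hv : ∀ x ∈ v, 1 ≤ x) :
    4 * ((kk w : ℤ) * kk v) ≤ dt (vec w) (vec v) ∧
      dt (vec w) (vec v) ≤ 18 * ((kk w : ℤ) * kk v) := by
  obtain ⟨a1, a2, a3, a4, -, -⟩ := A3_vec w hw
  obtain ⟨b1, b2, b3, b4, -, -⟩ := A3_vec v hv
  have hk : (0 : ℤ) ≤ (kk w : ℤ) := Int.natCast_nonneg _
  have hk' : (0 : ℤ) ≤ (kk v : ℤ) := Int.natCast_nonneg _
  unfold dt
  have h1 : 0 ≤ (vec w).1 * (vec v).1 := mul_nonneg a1.le b1.le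
  have h2 : (2 * (kk w : ℤ)) * (2 * (kk v : ℤ)) ≤ (vec w).2 * (vec v).2 :=
    mul_le_mul a3 b3 (by linarith) (by linarith)
  have h3 : (vec w).2 * (vec v).2 ≤ (3 * (kk w : ℤ)) * (3 * (kk v : ℤ)) :=
    mul_le_mul a4 b4 (by linarith) (by linarith)
  have h4 : (vec w).1 * (vec v).1 ≤ (vec w).2 * (vec v).2 :=
    mul_le_mul a2 b2 b1.le (by linarith)
  constructor <;> linarith

theorem nz_bounds (z : List ℕ) (hz : ∀ x ∈ z, 1 ≤ x) :
    4 * (kk z : ℤ) ≤ nz z ∧ nz z ≤ 9 * (kk z : ℤ) := by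
  obtain ⟨a1, a2, a3, a4, -, -⟩ := A3_vec z hz
  unfold nz dt
  constructor <;> linarith

theorem dt_comm (x y : ℤ × ℤ) : dt x y = dt y x := by
  unfold dt
  ring

theorem cop_vec (w : List ℕ) : IsCoprime (vec w).1 (vec w).2 := coprime_vec w

end Pool.Agent.LibZE10
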