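import Pool.Agent.LibZE10.B0

set_option autoImplicit false

namespace Pool.Agent.LibZE10

open Pool.Agent.LibNZ69

/-! Row B1 (SHORT). Sub- and supermultiplicativity of the partition functions (`wl_sum_add`,
`kk_append_ge`, `kk_append_le`). -/

private theorem B1_dig (A : Finset ℕ) (hA : ∀ x ∈ A, 1 ≤ x) {n : ℕ} {w : List ℕ}
    (hw : w ∈ wd (Pool.Agent.LibNW69.letters A) n) : ∀ x ∈ w, 1 ≤ x := by
  intro x hx
  exact hA x (((Pool.Agent.LibNW69.mem_wd_letters A n w).1 hw).2 x hx)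

private theorem B1_kpos (w : List ℕ) (hw : ∀ x ∈ w, 1 ≤ x) : (0 : ℝ) < (kk w : ℝ) := by
  have h := kk_pos w hw
  exact_mod_cast h

private theorem B1_up (t : ℝ) (ht : 0 ≤ t) (u w : List ℕ) (hu : ∀ x ∈ u, 1 ≤ x)
    (hw : ∀ x ∈ w, 1 ≤ x) :
    (kk (u ++ w) : ℝ) ^ (-t) ≤ (kk u : ℝ) ^ (-t) * (kk w : ℝ) ^ (-t) := by
  have h1 := B1_kpos u hu
  have h2 := B1_kpos w hw
  have h3 : (kk u : ℝ) * (kk w : ℝ) ≤ (kk (u ++ w) : ℝ) := by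
    exact_mod_cast kk_append_ge u w
  rw [← Real.mul_rpow h1.le h2.le]
  exact Real.rpow_le_rpow_of_nonpos (mul_pos h1 h2) h3 (by linarith)

private theorem B1_lo (t : ℝ) (ht : 0 ≤ t) (u w : List ℕ) (hu : ∀ x ∈ u, 1 ≤ x)
    (hw : ∀ x ∈ w, 1 ≤ x) :
    (kk u : ℝ) ^ (-t) * (kk w : ℝ) ^ (-t) ≤ (2 : ℝ) ^ t * (kk (u ++ w) : ℝ) ^ (-t) := by
  have h1 := B1_kpos u hu
  have h2 := B1_kpos w hw
  have h3 : (kk (u ++ w) : ℝ) ≤ 2 * ((kk u : ℝ) * (kk w : ℝ)) := by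
    exact_mod_cast kk_append_le u w hu hw
  have huw : ∀ x ∈ u ++ w, 1 ≤ x := by
    intro x hx
    rcases List.mem_append.1 hx with h | h
    · exact hu x h
    · exact hw x h
  have h4 := B1_kpos (u ++ w) huw
  have h5 : (2 * ((kk u : ℝ) * (kk w : ℝ))) ^ (-t) ≤ (kk (u ++ w) : ℝ) ^ (-t) :=
    Real.rpow_le_rpow_of_nonpos h4 h3 (by linarith)
  rw [Real.mul_rpow (by norm_num) (mul_pos h1 h2).le, Real.mul_rpow h1.le h2.le,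
    Real.rpow_neg (by norm_num : (0 : ℝ) ≤ 2)] at h5
  have h6 : (0 : ℝ) < (2 : ℝ) ^ t := Real.rpow_pos_of_pos (by norm_num) t
  calc (kk u : ℝ) ^ (-t) * (kk w : ℝ) ^ (-t)
      = (2 : ℝ) ^ t * (((2 : ℝ) ^ t)⁻¹ * ((kk u : ℝ) ^ (-t) * (kk w : ℝ) ^ (-t))) := by
        field_simp
    _ ≤ (2 : ℝ) ^ t * (kk (u ++ w) : ℝ) ^ (-t) := mul_le_mul_of_nonneg_left h5 h6.le

theorem ZZ_add_le (A : Finset ℕ) (hA : ∀ x ∈ A, 1 ≤ x) (t : ℝ) (ht : 0 ≤ t) (m n : ℕ) :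
    ZZ A t (m + n) ≤ ZZ A t m * ZZ A t n := by
  rw [ZZ, wl_sum_add, ZZ, ZZ, Finset.sum_mul_sum]
  refine Finset.sum_le_sum fun u hu => Finset.sum_le_sum fun w hw => ?_
  exact B1_up t ht u w (B1_dig A hA hu) (B1_dig A hA hw)

theorem le_ZZ_add (A : Finset ℕ) (hA : ∀ x ∈ A, 1 ≤ x) (t : ℝ) (ht : 0 ≤ t) (m n : ℕ) :
    ZZ A t m * ZZ A t n ≤ (2 : ℝ) ^ t * ZZ A t (m + n) := by
  have e : ZZ A t (m + n) = _ := wl_sum_add A m n (fun w => (kk w : ℝ) ^ (-t))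
  rw [e, ZZ, ZZ, Finset.sum_mul_sum, Finset.mul_sum]
  refine Finset.sum_le_sum fun u hu => ?_
  rw [Finset.mul_sum]
  refine Finset.sum_le_sum fun w hw => ?_
  exact B1_lo t ht u w (B1_dig A hA hu) (B1_dig A hA hw)

theorem ZZ_pos (A : Finset ℕ) (hA : ∀ x ∈ A, 1 ≤ x) (hne : A.Nonempty) (t : ℝ) (n : ℕ) :
    0 < ZZ A t n := by
  rw [ZZ]
  apply Finset.sum_pos
  · intro w hw
    exact Real.rpow_pos_of_pos (B1_kpos w (B1_dig A hA hw)) _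
  · obtain ⟨x, hx⟩ := hne
    refine ⟨List.replicate n x, ?_⟩
    rw [Pool.Agent.LibNW69.mem_wd_letters]
    refine ⟨List.length_replicate, ?_⟩
    intro y hy
    rw [List.eq_of_mem_replicate hy]
    exact hx

theorem ZZ_anti (A : Finset ℕ) (hA : ∀ x ∈ A, 1 ≤ x) {t t' : ℝ} (h : t ≤ t') (n : ℕ) :
    ZZ A t' n ≤ ZZ A t n := by
  rw [ZZ, ZZ]
  refine Finset.sum_le_sum fun w hw => ?_
  have h1 : (1 : ℝ) ≤ (kk w : ℝ) := by
    exact_mod_cast kk_pos w (B1_dig A hA hw)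
  exact Real.rpow_le_rpow_of_exponent_le h1 (by linarith)

theorem ZZ_continuous (A : Finset ℕ) (hA : ∀ x ∈ A, 1 ≤ x) (n : ℕ) :
    Continuous (fun t : ℝ => ZZ A t n) := by
  unfold ZZ
  refine continuous_finsetSum _ fun w hw => ?_
  have h1 := B1_kpos w (B1_dig A hA hw)
  exact Continuous.rpow continuous_const continuous_neg (fun t => Or.inl h1.ne')

/-- the same for the extensions of a fixed word on the left -/
theorem ZZ_ext_le (A : Finset ℕ) (hA : ∀ x ∈ A, 1 ≤ x) (t : ℝ) (ht : 0 ≤ t) (w : List ℕ)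
    (hw : ∀ x ∈ w, 1 ≤ x) (n : ℕ) :
    ∑ y ∈ wd (Pool.Agent.LibNW69.letters A) n, (kk (y ++ w) : ℝ) ^ (-t) ≤
      (kk w : ℝ) ^ (-t) * ZZ A t n := by
  rw [ZZ, Finset.mul_sum]
  refine Finset.sum_le_sum fun y hy => ?_
  rw [mul_comm]
  exact B1_up t ht y w (B1_dig A hA hy) hw

theorem le_ZZ_ext (A : Finset ℕ) (hA : ∀ x ∈ A, 1 ≤ x) (t : ℝ) (ht : 0 ≤ t) (w : List ℕ)
    (hw : ∀ x ∈ w, 1 ≤ x) (n : ℕ) :
    (kk w : ℝ) ^ (-t) * ZZ A t n ≤ (2 : ℝ) ^ t *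
      ∑ y ∈ wd (Pool.Agent.LibNW69.letters A) n, (kk (y ++ w) : ℝ) ^ (-t) := by
  rw [ZZ, Finset.mul_sum, Finset.mul_sum]
  refine Finset.sum_le_sum fun y hy => ?_
  rw [mul_comm]
  exact B1_lo t ht y w (B1_dig A hA hy) hw

end Pool.Agent.LibZE10
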