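import Pool.Agent.LibZE10.B4

set_option autoImplicit false

namespace Pool.Agent.LibZE10

open Pool.Agent.LibNZ69

/-- Row B6 (SHORT/MEDIUM). Sum over the words with `kk ≤ R`. Induction `R → R/2`:
the words with `kk ∈ (R/2, R]` contribute at most `(R/2)^(-s/2) C R^s ≤ 2 C R^(s/2)`, and
`(R/2)^(s/2) ≤ 2^(-3/4) R^(s/2)`. -/
theorem sum_half {A : Finset ℕ} {a : ℕ} {s : ℝ} (hp : PB A a s) :
    ∃ C : ℝ, 1 ≤ C ∧ ∀ R : ℕ, ∑ w ∈ wP A R, (kk w : ℝ) ^ (-(s / 2)) ≤ C * (R : ℝ) ^ (s / 2) := by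
  obtain ⟨C0, hC0, hcard⟩ := card_wP hp
  have hs1 := hp.s1
  have hs2 := hp.s2
  have hA : ∀ x ∈ A, 1 ≤ x := fun x hx => (hp.dig x hx).1
  refine ⟨8 * C0, by linarith, ?_⟩
  intro R
  induction R using Nat.strong_induction_on with
  | _ R ih =>
    rcases Nat.eq_zero_or_pos R with hR | hR
    · subst hR
      have he : wP A 0 = ∅ := by
        apply Finset.eq_empty_of_forall_notMem
        intro w hw
        have hw' := (mem_wP hA 0 w).1 hw
        have h1 := kk_pos w (fun x hx => hA x (hw'.1 x hx))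
        have h2 := hw'.2
        omega
      rw [he, Finset.sum_empty]
      positivity
    · have hRr : (0 : ℝ) < (R : ℝ) := by exact_mod_cast hR
      have hsplit := Finset.sum_filter_add_sum_filter_not (wP A R) (fun w => kk w ≤ R / 2)
        (fun w => (kk w : ℝ) ^ (-(s / 2)))
      have hf1 : (wP A R).filter (fun w => kk w ≤ R / 2) ⊆ wP A (R / 2) := by
        intro w hw
        have hw' := Finset.mem_filter.1 hw
        exact (mem_wP hA _ w).2 ⟨((mem_wP hA R w).1 hw'.1).1, hw'.2⟩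
      have h1 : ∑ w ∈ (wP A R).filter (fun w => kk w ≤ R / 2), (kk w : ℝ) ^ (-(s / 2)) ≤
          8 * C0 * ((R / 2 : ℕ) : ℝ) ^ (s / 2) := by
        refine le_trans (Finset.sum_le_sum_of_subset_of_nonneg hf1 ?_) (ih (R / 2) (by omega))
        intro w _ _
        positivity
      have hx : ((R / 2 : ℕ) : ℝ) ≤ (R : ℝ) / 2 := by
        have := @Nat.cast_div_le ℝ _ _ _ R 2
        simpa using this
      have h2 : ((R / 2 : ℕ) : ℝ) ^ (s / 2) ≤ ((R : ℝ) / 2) ^ (s / 2) :=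
        Real.rpow_le_rpow (by positivity) hx (by linarith)
      have h3 : ((R : ℝ) / 2) ^ (s / 2) = (R : ℝ) ^ (s / 2) * (2 : ℝ) ^ (-(s / 2)) := by
        rw [Real.div_rpow hRr.le (by norm_num), Real.rpow_neg (by norm_num), div_eq_mul_inv]
      have h4 : (2 : ℝ) ^ (-(s / 2)) ≤ 3 / 4 := by
        have h5 : (2 : ℝ) ^ (-(s / 2)) ≤ (2 : ℝ) ^ (-(1 / 2 : ℝ)) :=
          Real.rpow_le_rpow_of_exponent_le (by norm_num) (by linarith)
        have h6 : ((2 : ℝ) ^ (-(1 / 2 : ℝ))) ^ 2 = 1 / 2 := by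
          rw [← Real.rpow_natCast, ← Real.rpow_mul (by norm_num)]
          norm_num
        have h7 : (0 : ℝ) ≤ (2 : ℝ) ^ (-(1 / 2 : ℝ)) := by positivity
        nlinarith
      have h8 : ∑ w ∈ (wP A R).filter (fun w => ¬ kk w ≤ R / 2), (kk w : ℝ) ^ (-(s / 2)) ≤
          2 * C0 * (R : ℝ) ^ (s / 2) := by
        have h9 : ∀ w ∈ (wP A R).filter (fun w => ¬ kk w ≤ R / 2),
            (kk w : ℝ) ^ (-(s / 2)) ≤ ((R : ℝ) / 2) ^ (-(s / 2)) := by
          intro w hw
          have hw' := (Finset.mem_filter.1 hw).2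
          have h10 : (R : ℝ) / 2 ≤ (kk w : ℝ) := by
            have h11 : R ≤ 2 * kk w := by omega
            have h12 : (R : ℝ) ≤ 2 * (kk w : ℝ) := by exact_mod_cast h11
            linarith
          exact Real.rpow_le_rpow_of_nonpos (by positivity) h10 (by linarith)
        have h13 := Finset.sum_le_card_nsmul _ _ _ h9
        rw [nsmul_eq_mul] at h13
        have h14 : (((wP A R).filter (fun w => ¬ kk w ≤ R / 2)).card : ℝ) ≤ C0 * (R : ℝ) ^ s := by
          refine le_trans ?_ (hcard R)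
          exact_mod_cast Finset.card_le_card (Finset.filter_subset _ _)
        have h15 : ((R : ℝ) / 2) ^ (-(s / 2)) = (R : ℝ) ^ (-(s / 2)) * (2 : ℝ) ^ (s / 2) := by
          rw [Real.div_rpow hRr.le (by norm_num), Real.rpow_neg (by norm_num : (0 : ℝ) ≤ 2),
            div_inv_eq_mul]
        have h16 : (2 : ℝ) ^ (s / 2) ≤ 2 := by
          have h17 : (2 : ℝ) ^ (s / 2) ≤ (2 : ℝ) ^ (1 : ℝ) :=
            Real.rpow_le_rpow_of_exponent_le (by norm_num) (by linarith)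
          simpa using h17
        have h18 : (R : ℝ) ^ s * (R : ℝ) ^ (-(s / 2)) = (R : ℝ) ^ (s / 2) := by
          rw [← Real.rpow_add hRr]
          congr 1
          ring
        calc _ ≤ (((wP A R).filter (fun w => ¬ kk w ≤ R / 2)).card : ℝ) *
              ((R : ℝ) / 2) ^ (-(s / 2)) := h13
          _ ≤ (C0 * (R : ℝ) ^ s) * ((R : ℝ) / 2) ^ (-(s / 2)) :=
              mul_le_mul_of_nonneg_right h14 (by positivity)
          _ = C0 * (R : ℝ) ^ (s / 2) * (2 : ℝ) ^ (s / 2) := by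
              rw [h15, ← h18]; ring
          _ ≤ C0 * (R : ℝ) ^ (s / 2) * 2 := mul_le_mul_of_nonneg_left h16 (by positivity)
          _ = 2 * C0 * (R : ℝ) ^ (s / 2) := by ring
      have h19 : 8 * C0 * ((R / 2 : ℕ) : ℝ) ^ (s / 2) ≤ 6 * C0 * (R : ℝ) ^ (s / 2) := by
        have h20 : ((R / 2 : ℕ) : ℝ) ^ (s / 2) ≤ (R : ℝ) ^ (s / 2) * (3 / 4) := by
          rw [h3] at h2
          exact le_trans h2 (mul_le_mul_of_nonneg_left h4 (by positivity))
        calc 8 * C0 * ((R / 2 : ℕ) : ℝ) ^ (s / 2) ≤ 8 * C0 * ((R : ℝ) ^ (s / 2) * (3 / 4)) :=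
              mul_le_mul_of_nonneg_left h20 (by positivity)
          _ = 6 * C0 * (R : ℝ) ^ (s / 2) := by ring
      linarith

/-- Row B6b (SHORT). `Cut A a L ⊆ wP A (a L)`. -/
theorem card_Cut_le {A : Finset ℕ} {a : ℕ} {s : ℝ} (hp : PB A a s) :
    ∃ C : ℝ, 1 ≤ C ∧ ∀ L : ℕ, ((Cut A a L).card : ℝ) ≤ C * (L : ℝ) ^ s := by
  obtain ⟨C0, hC0, hcard⟩ := card_wP hp
  have hs1 := hp.s1
  have ha : (1 : ℝ) ≤ (a : ℝ) := by
    have h4 := hp.a4
    exact_mod_cast (by omega : 1 ≤ a)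
  have ha1 : (1 : ℝ) ≤ (a : ℝ) ^ s := Real.one_le_rpow ha (by linarith)
  refine ⟨C0 * (a : ℝ) ^ s, ?_, ?_⟩
  · nlinarith
  · intro L
    have h1 : (Cut A a L).card ≤ (wP A (a * L)).card := by
      unfold Cut
      exact Finset.card_le_card (Finset.filter_subset _ _)
    have h2 : ((Cut A a L).card : ℝ) ≤ ((wP A (a * L)).card : ℝ) := by exact_mod_cast h1
    have h3 := hcard (a * L)
    have h4 : ((a * L : ℕ) : ℝ) ^ s = (a : ℝ) ^ s * (L : ℝ) ^ s := by
      rw [Nat.cast_mul, Real.mul_rpow (by positivity) (by positivity)]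
    rw [h4] at h3
    linarith

end Pool.Agent.LibZE10
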