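import Pool.Agent.LibNZ69.Defs
import Pool.Agent.LibNW69.Defs

set_option autoImplicit false

namespace Pool.Agent.LibZE10

open Pool.Agent.LibNZ69

/-- continuants: `con w = (K(w), K(tail w))` -/
def con : List ℕ → ℕ × ℕ
  | [] => (1, 0)
  | x :: l => (x * (con l).1 + (con l).2, (con l).1)

/-- the continuant of a word -/
def kk (w : List ℕ) : ℕ := (con w).1

/-- words over `A` -/
def WA (A : Finset ℕ) (w : List ℕ) : Prop := ∀ x ∈ w, x ∈ A

/-- the partition functions -/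
noncomputable def ZZ (A : Finset ℕ) (t : ℝ) (n : ℕ) : ℝ :=
  ∑ w ∈ wd (Pool.Agent.LibNW69.letters A) n, (kk w : ℝ) ^ (-t)

/-- the standing assumption: alphabet `A ∋ 1, 2`, letters `< a`, exact exponent `s > 4/3` -/
structure PB (A : Finset ℕ) (a : ℕ) (s : ℝ) : Prop where
  one : 1 ∈ A
  two : 2 ∈ A
  dig : ∀ x ∈ A, 1 ≤ x ∧ x < a
  a4 : 4 ≤ a
  s1 : 4 / 3 < s
  s2 : s ≤ 2
  lo : ∀ n, 1 ≤ ZZ A s n
  hi : ∀ n, ZZ A s n ≤ 4

open scoped Classical in
/-- the words over `A` with continuant at most `P` -/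
noncomputable def wP (A : Finset ℕ) (P : ℕ) : Finset (List ℕ) :=
  ((Finset.range (P + 1)).biUnion (fun n => wd (Pool.Agent.LibNW69.letters A) n)).filter
    (fun w => kk w ≤ P)

/-- the words `v` with `kk v.tail < L ≤ kk v` (suffixes at the scale `L`) -/
noncomputable def Cut (A : Finset ℕ) (a L : ℕ) : Finset (List ℕ) :=
  (wP A (a * L)).filter (fun v => L ≤ kk v ∧ kk v.tail < L)

/-- the words `w` with `Z / C₀ ≤ kk w ≤ Z` -/
noncomputable def Wz (A : Finset ℕ) (Z C₀ : ℕ) : Finset (List ℕ) :=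
  (wP A Z).filter (fun w => Z ≤ C₀ * kk w)

/-- the denominator `K(2 z 2)` attached to the word `z` -/
def nz (z : List ℕ) : ℤ := dt (1, 2) (vec z)

/-- data of a frequency: `k / M = a / q + r / (q M)`, `Q ≤ q < 2 Q`, `K₁ q ≤ |r| ≤ K₂ q` -/
structure Fz (M Q K₁ K₂ : ℕ) (k q : ℕ) (a : ℤ) : Prop where
  cop : IsCoprime a (q : ℤ)
  qlo : Q ≤ q
  qhi : q < 2 * Q
  rhi : |(q : ℤ) * k - a * M| ≤ (K₂ : ℤ) * q
  rlo : (K₁ : ℤ) * q ≤ |(q : ℤ) * k - a * M|

/-- the exponential sum over the product set -/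
noncomputable def gh (A : Finset ℕ) (a M L C₀ : ℕ) (k : ℤ) : ℂ :=
  ∑ v ∈ Cut A a L, ∑ w ∈ Wz A (M / (20 * (a * L))) C₀, ch M (k * dt (vec v) (vec w))

/-- all the denominators considered are below `NN r b` -/
def NN (r b : ℕ) : ℕ := 4 * (r + 3) * b

/-- the modulus, `MM a r b = 5 a NN r b` -/
def MM (a r b : ℕ) : ℕ := 20 * a * (r + 3) * b

/-- the smooth cutoff: `(r+1)`-fold convolution of `[0, h)`, shifted by `h` -/
noncomputable def Ph : ℕ → ℕ → ℤ → ℝ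
  | 0, h, x => if (h : ℤ) ≤ x ∧ x < 2 * (h : ℤ) then 1 else 0
  | r + 1, h, x => (∑ u ∈ Finset.range h, Ph r h (x - u)) / h

/-- the transform of the smoothly cut off counting function -/
noncomputable def fh (A : Finset ℕ) (a r b : ℕ) (k : ℤ) : ℂ :=
  ∑ z ∈ wP A (NN r b), (Ph r (4 * b) (nz z) : ℂ) * ch (MM a r b) (k * nz z)

/-- the transform of the interval `[0, h)` -/
noncomputable def tau (M h : ℕ) (m : ℤ) : ℂ := (∑ u ∈ Finset.range h, ch M (m * u)) / h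

/-- the residues modulo `MM a r b` in symmetric position -/
noncomputable def sym (a r b : ℕ) : Finset ℤ :=
  Finset.Ico (-(10 * (a : ℤ) * ((r : ℤ) + 3) * b)) (10 * (a : ℤ) * ((r : ℤ) + 3) * b)

/-- the counting function with the smooth cutoff, periodic modulo `MM a r b` -/
noncomputable def FF (A : Finset ℕ) (a r b : ℕ) (x : ℤ) : ℝ :=
  ∑ z ∈ wP A (NN r b), if ((MM a r b : ℕ) : ℤ) ∣ nz z - x then Ph r (4 * b) (nz z) else 0

/-- its average over the progression `x - q₀ h`, `|h| ≤ H₀` -/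
noncomputable def GG (A : Finset ℕ) (a r b q₀ H₀ : ℕ) (x : ℤ) : ℝ :=
  (∑ h ∈ Finset.Icc (-(H₀ : ℤ)) H₀, FF A a r b (x - q₀ * h)) / (2 * (H₀ : ℝ) + 1)

/-- the transform of the kernel -/
noncomputable def psi (M q₀ H₀ : ℕ) (k : ℤ) : ℂ :=
  (∑ h ∈ Finset.Icc (-(H₀ : ℤ)) H₀, ch M (k * (q₀ * h))) / (2 * (H₀ : ℂ) + 1)

/-- the left linear form of the tuning words -/
noncomputable def Pl (r : ℤ × ℤ) : ℝ := (r.1 : ℝ) + Real.goldenRatio * r.2

/-- the right linear form of the tuning words -/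
noncomputable def Pr (v : ℤ × ℤ) : ℝ := (v.1 : ℝ) + (1 + Real.sqrt 2) * v.2

/-- two words act in the same way modulo `q₀` -/
def cong (q₀ : ℕ) (w w' : List ℕ) : Prop :=
  ∀ v : ℤ × ℤ, (q₀ : ℤ) ∣ (act w v).1 - (act w' v).1 ∧ (q₀ : ℤ) ∣ (act w v).2 - (act w' v).2

/-- words in the letters `1` and `2` -/
def W12 (w : List ℕ) : Prop := ∀ x ∈ w, x = 1 ∨ x = 2

end Pool.Agent.LibZE10
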