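import Pool.Agent.LibZE10.Defs
import Pool.Agent.LibNZ69.F0

set_option autoImplicit false

namespace Pool.Agent.LibZE10

open Pool.Agent.LibNZ69

/-! Row E1 (MEDIUM). Characters and the transform of an interval. -/

theorem ch_add (M : ℕ) (x y : ℤ) : ch M (x + y) = ch M x * ch M y := by
  unfold ch
  rw [← Complex.exp_add]
  congr 1
  push_cast
  ring

private theorem E1_ch_mul (M : ℕ) (hM : 0 < M) (y : ℤ) : ch M (M * y) = 1 := by
  unfold ch
  rw [Complex.exp_eq_one_iff]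
  refine ⟨y, ?_⟩
  have hMC : (M : ℂ) ≠ 0 := by exact_mod_cast hM.ne'
  push_cast
  field_simp

theorem ch_periodic (M : ℕ) (hM : 0 < M) (x y : ℤ) : ch M (x + M * y) = ch M x := by
  rw [ch_add, E1_ch_mul M hM, mul_one]

private theorem E1_ch_eq (M : ℕ) (x : ℤ) :
    ch M x = Complex.exp (Complex.I * ((2 * Real.pi * x / M : ℝ) : ℂ)) := by
  unfold ch
  congr 1
  push_cast
  ring

theorem norm_ch (M : ℕ) (x : ℤ) : ‖ch M x‖ = 1 := by
  rw [E1_ch_eq, Complex.norm_exp_I_mul_ofReal]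

/-- `|1 - e(θ)| ≤ 2 π |θ|` -/
theorem norm_one_sub_ch (M : ℕ) (hM : 0 < M) (x : ℤ) :
    ‖1 - ch M x‖ ≤ 2 * Real.pi * |(x : ℝ)| / M := by
  have hM' : (0 : ℝ) < M := by exact_mod_cast hM
  rw [norm_sub_rev, E1_ch_eq]
  refine le_trans Real.norm_exp_I_mul_ofReal_sub_one_le ?_
  rw [Real.norm_eq_abs, abs_div, abs_mul, abs_of_pos Real.two_pi_pos, abs_of_pos hM']

private theorem E1_sum_shift (M : ℕ) (K : ℤ) (hK : 2 * K = (M : ℤ)) (f : ℤ → ℂ) :
    ∑ m ∈ Finset.Ico (-K) K, f m = ∑ x ∈ Finset.range M, f ((x : ℤ) - K) := by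
  symm
  refine Finset.sum_bij (fun (x : ℕ) _ => (x : ℤ) - K) ?_ ?_ ?_ ?_
  · intro x hx
    have := Finset.mem_range.mp hx
    rw [Finset.mem_Ico]
    omega
  · intro x _ y _ h
    omega
  · intro m hm
    rw [Finset.mem_Ico] at hm
    refine ⟨(m + K).toNat, ?_, ?_⟩
    · rw [Finset.mem_range]; omega
    · omega
  · intro x _
    rfl

/-- orthogonality over the symmetric system of residues -/
theorem ch_orth' (a r b : ℕ) (ha : 1 ≤ a) (hb : 1 ≤ b) (y : ℤ) :
    ∑ m ∈ sym a r b, ch (MM a r b) (m * y) =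
      if ((MM a r b : ℕ) : ℤ) ∣ y then ((MM a r b : ℕ) : ℂ) else 0 := by
  have hMpos : 0 < MM a r b := by
    unfold MM
    positivity
  set K : ℤ := 10 * (a : ℤ) * ((r : ℤ) + 3) * b with hKdef
  have hK : 2 * K = ((MM a r b : ℕ) : ℤ) := by
    rw [hKdef]
    unfold MM
    push_cast
    ring
  have hsym : sym a r b = Finset.Ico (-K) K := rfl
  rw [hsym, E1_sum_shift (MM a r b) K hK]
  have h1 : ∀ x ∈ Finset.range (MM a r b), ch (MM a r b) (((x : ℤ) - K) * y) =
      ch (MM a r b) (-K * y) * ch (MM a r b) (x * y) := by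
    intro x _
    rw [← ch_add]
    congr 1
    ring
  rw [Finset.sum_congr rfl h1, ← Finset.mul_sum, ch_orth (MM a r b) hMpos y]
  split_ifs with hd
  · obtain ⟨k, hk⟩ := hd
    have h2 : -K * y = ((MM a r b : ℕ) : ℤ) * (-K * k) := by
      rw [hk]
      ring
    rw [h2, E1_ch_mul _ hMpos, one_mul]
  · rw [mul_zero]

private theorem E1_norm_lower (M : ℕ) (hM : 0 < M) (m : ℤ) (hm : 2 * |m| ≤ (M : ℤ)) :
    4 * |(m : ℝ)| / M ≤ ‖ch M m - 1‖ := by
  have hM' : (0 : ℝ) < M := by exact_mod_cast hM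
  have hmR : 2 * |(m : ℝ)| ≤ M := by
    have : ((2 * |m| : ℤ) : ℝ) ≤ ((M : ℤ) : ℝ) := by exact_mod_cast hm
    push_cast at this
    exact this
  rw [E1_ch_eq, Complex.norm_exp_I_mul_ofReal_sub_one, Real.norm_eq_abs, abs_mul,
    abs_of_pos (by norm_num : (0 : ℝ) < 2)]
  have h1 : (2 * Real.pi * (m : ℝ) / M) / 2 = Real.pi * m / M := by ring
  rw [h1]
  have h2 : |Real.pi * (m : ℝ) / M| = Real.pi * |(m : ℝ)| / M := by
    rw [abs_div, abs_mul, abs_of_pos Real.pi_pos, abs_of_pos hM']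
  have h3 : |Real.sin (Real.pi * (m : ℝ) / M)| = Real.sin (Real.pi * |(m : ℝ)| / M) := by
    have hle : Real.pi * |(m : ℝ)| / M ≤ Real.pi := by
      rw [div_le_iff₀ hM']
      have : |(m : ℝ)| ≤ M := by
        have := abs_nonneg (m : ℝ)
        linarith
      exact mul_le_mul_of_nonneg_left this Real.pi_pos.le
    have h0 : 0 ≤ Real.pi * |(m : ℝ)| / M := by positivity
    have h4 : 0 ≤ Real.sin (Real.pi * |(m : ℝ)| / M) := Real.sin_nonneg_of_nonneg_of_le_pi h0 hle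
    rcases abs_cases (m : ℝ) with ⟨h, _⟩ | ⟨h, _⟩
    · rw [h] at h4 ⊢
      exact abs_of_nonneg h4
    · rw [h] at h4 ⊢
      have h5 : Real.pi * -(m : ℝ) / M = -(Real.pi * m / M) := by ring
      rw [h5, Real.sin_neg] at h4 ⊢
      rw [abs_of_nonpos (by linarith)]
  rw [h3]
  have h6 : 0 ≤ Real.pi * |(m : ℝ)| / M := by positivity
  have h7 : Real.pi * |(m : ℝ)| / M ≤ Real.pi / 2 := by
    rw [div_le_iff₀ hM']
    nlinarith [Real.pi_pos]
  have h8 := Real.mul_le_sin h6 h7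
  have h9 : 2 / Real.pi * (Real.pi * |(m : ℝ)| / M) = 2 * |(m : ℝ)| / M := by
    have := Real.pi_ne_zero
    field_simp
  rw [h9] at h8
  have h10 : 4 * |(m : ℝ)| / M = 2 * (2 * |(m : ℝ)| / M) := by ring
  rw [h10]
  linarith

/-- `|tau| ≤ 1`, and for `m ≠ 0`, `2 |m| ≤ M`, the geometric sum gives
`|tau| ≤ (1/h) 2 / |1 - e(m/M)| ≤ M / (2 h |m|) = 5 a (r+3) / (2 |m|)`, `h = 4 b`
(`|1 - e(θ)| = 2 |sin π θ| ≥ 4 |θ|` for `|θ| ≤ 1/2`). -/
theorem norm_tau_le (a r b : ℕ) (ha : 1 ≤ a) (hb : 1 ≤ b) (m : ℤ)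
    (hm : 2 * |m| ≤ ((MM a r b : ℕ) : ℤ)) :
    ‖tau (MM a r b) (4 * b) m‖ ≤ 5 * a * ((r : ℝ) + 3) / (1 + |(m : ℝ)|) := by
  have hMpos : 0 < MM a r b := by
    unfold MM
    positivity
  have ha' : (1 : ℝ) ≤ a := by exact_mod_cast ha
  have hb' : (1 : ℝ) ≤ b := by exact_mod_cast hb
  have hr' : (0 : ℝ) ≤ r := by positivity
  have hMR : ((MM a r b : ℕ) : ℝ) = 20 * a * ((r : ℝ) + 3) * b := by
    unfold MM
    push_cast
    ring
  have hh : (0 : ℝ) < 4 * b := by positivity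
  by_cases h0 : m = 0
  · subst h0
    have h1 : tau (MM a r b) (4 * b) 0 = 1 := by
      unfold tau
      have h2 : ∀ u ∈ Finset.range (4 * b), ch (MM a r b) (0 * (u : ℤ)) = 1 := by
        intro u _
        unfold ch
        simp
      rw [Finset.sum_congr rfl h2]
      have h3 : ((4 * b : ℕ) : ℂ) ≠ 0 := by
        have : 4 * b ≠ 0 := by omega
        exact_mod_cast this
      rw [Finset.sum_const, Finset.card_range, nsmul_eq_mul, mul_one]
      exact div_self h3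
    rw [h1]
    simp only [norm_one, Int.cast_zero, abs_zero, add_zero, div_one]
    nlinarith
  · have hm1 : (1 : ℝ) ≤ |(m : ℝ)| := by
      have : (1 : ℤ) ≤ |m| := Int.one_le_abs h0
      have h2 : ((1 : ℤ) : ℝ) ≤ ((|m| : ℤ) : ℝ) := by exact_mod_cast this
      push_cast at h2
      exact h2
    set z : ℂ := ch (MM a r b) m with hz
    have hlow := E1_norm_lower (MM a r b) hMpos m hm
    rw [← hz] at hlow
    have hMr : (0 : ℝ) < ((MM a r b : ℕ) : ℝ) := by exact_mod_cast hMpos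
    have hlpos : 0 < 4 * |(m : ℝ)| / ((MM a r b : ℕ) : ℝ) := by positivity
    have hz1 : z ≠ 1 := by
      intro h
      rw [h] at hlow
      simp only [sub_self, norm_zero] at hlow
      linarith
    have hzn : ∀ n : ℕ, ch (MM a r b) (m * (n : ℤ)) = z ^ n := by
      intro n
      induction n with
      | zero => unfold ch; simp
      | succ n ih =>
        have h5 : m * ((n + 1 : ℕ) : ℤ) = m * n + m := by push_cast; ring
        rw [h5, ch_add, ih, pow_succ]
    have hsum : ∑ u ∈ Finset.range (4 * b), ch (MM a r b) (m * (u : ℤ)) =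
        (z ^ (4 * b) - 1) / (z - 1) := by
      rw [Finset.sum_congr rfl (fun u _ => hzn u), geom_sum_eq hz1]
    have hzn1 : ‖z ^ (4 * b) - 1‖ ≤ 2 := by
      refine le_trans (norm_sub_le _ _) ?_
      rw [norm_pow, hz, norm_ch]
      norm_num
    have hnorm : ‖∑ u ∈ Finset.range (4 * b), ch (MM a r b) (m * (u : ℤ))‖ ≤
        2 / (4 * |(m : ℝ)| / ((MM a r b : ℕ) : ℝ)) := by
      rw [hsum, norm_div]
      exact div_le_div₀ (by norm_num) hzn1 hlpos hlow
    unfold tau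
    rw [norm_div]
    have h6 : ‖((4 * b : ℕ) : ℂ)‖ = 4 * b := by
      rw [Complex.norm_natCast]
      push_cast
      ring
    rw [h6]
    rw [div_le_div_iff₀ hh (by positivity)]
    have h7 : 2 / (4 * |(m : ℝ)| / ((MM a r b : ℕ) : ℝ)) = 10 * a * ((r : ℝ) + 3) * b / |(m : ℝ)| := by
      rw [hMR]
      field_simp
      ring
    rw [h7] at hnorm
    have hX : 0 ≤ 10 * (a : ℝ) * ((r : ℝ) + 3) * b := by positivity
    calc ‖∑ u ∈ Finset.range (4 * b), ch (MM a r b) (m * (u : ℤ))‖ * (1 + |(m : ℝ)|)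
        ≤ (10 * a * ((r : ℝ) + 3) * b / |(m : ℝ)|) * (1 + |(m : ℝ)|) := by
          exact mul_le_mul_of_nonneg_right hnorm (by positivity)
      _ ≤ (10 * a * ((r : ℝ) + 3) * b / |(m : ℝ)|) * (2 * |(m : ℝ)|) := by
          refine mul_le_mul_of_nonneg_left (by linarith) ?_
          positivity
      _ = 5 * a * ((r : ℝ) + 3) * (4 * b) := by
          have : |(m : ℝ)| ≠ 0 := by positivity
          field_simp
          ring

end Pool.Agent.LibZE10
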