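import Pool.Agent.LibZE10.E1
import Pool.Agent.LibZE10.E2

set_option autoImplicit false

namespace Pool.Agent.LibZE10

open Pool.Agent.LibNZ69

/-- the case `ρ = 0` -/
private theorem E3_zero (a r b : ℕ) (ha : 1 ≤ a) (hb : 1 ≤ b) (x : ℤ)
    (h1 : 2 * (4 * (b : ℤ)) - ((MM a r b : ℕ) : ℤ) ≤ x) (h2 : x < ((MM a r b : ℕ) : ℤ)) :
    (Ph 0 (4 * b) x : ℂ) = (1 / (5 * (a : ℂ) * ((r : ℂ) + 3))) *
      ∑ m ∈ sym a r b, tau (MM a r b) (4 * b) m ^ (0 + 1) *
        ch (MM a r b) (-m * (x - 4 * b)) := by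
  have hM0 : ((MM a r b : ℕ) : ℂ) ≠ 0 := by
    have : (MM a r b) ≠ 0 := by
      unfold MM
      positivity
    exact_mod_cast this
  have hb0 : (b : ℂ) ≠ 0 := by
    have : b ≠ 0 := by omega
    exact_mod_cast this
  have ha0 : (a : ℂ) ≠ 0 := by
    have : a ≠ 0 := by omega
    exact_mod_cast this
  have hr0 : ((r : ℂ) + 3) ≠ 0 := by
    have : (r + 3 : ℕ) ≠ 0 := by omega
    exact_mod_cast this
  have e1 : ∀ m ∈ sym a r b, tau (MM a r b) (4 * b) m ^ (0 + 1) *
      ch (MM a r b) (-m * (x - 4 * b)) =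
      (1 / (4 * (b : ℂ))) * ∑ u ∈ Finset.range (4 * b),
        ch (MM a r b) (m * ((u : ℤ) - (x - 4 * b))) := by
    intro m _
    unfold tau
    rw [zero_add, pow_one, Finset.mul_sum, Finset.sum_div, Finset.sum_mul]
    apply Finset.sum_congr rfl
    intro u _
    have : m * ((u : ℤ) - (x - 4 * b)) = m * u + -m * (x - 4 * b) := by ring
    rw [this, ch_add]
    push_cast
    ring
  rw [Finset.sum_congr rfl e1, ← Finset.mul_sum, Finset.sum_comm]
  have e2 : ∀ u ∈ Finset.range (4 * b), ∑ m ∈ sym a r b,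
      ch (MM a r b) (m * ((u : ℤ) - (x - 4 * b))) =
      if (u : ℤ) = x - 4 * b then ((MM a r b : ℕ) : ℂ) else 0 := by
    intro u hu
    rw [ch_orth' a r b ha hb]
    have hu' : u < 4 * b := Finset.mem_range.1 hu
    by_cases h : (u : ℤ) = x - 4 * b
    · rw [if_pos h, if_pos]
      rw [h, sub_self]
      exact dvd_zero _
    · rw [if_neg h, if_neg]
      rintro ⟨c, hc⟩
      apply h
      have hc1 : c < 1 := by
        by_contra hcc
        push Not at hcc
        have : ((MM a r b : ℕ) : ℤ) * 1 ≤ ((MM a r b : ℕ) : ℤ) * c :=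
          mul_le_mul_of_nonneg_left hcc (by positivity)
        omega
      have hc2 : -1 < c := by
        by_contra hcc
        push Not at hcc
        have : ((MM a r b : ℕ) : ℤ) * c ≤ ((MM a r b : ℕ) : ℤ) * (-1) :=
          mul_le_mul_of_nonneg_left hcc (by positivity)
        omega
      have hc3 : c = 0 := by omega
      rw [hc3, mul_zero] at hc
      omega
  rw [Finset.sum_congr rfl e2]
  have e3 : (∑ u ∈ Finset.range (4 * b),
      if (u : ℤ) = x - 4 * b then ((MM a r b : ℕ) : ℂ) else 0) =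
      if ((4 * b : ℕ) : ℤ) ≤ x ∧ x < 2 * ((4 * b : ℕ) : ℤ) then ((MM a r b : ℕ) : ℂ) else 0 := by
    by_cases h : ((4 * b : ℕ) : ℤ) ≤ x ∧ x < 2 * ((4 * b : ℕ) : ℤ)
    · rw [if_pos h]
      obtain ⟨v, hv⟩ : ∃ v : ℕ, (v : ℤ) = x - 4 * b := by
        refine ⟨(x - 4 * b).toNat, ?_⟩
        apply Int.toNat_of_nonneg
        have := h.1
        push_cast at this
        omega
      rw [Finset.sum_eq_single v]
      · rw [if_pos hv]
      · intro u _ huv
        rw [if_neg]
        intro h'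
        apply huv
        have : (u : ℤ) = v := by rw [h', hv]
        exact_mod_cast this
      · intro hv'
        exfalso
        apply hv'
        rw [Finset.mem_range]
        have := h.2
        push_cast at this
        omega
    · rw [if_neg h]
      apply Finset.sum_eq_zero
      intro u hu
      have hu' : u < 4 * b := Finset.mem_range.1 hu
      rw [if_neg]
      intro h'
      apply h
      push_cast
      omega
  rw [e3]
  unfold Ph
  by_cases h : ((4 * b : ℕ) : ℤ) ≤ x ∧ x < 2 * ((4 * b : ℕ) : ℤ)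
  · rw [if_pos h, if_pos h]
    have hM : ((MM a r b : ℕ) : ℂ) = 20 * a * (r + 3) * b := by
      unfold MM
      push_cast
      ring
    rw [hM]
    push_cast
    field_simp
    ring
  · rw [if_neg h, if_neg h]
    push_cast
    ring

/-- the general case -/
private theorem E3_gen (a r b : ℕ) (ha : 1 ≤ a) (hb : 1 ≤ b) (ρ : ℕ) : ∀ x : ℤ,
    ((ρ : ℤ) + 2) * (4 * (b : ℤ)) - ((MM a r b : ℕ) : ℤ) ≤ x → x < ((MM a r b : ℕ) : ℤ) →
    (Ph ρ (4 * b) x : ℂ) = (1 / (5 * (a : ℂ) * ((r : ℂ) + 3))) *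
      ∑ m ∈ sym a r b, tau (MM a r b) (4 * b) m ^ (ρ + 1) *
        ch (MM a r b) (-m * (x - 4 * b)) := by
  induction ρ with
  | zero =>
    intro x h1 h2
    apply E3_zero a r b ha hb x _ h2
    push_cast at h1
    linarith
  | succ ρ ih =>
    intro x h1 h2
    have e0 : (Ph (ρ + 1) (4 * b) x : ℂ) =
        (∑ u ∈ Finset.range (4 * b), (Ph ρ (4 * b) (x - u) : ℂ)) / ((4 * b : ℕ) : ℂ) := by
      rw [Ph]
      push_cast
      rfl
    have e1 : ∀ u ∈ Finset.range (4 * b), (Ph ρ (4 * b) (x - u) : ℂ) =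
        (1 / (5 * (a : ℂ) * ((r : ℂ) + 3))) *
        ∑ m ∈ sym a r b, tau (MM a r b) (4 * b) m ^ (ρ + 1) *
          (ch (MM a r b) (m * u) * ch (MM a r b) (-m * (x - 4 * b))) := by
      intro u hu
      have hu' : u < 4 * b := Finset.mem_range.1 hu
      rw [ih (x - u)]
      · congr 1
        apply Finset.sum_congr rfl
        intro m _
        rw [← ch_add]
        congr 2
        ring
      · push_cast at h1
        have : (u : ℤ) < 4 * b := by exact_mod_cast hu'
        nlinarith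
      · have : (0 : ℤ) ≤ u := by positivity
        omega
    rw [e0, Finset.sum_congr rfl e1, ← Finset.mul_sum, Finset.sum_comm, mul_div_assoc]
    congr 1
    rw [Finset.sum_div]
    apply Finset.sum_congr rfl
    intro m _
    rw [← Finset.mul_sum, ← Finset.sum_mul]
    rw [pow_succ (tau (MM a r b) (4 * b) m) (ρ + 1)]
    have : tau (MM a r b) (4 * b) m =
        (∑ u ∈ Finset.range (4 * b), ch (MM a r b) (m * u)) / ((4 * b : ℕ) : ℂ) := rfl
    rw [this]
    ring

/-- Row E3 (MEDIUM). Fourier expansion of the cutoff. Prove more generally, with `M = MM a r b`,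
`h = 4 b` and `ρ ≤ r` by induction on `ρ`: for all `x` with `(ρ + 2) h - M ≤ x < M`
`Ph ρ h x = (1/(5 a (r+3))) ∑_m tau(m)^(ρ+1) ch M (-m (x - h))`. `ρ = 0`: `tau(m) = (1/h) ∑_u ch M (m u)`, so
the right side is `(1/M) ∑_u ∑_m ch M (m (u - x + h)) = #{u ∈ [0,h) : M ∣ u - (x - h)}` (`ch_orth'`), and
in the range the only possibility is `u = x - h`. Step: `Ph (ρ+1) h x = (1/h) ∑_u Ph ρ h (x - u)`, and
`(ρ + 2) h - M ≤ (ρ + 3) h - M - u ≤ x - u`. (`1/(5 a (r+3)) = h / M`.)
The statement is the case `ρ = r`, `0 ≤ x` (as `(r+2) h ≤ M`). -/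
theorem Ph_fourier (a r b : ℕ) (ha : 1 ≤ a) (hb : 1 ≤ b) (x : ℤ) (h1 : 0 ≤ x)
    (h2 : x < ((MM a r b : ℕ) : ℤ)) :
    (Ph r (4 * b) x : ℂ) = (1 / (5 * (a : ℂ) * ((r : ℂ) + 3))) *
      ∑ m ∈ sym a r b, tau (MM a r b) (4 * b) m ^ (r + 1) * ch (MM a r b) (-m * (x - 4 * b)) := by
  apply E3_gen a r b ha hb r x _ h2
  have hM : ((MM a r b : ℕ) : ℤ) = 20 * a * (r + 3) * b := by
    unfold MM
    push_cast
    ring
  rw [hM]
  have ha' : (1 : ℤ) ≤ a := by exact_mod_cast ha
  have hb' : (0 : ℤ) ≤ b := by positivity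
  have hr' : (0 : ℤ) ≤ r := by positivity
  have h3 : ((r : ℤ) + 2) * (4 * b) ≤ 20 * a * (r + 3) * b := by
    have h5 : (4 : ℤ) * (r + 2) ≤ 20 * a * (r + 3) := by nlinarith
    have h6 := mul_le_mul_of_nonneg_right h5 hb'
    linarith
  linarith

end Pool.Agent.LibZE10
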