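import Pool.Agent.LibZE10.A2
import Pool.Agent.LibZE10.A3
import Pool.Agent.LibZE10.E2

set_option autoImplicit false

namespace Pool.Agent.LibZE10

open Pool.Agent.LibNZ69

/-- Row E4a (SHORT). The pairs have `0 < dt (vec v) (vec w) < M`: `dt ≤ 18 kk v kk w`
(`dt_bounds`, `dt_comm`), `kk v ≤ a L`, `kk w ≤ M / (20 a L)`. -/
theorem pair_lt {A : Finset ℕ} {a : ℕ} (hA : ∀ x ∈ A, 1 ≤ x ∧ x < a) (M L C₀ : ℕ) (hL : 2 ≤ L)
    (hM : 0 < M) (v w : List ℕ) (hv : v ∈ Cut A a L) (hw : w ∈ Wz A (M / (20 * (a * L))) C₀) :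
    0 < dt (vec v) (vec w) ∧ dt (vec v) (vec w) < (M : ℤ) := by
  have hA1 : ∀ x ∈ A, 1 ≤ x := fun x hx => (hA x hx).1
  obtain ⟨hv1, hv2, hv3, -⟩ := Cut_bounds hA hv
  obtain ⟨hw1, hw2, -⟩ := (mem_Wz hA1 _ _ w).1 hw
  have hv0 : ∀ x ∈ v, 1 ≤ x := fun x hx => hA1 x (hv1 x hx)
  have hw0 : ∀ x ∈ w, 1 ≤ x := fun x hx => hA1 x (hw1 x hx)
  obtain ⟨h1, h2⟩ := dt_bounds v w hv0 hw0
  have hkv : 1 ≤ kk v := kk_pos v hv0
  have hkw : 1 ≤ kk w := kk_pos w hw0
  have h3 : 1 ≤ kk v * kk w := Nat.mul_pos hkv hkw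
  have h3' : (1 : ℤ) ≤ (kk v : ℤ) * kk w := by exact_mod_cast h3
  refine ⟨by linarith, ?_⟩
  have h4 : kk v * kk w ≤ (a * L) * (M / (20 * (a * L))) := Nat.mul_le_mul hv3 hw2
  have h5 : (20 * (a * L)) * (M / (20 * (a * L))) ≤ M := Nat.mul_div_le M _
  have h6 : 20 * (kk v * kk w) ≤ M := by
    calc 20 * (kk v * kk w) ≤ 20 * ((a * L) * (M / (20 * (a * L)))) := Nat.mul_le_mul_left _ h4
      _ = (20 * (a * L)) * (M / (20 * (a * L))) := by ring
      _ ≤ M := h5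
  have h7 : (20 : ℤ) * ((kk v : ℤ) * kk w) ≤ M := by exact_mod_cast h6
  linarith

/-- Row E4 (MEDIUM). The smoothly cut off sum over the words is a sum over a product set, for every
`L`. `N = NN r b = 4 (r+3) b`, `M = MM a r b = 5 a N`, so `M / (20 a L) = N / (4 L)`
(`Nat.mul_div_mul_left`). Words `z` with `Ph (nz z) ≠ 0`: `4 b ≤ nz z < (r+2) 4 b ≤ N` (`Ph_support`),
`nz z ≤ 9 kk z` (`nz_bounds`) so `kk z ≥ L`; `z = y ++ v`, `v ∈ Cut A a L`
(`exists_cut`, `cut_unique`), `w = y.reverse`, `nz z = dt (vec w) (vec v)` (`nz_split`). By `dt_bounds`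
`4 kk w kk v < N`, so `kk w ≤ N / (4 L)`, and `4 b ≤ 18 kk w · a L`, so `N ≤ 18 a (r+3) L kk w`,
`N / (4 L) ≤ 5 a (r+3) kk w`. Conversely for `(v, w)` with `Ph (dt …) ≠ 0` the word
`z = w.reverse ++ v` is in `wP A N` as `4 kk z ≤ nz z < N`. -/
theorem fh_pairs {A : Finset ℕ} {a : ℕ} {s : ℝ} (hp : PB A a s) (r b L : ℕ) (hb : 1 ≤ b)
    (hL : 2 ≤ L) (hLb : 3 * L ≤ b) (k : ℤ) :
    fh A a r b k = ∑ v ∈ Cut A a L,
      ∑ w ∈ Wz A (MM a r b / (20 * (a * L))) (5 * a * (r + 3)),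
        (Ph r (4 * b) (dt (vec v) (vec w)) : ℂ) * ch (MM a r b) (k * dt (vec v) (vec w)) := by
  have hA : ∀ x ∈ A, 1 ≤ x ∧ x < a := hp.dig
  have hA1 : ∀ x ∈ A, 1 ≤ x := fun x hx => (hA x hx).1
  have ha : 4 ≤ a := hp.a4
  have hZ : MM a r b / (20 * (a * L)) = ((r + 3) * b) / L := by
    have h1 : MM a r b = (20 * a) * ((r + 3) * b) := by unfold MM; ring
    have h2 : 20 * (a * L) = (20 * a) * L := by ring
    rw [h1, h2, Nat.mul_div_mul_left _ _ (by omega)]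
  rw [hZ, ← Finset.sum_product', fh]
  symm
  -- the value at a pair
  have hval : ∀ v w : List ℕ, nz (w.reverse ++ v) = dt (vec v) (vec w) := by
    intro v w
    rw [nz_split, dt_comm]
  refine Finset.sum_bij_ne_zero (fun p _ _ => p.2.reverse ++ p.1) ?_ ?_ ?_ ?_
  · rintro ⟨v, w⟩ h1 h2
    simp only [Finset.mem_product] at h1
    obtain ⟨hv, hw⟩ := h1
    obtain ⟨hv1, -, -, -⟩ := Cut_bounds hA hv
    obtain ⟨hw1, -, -⟩ := (mem_Wz hA1 _ _ w).1 hw
    have hP : Ph r (4 * b) (dt (vec v) (vec w)) ≠ 0 := by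
      intro h0
      apply h2
      simp only [h0, Complex.ofReal_zero, zero_mul]
    obtain ⟨-, h3⟩ := Ph_support r (4 * b) _ hP
    have hWA : WA A (w.reverse ++ v) := (WA_append _ _).2 ⟨(WA_reverse w).2 hw1, hv1⟩
    refine (mem_wP hA1 _ _).2 ⟨hWA, ?_⟩
    obtain ⟨h4, -⟩ := nz_bounds (w.reverse ++ v) (fun x hx => hA1 x (hWA x hx))
    rw [hval] at h4
    have h5 : (4 : ℤ) * kk (w.reverse ++ v) < ((r : ℤ) + 2) * ((4 * b : ℕ) : ℤ) := by linarith
    have h6 : 4 * kk (w.reverse ++ v) < (r + 2) * (4 * b) := by exact_mod_cast h5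
    show kk (w.reverse ++ v) ≤ NN r b
    unfold NN
    have h7 : (r + 2) * (4 * b) ≤ 4 * (r + 3) * b := by
      calc (r + 2) * (4 * b) ≤ (r + 3) * (4 * b) := Nat.mul_le_mul_right _ (by omega)
        _ = 4 * (r + 3) * b := by ring
    omega
  · rintro ⟨v, w⟩ h1 _ ⟨v', w'⟩ h1' _ h
    simp only [Finset.mem_product] at h1 h1'
    simp only at h
    obtain ⟨e1, e2⟩ := cut_unique hA h1.1 h1'.1 h
    have e3 : w = w' := List.reverse_injective e1
    rw [e2, e3]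
  · intro z hz hne
    have hP : Ph r (4 * b) (nz z) ≠ 0 := by
      intro h0
      apply hne
      simp only [h0, Complex.ofReal_zero, zero_mul]
    obtain ⟨hzA, -⟩ := (mem_wP hA1 _ _).1 hz
    obtain ⟨h3, h4⟩ := Ph_support r (4 * b) _ hP
    obtain ⟨-, h6⟩ := nz_bounds z (fun x hx => hA1 x (hzA x hx))
    have h7 : ((4 * b : ℕ) : ℤ) ≤ 9 * (kk z : ℤ) := h3.trans h6
    have h7' : 4 * b ≤ 9 * kk z := by exact_mod_cast h7
    have hLz : L ≤ kk z := by omega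
    obtain ⟨y, v, hyv, hv, hyA⟩ := exists_cut hA hL z hzA hLz
    obtain ⟨hv1, hv2, hv3, -⟩ := Cut_bounds hA hv
    have hwA : WA A y.reverse := (WA_reverse y).2 hyA
    have hzz : z = y.reverse.reverse ++ v := by rw [List.reverse_reverse]; exact hyv
    have hnz : nz z = dt (vec v) (vec y.reverse) := by rw [hzz, hval]
    obtain ⟨h8, h9⟩ := dt_bounds v y.reverse (fun x hx => hA1 x (hv1 x hx))
      (fun x hx => hA1 x (hwA x hx))
    rw [← hnz] at h8 h9
    set K : ℕ := kk y.reverse with hK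
    have h10 : (4 : ℤ) * ((kk v : ℤ) * K) < ((r : ℤ) + 2) * ((4 * b : ℕ) : ℤ) := by linarith
    have h10' : 4 * (kk v * K) < (r + 2) * (4 * b) := by exact_mod_cast h10
    have h11 : ((4 * b : ℕ) : ℤ) ≤ 18 * ((kk v : ℤ) * K) := h3.trans h9
    have h11' : 4 * b ≤ 18 * (kk v * K) := by exact_mod_cast h11
    have hLK : L * K ≤ kk v * K := Nat.mul_le_mul_right _ hv2
    have haLK : kk v * K ≤ (a * L) * K := Nat.mul_le_mul_right _ hv3
    have hw : y.reverse ∈ Wz A (((r + 3) * b) / L) (5 * a * (r + 3)) := by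
      refine (mem_Wz hA1 _ _ _).2 ⟨hwA, ?_, ?_⟩
      · rw [Nat.le_div_iff_mul_le (by omega)]
        have h12 : (r + 2) * (4 * b) = 4 * ((r + 2) * b) := by ring
        have h13 : (r + 2) * b ≤ (r + 3) * b := Nat.mul_le_mul_right _ (by omega)
        have h14 : kk v * K < (r + 2) * b := by omega
        calc kk y.reverse * L = L * K := by rw [mul_comm]
          _ ≤ kk v * K := hLK
          _ ≤ (r + 3) * b := by omega
      · have h15 : ((r + 3) * b) / L * L ≤ (r + 3) * b := Nat.div_mul_le_self _ _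
        have h16 : 4 * b ≤ 18 * ((a * L) * K) := h11'.trans (Nat.mul_le_mul_left _ haLK)
        have h17 : (r + 3) * (4 * b) ≤ (r + 3) * (18 * ((a * L) * K)) := Nat.mul_le_mul_left _ h16
        have h18 : 4 * (((r + 3) * b) / L * L) ≤ 4 * ((5 * a * (r + 3) * K) * L) := by
          calc 4 * (((r + 3) * b) / L * L) ≤ 4 * ((r + 3) * b) := Nat.mul_le_mul_left _ h15
            _ = (r + 3) * (4 * b) := by ring
            _ ≤ (r + 3) * (18 * ((a * L) * K)) := h17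
            _ ≤ (r + 3) * (20 * ((a * L) * K)) :=
                Nat.mul_le_mul_left _ (Nat.mul_le_mul_right _ (by omega))
            _ = 4 * ((5 * a * (r + 3) * K) * L) := by ring
        have h19 : ((r + 3) * b) / L * L ≤ (5 * a * (r + 3) * K) * L := by omega
        exact Nat.le_of_mul_le_mul_right h19 (by omega)
    refine ⟨(v, y.reverse), Finset.mem_product.2 ⟨hv, hw⟩, ?_, ?_⟩
    · simp only
      rw [← hnz]
      exact hne
    · simp only
      exact hzz.symm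
  · rintro ⟨v, w⟩ _ _
    simp only
    rw [hval]

end Pool.Agent.LibZE10
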