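import Pool.Agent.LibZE10.A1

set_option autoImplicit false

namespace Pool.Agent.LibZE10

open Pool.Agent.LibNZ69

/-! Row G1 (MEDIUM). Words in the letters `1`, `2` modulo `q₀`. -/

private def G1_D (q : ℕ) (v v' : ℤ × ℤ) : Prop := (q : ℤ) ∣ v.1 - v'.1 ∧ (q : ℤ) ∣ v.2 - v'.2

private theorem G1_D_refl (q : ℕ) (v : ℤ × ℤ) : G1_D q v v := by
  unfold G1_D; simp

private theorem G1_D_symm {q : ℕ} {v v' : ℤ × ℤ} (h : G1_D q v v') : G1_D q v' v := by
  obtain ⟨h1, h2⟩ := h
  exact ⟨by rw [← neg_sub]; exact (dvd_neg).2 h1, by rw [← neg_sub]; exact (dvd_neg).2 h2⟩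

private theorem G1_D_trans {q : ℕ} {v v' v'' : ℤ × ℤ} (h : G1_D q v v') (h' : G1_D q v' v'') :
    G1_D q v v'' := by
  refine ⟨?_, ?_⟩
  · have := dvd_add h.1 h'.1
    rwa [sub_add_sub_cancel] at this
  · have := dvd_add h.2 h'.2
    rwa [sub_add_sub_cancel] at this

private theorem G1_D_gl {q : ℕ} (a : ℕ) {v v' : ℤ × ℤ} (h : G1_D q v v') :
    G1_D q (gl a v) (gl a v') := by
  refine ⟨h.2, ?_⟩
  have e : (gl a v).2 - (gl a v').2 = (v.1 - v'.1) + a * (v.2 - v'.2) := by
    simp only [gl]; ring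
  rw [e]
  exact dvd_add h.1 (dvd_mul_of_dvd_right h.2 _)

private theorem G1_D_gi {q : ℕ} (a : ℕ) {v v' : ℤ × ℤ} (h : G1_D q v v') :
    G1_D q (gi a v) (gi a v') := by
  refine ⟨?_, h.1⟩
  have e : (gi a v).1 - (gi a v').1 = (v.2 - v'.2) - a * (v.1 - v'.1) := by
    simp only [gi]; ring
  rw [e]
  exact dvd_sub h.2 (dvd_mul_of_dvd_right h.1 _)

private theorem G1_D_act {q : ℕ} (w : List ℕ) {v v' : ℤ × ℤ} (h : G1_D q v v') :
    G1_D q (act w v) (act w v') := by
  induction w with
  | nil => exact h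
  | cons a w ih => exact G1_D_gl a ih

private theorem G1_D_acti {q : ℕ} (w : List ℕ) {v v' : ℤ × ℤ} (h : G1_D q v v') :
    G1_D q (acti w v) (acti w v') := by
  induction w generalizing v v' with
  | nil => exact h
  | cons a w ih => exact ih (G1_D_gi a h)

theorem cong_refl (q₀ : ℕ) (w : List ℕ) : cong q₀ w w := fun v => G1_D_refl q₀ (act w v)

theorem cong_symm {q₀ : ℕ} {w w' : List ℕ} (h : cong q₀ w w') : cong q₀ w' w :=
  fun v => G1_D_symm (h v)

theorem cong_trans {q₀ : ℕ} {w w' w'' : List ℕ} (h : cong q₀ w w') (h' : cong q₀ w' w'') :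
    cong q₀ w w'' := fun v => G1_D_trans (h v) (h' v)

theorem cong_append {q₀ : ℕ} {u u' w w' : List ℕ} (h : cong q₀ u u') (h' : cong q₀ w w') :
    cong q₀ (u ++ w) (u' ++ w') := by
  intro v
  rw [act_append, act_append]
  exact G1_D_trans (h (act w v)) (G1_D_act u' (h' v))

private theorem G1_comb (w : List ℕ) (v : ℤ × ℤ) :
    act w v = v.1 • act w (1, 0) + v.2 • act w (0, 1) := by
  rw [← act_smul, ← act_smul, ← act_add]
  congr 1
  ext <;> simp

/-- The matrices of `replicate n x`, `n ∈ ℕ`, take finitely many values modulo `q₀`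
(`act w v` is determined modulo `q₀` by `act w (1,0)`, `act w (0,1)`, `v` modulo `q₀`), and they are
invertible (`acti`). -/
theorem exists_period (q₀ : ℕ) (hq : 1 ≤ q₀) (x : ℕ) :
    ∃ L : ℕ, 1 ≤ L ∧ cong q₀ (List.replicate L x) [] := by
  have : NeZero q₀ := ⟨by omega⟩
  set φ : ℕ → (ZMod q₀ × ZMod q₀) × (ZMod q₀ × ZMod q₀) := fun n =>
    ((((act (List.replicate n x) (1, 0)).1 : ZMod q₀), ((act (List.replicate n x) (1, 0)).2 : ZMod q₀)),
      (((act (List.replicate n x) (0, 1)).1 : ZMod q₀), ((act (List.replicate n x) (0, 1)).2 : ZMod q₀)))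
    with hφ
  have key : ∀ m n : ℕ, m < n → φ m = φ n → ∃ L : ℕ, 1 ≤ L ∧ cong q₀ (List.replicate L x) [] := by
    intro m n hmn h
    refine ⟨n - m, by omega, ?_⟩
    have h1 : G1_D q₀ (act (List.replicate n x) (1, 0)) (act (List.replicate m x) (1, 0)) := by
      have e1 := congrArg (fun z => z.1.1) h
      have e2 := congrArg (fun z => z.1.2) h
      simp only [hφ] at e1 e2
      exact ⟨(ZMod.intCast_eq_intCast_iff_dvd_sub _ _ _).1 e1,
        (ZMod.intCast_eq_intCast_iff_dvd_sub _ _ _).1 e2⟩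
    have h2 : G1_D q₀ (act (List.replicate n x) (0, 1)) (act (List.replicate m x) (0, 1)) := by
      have e1 := congrArg (fun z => z.2.1) h
      have e2 := congrArg (fun z => z.2.2) h
      simp only [hφ] at e1 e2
      exact ⟨(ZMod.intCast_eq_intCast_iff_dvd_sub _ _ _).1 e1,
        (ZMod.intCast_eq_intCast_iff_dvd_sub _ _ _).1 e2⟩
    intro v
    have h3 : G1_D q₀ (act (List.replicate n x) v) (act (List.replicate m x) v) := by
      rw [G1_comb (List.replicate n x) v, G1_comb (List.replicate m x) v]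
      refine ⟨?_, ?_⟩
      · have e := dvd_add (dvd_mul_of_dvd_right h1.1 v.1) (dvd_mul_of_dvd_right h2.1 v.2)
        have e' : (v.1 • act (List.replicate n x) (1, 0) + v.2 • act (List.replicate n x) (0, 1)).1 -
            (v.1 • act (List.replicate m x) (1, 0) + v.2 • act (List.replicate m x) (0, 1)).1 =
            v.1 * ((act (List.replicate n x) (1, 0)).1 - (act (List.replicate m x) (1, 0)).1) +
            v.2 * ((act (List.replicate n x) (0, 1)).1 - (act (List.replicate m x) (0, 1)).1) := by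
          simp only [Prod.fst_add, Prod.smul_fst, smul_eq_mul]; ring
        rw [e']; exact e
      · have e := dvd_add (dvd_mul_of_dvd_right h1.2 v.1) (dvd_mul_of_dvd_right h2.2 v.2)
        have e' : (v.1 • act (List.replicate n x) (1, 0) + v.2 • act (List.replicate n x) (0, 1)).2 -
            (v.1 • act (List.replicate m x) (1, 0) + v.2 • act (List.replicate m x) (0, 1)).2 =
            v.1 * ((act (List.replicate n x) (1, 0)).2 - (act (List.replicate m x) (1, 0)).2) +
            v.2 * ((act (List.replicate n x) (0, 1)).2 - (act (List.replicate m x) (0, 1)).2) := by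
          simp only [Prod.snd_add, Prod.smul_snd, smul_eq_mul]; ring
        rw [e']; exact e
    have h4 : List.replicate n x = List.replicate m x ++ List.replicate (n - m) x := by
      rw [List.replicate_append_replicate]
      congr 1
      omega
    rw [h4, act_append] at h3
    have h5 := G1_D_acti (List.replicate m x) h3
    rw [acti_act, acti_act] at h5
    exact h5
  obtain ⟨m, n, hmn, h⟩ := Finite.exists_ne_map_eq_of_infinite φ
  rcases lt_or_gt_of_ne hmn with h1 | h1
  · exact key m n h1 h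
  · exact key n m h1 h.symm

/-- hence for all multiples -/
theorem period_mul (q₀ : ℕ) (x L k : ℕ) (h : cong q₀ (List.replicate L x) []) :
    cong q₀ (List.replicate (L * k) x) [] := by
  induction k with
  | zero => exact cong_refl _ _
  | succ k ih =>
    have e : List.replicate (L * (k + 1)) x = List.replicate (L * k) x ++ List.replicate L x := by
      rw [List.replicate_append_replicate]
      congr 1
    rw [e]
    have := cong_append ih h
    simpa using this

/-- hence inverses: `w' = ` product of `replicate (L - 1) x` in the reversed order -/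
theorem exists_inv (q₀ : ℕ) (hq : 1 ≤ q₀) (w : List ℕ) (hw : W12 w) :
    ∃ w', W12 w' ∧ cong q₀ (w ++ w') [] ∧ cong q₀ (w' ++ w) [] := by
  induction w with
  | nil => exact ⟨[], by intro x hx; simp at hx, cong_refl _ _, cong_refl _ _⟩
  | cons x w ih =>
    obtain ⟨w', h1, h2, h3⟩ := ih (fun y hy => hw y (List.mem_cons_of_mem _ hy))
    obtain ⟨L, hL, hp⟩ := exists_period q₀ hq x
    obtain ⟨l, rfl⟩ : ∃ l, L = l + 1 := ⟨L - 1, by omega⟩
    have hx := hw x List.mem_cons_self
    refine ⟨w' ++ List.replicate l x, ?_, ?_, ?_⟩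
    · intro y hy
      rcases List.mem_append.1 hy with h | h
      · exact h1 y h
      · rw [List.eq_of_mem_replicate h]; exact hx
    · have e1 : (x :: w) ++ (w' ++ List.replicate l x) = [x] ++ ((w ++ w') ++ List.replicate l x) := by
        simp
      have e2 : List.replicate (l + 1) x = [x] ++ ([] ++ List.replicate l x) := by
        simp [List.replicate_succ]
      rw [e1]
      refine cong_trans (cong_append (cong_refl _ _) (cong_append h2 (cong_refl _ _))) ?_
      rw [← e2]
      exact hp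
    · have e1 : (w' ++ List.replicate l x) ++ (x :: w) = w' ++ (List.replicate (l + 1) x ++ w) := by
        rw [List.replicate_succ']
        simp
      rw [e1]
      refine cong_trans (cong_append (cong_refl _ _) (cong_append hp (cong_refl _ _))) ?_
      simpa using h3

private def G1_R (q : ℕ) (v v' : ℤ × ℤ) : Prop := ∃ w, W12 w ∧ G1_D q (act w v) v'

private theorem G1_R_of_D {q : ℕ} {v v' : ℤ × ℤ} (h : G1_D q v v') : G1_R q v v' :=
  ⟨[], by intro x hx; simp at hx, h⟩

private theorem G1_R_trans {q : ℕ} {v v' v'' : ℤ × ℤ} (h : G1_R q v v') (h' : G1_R q v' v'') :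
    G1_R q v v'' := by
  obtain ⟨w, h1, h2⟩ := h
  obtain ⟨w', h3, h4⟩ := h'
  refine ⟨w' ++ w, ?_, ?_⟩
  · intro x hx
    rcases List.mem_append.1 hx with h | h
    · exact h3 x h
    · exact h1 x h
  · rw [act_append]
    exact G1_D_trans (G1_D_act w' h2) h4

private theorem G1_R_symm {q : ℕ} (hq : 1 ≤ q) {v v' : ℤ × ℤ} (h : G1_R q v v') : G1_R q v' v := by
  obtain ⟨w, h1, h2⟩ := h
  obtain ⟨w', h3, _, h5⟩ := exists_inv q hq w h1
  refine ⟨w', h3, ?_⟩
  have h6 : G1_D q (act (w' ++ w) v) v := h5 v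
  rw [act_append] at h6
  exact G1_D_trans (G1_D_symm (G1_D_act w' h2)) h6

private theorem G1_R_letter (q : ℕ) (a : ℕ) (ha : a = 1 ∨ a = 2) (v : ℤ × ℤ) :
    G1_R q v (gl a v) :=
  ⟨[a], by intro x hx; rw [List.mem_singleton.1 hx]; exact ha, G1_D_refl _ _⟩

private theorem G1_R_eq {q : ℕ} {v v' : ℤ × ℤ} (h : v = v') : G1_R q v v' := by
  rw [h]; exact G1_R_of_D (G1_D_refl _ _)

private theorem G1_R_add {q : ℕ} (hq : 1 ≤ q) (x y : ℤ) : G1_R q (x, y) (x + y, y) := by
  have h1 := G1_R_letter q 2 (Or.inr rfl) (x, y)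
  have h2 := G1_R_letter q 1 (Or.inl rfl) (x + y, y)
  have e : gl 2 (x, y) = gl 1 (x + y, y) := by
    ext <;> simp [gl]; ring
  rw [e] at h1
  exact G1_R_trans h1 (G1_R_symm hq h2)

private theorem G1_R_swap {q : ℕ} (hq : 1 ≤ q) (x y : ℤ) : G1_R q (x, y) (y, x) := by
  have h1 := G1_R_symm hq (G1_R_add hq (x - y) y)
  rw [sub_add_cancel] at h1
  have h2 := G1_R_letter q 1 (Or.inl rfl) (x - y, y)
  have e : gl 1 (x - y, y) = (y, x) := by
    ext <;> simp [gl]
  rw [e] at h2
  exact G1_R_trans h1 h2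

private theorem G1_R_mul {q : ℕ} (hq : 1 ≤ q) (x y k : ℤ) : G1_R q (x, y) (x + k * y, y) := by
  induction k using Int.induction_on with
  | zero => exact G1_R_eq (by simp)
  | succ n ih =>
    refine G1_R_trans ih (G1_R_trans (G1_R_add hq _ _) (G1_R_eq ?_))
    ext
    · push_cast; ring
    · rfl
  | pred n ih =>
    refine G1_R_trans ih (G1_R_symm hq (G1_R_trans (G1_R_add hq _ _) (G1_R_eq ?_)))
    ext
    · push_cast; ring
    · rfl

private theorem G1_R_mul' {q : ℕ} (hq : 1 ≤ q) (x y k : ℤ) : G1_R q (x, y) (x, y + k * x) :=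
  G1_R_trans (G1_R_swap hq x y) (G1_R_trans (G1_R_mul hq y x k) (G1_R_swap hq _ _))

private theorem G1_euclid {q : ℕ} (hq : 1 ≤ q) (n : ℕ) : ∀ x y : ℤ, y.natAbs = n →
    ∃ g : ℤ, G1_R q (x, y) (g, 0) ∧ g.natAbs = Int.gcd x y := by
  induction n using Nat.strong_induction_on with
  | _ n ih =>
    intro x y hy
    by_cases h0 : y = 0
    · subst h0
      exact ⟨x, G1_R_eq rfl, by simp⟩
    · have h1 : (x % y).natAbs < n := by
        rw [← hy]
        have h1 := Int.emod_nonneg x h0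
        have h2 := Int.emod_lt_abs x h0
        rw [Int.abs_eq_natAbs] at h2
        omega
      obtain ⟨g, h2, h3⟩ := ih _ h1 y (x % y) rfl
      refine ⟨g, ?_, ?_⟩
      · refine G1_R_trans (G1_R_mul hq x y (-(x / y))) (G1_R_trans (G1_R_eq ?_)
          (G1_R_trans (G1_R_swap hq (x % y) y) h2))
        ext
        · show x + -(x / y) * y = x % y
          rw [Int.emod_def]; ring
        · rfl
      · rw [h3, Int.emod_def, Int.gcd_comm x y]
        exact Int.gcd_sub_mul_left_right y x _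

private theorem G1_to01 {q : ℕ} (hq : 1 ≤ q) (v : ℤ × ℤ)
    (hv : Int.gcd (Int.gcd v.1 v.2) q = 1) : G1_R q v (0, 1) := by
  obtain ⟨g, h1, h2⟩ := G1_euclid hq _ v.1 v.2 rfl
  rw [← h2] at hv
  have h3 : IsCoprime g (q : ℤ) := by
    rw [Int.isCoprime_iff_gcd_eq_one]
    rw [Int.gcd_eq_natAbs] at hv ⊢
    simpa [Int.natAbs_abs] using hv
  obtain ⟨a, b, hab⟩ := h3
  refine G1_R_trans h1 (G1_R_trans (G1_R_mul' hq g 0 a) ?_)
  have h4 : G1_D q (g, 0 + a * g) (g, 1) := by
    refine ⟨by simp, ?_⟩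
    refine ⟨-b, ?_⟩
    show 0 + a * g - 1 = q * -b
    linarith
  refine G1_R_trans (G1_R_of_D h4) (G1_R_trans (G1_R_mul hq g 1 (-g)) (G1_R_eq ?_))
  ext
  · show g + -g * 1 = 0
    ring
  · rfl

/-- Transitivity on the primitive vectors modulo `q₀`. Words of letters `1, 2` realize modulo `q₀`
the maps `u : (x, y) ↦ (x + y, y)` (`g₁⁻¹ g₂`: `g₁⁻¹ (x,y) = (y - x, x)`, `g₂ (x,y) = (y, x + 2y)`), and the
swap `(x, y) ↦ (y, x)` (`g₁ u⁻¹`), and their inverses (`exists_inv`). By Euclid's algorithm for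
nonnegative representatives every vector goes to `(g, 0)`, `g = gcd(v.1, v.2)` prime to `q₀`, then with
`g g' ≡ 1` to `(g, g g') ≡ (g, 1)`, `(0, 1)`. So all go to `(0, 1)`. -/
theorem transitive (q₀ : ℕ) (hq : 1 ≤ q₀) (v v' : ℤ × ℤ)
    (hv : Int.gcd (Int.gcd v.1 v.2) q₀ = 1) (hv' : Int.gcd (Int.gcd v'.1 v'.2) q₀ = 1) :
    ∃ w, W12 w ∧ (q₀ : ℤ) ∣ (act w v).1 - v'.1 ∧ (q₀ : ℤ) ∣ (act w v).2 - v'.2 :=
  G1_R_trans (G1_to01 hq v hv) (G1_R_symm hq (G1_to01 hq v' hv'))

end Pool.Agent.LibZE10
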