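import Pool.Agent.LibZE10.Defs

set_option autoImplicit false

namespace Pool.Agent.LibZE10

open Pool.Agent.LibNZ69

private lemma G2_cnt (g m : ℕ) :
    ((Finset.range (g * m)).filter (fun y => Nat.Coprime g y)).card = m * g.totient := by
  induction m with
  | zero => simp
  | succ m ih =>
    have h : Finset.range (g * (m + 1)) = Finset.range (g * m) ∪ Finset.Ico (g * m) (g * m + g) := by
      ext y
      simp only [Finset.mem_range, Finset.mem_union, Finset.mem_Ico, Nat.mul_succ]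
      omega
    have hd : Disjoint ((Finset.range (g * m)).filter (fun y => Nat.Coprime g y))
        ((Finset.Ico (g * m) (g * m + g)).filter (fun y => Nat.Coprime g y)) := by
      rw [Finset.disjoint_left]
      intro y h1 h2
      simp only [Finset.mem_filter, Finset.mem_range, Finset.mem_Ico] at h1 h2
      omega
    rw [h, Finset.filter_union, Finset.card_union_of_disjoint hd, ih,
      Nat.filter_coprime_Ico_eq_totient, Nat.succ_mul]

private lemma G2_tot (g m : ℕ) : (g * m).totient ≤ m * g.totient := by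
  rw [← G2_cnt g m, Nat.totient_eq_card_coprime]
  apply Finset.card_le_card
  intro y hy
  simp only [Finset.mem_filter] at hy ⊢
  exact ⟨hy.1, Nat.Coprime.coprime_dvd_left (Dvd.intro m rfl) hy.2⟩

/-- Row G2 (MEDIUM). The primitive vectors modulo `q₀` on a line. With `r.1 u + r.2 w = 1` the map
`p ↦ (r.1 p.1 + r.2 p.2, -w p.1 + u p.2)` is a bijection of `(ℤ/q₀)²` (determinant 1) which preserves
`gcd(gcd(p.1, p.2), q₀) = 1`. So the number is `#{y < q₀ : gcd(n, y, q₀) = 1} = (q₀/g) φ(g)`,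
`g = gcd(n, q₀)`, and `φ(n) ≤ (n/g) φ(g)` as `g ∣ n`. -/
theorem line_count (q₀ : ℕ) (hq : 1 ≤ q₀) (r : ℤ × ℤ) (hr : IsCoprime r.1 r.2) (n : ℕ)
    (hn : 1 ≤ n) :
    q₀ * n.totient ≤ n * (((Finset.range q₀ ×ˢ Finset.range q₀).filter (fun p : ℕ × ℕ =>
      Nat.gcd (Nat.gcd p.1 p.2) q₀ = 1 ∧
        (q₀ : ℤ) ∣ dt r ((p.1 : ℤ), (p.2 : ℤ)) - (n : ℤ))).card) := by
  obtain ⟨u, w, huw⟩ := hr
  have hq0 : (0 : ℤ) < (q₀ : ℤ) := by exact_mod_cast hq
  set S := (Finset.range q₀ ×ˢ Finset.range q₀).filter (fun p : ℕ × ℕ =>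
      Nat.gcd (Nat.gcd p.1 p.2) q₀ = 1 ∧
        (q₀ : ℤ) ∣ dt r ((p.1 : ℤ), (p.2 : ℤ)) - (n : ℤ)) with hS
  have key : ((Finset.range q₀).filter (fun y => Nat.Coprime (Nat.gcd n q₀) y)).card ≤ S.card := by
    apply Finset.card_le_card_of_injOn (fun y : ℕ =>
      (((u * n - r.2 * y) % (q₀ : ℤ)).toNat, ((w * n + r.1 * y) % (q₀ : ℤ)).toNat))
    · intro y hy
      simp only [Finset.coe_filter, Finset.mem_range, Set.mem_ofPred_eq] at hy
      have e1 := Int.emod_add_mul_ediv (u * n - r.2 * y) (q₀ : ℤ)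
      have e2 := Int.emod_add_mul_ediv (w * n + r.1 * y) (q₀ : ℤ)
      have p1 := Int.emod_nonneg (u * n - r.2 * y) hq0.ne'
      have p2 := Int.emod_nonneg (w * n + r.1 * y) hq0.ne'
      have l1 := Int.emod_lt_of_pos (u * n - r.2 * y) hq0
      have l2 := Int.emod_lt_of_pos (w * n + r.1 * y) hq0
      generalize (u * n - r.2 * y) / (q₀ : ℤ) = A at e1
      generalize (w * n + r.1 * y) / (q₀ : ℤ) = B at e2
      generalize hP1 : (u * n - r.2 * y) % (q₀ : ℤ) = P1 at e1 p1 l1
      generalize hP2 : (w * n + r.1 * y) % (q₀ : ℤ) = P2 at e2 p2 l2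
      obtain ⟨a, rfl⟩ := Int.eq_ofNat_of_zero_le p1
      obtain ⟨b, rfl⟩ := Int.eq_ofNat_of_zero_le p2
      have l1' : a < q₀ := by exact_mod_cast l1
      have l2' : b < q₀ := by exact_mod_cast l2
      simp only [hP1, hP2]
      rw [Finset.mem_coe, hS, Finset.mem_filter, Finset.mem_product]
      refine ⟨⟨by simpa using l1', by simpa using l2'⟩, ?_, ?_⟩
      · simp only [Int.toNat_natCast]
        set D := Nat.gcd (Nat.gcd a b) q₀ with hD
        have d0 : (D : ℤ) ∣ (q₀ : ℤ) := by exact_mod_cast Nat.gcd_dvd_right _ _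
        have d1 : (D : ℤ) ∣ (a : ℤ) := by
          exact_mod_cast (Nat.gcd_dvd_left (Nat.gcd a b) q₀).trans (Nat.gcd_dvd_left a b)
        have d2 : (D : ℤ) ∣ (b : ℤ) := by
          exact_mod_cast (Nat.gcd_dvd_left (Nat.gcd a b) q₀).trans (Nat.gcd_dvd_right a b)
        obtain ⟨k0, h0⟩ := d0
        obtain ⟨k1, h1⟩ := d1
        obtain ⟨k2, h2⟩ := d2
        have dn : (D : ℤ) ∣ (n : ℤ) := by
          refine ⟨r.1 * (k1 + k0 * A) + r.2 * (k2 + k0 * B), ?_⟩
          linear_combination (-(n : ℤ)) * huw - r.1 * e1 - r.2 * e2 + r.1 * h1 + r.2 * h2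
            + (r.1 * A + r.2 * B) * h0
        have dy : (D : ℤ) ∣ (y : ℤ) := by
          refine ⟨-w * (k1 + k0 * A) + u * (k2 + k0 * B), ?_⟩
          linear_combination (-(y : ℤ)) * huw + w * e1 - u * e2 - w * h1 + u * h2
            + (-w * A + u * B) * h0
        have dn' : D ∣ n := by exact_mod_cast dn
        have dy' : D ∣ y := by exact_mod_cast dy
        have dq' : D ∣ q₀ := Nat.gcd_dvd_right _ _
        have : D ∣ Nat.gcd (Nat.gcd n q₀) y := Nat.dvd_gcd (Nat.dvd_gcd dn' dq') dy'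
        rw [hy.2] at this
        exact Nat.dvd_one.1 this
      · simp only [Int.toNat_natCast, dt]
        refine ⟨-(r.1 * A + r.2 * B), ?_⟩
        linear_combination (n : ℤ) * huw + r.1 * e1 + r.2 * e2
    · intro y hy y' hy' hyy
      simp only [Finset.coe_filter, Finset.mem_range, Set.mem_ofPred_eq] at hy hy'
      have p1 := Int.emod_nonneg (u * n - r.2 * y) hq0.ne'
      have p2 := Int.emod_nonneg (w * n + r.1 * y) hq0.ne'
      have p1' := Int.emod_nonneg (u * n - r.2 * y') hq0.ne'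
      have p2' := Int.emod_nonneg (w * n + r.1 * y') hq0.ne'
      have q1 : (u * n - r.2 * y) % (q₀ : ℤ) = (u * n - r.2 * y') % (q₀ : ℤ) := by
        have := congrArg Prod.fst hyy
        simp only at this
        omega
      have q2 : (w * n + r.1 * y) % (q₀ : ℤ) = (w * n + r.1 * y') % (q₀ : ℤ) := by
        have := congrArg Prod.snd hyy
        simp only at this
        omega
      obtain ⟨k1, h1⟩ := Int.ModEq.dvd q1
      obtain ⟨k2, h2⟩ := Int.ModEq.dvd q2
      have h3 : (y' : ℤ) - y = (q₀ : ℤ) * (-w * k1 + u * k2) := by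
        linear_combination (-((y' : ℤ) - y)) * huw - w * h1 + u * h2
      have b1 : (y : ℤ) < q₀ := by exact_mod_cast hy.1
      have b2 : (y' : ℤ) < q₀ := by exact_mod_cast hy'.1
      have b3 : (0 : ℤ) ≤ y := Int.natCast_nonneg y
      have b4 : (0 : ℤ) ≤ y' := Int.natCast_nonneg y'
      have h4 : -w * k1 + u * k2 = 0 := by
        generalize -w * k1 + u * k2 = K at h3
        have u1 : K < 1 := by nlinarith
        have u2 : -1 < K := by nlinarith
        omega
      rw [h4, mul_zero] at h3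
      have : (y' : ℤ) = y := by linarith
      exact_mod_cast this.symm
  obtain ⟨m, hm⟩ := Nat.gcd_dvd_right n q₀
  obtain ⟨k, hk⟩ := Nat.gcd_dvd_left n q₀
  have c1 : ((Finset.range q₀).filter (fun y => Nat.Coprime (Nat.gcd n q₀) y)).card
      = m * (Nat.gcd n q₀).totient := by
    conv_lhs => rw [show Finset.range q₀ = Finset.range (Nat.gcd n q₀ * m) from by rw [← hm]]
    exact G2_cnt _ _
  have c2 : n.totient ≤ k * (Nat.gcd n q₀).totient := by
    conv_lhs => rw [hk]
    exact G2_tot _ _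
  have e5 : q₀ * k = n * m := by
    have h5 : Nat.gcd n q₀ * m * k = Nat.gcd n q₀ * k * m := by ring
    rw [← hm, ← hk] at h5
    exact h5
  calc q₀ * n.totient ≤ q₀ * (k * (Nat.gcd n q₀).totient) := Nat.mul_le_mul_left _ c2
    _ = n * (m * (Nat.gcd n q₀).totient) := by
      rw [← mul_assoc, e5, mul_assoc]
    _ = n * ((Finset.range q₀).filter (fun y => Nat.Coprime (Nat.gcd n q₀) y)).card := by
      rw [c1]
    _ ≤ n * S.card := Nat.mul_le_mul_left _ key

end Pool.Agent.LibZE10
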