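import Pool.Agent.LibZE10.Defs

set_option autoImplicit false

namespace Pool.Agent.LibZE10

open Pool.Agent.LibNZ69

private theorem G4_small (α β : ℝ) (h : Irrational (α / β)) (ε : ℝ) (hε : 0 < ε) :
    ∃ u v : ℤ, 0 < (u : ℝ) * α + v * β ∧ (u : ℝ) * α + v * β < ε := by
  have hd : Dense (AddSubgroup.closure {α, β} : Set ℝ) :=
    dense_addSubgroupClosure_pair_iff.2 h
  obtain ⟨z, hz, hz1, hz2⟩ := hd.exists_between hε
  rw [SetLike.mem_coe, AddSubgroup.mem_closure_pair] at hz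
  obtain ⟨u, v, huv⟩ := hz
  refine ⟨u, v, ?_, ?_⟩
  · rw [← huv] at hz1
    simpa [zsmul_eq_mul] using hz1
  · rw [← huv] at hz2
    simpa [zsmul_eq_mul] using hz2

/-- Row G4a (MEDIUM). Kronecker in one dimension. The additive subgroup generated by `α, β` is dense
(Mathlib: `dense_addSubgroupClosure_pair_iff`, `AddSubgroup.dense_of_not_isolated_zero`…), so there are
integers with `0 < u α + v β < min ε α…`; as `α, β > 0`, `u` and `v` have opposite signs, say `k₀ α - m₀ β` (or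
`m₀ β - k₀ α`) `= θ ∈ (0, ε)` with `k₀, m₀ ≥ 1`. The numbers `(K₀ + n k₀) α + (m - n m₀) β`,
`0 ≤ n ≤ (m - K₀)/m₀`, go in steps `θ` from `K₀ α + m β`; for `m` large they reach `K₀ α + (m+1) β`. -/
theorem kron (α β : ℝ) (hα : 0 < α) (hβ : 0 < β) (h : Irrational (α / β)) (ε : ℝ) (hε : 0 < ε)
    (K₀ : ℕ) : ∃ X₀ : ℝ, ∀ X : ℝ, X₀ ≤ X → ∃ k m : ℕ, K₀ ≤ k ∧ K₀ ≤ m ∧
      |(k : ℝ) * α + m * β - X| ≤ ε := by
  obtain ⟨u, v, h0, h1⟩ := G4_small α β h ε hε
  set θ : ℝ := (u : ℝ) * α + v * β with hθ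
  have hS : 0 < α + β := by linarith
  obtain ⟨N, hN⟩ := exists_nat_gt ((α + β) / θ)
  refine ⟨((K₀ : ℝ) + N * (|(u : ℝ)| + |(v : ℝ)|) + 1) * (α + β), fun X hX => ?_⟩
  set K : ℤ := ⌊X / (α + β)⌋ with hK
  have hK1 : (K : ℝ) ≤ X / (α + β) := Int.floor_le _
  have hK2 : X / (α + β) < (K : ℝ) + 1 := Int.lt_floor_add_one _
  have hK1' : (K : ℝ) * (α + β) ≤ X := by rwa [le_div_iff₀ hS] at hK1
  have hK2' : X < ((K : ℝ) + 1) * (α + β) := by rwa [div_lt_iff₀ hS] at hK2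
  set y : ℝ := X - (K : ℝ) * (α + β) with hy
  have hy0 : 0 ≤ y := by rw [hy]; linarith
  have hy1 : y < α + β := by rw [hy]; linarith
  set n : ℤ := ⌊y / θ⌋ with hn
  have hn1 : (n : ℝ) * θ ≤ y := by
    have := Int.floor_le (y / θ)
    rwa [← hn, le_div_iff₀ h0] at this
  have hn2 : y < ((n : ℝ) + 1) * θ := by
    have := Int.lt_floor_add_one (y / θ)
    rwa [← hn, div_lt_iff₀ h0] at this
  have hn0 : 0 ≤ n := Int.floor_nonneg.2 (div_nonneg hy0 h0.le)
  have hn0' : (0 : ℝ) ≤ n := by exact_mod_cast hn0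
  have hnN : (n : ℝ) ≤ N := by
    have h2 : (n : ℝ) ≤ y / θ := Int.floor_le _
    have h3 : y / θ ≤ (α + β) / θ := by gcongr
    linarith
  have hKK : (K₀ : ℝ) + N * (|(u : ℝ)| + |(v : ℝ)|) < K := by
    have h2 : ((K₀ : ℝ) + N * (|(u : ℝ)| + |(v : ℝ)|) + 1) * (α + β) <
        ((K : ℝ) + 1) * (α + β) := lt_of_le_of_lt hX hK2'
    have := lt_of_mul_lt_mul_right h2 hS.le
    linarith
  have hu : (K₀ : ℝ) ≤ (K : ℝ) + n * u := by
    have h2 : -(|(u : ℝ)|) ≤ u := neg_abs_le _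
    have h3 : (n : ℝ) * |(u : ℝ)| ≤ N * |(u : ℝ)| :=
      mul_le_mul_of_nonneg_right hnN (abs_nonneg _)
    have h4 : (n : ℝ) * (-(|(u : ℝ)|)) ≤ n * u := mul_le_mul_of_nonneg_left h2 hn0'
    have h5 : (0 : ℝ) ≤ N * |(v : ℝ)| := by positivity
    nlinarith
  have hv : (K₀ : ℝ) ≤ (K : ℝ) + n * v := by
    have h2 : -(|(v : ℝ)|) ≤ v := neg_abs_le _
    have h3 : (n : ℝ) * |(v : ℝ)| ≤ N * |(v : ℝ)| :=
      mul_le_mul_of_nonneg_right hnN (abs_nonneg _)
    have h4 : (n : ℝ) * (-(|(v : ℝ)|)) ≤ n * v := mul_le_mul_of_nonneg_left h2 hn0'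
    have h5 : (0 : ℝ) ≤ N * |(u : ℝ)| := by positivity
    nlinarith
  have hu' : (K₀ : ℤ) ≤ K + n * u := by exact_mod_cast hu
  have hv' : (K₀ : ℤ) ≤ K + n * v := by exact_mod_cast hv
  have hu0 : 0 ≤ K + n * u := le_trans (Int.natCast_nonneg _) hu'
  have hv0 : 0 ≤ K + n * v := le_trans (Int.natCast_nonneg _) hv'
  obtain ⟨k, hk⟩ := Int.eq_ofNat_of_zero_le hu0
  obtain ⟨m, hm⟩ := Int.eq_ofNat_of_zero_le hv0
  have hk' : (k : ℝ) = (K : ℝ) + n * u := by
    have : ((k : ℤ) : ℝ) = ((K + n * u : ℤ) : ℝ) := by rw [hk]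
    push_cast at this
    exact this
  have hm' : (m : ℝ) = (K : ℝ) + n * v := by
    have : ((m : ℤ) : ℝ) = ((K + n * v : ℤ) : ℝ) := by rw [hm]
    push_cast at this
    exact this
  refine ⟨k, m, ?_, ?_, ?_⟩
  · have : (K₀ : ℤ) ≤ (k : ℤ) := by rw [← hk]; exact hu'
    exact_mod_cast this
  · have : (K₀ : ℤ) ≤ (m : ℤ) := by rw [← hm]; exact hv'
    exact_mod_cast this
  · rw [hk', hm']
    have e : ((K : ℝ) + n * u) * α + ((K : ℝ) + n * v) * β - X = n * θ - y := by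
      rw [hθ, hy]; ring
    rw [e, abs_le]
    constructor
    · nlinarith
    · nlinarith

private theorem G4_phi (m : ℕ) (hm : 1 ≤ m) : ∃ u v : ℤ, 1 ≤ v ∧
    Real.goldenRatio ^ m = ((u : ℝ) + v * Real.sqrt 5) / 2 := by
  obtain ⟨n, rfl⟩ : ∃ n, m = n + 1 := ⟨m - 1, by omega⟩
  refine ⟨Nat.fib (n + 1) + 2 * Nat.fib n, Nat.fib (n + 1), ?_, ?_⟩
  · have := Nat.fib_pos.2 (Nat.succ_pos n)
    exact_mod_cast this
  · rw [← Real.goldenRatio_mul_fib_succ_add_fib, Real.goldenRatio]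
    push_cast
    ring

private theorem G4_silver (n : ℕ) (hn : 1 ≤ n) : ∃ x y : ℤ, 0 ≤ x ∧ 1 ≤ y ∧
    (1 + Real.sqrt 2) ^ n = (x : ℝ) + y * Real.sqrt 2 := by
  induction n, hn using Nat.le_induction with
  | base => exact ⟨1, 1, by norm_num, le_refl _, by simp⟩
  | succ n hn ih =>
    obtain ⟨x, y, hx, hy, h⟩ := ih
    refine ⟨x + 2 * y, x + y, by omega, by omega, ?_⟩
    have h2 : Real.sqrt 2 * Real.sqrt 2 = 2 := Real.mul_self_sqrt (by norm_num)
    rw [pow_succ, h]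
    push_cast
    linear_combination (y : ℝ) * h2

/-- Row G4b (MEDIUM). `φ^m = (u + v √5)/2` with integers `v ≥ 1`, `(1+√2)^n = x + y √2` with integers
`y ≥ 1`. Equality: `((u - 2x) + v √5)² = 8 y²`, so `u = 2 x` as `√5` is irrational, and `5 v² = 8 y²` is
impossible. -/
theorem pow_ne (m n : ℕ) (hm : 1 ≤ m) (hn : 1 ≤ n) :
    Real.goldenRatio ^ m ≠ (1 + Real.sqrt 2) ^ n := by
  intro h
  obtain ⟨u, v, hv, h1⟩ := G4_phi m hm
  obtain ⟨x, y, _, hy, h2⟩ := G4_silver n hn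
  rw [h1, h2] at h
  have s5 : Real.sqrt 5 * Real.sqrt 5 = 5 := Real.mul_self_sqrt (by norm_num)
  have s2 : Real.sqrt 2 * Real.sqrt 2 = 2 := Real.mul_self_sqrt (by norm_num)
  have e1 : ((u : ℝ) - 2 * x) + v * Real.sqrt 5 = 2 * y * Real.sqrt 2 := by linarith
  have e2 : (((u : ℝ) - 2 * x) + v * Real.sqrt 5) * (((u : ℝ) - 2 * x) + v * Real.sqrt 5) =
      8 * y ^ 2 := by
    rw [e1]
    linear_combination (4 * (y : ℝ) ^ 2) * s2
  have e3 : 2 * ((u : ℝ) - 2 * x) * v * Real.sqrt 5 =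
      8 * y ^ 2 - ((u : ℝ) - 2 * x) ^ 2 - 5 * v ^ 2 := by
    linear_combination e2 - (v : ℝ) ^ 2 * s5
  have irr5 : Irrational (Real.sqrt 5) := by
    have := Nat.Prime.irrational_sqrt (p := 5) (by norm_num)
    exact_mod_cast this
  have irr10 : Irrational (Real.sqrt 10) := by
    have h10 : ¬ IsSquare (10 : ℕ) := by
      rintro ⟨r, hr⟩
      have : r ≤ 3 ∨ 4 ≤ r := by omega
      rcases this with h | h
      · interval_cases r <;> omega
      · nlinarith
    have := (irrational_sqrt_natCast_iff (n := 10)).2 h10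
    exact_mod_cast this
  have hv0 : (v : ℝ) ≠ 0 := by
    have : v ≠ 0 := by omega
    exact_mod_cast this
  by_cases hux : u - 2 * x = 0
  · have hux' : (u : ℝ) - 2 * x = 0 := by exact_mod_cast hux
    have e4 : (5 : ℝ) * v ^ 2 = 8 * y ^ 2 := by
      rw [hux'] at e3
      linarith
    have s10 : Real.sqrt 10 = (4 * y : ℤ) / (v : ℤ) := by
      rw [Real.sqrt_eq_iff_mul_self_eq_of_pos]
      · push_cast
        field_simp
        linarith
      · have h1 : (0 : ℝ) < v := by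
          have : 0 < v := by omega
          exact_mod_cast this
        have h2 : (0 : ℝ) < y := by
          have : 0 < y := by omega
          exact_mod_cast this
        push_cast
        positivity
    apply irr10
    refine ⟨((4 * y : ℤ) : ℚ) / (v : ℤ), ?_⟩
    rw [s10]
    push_cast
    ring
  · have hux' : (u : ℝ) - 2 * x ≠ 0 := by exact_mod_cast hux
    apply irr5
    refine ⟨(8 * y ^ 2 - ((u : ℚ) - 2 * x) ^ 2 - 5 * v ^ 2) / (2 * ((u : ℚ) - 2 * x) * v), ?_⟩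
    push_cast
    rw [div_eq_iff (mul_ne_zero (mul_ne_zero two_ne_zero hux') hv0)]
    linarith

private theorem G4_log_pos : 0 < Real.log (1 + Real.sqrt 2) :=
  Real.log_pos (by
    have : 0 < Real.sqrt 2 := Real.sqrt_pos.2 (by norm_num)
    linarith)

/-- Row G4c (SHORT). -/
theorem irr_log (L L' : ℕ) (hL : 1 ≤ L) (hL' : 1 ≤ L') :
    Irrational ((L * Real.log Real.goldenRatio) / (L' * Real.log (1 + Real.sqrt 2))) := by
  rintro ⟨q, hq⟩
  have l1 : 0 < Real.log Real.goldenRatio := Real.log_pos Real.one_lt_goldenRatio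
  have l2 : 0 < Real.log (1 + Real.sqrt 2) := G4_log_pos
  have hL0 : (0 : ℝ) < L := by exact_mod_cast hL
  have hL0' : (0 : ℝ) < L' := by exact_mod_cast hL'
  have hpos : (0 : ℝ) < q := by
    rw [hq]
    exact div_pos (mul_pos hL0 l1) (mul_pos hL0' l2)
  have hq0 : 0 < q := by exact_mod_cast hpos
  have hnum : 0 < q.num := Rat.num_pos.2 hq0
  obtain ⟨p, hp⟩ := Int.eq_ofNat_of_zero_le hnum.le
  have hp1 : 1 ≤ p := by
    have : (0 : ℤ) < (p : ℤ) := by rw [← hp]; exact hnum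
    exact_mod_cast this
  have hqe : (q : ℝ) = (p : ℝ) / (q.den : ℝ) := by
    have h1 : (q : ℝ) = (q.num : ℝ) / (q.den : ℝ) := by exact_mod_cast (Rat.num_div_den q).symm
    rw [h1, hp]
    push_cast
    rfl
  have hden : (0 : ℝ) < (q.den : ℝ) := by exact_mod_cast q.den_pos
  rw [hqe, div_eq_div_iff hden.ne' (mul_pos hL0' l2).ne'] at hq
  have e : (((L * q.den : ℕ) : ℝ)) * Real.log Real.goldenRatio =
      ((L' * p : ℕ) : ℝ) * Real.log (1 + Real.sqrt 2) := by
    push_cast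
    linarith
  rw [← Real.log_pow, ← Real.log_pow] at e
  have h1 : (0 : ℝ) < Real.goldenRatio ^ (L * q.den) := by
    have := Real.goldenRatio_pos
    positivity
  have h2 : (0 : ℝ) < (1 + Real.sqrt 2) ^ (L' * p) := by positivity
  have e2 := Real.log_injOn_pos (Set.mem_Ioi.2 h1) (Set.mem_Ioi.2 h2) e
  exact pow_ne (L * q.den) (L' * p) (Nat.mul_pos hL q.den_pos) (Nat.mul_pos hL' hp1) e2

private theorem G4_inv (x : ℕ) (lam : ℝ) (hl : lam ^ 2 = x * lam + 1) (v : ℤ × ℤ) (k : ℕ) :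
    (((act (List.replicate k x) v).1 : ℝ) + lam * ((act (List.replicate k x) v).2 : ℝ) =
      lam ^ k * (v.1 + lam * v.2)) ∧
    (lam ^ k * (((act (List.replicate k x) v).2 : ℝ) -
      lam * ((act (List.replicate k x) v).1 : ℝ)) = (-1) ^ k * (v.2 - lam * v.1)) := by
  induction k with
  | zero => simp [act]
  | succ k ih =>
    obtain ⟨i1, i2⟩ := ih
    rw [List.replicate_succ]
    simp only [act, gl]
    push_cast
    constructor
    · rw [pow_succ]
      linear_combination lam * i1 - (((act (List.replicate k x) v).2 : ℤ) : ℝ) * hl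
    · rw [pow_succ, pow_succ]
      have : lam ^ k * lam * (((act (List.replicate k x) v).1 : ℝ) +
          x * ((act (List.replicate k x) v).2 : ℝ) - lam * ((act (List.replicate k x) v).2 : ℝ)) =
          - (lam ^ k * (((act (List.replicate k x) v).2 : ℝ) -
            lam * ((act (List.replicate k x) v).1 : ℝ))) := by
        linear_combination (-(lam ^ k * ((act (List.replicate k x) v).2 : ℝ))) * hl
      rw [this, i2]
      ring

/-- Row G4d (MEDIUM). `act (replicate k x) v = (f_k, f_{k+1})`, `f_0 = v.1`, `f_1 = v.2`,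
`f_{k+1} = x f_k + f_{k-1}`; `f_k = α lam^k + β (-1/lam)^k`, `α = (v.1 + lam v.2) / (lam² + 1)`,
`|β| ≤ |v.1| + |α| ≤ C (v.1 + lam v.2)`. So `c = 1/(lam² + 1)`. -/
theorem act_replicate (x : ℕ) (lam : ℝ) (hl : lam ^ 2 = x * lam + 1) (h1 : 1 < lam) :
    ∃ c : ℝ, 0 < c ∧ ∀ ε : ℝ, 0 < ε → ∃ K : ℕ, ∀ k : ℕ, K ≤ k → ∀ v : ℤ × ℤ, 0 ≤ v.1 →
      0 ≤ v.2 →
        |((act (List.replicate k x) v).1 : ℝ) - c * lam ^ k * (v.1 + lam * v.2)| ≤
          ε * (c * lam ^ k * (v.1 + lam * v.2)) ∧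
        |((act (List.replicate k x) v).2 : ℝ) - c * lam ^ (k + 1) * (v.1 + lam * v.2)| ≤
          ε * (c * lam ^ (k + 1) * (v.1 + lam * v.2)) := by
  have h0 : 0 < lam := by linarith
  refine ⟨1 / (lam ^ 2 + 1), by positivity, fun ε hε => ?_⟩
  obtain ⟨K, hK⟩ := pow_unbounded_of_one_lt (lam ^ 2 / ε) h1
  refine ⟨K, fun k hk v hv1 hv2 => ?_⟩
  obtain ⟨i1, i2⟩ := G4_inv x lam hl v k
  set f : ℝ := ((act (List.replicate k x) v).1 : ℝ) with hf
  set g : ℝ := ((act (List.replicate k x) v).2 : ℝ) with hg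
  set a : ℝ := (v.1 : ℝ) with ha
  set b : ℝ := (v.2 : ℝ) with hb
  have ha0 : 0 ≤ a := by rw [ha]; exact_mod_cast hv1
  have hb0 : 0 ≤ b := by rw [hb]; exact_mod_cast hv2
  have hk1 : lam ^ K ≤ lam ^ k := pow_le_pow_right₀ h1.le hk
  have hk2 : lam ^ 2 / ε ≤ lam ^ k := le_trans hK.le hk1
  rw [div_le_iff₀ hε] at hk2
  have hk3 : 1 ≤ lam ^ k := one_le_pow₀ h1.le
  have hk0 : 0 < lam ^ k := by positivity
  have hL : 0 ≤ a + lam * b := by positivity
  have hD : |b - lam * a| ≤ lam * (a + lam * b) := by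
    rw [abs_le]
    have : b ≤ lam * lam * b := by nlinarith [mul_nonneg hb0 h0.le]
    constructor <;> nlinarith
  have hE : lam ^ k * |g - lam * f| ≤ lam * (a + lam * b) := by
    have : lam ^ k * |g - lam * f| = |b - lam * a| := by
      have e : |lam ^ k * (g - lam * f)| = lam ^ k * |g - lam * f| := by
        rw [abs_mul, abs_of_pos hk0]
      rw [← e, i2, abs_mul, abs_pow, abs_neg, abs_one, one_pow, one_mul]
    rw [this]
    exact hD
  have hE2 : |g - lam * f| * lam ≤ ε * (lam ^ k * (a + lam * b)) := by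
    have h3 : lam ^ k * (|g - lam * f| * lam) ≤ lam ^ 2 * (a + lam * b) := by
      calc lam ^ k * (|g - lam * f| * lam) = (lam ^ k * |g - lam * f|) * lam := by ring
        _ ≤ (lam * (a + lam * b)) * lam := mul_le_mul_of_nonneg_right hE h0.le
        _ = _ := by ring
    have h4 : lam ^ 2 * (a + lam * b) ≤ lam ^ k * ε * (a + lam * b) :=
      mul_le_mul_of_nonneg_right hk2 hL
    have h5 : lam ^ k * (|g - lam * f| * lam) ≤ lam ^ k * (ε * (a + lam * b)) := by
      linarith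
    have h6 : |g - lam * f| * lam ≤ ε * (a + lam * b) := le_of_mul_le_mul_left h5 hk0
    have h7 : ε * (a + lam * b) ≤ ε * (lam ^ k * (a + lam * b)) := by
      apply mul_le_mul_of_nonneg_left _ hε.le
      nlinarith
    linarith
  have hc : 0 < lam ^ 2 + 1 := by positivity
  have e1 : f - 1 / (lam ^ 2 + 1) * lam ^ k * (a + lam * b) =
      - (1 / (lam ^ 2 + 1) * ((g - lam * f) * lam)) := by
    field_simp
    linear_combination i1
  have e2 : g - 1 / (lam ^ 2 + 1) * lam ^ (k + 1) * (a + lam * b) =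
      1 / (lam ^ 2 + 1) * (g - lam * f) := by
    field_simp
    linear_combination lam * i1
  have hc' : 0 ≤ 1 / (lam ^ 2 + 1) := by positivity
  constructor
  · rw [e1, abs_neg, abs_mul, abs_of_nonneg hc', abs_mul, abs_of_pos h0]
    calc 1 / (lam ^ 2 + 1) * (|g - lam * f| * lam) ≤
        1 / (lam ^ 2 + 1) * (ε * (lam ^ k * (a + lam * b))) :=
          mul_le_mul_of_nonneg_left hE2 hc'
      _ = _ := by ring
  · rw [e2, abs_mul, abs_of_nonneg hc']
    have h8 : |g - lam * f| ≤ ε * (lam ^ (k + 1) * (a + lam * b)) := by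
      have h9 : |g - lam * f| ≤ |g - lam * f| * lam := by
        nlinarith [abs_nonneg (g - lam * f)]
      have h10 : ε * (lam ^ k * (a + lam * b)) ≤ ε * (lam ^ (k + 1) * (a + lam * b)) := by
        apply mul_le_mul_of_nonneg_left _ hε.le
        apply mul_le_mul_of_nonneg_right _ hL
        rw [pow_succ]
        nlinarith
      linarith
    calc 1 / (lam ^ 2 + 1) * |g - lam * f| ≤
        1 / (lam ^ 2 + 1) * (ε * (lam ^ (k + 1) * (a + lam * b))) :=
          mul_le_mul_of_nonneg_left h8 hc'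
      _ = _ := by ring

end Pool.Agent.LibZE10
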