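import Pool.Agent.LibZE10.G1
import Pool.Agent.LibZE10.G4

set_option autoImplicit false

namespace Pool.Agent.LibZE10

open Pool.Agent.LibNZ69

private theorem G5_nonneg (h : List ℕ) (v : ℤ × ℤ) (h1 : 0 ≤ v.1) (h2 : 0 ≤ v.2) :
    0 ≤ (act h v).1 ∧ 0 ≤ (act h v).2 := by
  induction h with
  | nil => exact ⟨h1, h2⟩
  | cons a w ih =>
    refine ⟨ih.2, ?_⟩
    show 0 ≤ (act w v).1 + (a : ℤ) * (act w v).2
    have i1 := ih.1
    have i2 := ih.2
    positivity

private theorem G5_lin (h : List ℕ) (y : ℤ × ℤ) :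
    act h y = y.1 • act h (1, 0) + y.2 • act h (0, 1) := by
  rw [← act_smul, ← act_smul, ← act_add]
  have e : y = y.1 • ((1 : ℤ), (0 : ℤ)) + y.2 • ((0 : ℤ), (1 : ℤ)) := by
    ext <;> simp
  exact congrArg (act h) e

private theorem G5_prod (x y X Y e : ℝ) (he0 : 0 ≤ e) (he1 : e ≤ 1) (hX : 0 ≤ X) (hY : 0 ≤ Y)
    (hx : |x - X| ≤ e * X) (hy : |y - Y| ≤ e * Y) : |x * y - X * Y| ≤ 3 * e * (X * Y) := by
  have h1 : x * y - X * Y = (x - X) * (y - Y) + (x - X) * Y + X * (y - Y) := by ring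
  have h2 : |(x - X) * (y - Y) + (x - X) * Y + X * (y - Y)| ≤
      |(x - X) * (y - Y)| + |(x - X) * Y| + |X * (y - Y)| := abs_add_three _ _ _
  rw [abs_mul, abs_mul, abs_mul, abs_of_nonneg hY, abs_of_nonneg hX] at h2
  rw [h1]
  have a1 : |x - X| * |y - Y| ≤ (e * X) * (e * Y) :=
    mul_le_mul hx hy (abs_nonneg _) (mul_nonneg he0 hX)
  have a2 : |x - X| * Y ≤ (e * X) * Y := mul_le_mul_of_nonneg_right hx hY
  have a3 : X * |y - Y| ≤ X * (e * Y) := mul_le_mul_of_nonneg_left hy hX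
  have hXY : 0 ≤ X * Y := mul_nonneg hX hY
  have a4 : (e * X) * (e * Y) ≤ e * (X * Y) := by
    have : e * (e * (X * Y)) ≤ 1 * (e * (X * Y)) :=
      mul_le_mul_of_nonneg_right he1 (mul_nonneg he0 hXY)
    calc (e * X) * (e * Y) = e * (e * (X * Y)) := by ring
      _ ≤ 1 * (e * (X * Y)) := this
      _ = e * (X * Y) := by ring
  calc |(x - X) * (y - Y) + (x - X) * Y + X * (y - Y)|
      ≤ |x - X| * |y - Y| + |x - X| * Y + X * |y - Y| := h2
    _ ≤ e * (X * Y) + (e * X) * Y + X * (e * Y) := by linarith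
    _ = 3 * e * (X * Y) := by ring

private theorem G5_form (h : List ℕ) : ∃ a b c d : ℝ, 0 ≤ a ∧ 0 ≤ b ∧ 0 ≤ c ∧ 0 ≤ d ∧
    1 ≤ a + b ∧ ∀ x y : ℤ × ℤ, ((dt x (act h y) : ℤ) : ℝ) =
      a * ((x.1 : ℝ) * y.1) + b * ((x.2 : ℝ) * y.1) + c * ((x.1 : ℝ) * y.2) +
        d * ((x.2 : ℝ) * y.2) := by
  obtain ⟨p1, p2⟩ := G5_nonneg h (1, 0) (by norm_num) (by norm_num)
  obtain ⟨q1, q2⟩ := G5_nonneg h (0, 1) (by norm_num) (by norm_num)
  have hne : act h (1, 0) ≠ 0 := act_ne_zero h (1, 0) (by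
    intro e
    have := congrArg Prod.fst e
    simp at this)
  refine ⟨((act h (1, 0)).1 : ℝ), ((act h (1, 0)).2 : ℝ), ((act h (0, 1)).1 : ℝ),
    ((act h (0, 1)).2 : ℝ), by exact_mod_cast p1, by exact_mod_cast p2, by exact_mod_cast q1,
    by exact_mod_cast q2, ?_, ?_⟩
  · have : (1 : ℤ) ≤ (act h (1, 0)).1 + (act h (1, 0)).2 := by
      by_contra hcon
      push Not at hcon
      apply hne
      have e1 : (act h (1, 0)).1 = 0 := by omega
      have e2 : (act h (1, 0)).2 = 0 := by omega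
      exact Prod.ext e1 e2
    exact_mod_cast this
  · intro x y
    rw [G5_lin h y]
    unfold dt
    simp only [Prod.fst_add, Prod.snd_add, Prod.smul_fst, Prod.smul_snd, smul_eq_mul]
    push_cast
    ring

/-- Row G5 (MEDIUM). Tuning words `c = replicate (L k) 1 ++ h ++ replicate (L' m) 2`, `L, L'` periods
modulo `q₀` (`exists_period`, `period_mul`). `dt r (act c s) = dt (act (replicate (L k) 1) r)
(act h (act (replicate (L' m) 2) s))` (`dt_row`, `row_eq`, `List.reverse_replicate`). By `act_replicate` (for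
`1`, `φ` and `2`, `1 + √2`) with a small `ε₁` both vectors are, up to the relative error `ε₁` in each
coordinate, `c₁ φ^(L k) Pl r (1, φ)` and `c₂ (1+√2)^(L' m) Pr s (1, 1+√2)`; the matrix of `h` has nonnegative
entries (not all zero), so with `γ = ⟨(1, φ), g_h (1, 1+√2)⟩ > 0`
`dt r (act c s) = c₁ c₂ γ φ^(L k) (1+√2)^(L' m) Pl r Pr s (1 + O(3 ε₁))`. By `kron`, `irr_log` choose `k, m ≥ K` with
`|L k log φ + L' m log (1+√2) - log (X / (c₁ c₂ γ))| ≤ ε₁`. -/
theorem tune (q₀ : ℕ) (hq : 1 ≤ q₀) (h : List ℕ) (hh : W12 h) (ε : ℝ) (hε : 0 < ε) :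
    ∃ X₀ : ℝ, ∀ X : ℝ, X₀ ≤ X → ∃ c : List ℕ, W12 c ∧ cong q₀ c h ∧
      ∀ r s : ℤ × ℤ, 0 ≤ r.1 → 0 ≤ r.2 → 0 ≤ s.1 → 0 ≤ s.2 →
        |((dt r (act c s) : ℤ) : ℝ) - X * (Pl r * Pr s)| ≤ ε * (X * (Pl r * Pr s)) := by
  obtain ⟨L, hL1, hLc⟩ := exists_period q₀ hq 1
  obtain ⟨L', hL1', hLc'⟩ := exists_period q₀ hq 2
  have hs2 : (0 : ℝ) < Real.sqrt 2 := Real.sqrt_pos.mpr (by norm_num)
  have hs2s : Real.sqrt 2 ^ 2 = 2 := Real.sq_sqrt (by norm_num)
  have hφ1 : (1 : ℝ) < Real.goldenRatio := Real.one_lt_goldenRatio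
  have hφ0 : (0 : ℝ) < Real.goldenRatio := by linarith
  obtain ⟨c₁, hc₁, H₁⟩ := act_replicate 1 Real.goldenRatio (by
    rw [Real.goldenRatio_sq]; push_cast; ring) hφ1
  obtain ⟨c₂, hc₂, H₂⟩ := act_replicate 2 (1 + Real.sqrt 2) (by
    push_cast; nlinarith) (by linarith)
  set φ : ℝ := Real.goldenRatio with hφ
  set μ : ℝ := 1 + Real.sqrt 2 with hμ
  have hμ1 : 1 < μ := by rw [hμ]; linarith
  have hμ0 : 0 < μ := by linarith
  obtain ⟨a, b, cc, d, ha, hb, hcc, hd, hab, hform⟩ := G5_form h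
  set e₁ : ℝ := min ε 1 / 20 with he₁
  have he0 : 0 < e₁ := by
    rw [he₁]; exact div_pos (lt_min hε one_pos) (by norm_num)
  have he1 : e₁ ≤ 1 / 20 := by
    rw [he₁]; exact div_le_div_of_nonneg_right (min_le_right _ _) (by norm_num)
  have heε : 20 * e₁ ≤ ε := by
    rw [he₁]; have := min_le_left ε 1; linarith
  obtain ⟨K₁, hK₁⟩ := H₁ e₁ he0
  obtain ⟨K₂, hK₂⟩ := H₂ e₁ he0
  set γ : ℝ := a + b * φ + cc * μ + d * (φ * μ) with hγ
  have hγ0 : 0 < γ := by
    have h1 : a + b ≤ a + b * φ := by nlinarith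
    have h2 : 0 ≤ cc * μ := mul_nonneg hcc hμ0.le
    have h3 : 0 ≤ d * (φ * μ) := by positivity
    rw [hγ]; linarith
  have hG0 : 0 < c₁ * c₂ * γ := by positivity
  have hlφ : 0 < Real.log φ := Real.log_pos hφ1
  have hlμ : 0 < Real.log μ := Real.log_pos hμ1
  have hLr : (0 : ℝ) < L := by exact_mod_cast hL1
  have hLr' : (0 : ℝ) < L' := by exact_mod_cast hL1'
  obtain ⟨X₁, hX₁⟩ := kron (L * Real.log φ) (L' * Real.log μ) (by positivity) (by positivity)
    (irr_log L L' hL1 hL1') e₁ he0 (max K₁ K₂)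
  refine ⟨c₁ * c₂ * γ * Real.exp X₁, ?_⟩
  intro X hX
  have hXpos : 0 < X := lt_of_lt_of_le (by positivity) hX
  have hlog : X₁ ≤ Real.log (X / (c₁ * c₂ * γ)) := by
    rw [Real.le_log_iff_exp_le (by positivity), le_div_iff₀ hG0]
    linarith
  obtain ⟨k, m, hk, hm, hkm⟩ := hX₁ _ hlog
  refine ⟨List.replicate (L * k) 1 ++ h ++ List.replicate (L' * m) 2, ?_, ?_, ?_⟩
  · intro x hx
    simp only [List.mem_append] at hx
    rcases hx with (hx | hx) | hx
    · left; exact (List.mem_replicate.mp hx).2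
    · exact hh x hx
    · right; exact (List.mem_replicate.mp hx).2
  · have e1 := period_mul q₀ 1 L k hLc
    have e2 := period_mul q₀ 2 L' m hLc'
    have e3 := cong_append (cong_append e1 (cong_refl q₀ h)) e2
    simpa using e3
  · intro r s hr1 hr2 hs1 hs2'
    have hkL : K₁ ≤ L * k := by
      have : k ≤ L * k := Nat.le_mul_of_pos_left k hL1
      have := le_max_left K₁ K₂
      omega
    have hmL : K₂ ≤ L' * m := by
      have : m ≤ L' * m := Nat.le_mul_of_pos_left m hL1'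
      have := le_max_right K₁ K₂
      omega
    obtain ⟨x1, x2⟩ := hK₁ (L * k) hkL r hr1 hr2
    obtain ⟨y1, y2⟩ := hK₂ (L' * m) hmL s hs1 hs2'
    have hdt : dt r (act (List.replicate (L * k) 1 ++ h ++ List.replicate (L' * m) 2) s) =
        dt (act (List.replicate (L * k) 1) r) (act h (act (List.replicate (L' * m) 2) s)) := by
      rw [act_append, act_append, ← dt_row, row_eq, List.reverse_replicate]
    rw [hdt, hform]
    set x : ℤ × ℤ := act (List.replicate (L * k) 1) r with hx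
    set y : ℤ × ℤ := act (List.replicate (L' * m) 2) s with hy
    have hP : 0 ≤ (r.1 : ℝ) + φ * r.2 := by
      have t1 : (0 : ℝ) ≤ (r.1 : ℝ) := by exact_mod_cast hr1
      have t2 : (0 : ℝ) ≤ (r.2 : ℝ) := by exact_mod_cast hr2
      positivity
    have hR : 0 ≤ (s.1 : ℝ) + μ * s.2 := by
      have t1 : (0 : ℝ) ≤ (s.1 : ℝ) := by exact_mod_cast hs1
      have t2 : (0 : ℝ) ≤ (s.2 : ℝ) := by exact_mod_cast hs2'
      positivity
    have hPl : Pl r = (r.1 : ℝ) + φ * r.2 := rfl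
    have hPr : Pr s = (s.1 : ℝ) + μ * s.2 := rfl
    rw [hPl, hPr]
    set P : ℝ := (r.1 : ℝ) + φ * r.2 with hPdef
    set R : ℝ := (s.1 : ℝ) + μ * s.2 with hRdef
    set X1 : ℝ := c₁ * φ ^ (L * k) * P with hX1
    set X2 : ℝ := c₁ * φ ^ (L * k + 1) * P with hX2
    set Y1 : ℝ := c₂ * μ ^ (L' * m) * R with hY1
    set Y2 : ℝ := c₂ * μ ^ (L' * m + 1) * R with hY2
    have hX1n : 0 ≤ X1 := by positivity
    have hX2n : 0 ≤ X2 := by positivity
    have hY1n : 0 ≤ Y1 := by positivity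
    have hY2n : 0 ≤ Y2 := by positivity
    have he1' : e₁ ≤ 1 := by linarith
    have p11 := G5_prod _ _ _ _ e₁ he0.le he1' hX1n hY1n x1 y1
    have p21 := G5_prod _ _ _ _ e₁ he0.le he1' hX2n hY1n x2 y1
    have p12 := G5_prod _ _ _ _ e₁ he0.le he1' hX1n hY2n x1 y2
    have p22 := G5_prod _ _ _ _ e₁ he0.le he1' hX2n hY2n x2 y2
    rw [abs_le] at p11 p21 p12 p22
    set B : ℝ := a * (X1 * Y1) + b * (X2 * Y1) + cc * (X1 * Y2) + d * (X2 * Y2) with hB
    set D : ℝ := a * ((x.1 : ℝ) * y.1) + b * ((x.2 : ℝ) * y.1) + cc * ((x.1 : ℝ) * y.2) +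
      d * ((x.2 : ℝ) * y.2) with hD
    have hDB : |D - B| ≤ 3 * e₁ * B := by
      have u1 := mul_le_mul_of_nonneg_left p11.1 ha
      have u2 := mul_le_mul_of_nonneg_left p11.2 ha
      have u3 := mul_le_mul_of_nonneg_left p21.1 hb
      have u4 := mul_le_mul_of_nonneg_left p21.2 hb
      have u5 := mul_le_mul_of_nonneg_left p12.1 hcc
      have u6 := mul_le_mul_of_nonneg_left p12.2 hcc
      have u7 := mul_le_mul_of_nonneg_left p22.1 hd
      have u8 := mul_le_mul_of_nonneg_left p22.2 hd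
      rw [abs_le]
      constructor
      · rw [hD, hB]; linarith
      · rw [hD, hB]; linarith
    -- the main term
    set t : ℝ := (k : ℝ) * (L * Real.log φ) + m * (L' * Real.log μ) -
      Real.log (X / (c₁ * c₂ * γ)) with ht
    have hB2 : B = Real.exp t * (X * (P * R)) := by
      have f1 : φ ^ (L * k) = Real.exp ((k : ℝ) * (L * Real.log φ)) := by
        rw [← Real.exp_log (pow_pos hφ0 (L * k)), Real.log_pow]
        congr 1
        push_cast
        ring
      have f2 : μ ^ (L' * m) = Real.exp ((m : ℝ) * (L' * Real.log μ)) := by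
        rw [← Real.exp_log (pow_pos hμ0 (L' * m)), Real.log_pow]
        congr 1
        push_cast
        ring
      have f3 : Real.exp t = φ ^ (L * k) * μ ^ (L' * m) * (c₁ * c₂ * γ) / X := by
        rw [ht, Real.exp_sub, Real.exp_add, ← f1, ← f2, Real.exp_log (by positivity)]
        field_simp
      rw [f3, hB, hX1, hX2, hY1, hY2, hγ]
      field_simp
      ring
    have hXPR : 0 ≤ X * (P * R) := by positivity
    have hexp : |Real.exp t - 1| ≤ 2 * e₁ := by
      have h1 : |t| ≤ 1 := le_trans hkm he1'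
      calc |Real.exp t - 1| ≤ 2 * |t| := Real.abs_exp_sub_one_le h1
        _ ≤ 2 * e₁ := by linarith [hkm]
    have hBX : |B - X * (P * R)| ≤ 2 * e₁ * (X * (P * R)) := by
      have : B - X * (P * R) = (Real.exp t - 1) * (X * (P * R)) := by rw [hB2]; ring
      rw [this, abs_mul, abs_of_nonneg hXPR]
      exact mul_le_mul_of_nonneg_right hexp hXPR
    rw [abs_le] at hDB hBX
    have hBle : B ≤ 2 * (X * (P * R)) := by
      have : 2 * e₁ * (X * (P * R)) ≤ 1 * (X * (P * R)) :=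
        mul_le_mul_of_nonneg_right (by linarith) hXPR
      linarith [hBX.2]
    have h3 : 3 * e₁ * B ≤ 3 * e₁ * (2 * (X * (P * R))) :=
      mul_le_mul_of_nonneg_left hBle (by positivity)
    have h4 : 20 * e₁ * (X * (P * R)) ≤ ε * (X * (P * R)) :=
      mul_le_mul_of_nonneg_right heε hXPR
    have h5 : 0 ≤ e₁ * (X * (P * R)) := mul_nonneg he0.le hXPR
    rw [abs_le]
    constructor
    · linarith [hDB.1, hBX.1]
    · linarith [hDB.2, hBX.2]

end Pool.Agent.LibZE10
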