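import Pool.Agent.LibZE10.G3
import Pool.Agent.LibZE10.G5

set_option autoImplicit false

namespace Pool.Agent.LibZE10

open Pool.Agent.LibNZ69

/-- Row G6 (SHORT/MEDIUM). The family. `m = #T` from `uni`, `h_i` the elements of `T`; `R` the least
number with `D ≤ (1 + κ/4)^(R-1)`, so `(1+κ/4)^(R-1) ≤ 2 D` and `R κ ≤ C` (`(1+κ/4)^(8/κ…) ≥ 2`-type bound, e.g.
`log (1+κ/4) ≥ κ/8`); `τ₀` = the largest of the finitely many `X₀` of `tune` with `ε = κ/8`; `c ρ i` = the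
tuning word for `h_i` with `X = τ (1+κ/4)^ρ`. `c ρ i ≡ h_i`, so `dt r (act (c ρ i) s) ≡ dt r (act h_i s)`. -/
theorem family (D : ℝ) (hD : 1 ≤ D) : ∃ C : ℝ, 1 ≤ C ∧ ∀ q₀ : ℕ, 1 ≤ q₀ → ∀ κ : ℝ, 0 < κ →
    κ ≤ 1 → ∃ R m : ℕ, 1 ≤ R ∧ 1 ≤ m ∧ (R : ℝ) * κ ≤ C ∧ D ≤ (1 + κ / 4) ^ (R - 1) ∧
      (1 + κ / 4) ^ (R - 1) ≤ 2 * D ∧ ∃ τ₀ : ℕ, ∀ τ : ℕ, τ₀ ≤ τ → ∃ c : ℕ → ℕ → List ℕ,
        (∀ ρ i, W12 (c ρ i)) ∧
        (∀ ρ < R, ∀ i < m, ∀ i' < m, c ρ i = c ρ i' → i = i') ∧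
        (∀ ρ < R, ∀ i < m, ∀ r s : ℤ × ℤ, 0 ≤ r.1 → 0 ≤ r.2 → 0 ≤ s.1 → 0 ≤ s.2 →
          |((dt r (act (c ρ i) s) : ℤ) : ℝ) - τ * (1 + κ / 4) ^ ρ * (Pl r * Pr s)| ≤
            κ / 8 * (τ * (1 + κ / 4) ^ ρ * (Pl r * Pr s))) ∧
        (∀ ρ < R, ∀ r s : ℤ × ℤ, IsCoprime r.1 r.2 → IsCoprime s.1 s.2 → ∀ n : ℕ, 1 ≤ n →
          (m : ℝ) * n.totient ≤ (q₀ : ℝ) * n * (((Finset.range m).filter
            (fun i => (q₀ : ℤ) ∣ dt r (act (c ρ i) s) - (n : ℤ))).card : ℝ)) := by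
  classical
  refine ⟨8 * D + 1, by linarith, ?_⟩
  intro q₀ hq κ hκ hκ1
  obtain ⟨T, hTne, hTW, hTinj, hTcount⟩ := uni q₀ hq
  have hone : (1 : ℝ) < 1 + κ / 4 := by linarith
  obtain ⟨N1, hN1⟩ := pow_unbounded_of_one_lt D hone
  have hex : ∃ N : ℕ, D ≤ (1 + κ / 4) ^ N := ⟨N1, hN1.le⟩
  obtain ⟨N, hND, hNmin⟩ : ∃ N : ℕ, D ≤ (1 + κ / 4) ^ N ∧ ∀ k < N, (1 + κ / 4) ^ k < D :=
    ⟨Nat.find hex, Nat.find_spec hex, fun k hk => not_le.mp (Nat.find_min hex hk)⟩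
  have hN2 : (1 + κ / 4) ^ N ≤ 2 * D := by
    rcases Nat.eq_zero_or_pos N with h0 | hpos
    · rw [h0, pow_zero]; linarith
    · have hlt : (1 + κ / 4) ^ (N - 1) < D := hNmin _ (by omega)
      have hsp : (1 + κ / 4) ^ N = (1 + κ / 4) ^ (N - 1) * (1 + κ / 4) := by
        rw [← pow_succ]; congr 1; omega
      rw [hsp]
      have hp : 0 < (1 + κ / 4) ^ (N - 1) := by positivity
      nlinarith
  have hNk : (N : ℝ) * κ ≤ 8 * D := by
    have h1 := one_add_mul_le_pow (a := κ / 4) (by linarith : (-2 : ℝ) ≤ κ / 4) N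
    nlinarith
  choose! X0 hX0 using fun h (hh : h ∈ T) => tune q₀ hq h (hTW h hh) (κ / 8) (by positivity)
  obtain ⟨B, hB⟩ := (T.image X0).exists_le
  refine ⟨N + 1, T.card, by omega, Finset.card_pos.mpr hTne, ?_, by simpa using hND,
    by simpa using hN2, ⌈B⌉₊, ?_⟩
  · push_cast
    nlinarith
  intro τ hτ
  have hBτ : B ≤ τ := Nat.ceil_le.mp hτ
  have hXle : ∀ ρ : ℕ, ∀ h ∈ T, X0 h ≤ τ * (1 + κ / 4) ^ ρ := by
    intro ρ h hh
    have h1 : X0 h ≤ B := hB _ (Finset.mem_image_of_mem _ hh)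
    have h2 : (1 : ℝ) ≤ (1 + κ / 4) ^ ρ := one_le_pow₀ hone.le
    have h3 : (0 : ℝ) ≤ τ := Nat.cast_nonneg τ
    nlinarith
  choose! w hw using fun (ρ : ℕ) h (hh : h ∈ T) => hX0 h hh _ (hXle ρ h hh)
  obtain ⟨hf, hfT, hfinj, hfsurj⟩ : ∃ hf : ℕ → List ℕ, (∀ i < T.card, hf i ∈ T) ∧
      (∀ i < T.card, ∀ i' < T.card, hf i = hf i' → i = i') ∧
      (∀ h ∈ T, ∃ i < T.card, hf i = h) := by
    refine ⟨fun i => if hi : i < T.card then (T.equivFin.symm ⟨i, hi⟩ : List ℕ) else [],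
      ?_, ?_, ?_⟩
    · intro i hi
      simp only [hi, dif_pos]
      exact (T.equivFin.symm ⟨i, hi⟩).2
    · intro i hi i' hi' h
      simp only [hi, hi', dif_pos] at h
      have h1 := T.equivFin.symm.injective (Subtype.ext h)
      exact congrArg Fin.val h1
    · intro h hh
      refine ⟨(T.equivFin ⟨h, hh⟩).1, (T.equivFin ⟨h, hh⟩).2, ?_⟩
      simp
  refine ⟨fun ρ i => if i < T.card then w ρ (hf i) else [], ?_, ?_, ?_, ?_⟩
  · intro ρ i
    by_cases hi : i < T.card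
    · simp only [hi, if_true]
      exact (hw ρ (hf i) (hfT i hi)).1
    · simp only [hi, if_false]
      intro x hx
      simp at hx
  · intro ρ _ i hi i' hi' h
    simp only [hi, hi', if_true] at h
    apply hfinj i hi i' hi'
    apply hTinj _ (hfT i hi) _ (hfT i' hi')
    have h1 := (hw ρ (hf i) (hfT i hi)).2.1
    have h2 := (hw ρ (hf i') (hfT i' hi')).2.1
    intro v
    have a1 := h1 v
    have a2 := h2 v
    rw [← h] at a2
    refine ⟨?_, ?_⟩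
    · have := dvd_sub a2.1 a1.1
      have e : (act (w ρ (hf i)) v).1 - (act (hf i') v).1 -
        ((act (w ρ (hf i)) v).1 - (act (hf i) v).1) = (act (hf i) v).1 - (act (hf i') v).1 := by
        ring
      rwa [e] at this
    · have := dvd_sub a2.2 a1.2
      have e : (act (w ρ (hf i)) v).2 - (act (hf i') v).2 -
        ((act (w ρ (hf i)) v).2 - (act (hf i) v).2) = (act (hf i) v).2 - (act (hf i') v).2 := by
        ring
      rwa [e] at this
  · intro ρ _ i hi r s h1 h2 h3 h4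
    simp only [hi, if_true]
    exact (hw ρ (hf i) (hfT i hi)).2.2 r s h1 h2 h3 h4
  · intro ρ _ r s hr hs n hn
    refine (hTcount r s hr hs n hn).trans ?_
    have hcard : (T.filter (fun h => (q₀ : ℤ) ∣ dt r (act h s) - (n : ℤ))).card ≤
        ((Finset.range T.card).filter (fun i => (q₀ : ℤ) ∣
          dt r (act (if i < T.card then w ρ (hf i) else []) s) - (n : ℤ))).card := by
      refine (Finset.card_le_card (t := ((Finset.range T.card).filter (fun i => (q₀ : ℤ) ∣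
          dt r (act (if i < T.card then w ρ (hf i) else []) s) - (n : ℤ))).image hf) ?_).trans
        Finset.card_image_le
      intro h hh
      rw [Finset.mem_filter] at hh
      obtain ⟨i, hi, rfl⟩ := hfsurj h hh.1
      refine Finset.mem_image.mpr ⟨i, ?_, rfl⟩
      rw [Finset.mem_filter, Finset.mem_range]
      refine ⟨hi, ?_⟩
      simp only [hi, if_true]
      have h1 := (hw ρ (hf i) (hfT i hi)).2.1 s
      have h2 : (q₀ : ℤ) ∣ r.1 * ((act (w ρ (hf i)) s).1 - (act (hf i) s).1) +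
          r.2 * ((act (w ρ (hf i)) s).2 - (act (hf i) s).2) :=
        dvd_add (Dvd.dvd.mul_left h1.1 _) (Dvd.dvd.mul_left h1.2 _)
      have h3 := dvd_add h2 hh.2
      have e : r.1 * ((act (w ρ (hf i)) s).1 - (act (hf i) s).1) +
          r.2 * ((act (w ρ (hf i)) s).2 - (act (hf i) s).2) + (dt r (act (hf i) s) - (n : ℤ)) =
          dt r (act (w ρ (hf i)) s) - (n : ℤ) := by
        unfold dt
        ring
      rwa [e] at h3
    have hc : ((T.filter (fun h => (q₀ : ℤ) ∣ dt r (act h s) - (n : ℤ))).card : ℝ) ≤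
        (((Finset.range T.card).filter (fun i => (q₀ : ℤ) ∣
          dt r (act (if i < T.card then w ρ (hf i) else []) s) - (n : ℤ))).card : ℝ) := by
      exact_mod_cast hcard
    exact mul_le_mul_of_nonneg_left hc (by positivity)

end Pool.Agent.LibZE10
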