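import Pool.Agent.LibZE10.G6
import Pool.Agent.LibZE10.G7
import Pool.Agent.LibZE10.A3

set_option autoImplicit false

namespace Pool.Agent.LibZE10

open Pool.Agent.LibNZ69

private theorem G8_phi : (1.618 : ℝ) ≤ Real.goldenRatio ∧ Real.goldenRatio ≤ 1.6181 := by
  have h5 : (2.236 : ℝ) ≤ Real.sqrt 5 := by
    apply Real.le_sqrt_of_sq_le
    norm_num
  have h5' : Real.sqrt 5 ≤ 2.2361 := by
    rw [Real.sqrt_le_left (by norm_num)]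
    norm_num
  unfold Real.goldenRatio
  constructor <;> linarith

private theorem G8_sqrt2 : (1.4142 : ℝ) ≤ Real.sqrt 2 ∧ Real.sqrt 2 ≤ 1.4143 := by
  constructor
  · apply Real.le_sqrt_of_sq_le
    norm_num
  · rw [Real.sqrt_le_left (by norm_num)]
    norm_num

/-- Row G8a (SHORT/MEDIUM). Sizes: for words with positive letters
`15 kk y kk x ≤ Pl (vec y) Pr (vec x) ≤ 81 kk y kk x` (`vec_bounds`:
`2 kk ≤ (vec).2 ≤ 3 kk`, `0 < (vec).1 ≤ (vec).2`; `φ ≥ 1.6`, `1 + √2 ≥ 2.4`, upper `(1+φ) 3 ≤ 7.86`,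
`(2+√2) 3 ≤ 10.25`). -/
theorem P_bounds (y x : List ℕ) (hy : ∀ z ∈ y, 1 ≤ z) (hx : ∀ z ∈ x, 1 ≤ z) :
    15 * ((kk y : ℝ) * kk x) ≤ Pl (vec y) * Pr (vec x) ∧
      Pl (vec y) * Pr (vec x) ≤ 81 * ((kk y : ℝ) * kk x) := by
  obtain ⟨a1, a2, -, a3, a4⟩ := vec_bounds y hy
  obtain ⟨b1, b2, -, b3, b4⟩ := vec_bounds x hx
  obtain ⟨f1, f2⟩ := G8_phi
  obtain ⟨g1, g2⟩ := G8_sqrt2
  have ky : (0 : ℝ) ≤ kk y := Nat.cast_nonneg _
  have kx : (0 : ℝ) ≤ kk x := Nat.cast_nonneg _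
  have A1 : (0 : ℝ) < (vec y).1 := by exact_mod_cast a1
  have A2 : ((vec y).1 : ℝ) ≤ (vec y).2 := by exact_mod_cast a2
  have A3 : 2 * (kk y : ℝ) ≤ (vec y).2 := by exact_mod_cast a3
  have A4 : ((vec y).2 : ℝ) ≤ 3 * kk y := by exact_mod_cast a4
  have B1 : (0 : ℝ) < (vec x).1 := by exact_mod_cast b1
  have B2 : ((vec x).1 : ℝ) ≤ (vec x).2 := by exact_mod_cast b2
  have B3 : 2 * (kk x : ℝ) ≤ (vec x).2 := by exact_mod_cast b3
  have B4 : ((vec x).2 : ℝ) ≤ 3 * kk x := by exact_mod_cast b4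
  have P1 : 3.2 * (kk y : ℝ) ≤ Pl (vec y) := by
    unfold Pl
    have : (1.6 : ℝ) * (2 * kk y) ≤ Real.goldenRatio * (vec y).2 :=
      mul_le_mul (by linarith) A3 (by positivity) (by linarith)
    linarith
  have P2 : Pl (vec y) ≤ 7.86 * (kk y : ℝ) := by
    unfold Pl
    have : Real.goldenRatio * (vec y).2 ≤ (1.62 : ℝ) * (3 * kk y) :=
      mul_le_mul (by linarith) A4 (by linarith) (by norm_num)
    linarith
  have Q1 : 4.8 * (kk x : ℝ) ≤ Pr (vec x) := by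
    unfold Pr
    have : (2.4 : ℝ) * (2 * kk x) ≤ (1 + Real.sqrt 2) * (vec x).2 :=
      mul_le_mul (by linarith) B3 (by positivity) (by linarith)
    linarith
  have Q2 : Pr (vec x) ≤ 10.245 * (kk x : ℝ) := by
    unfold Pr
    have : (1 + Real.sqrt 2) * (vec x).2 ≤ (2.415 : ℝ) * (3 * kk x) :=
      mul_le_mul (by linarith) B4 (by linarith) (by norm_num)
    linarith
  constructor
  · have := mul_le_mul P1 Q1 (by positivity) (by linarith [mul_nonneg (by norm_num : (0 : ℝ) ≤ 3.2) ky])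
    nlinarith [mul_nonneg ky kx]
  · have := mul_le_mul P2 Q2 (by linarith [mul_nonneg (by norm_num : (0 : ℝ) ≤ 4.8) kx]) (by positivity)
    nlinarith [mul_nonneg ky kx]

/-- Row G8b (SHORT/MEDIUM). The choice of `ρ`: if `τ ≤ n / D₀ ≤ D τ`, `D ≤ (1+κ/4)^(R-1)`, then for some
`ρ < R`: `|τ (1+κ/4)^ρ D₀ - n| ≤ κ/4 n` and `τ (1+κ/4)^ρ D₀ ≤ n`. (The largest `ρ ≤ R-1` with
`τ (1+κ/4)^ρ D₀ ≤ n`.) -/
theorem choose_rho (κ τ D D₀ n : ℝ) (R : ℕ) (hκ : 0 < κ) (hκ1 : κ ≤ 1) (hR : 1 ≤ R) (hD₀ : 0 < D₀)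
    (hτ : 0 < τ) (h1 : τ * D₀ ≤ n) (h2 : n ≤ D * (τ * D₀)) (h3 : D ≤ (1 + κ / 4) ^ (R - 1)) :
    ∃ ρ < R, τ * (1 + κ / 4) ^ ρ * D₀ ≤ n ∧ n - τ * (1 + κ / 4) ^ ρ * D₀ ≤ κ / 4 * n := by
  have key : ∀ m : ℕ, n ≤ τ * (1 + κ / 4) ^ m * D₀ →
      ∃ ρ ≤ m, τ * (1 + κ / 4) ^ ρ * D₀ ≤ n ∧ n ≤ τ * (1 + κ / 4) ^ (ρ + 1) * D₀ := by
    intro m
    induction m with
    | zero =>
      intro h
      refine ⟨0, le_refl _, by simpa using h1, ?_⟩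
      have : τ * D₀ ≤ τ * (1 + κ / 4) ^ (0 + 1) * D₀ := by
        have h4 : 0 < τ * D₀ := mul_pos hτ hD₀
        have h5 : 0 ≤ κ / 4 * (τ * D₀) := by positivity
        simp only [zero_add, pow_one]
        nlinarith
      simp only [pow_zero, mul_one] at h
      linarith
    | succ m ih =>
      intro h
      rcases le_or_gt n (τ * (1 + κ / 4) ^ m * D₀) with hm | hm
      · obtain ⟨ρ, hρ, h4, h5⟩ := ih hm
        exact ⟨ρ, by omega, h4, h5⟩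
      · exact ⟨m, by omega, hm.le, h⟩
  have hτD : 0 < τ * D₀ := mul_pos hτ hD₀
  have h4 : n ≤ τ * (1 + κ / 4) ^ (R - 1) * D₀ := by
    have := mul_le_mul_of_nonneg_right h3 hτD.le
    calc n ≤ D * (τ * D₀) := h2
      _ ≤ (1 + κ / 4) ^ (R - 1) * (τ * D₀) := this
      _ = τ * (1 + κ / 4) ^ (R - 1) * D₀ := by ring
  obtain ⟨ρ, hρ, h5, h6⟩ := key (R - 1) h4
  refine ⟨ρ, by omega, h5, ?_⟩
  have h7 : τ * (1 + κ / 4) ^ (ρ + 1) * D₀ =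
      τ * (1 + κ / 4) ^ ρ * D₀ + κ / 4 * (τ * (1 + κ / 4) ^ ρ * D₀) := by
    rw [pow_succ]
    ring
  have h8 : κ / 4 * (τ * (1 + κ / 4) ^ ρ * D₀) ≤ κ / 4 * n :=
    mul_le_mul_of_nonneg_left h5 (by positivity)
  linarith

/-- `nz (y.reverse ++ (c ++ x)) = ⟨vec y, act c (vec x)⟩` -/
theorem nz_three (y c x : List ℕ) :
    nz (y.reverse ++ (c ++ x)) = dt (vec y) (act c (vec x)) := by
  rw [nz_split]
  unfold vec
  rw [act_append]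

/-- sizes of the tuning words: `r = s = (0,1)` gives `kk c`; `Pl (0,1) Pr (0,1) = φ (1+√2) ∈ [3.9, 3.91]` -/
theorem kk_tune (c : List ℕ) (X κ : ℝ) (hκ : 0 < κ) (hκ1 : κ ≤ 1) (hX : 0 < X)
    (h : ∀ r s : ℤ × ℤ, 0 ≤ r.1 → 0 ≤ r.2 → 0 ≤ s.1 → 0 ≤ s.2 →
      |((dt r (act c s) : ℤ) : ℝ) - X * (Pl r * Pr s)| ≤ κ / 8 * (X * (Pl r * Pr s))) :
    X ≤ kk c ∧ (kk c : ℝ) ≤ 9 / 2 * X := by
  obtain ⟨f1, f2⟩ := G8_phi
  obtain ⟨g1, g2⟩ := G8_sqrt2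
  have h0 := h (0, 1) (0, 1) (le_refl _) (by norm_num) (le_refl _) (by norm_num)
  have e1 : dt (0, 1) (act c (0, 1)) = (kk c : ℤ) := by
    rw [act01]
    simp [dt]
  have e2 : Pl (0, 1) = Real.goldenRatio := by simp [Pl]
  have e3 : Pr (0, 1) = 1 + Real.sqrt 2 := by simp [Pr]
  rw [e1, e2, e3] at h0
  have hP1 : (3.9 : ℝ) ≤ Real.goldenRatio * (1 + Real.sqrt 2) := by nlinarith
  have hP2 : Real.goldenRatio * (1 + Real.sqrt 2) ≤ 3.91 := by nlinarith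
  have hXP1 : 3.9 * X ≤ X * (Real.goldenRatio * (1 + Real.sqrt 2)) := by nlinarith
  have hXP2 : X * (Real.goldenRatio * (1 + Real.sqrt 2)) ≤ 3.91 * X := by nlinarith
  have hk : κ / 8 * (X * (Real.goldenRatio * (1 + Real.sqrt 2))) ≤
      1 / 8 * (X * (Real.goldenRatio * (1 + Real.sqrt 2))) :=
    mul_le_mul_of_nonneg_right (by linarith) (by nlinarith)
  rw [abs_le] at h0
  push_cast at h0
  constructor <;> nlinarith [h0.1, h0.2]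

end Pool.Agent.LibZE10
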