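import Pool.Agent.LibZE10.G8

set_option autoImplicit false

namespace Pool.Agent.LibZE10

open Pool.Agent.LibNZ69

/-- the counting step: the words `y.reverse ++ (c ρ i ++ x)` have fibres of bounded size -/
private theorem G9_count {A : Finset ℕ} {a : ℕ} (hA : ∀ x ∈ A, 1 ≤ x ∧ x < a)
    (F : Finset (List ℕ)) (τ D₂ B t₁ R m : ℕ) (hτ : 1 ≤ τ) (hD₂ : 1 ≤ D₂)
    (hB : 4 * (a * (D₂ * τ)) ≤ B) (hB2 : 2 ≤ B)
    (c : ℕ → ℕ → List ℕ) (hF : ∀ ρ < R, ∀ i < m, c ρ i ∈ F)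
    (hF1 : ∀ w ∈ F, WA A w ∧ τ ≤ kk w ∧ kk w ≤ D₂ * τ)
    (hinj : ∀ ρ < R, ∀ i < m, ∀ i' < m, c ρ i = c ρ i' → i = i')
    (S : Finset (List ℕ)) (Y : ℕ → ℕ) (ρ : List ℕ → List ℕ → ℕ)
    (Q : List ℕ → List ℕ → Finset ℕ) (hQ : ∀ x y, Q x y ⊆ Finset.range m)
    (hρ : ∀ t < t₁, ∀ x ∈ fresh A a F B t, ∀ y ∈ Cut A a (Y t), ρ x y < R)
    (hS : ∀ t < t₁, ∀ x ∈ fresh A a F B t, ∀ y ∈ Cut A a (Y t), ∀ i ∈ Q x y,
      y.reverse ++ (c (ρ x y) i ++ x) ∈ S) :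
    ∑ t ∈ Finset.range t₁, ∑ p ∈ fresh A a F B t ×ˢ Cut A a (Y t), (Q p.1 p.2).card ≤
      3 * (D₂ + 1) * S.card := by
  classical
  let I : Finset (Σ _ : ℕ, Σ _ : List ℕ × List ℕ, ℕ) :=
    (Finset.range t₁).sigma (fun t =>
      (fresh A a F B t ×ˢ Cut A a (Y t)).sigma (fun p => Q p.1 p.2))
  let f : (Σ _ : ℕ, Σ _ : List ℕ × List ℕ, ℕ) → List ℕ := fun q =>
    q.2.1.2.reverse ++ (c (ρ q.2.1.1 q.2.1.2) q.2.2 ++ q.2.1.1)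
  let g : (Σ _ : ℕ, Σ _ : List ℕ × List ℕ, ℕ) → List ℕ := fun q =>
    c (ρ q.2.1.1 q.2.1.2) q.2.2
  have hmem : ∀ q ∈ I, q.1 < t₁ ∧ q.2.1.1 ∈ fresh A a F B q.1 ∧ q.2.1.2 ∈ Cut A a (Y q.1) ∧
      q.2.2 ∈ Q q.2.1.1 q.2.1.2 := by
    intro q hq
    have h1 := Finset.mem_sigma.1 hq
    have h2 := Finset.mem_sigma.1 h1.2
    have h3 := Finset.mem_product.1 h2.1
    exact ⟨Finset.mem_range.1 h1.1, h3.1, h3.2, h2.2⟩
  have hcard : I.card = ∑ t ∈ Finset.range t₁, ∑ p ∈ fresh A a F B t ×ˢ Cut A a (Y t),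
      (Q p.1 p.2).card := by
    rw [Finset.card_sigma]
    apply Finset.sum_congr rfl
    intro t _
    rw [Finset.card_sigma]
  rw [← hcard]
  apply Finset.card_le_mul_card_image_of_maps_to (f := f)
  · intro q hq
    obtain ⟨h1, h2, h3, h4⟩ := hmem q hq
    exact hS q.1 h1 _ h2 _ h3 _ h4
  · intro b _
    rcases Finset.eq_empty_or_nonempty (I.filter (fun q => f q = b)) with he | ⟨q₁, hq₁⟩
    · rw [he]; simp
    · obtain ⟨hq₁I, hq₁b⟩ := Finset.mem_filter.1 hq₁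
      obtain ⟨k1, k2, k3, k4⟩ := hmem q₁ hq₁I
      have hWy : ∀ q ∈ I, WA A q.2.1.2.reverse := by
        intro q hq
        obtain ⟨_, _, h3, _⟩ := hmem q hq
        exact (WA_reverse _).2 (Cut_bounds hA h3).1
      have hcF : ∀ q ∈ I, g q ∈ F := by
        intro q hq
        obtain ⟨h1, h2, h3, h4⟩ := hmem q hq
        exact hF _ (hρ q.1 h1 _ h2 _ h3) _ (Finset.mem_range.1 (hQ _ _ h4))
      have hFle : ∀ w ∈ F, WA A w ∧ kk w ≤ D₂ * τ := fun w hw =>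
        ⟨(hF1 w hw).1, (hF1 w hw).2.2⟩
      have hτ₂ : 1 ≤ D₂ * τ := Nat.one_le_iff_ne_zero.2 (by positivity)
      have huniq : ∀ q ∈ I, f q = b → q.1 = q₁.1 ∧ q.2.1.1 = q₁.2.1.1 ∧
          q.2.1.2.reverse ++ g q = q₁.2.1.2.reverse ++ g q₁ := by
        intro q hq hqb
        obtain ⟨h1, h2, h3, h4⟩ := hmem q hq
        exact fresh_unique hA F (D₂ * τ) B hB hB2 hτ₂ hFle q.1 q₁.1 q.2.1.2.reverse
          q₁.2.1.2.reverse (g q) (g q₁) q.2.1.1 q₁.2.1.1 (hWy q hq) (hWy q₁ hq₁I)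
          (hcF q hq) (hcF q₁ hq₁I) h2 k2 (hqb.trans hq₁b.symm)
      have hw : ∀ z ∈ q₁.2.1.2.reverse ++ g q₁, 1 ≤ z := by
        intro z hz
        rcases List.mem_append.1 hz with h | h
        · exact (hA z (hWy q₁ hq₁I z h)).1
        · exact (hA z ((hF1 _ (hcF q₁ hq₁I)).1 z h)).1
      refine le_trans (Finset.card_le_card_of_injOn g ?_ ?_)
        (card_suffix_le' (q₁.2.1.2.reverse ++ g q₁) hw τ D₂ hτ hD₂)
      · intro q hq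
        obtain ⟨hqI, hqb⟩ := Finset.mem_filter.1 hq
        have h := huniq q hqI hqb
        have hF' := hF1 _ (hcF q hqI)
        refine Finset.mem_coe.2 (Finset.mem_filter.2 ⟨?_, hF'.2.1, hF'.2.2⟩)
        rw [List.mem_toFinset, List.mem_tails]
        exact ⟨q.2.1.2.reverse, h.2.2⟩
      · intro q hq q' hq' hgg
        obtain ⟨hqI, hqb⟩ := Finset.mem_filter.1 hq
        obtain ⟨hqI', hqb'⟩ := Finset.mem_filter.1 hq'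
        have h := huniq q hqI hqb
        have h' := huniq q' hqI' hqb'
        obtain ⟨h1, h2, h3, h4⟩ := hmem q hqI
        obtain ⟨_, _, _, h4'⟩ := hmem q' hqI'
        have e1 : q.1 = q'.1 := h.1.trans h'.1.symm
        have e2 : q.2.1.1 = q'.2.1.1 := h.2.1.trans h'.2.1.symm
        have e3 : q.2.1.2 = q'.2.1.2 := by
          have hh : q.2.1.2.reverse ++ g q = q'.2.1.2.reverse ++ g q' := h.2.2.trans h'.2.2.symm
          rw [hgg] at hh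
          exact List.reverse_injective (List.append_cancel_right hh)
        have e4 : q.2.2 = q'.2.2 := by
          have hh : c (ρ q.2.1.1 q.2.1.2) q.2.2 = c (ρ q'.2.1.1 q'.2.1.2) q'.2.2 := hgg
          rw [← e2, ← e3] at hh
          exact hinj _ (hρ q.1 h1 _ h2 _ h3) _ (Finset.mem_range.1 (hQ _ _ h4)) _
            (Finset.mem_range.1 (hQ _ _ h4')) hh
        rcases q with ⟨t, ⟨x, y⟩, i⟩
        rcases q' with ⟨t', ⟨x', y'⟩, i'⟩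
        simp only at e1 e2 e3 e4
        subst e1 e2 e3 e4
        rfl

/-- the size of the tuning words -/
private theorem G9_size (a τ R : ℕ) (κ : ℝ) (hκ : 0 < κ) (hκ1 : κ ≤ 1) (hτ : 1 ≤ τ)
    (hR : (1 + κ / 4) ^ (R - 1) ≤ 2 * (12 * (a : ℝ) ^ 2)) (w : List ℕ) (ρ : ℕ) (hρ : ρ < R)
    (h : ∀ r s : ℤ × ℤ, 0 ≤ r.1 → 0 ≤ r.2 → 0 ≤ s.1 → 0 ≤ s.2 →
      |((dt r (act w s) : ℤ) : ℝ) - τ * (1 + κ / 4) ^ ρ * (Pl r * Pr s)| ≤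
        κ / 8 * (τ * (1 + κ / 4) ^ ρ * (Pl r * Pr s))) :
    τ ≤ kk w ∧ kk w ≤ 108 * a ^ 2 * τ := by
  have h1 : (1 : ℝ) ≤ 1 + κ / 4 := by linarith
  have hτ' : (1 : ℝ) ≤ (τ : ℝ) := by exact_mod_cast hτ
  have h2 : (1 : ℝ) ≤ (1 + κ / 4) ^ ρ := one_le_pow₀ h1
  have h3 : (1 + κ / 4) ^ ρ ≤ (1 + κ / 4) ^ (R - 1) := pow_le_pow_right₀ h1 (by omega)
  have hX : 0 < (τ : ℝ) * (1 + κ / 4) ^ ρ := by positivity
  obtain ⟨k1, k2⟩ := kk_tune w ((τ : ℝ) * (1 + κ / 4) ^ ρ) κ hκ hκ1 hX h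
  constructor
  · have : (τ : ℝ) ≤ kk w := by nlinarith
    exact_mod_cast this
  · have h4 : (τ : ℝ) * (1 + κ / 4) ^ ρ ≤ τ * (2 * (12 * (a : ℝ) ^ 2)) :=
      mul_le_mul_of_nonneg_left (h3.trans hR) (by linarith)
    have : (kk w : ℝ) ≤ 108 * (a : ℝ) ^ 2 * τ := by
      refine k2.trans ?_
      nlinarith
    exact_mod_cast this

/-- the final computation -/
private theorem G9_final (s κ C₁ C₅ E K S I : ℝ) (n τ m R t₁ φ q₀ : ℕ)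
    (hn : 1 ≤ n) (hτ : 1 ≤ τ) (hm : 1 ≤ m) (hR : 1 ≤ R) (hq₀ : 1 ≤ q₀) (hκ : 0 < κ)
    (hC₁ : 1 ≤ C₁) (hC₅ : 1 ≤ C₅) (hE : 0 < E) (hK : 0 < K)
    (h1 : I ≤ K * S)
    (h2 : t₁ * (((n : ℝ) / (E * τ)) ^ s / 32 * ((m : ℝ) * φ / (q₀ * n))) ≤ I)
    (h3 : (τ : ℝ) ^ s ≤ 2 * C₅ * (R * m) * t₁) (h4 : (R : ℝ) * κ ≤ C₁) :
    1 / (64 * C₅ * C₁ * E ^ s * K) * κ * (n : ℝ) ^ s * ((φ : ℝ) / n) / q₀ ≤ S := by
  have hn' : (0 : ℝ) < n := by exact_mod_cast hn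
  have hτ' : (0 : ℝ) < τ := by exact_mod_cast hτ
  have hm' : (0 : ℝ) < m := by exact_mod_cast hm
  have hR' : (0 : ℝ) < R := by exact_mod_cast hR
  have hq' : (0 : ℝ) < q₀ := by exact_mod_cast hq₀
  have hEs : 0 < E ^ s := Real.rpow_pos_of_pos hE s
  have hτs : 0 < (τ : ℝ) ^ s := Real.rpow_pos_of_pos hτ' s
  have hns : 0 < (n : ℝ) ^ s := Real.rpow_pos_of_pos hn' s
  have e1 : ((n : ℝ) / (E * τ)) ^ s = (n : ℝ) ^ s / (E ^ s * (τ : ℝ) ^ s) := by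
    rw [Real.div_rpow hn'.le (by positivity), Real.mul_rpow hE.le hτ'.le]
  rw [e1] at h2
  -- κ τ^s ≤ 2 C₅ C₁ m t₁
  have h5 : κ * (τ : ℝ) ^ s ≤ 2 * C₅ * C₁ * m * t₁ := by
    calc κ * (τ : ℝ) ^ s ≤ κ * (2 * C₅ * (R * m) * t₁) := mul_le_mul_of_nonneg_left h3 hκ.le
      _ = (R * κ) * (2 * C₅ * m * t₁) := by ring
      _ ≤ C₁ * (2 * C₅ * m * t₁) := by
          apply mul_le_mul_of_nonneg_right h4
          have : (0 : ℝ) ≤ t₁ := Nat.cast_nonneg _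
          positivity
      _ = _ := by ring
  have hφ : (0 : ℝ) ≤ φ := Nat.cast_nonneg _
  have h6 : κ * (n : ℝ) ^ s * ((φ : ℝ) / n) / q₀ ≤ 64 * C₅ * C₁ * E ^ s * I := by
    have h7 : κ * (n : ℝ) ^ s * ((φ : ℝ) / n) / q₀ =
        κ * (τ : ℝ) ^ s * ((n : ℝ) ^ s / (τ : ℝ) ^ s * φ / (q₀ * n)) := by
      field_simp
    have h8 : 64 * C₅ * C₁ * E ^ s * (t₁ * ((n : ℝ) ^ s / (E ^ s * (τ : ℝ) ^ s) / 32 *
        ((m : ℝ) * φ / (q₀ * n)))) =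
        2 * C₅ * C₁ * m * t₁ * ((n : ℝ) ^ s / (τ : ℝ) ^ s * φ / (q₀ * n)) := by
      field_simp
      ring
    calc κ * (n : ℝ) ^ s * ((φ : ℝ) / n) / q₀ =
        κ * (τ : ℝ) ^ s * ((n : ℝ) ^ s / (τ : ℝ) ^ s * φ / (q₀ * n)) := h7
      _ ≤ 2 * C₅ * C₁ * m * t₁ * ((n : ℝ) ^ s / (τ : ℝ) ^ s * φ / (q₀ * n)) :=
          mul_le_mul_of_nonneg_right h5 (by positivity)
      _ = _ := h8.symm
      _ ≤ 64 * C₅ * C₁ * E ^ s * I := mul_le_mul_of_nonneg_left h2 (by positivity)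
  have h9 : κ * (n : ℝ) ^ s * ((φ : ℝ) / n) / q₀ ≤ (64 * C₅ * C₁ * E ^ s * K) * S := by
    calc _ ≤ 64 * C₅ * C₁ * E ^ s * I := h6
      _ ≤ 64 * C₅ * C₁ * E ^ s * (K * S) := mul_le_mul_of_nonneg_left h1 (by positivity)
      _ = _ := by ring
  have hpos : 0 < 64 * C₅ * C₁ * E ^ s * K := by positivity
  have h10 : 1 / (64 * C₅ * C₁ * E ^ s * K) * κ * (n : ℝ) ^ s * ((φ : ℝ) / n) / q₀ =
      (κ * (n : ℝ) ^ s * ((φ : ℝ) / n) / q₀) / (64 * C₅ * C₁ * E ^ s * K) := by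
    field_simp
  rw [h10, div_le_iff₀ hpos]
  linarith

/-- the scales -/
private theorem G9_scale (a τ X n : ℕ) (ha : 1 ≤ a) (hτ : 1 ≤ τ) (hX : 1 ≤ X)
    (hn : 180 * a ^ 2 * τ * X ≤ n) :
    2 ≤ n / (90 * a ^ 2 * τ * X) ∧
      (n : ℝ) ≤ 180 * (a : ℝ) ^ 2 * τ * (X * ((n / (90 * a ^ 2 * τ * X) : ℕ) : ℝ)) ∧
      90 * (a : ℝ) ^ 2 * τ * (X * ((n / (90 * a ^ 2 * τ * X) : ℕ) : ℝ)) ≤ n := by
  set d := 90 * a ^ 2 * τ * X with hd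
  have hdpos : 0 < d := by positivity
  have h2 : 2 ≤ n / d := by
    rw [Nat.le_div_iff_mul_le hdpos]
    calc 2 * d = 180 * a ^ 2 * τ * X := by rw [hd]; ring
      _ ≤ n := hn
  refine ⟨h2, ?_, ?_⟩
  · have h3 : n < d * (n / d) + d := by
      have := Nat.div_add_mod n d
      have := Nat.mod_lt n hdpos
      omega
    have h4 : n ≤ 2 * (d * (n / d)) := by nlinarith
    have h5 : (n : ℝ) ≤ 2 * ((d : ℝ) * ((n / d : ℕ) : ℝ)) := by exact_mod_cast h4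
    have h6 : (d : ℝ) = 90 * (a : ℝ) ^ 2 * τ * X := by rw [hd]; push_cast; ring
    rw [h6] at h5
    linarith
  · have h3 : d * (n / d) ≤ n := Nat.mul_div_le n d
    have h5 : (d : ℝ) * ((n / d : ℕ) : ℝ) ≤ n := by exact_mod_cast h3
    have h6 : (d : ℝ) = 90 * (a : ℝ) ^ 2 * τ * X := by rw [hd]; push_cast; ring
    rw [h6] at h5
    linarith

private theorem G9_fresh_sub (A : Finset ℕ) (a : ℕ) (F : Finset (List ℕ)) (B t : ℕ) (x : List ℕ)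
    (hx : x ∈ fresh A a F B t) : x ∈ Cut A a (B ^ (t + 1)) := by
  classical
  unfold fresh at hx
  exact (Finset.mem_filter.1 hx).1

/-- the lower bound for the number of the indices, one scale -/
private theorem G9_term {A : Finset ℕ} {a : ℕ} {s : ℝ} (hp : PB A a s) (F : Finset (List ℕ))
    (B t Y n τ : ℕ) (w : ℝ) (Q : List ℕ → List ℕ → Finset ℕ) (hn1 : 1 ≤ n) (hτ : 1 ≤ τ)
    (hB2 : 2 ≤ B) (hY2 : 2 ≤ Y) (hw : 0 ≤ w)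
    (hYlo : (n : ℝ) ≤ 180 * (a : ℝ) ^ 2 * τ * (((B ^ (t + 1) : ℕ) : ℝ) * (Y : ℝ)))
    (g3 : ((Cut A a (B ^ (t + 1))).card : ℝ) ≤ 2 * ((fresh A a F B t).card : ℝ))
    (hq : ∀ x ∈ fresh A a F B t, ∀ y ∈ Cut A a Y, w ≤ ((Q x y).card : ℝ)) :
    ((n : ℝ) / (180 * (a : ℝ) ^ 2 * τ)) ^ s / 32 * w ≤
      ∑ p ∈ fresh A a F B t ×ˢ Cut A a Y, ((Q p.1 p.2).card : ℝ) := by
  have ha : 1 ≤ a := by have := hp.a4; omega
  have ha' : (0 : ℝ) < a := by exact_mod_cast (by omega : 0 < a)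
  have hn' : (0 : ℝ) < n := by exact_mod_cast hn1
  have hτ' : (0 : ℝ) < τ := by exact_mod_cast (by omega : 0 < τ)
  have hs0 : 0 ≤ s := by have := hp.s1; linarith
  have hBp : 2 ≤ B ^ (t + 1) := by
    calc 2 ≤ B := hB2
      _ = B ^ 1 := (pow_one B).symm
      _ ≤ B ^ (t + 1) := Nat.pow_le_pow_right (by omega) (by omega)
  have g1 := card_Cut_ge hp (B ^ (t + 1)) hBp
  have g2 := card_Cut_ge hp Y hY2
  have hX0 : (0 : ℝ) ≤ ((B ^ (t + 1) : ℕ) : ℝ) := Nat.cast_nonneg _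
  have hY0 : (0 : ℝ) ≤ (Y : ℝ) := Nat.cast_nonneg _
  have g4 : (n : ℝ) / (180 * (a : ℝ) ^ 2 * τ) ≤ ((B ^ (t + 1) : ℕ) : ℝ) * (Y : ℝ) := by
    rw [div_le_iff₀ (by positivity)]
    linarith
  have g5 : ((n : ℝ) / (180 * (a : ℝ) ^ 2 * τ)) ^ s ≤
      ((B ^ (t + 1) : ℕ) : ℝ) ^ s * (Y : ℝ) ^ s := by
    rw [← Real.mul_rpow hX0 hY0]
    exact Real.rpow_le_rpow (by positivity) g4 hs0
  have g6 : ((B ^ (t + 1) : ℕ) : ℝ) ^ s * (Y : ℝ) ^ s ≤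
      (8 * ((fresh A a F B t).card : ℝ)) * (4 * ((Cut A a Y).card : ℝ)) := by
    apply mul_le_mul _ g2 (Real.rpow_nonneg hY0 s) (by positivity)
    linarith
  calc ((n : ℝ) / (180 * (a : ℝ) ^ 2 * τ)) ^ s / 32 * w ≤
      (((fresh A a F B t).card : ℝ) * ((Cut A a Y).card : ℝ)) * w := by
        apply mul_le_mul_of_nonneg_right _ hw
        linarith
    _ = ∑ p ∈ fresh A a F B t ×ˢ Cut A a Y, w := by
        rw [Finset.sum_const, Finset.card_product, nsmul_eq_mul]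
        push_cast
        ring
    _ ≤ _ := by
        apply Finset.sum_le_sum
        intro p hpp
        obtain ⟨hp1, hp2⟩ := Finset.mem_product.1 hpp
        exact hq p.1 hp1 p.2 hp2

/-- the lower bound for the number of the indices, all scales -/
private theorem G9_low (t₁ : ℕ) (v : ℝ) (G : ℕ → Finset (List ℕ × List ℕ))
    (Q : List ℕ → List ℕ → Finset ℕ)
    (h : ∀ t < t₁, v ≤ ∑ p ∈ G t, ((Q p.1 p.2).card : ℝ)) :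
    t₁ * v ≤ ((∑ t ∈ Finset.range t₁, ∑ p ∈ G t, (Q p.1 p.2).card : ℕ) : ℝ) := by
  rw [Nat.cast_sum]
  calc (t₁ : ℝ) * v = ∑ t ∈ Finset.range t₁, v := by
        rw [Finset.sum_const, Finset.card_range, nsmul_eq_mul]
    _ ≤ _ := by
        apply Finset.sum_le_sum
        intro t ht
        rw [Nat.cast_sum]
        exact h t (Finset.mem_range.1 ht)

/-- the data of a pair `x`, `y` -/
private theorem G9_pair {A : Finset ℕ} {a : ℕ} {s : ℝ} (hp : PB A a s) (X Y n τ : ℕ)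
    (x y : List ℕ) (hX1 : 1 ≤ X) (hY2 : 2 ≤ Y)
    (hYlo : (n : ℝ) ≤ 180 * (a : ℝ) ^ 2 * τ * ((X : ℝ) * (Y : ℝ)))
    (hYhi : 90 * (a : ℝ) ^ 2 * τ * ((X : ℝ) * (Y : ℝ)) ≤ n)
    (hx : x ∈ Cut A a X) (hy : y ∈ Cut A a Y) :
    WA A x ∧ WA A y ∧ 0 < Pl (vec y) * Pr (vec x) ∧
      (τ : ℝ) * (Pl (vec y) * Pr (vec x)) ≤ n ∧
      (n : ℝ) ≤ 12 * (a : ℝ) ^ 2 * (τ * (Pl (vec y) * Pr (vec x))) := by
  have hA1 : ∀ x ∈ A, 1 ≤ x := fun x hx => (hp.dig x hx).1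
  obtain ⟨hxW, hx1, hx2, _⟩ := Cut_bounds hp.dig hx
  obtain ⟨hyW, hy1, hy2, _⟩ := Cut_bounds hp.dig hy
  have hb := P_bounds y x (fun z hz => hA1 z (hyW z hz)) (fun z hz => hA1 z (hxW z hz))
  have q1 : ((X : ℝ) * (Y : ℝ)) ≤ (kk y : ℝ) * kk x := by
    have : X * Y ≤ kk y * kk x := by
      rw [mul_comm]; exact Nat.mul_le_mul hy1 hx1
    exact_mod_cast this
  have q2 : (kk y : ℝ) * kk x ≤ (a : ℝ) ^ 2 * ((X : ℝ) * (Y : ℝ)) := by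
    have : kk y * kk x ≤ a ^ 2 * (X * Y) := by
      calc kk y * kk x ≤ (a * Y) * (a * X) := Nat.mul_le_mul hy2 hx2
        _ = _ := by ring
    exact_mod_cast this
  have q0 : (0 : ℝ) < ((X : ℝ) * (Y : ℝ)) := by
    have h1 : (0 : ℝ) < (X : ℝ) := by exact_mod_cast hX1
    have h2 : (0 : ℝ) < (Y : ℝ) := by exact_mod_cast (by omega : 0 < Y)
    positivity
  generalize ((X : ℝ) * (Y : ℝ)) = Z at q0 q1 q2 hYlo hYhi
  have hD0 : 0 < Pl (vec y) * Pr (vec x) := by linarith [hb.1]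
  have hlo : 15 * Z ≤ Pl (vec y) * Pr (vec x) := by linarith [hb.1]
  have hhi : Pl (vec y) * Pr (vec x) ≤ 81 * ((a : ℝ) ^ 2 * Z) := by linarith [hb.2]
  have hτ0 : (0 : ℝ) ≤ τ := Nat.cast_nonneg _
  have haτ : 0 ≤ 12 * (a : ℝ) ^ 2 * τ := by positivity
  refine ⟨hxW, hyW, hD0, ?_, ?_⟩
  · calc (τ : ℝ) * (Pl (vec y) * Pr (vec x)) ≤ τ * (81 * ((a : ℝ) ^ 2 * Z)) :=
          mul_le_mul_of_nonneg_left hhi hτ0
      _ ≤ 90 * (a : ℝ) ^ 2 * τ * Z := by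
          have : 0 ≤ (a : ℝ) ^ 2 * τ * Z := by positivity
          nlinarith
      _ ≤ n := hYhi
  · calc (n : ℝ) ≤ 180 * (a : ℝ) ^ 2 * τ * Z := hYlo
      _ = 12 * (a : ℝ) ^ 2 * τ * (15 * Z) := by ring
      _ ≤ 12 * (a : ℝ) ^ 2 * τ * (Pl (vec y) * Pr (vec x)) :=
          mul_le_mul_of_nonneg_left hlo haτ
      _ = _ := by ring

/-- the word `y.reverse ++ (c ++ x)` belongs to the set -/
private theorem G9_word {A : Finset ℕ} {a : ℕ} {s : ℝ} (hp : PB A a s) (q₀ n : ℕ) (κ V : ℝ)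
    (hn1 : 1 ≤ n) (hκ : 0 < κ) (hκ1 : κ ≤ 1)
    (x y c : List ℕ) (hxW : WA A x) (hyW : WA A y) (hcW : WA A c)
    (hr1 : V * (Pl (vec y) * Pr (vec x)) ≤ n)
    (hr2 : (n : ℝ) - V * (Pl (vec y) * Pr (vec x)) ≤ κ / 4 * n)
    (hcs : ∀ r s : ℤ × ℤ, 0 ≤ r.1 → 0 ≤ r.2 → 0 ≤ s.1 → 0 ≤ s.2 →
      |((dt r (act c s) : ℤ) : ℝ) - V * (Pl r * Pr s)| ≤ κ / 8 * (V * (Pl r * Pr s)))
    (hd : (q₀ : ℤ) ∣ dt (vec y) (act c (vec x)) - (n : ℤ)) :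
    y.reverse ++ (c ++ x) ∈ (wP A n).filter (fun z => |((nz z : ℤ) : ℝ) - n| ≤ κ * n ∧
      (q₀ : ℤ) ∣ nz z - (n : ℤ)) := by
  have hA1 : ∀ x ∈ A, 1 ≤ x := fun x hx => (hp.dig x hx).1
  have hn' : (0 : ℝ) < n := by exact_mod_cast hn1
  have hvx := vec_bounds x (fun z hz => hA1 z (hxW z hz))
  have hvy := vec_bounds y (fun z hz => hA1 z (hyW z hz))
  have hnz := nz_three y c x
  have hsz := hcs (vec y) (vec x) hvy.1.le (hvy.1.le.trans hvy.2.1) hvx.1.le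
    (hvx.1.le.trans hvx.2.1)
  rw [← hnz] at hsz hd
  have hWz : WA A (y.reverse ++ (c ++ x)) :=
    (WA_append _ _).2 ⟨(WA_reverse _).2 hyW, (WA_append _ _).2 ⟨hcW, hxW⟩⟩
  have hb := (nz_bounds _ (fun z hz => hA1 z (hWz z hz))).1
  generalize y.reverse ++ (c ++ x) = z at hsz hd hWz hb
  generalize V * (Pl (vec y) * Pr (vec x)) = U at hsz hr1 hr2
  have hab : |((nz z : ℤ) : ℝ) - n| ≤ κ * n := by
    have h1 := abs_le.1 hsz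
    have h2 : κ / 8 * U ≤ κ / 8 * n := mul_le_mul_of_nonneg_left hr1 (by positivity)
    have h3 : 0 ≤ κ * n := by positivity
    rw [abs_le]
    constructor <;> linarith [h1.1, h1.2]
  refine Finset.mem_filter.2 ⟨(mem_wP hA1 n z).2 ⟨hWz, ?_⟩, hab, hd⟩
  have hb' : 4 * (kk z : ℝ) ≤ ((nz z : ℤ) : ℝ) := by exact_mod_cast hb
  have h1 := (abs_le.1 hab).2
  have h2 : κ * n ≤ n := by nlinarith
  have h3 : (kk z : ℝ) ≤ n := by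
    have : (0 : ℝ) ≤ kk z := Nat.cast_nonneg _
    linarith
  exact_mod_cast h3

/-- Row G9 (LONG). The local lower bound for the full set of words. `D = 12 a²` (real), `family`,
`fresh_half` with constant `C₅`. Given `q₀, κ` get `R, m`; take `τ` (natural) `≥ τ₀` with
`τ^s ≥ C₅ R m`, the words `c ρ i`, `F = {c ρ i : ρ < R, i < m}`: `#F ≤ R m`, `τ ≤ kk c ≤ 9 D τ =: τ₂ = 108 a² τ`
(`kk_tune`; `WA A c` because `1, 2 ∈ A`), `t₁ = ⌊τ^s / (C₅ R m)⌋ ≥ τ^s / (2 C₅ R m)`, `B = 4 a τ₂`.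
Let `n` be large, `t < t₁`, `X = B^(t+1)`, `Y = ⌊n / (90 a² τ X)⌋ ≥ max(2, n/(180 a² τ X))`. For
`x ∈ fresh t`, `y ∈ Cut A a Y`, `D₀ = Pl (vec y) Pr (vec x)`: by `P_bounds` `D₀ ≤ 81 a² X Y ≤ n/τ` and
`D₀ ≥ 15 X Y ≥ n / (12 a² τ)`; `choose_rho` gives `ρ = ρ(y, x)`, and for every `i < m` the word
`z = y.reverse ++ (c ρ i ++ x)` has `|nz z - n| ≤ κ/4 n + κ/8 n ≤ κ n` (`nz_three`; the coordinates of
`vec y`, `vec x` are positive and coprime). At least `m φ(n) / (q₀ n)` of the `i` have `q₀ ∣ nz z - n`.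
The map `(t, y, x, i) ↦ z` has fibres of size `≤ 3 (9 D + 1)`-ish: `z` determines `t, x` and
`y.reverse ++ c` (`fresh_unique`), `c` is one of the suffixes of that word with `τ ≤ kk ≤ τ₂`
(`card_suffix_le'` with `D ↦ 108 a²`), then `y`, `ρ(y, x)` and `i` are determined. So the number of the
`z` is at least `c ∑_{t<t₁} #fresh t · #(Cut A a Y) m φ(n)/(q₀ n) ≥ c' t₁ (X Y)^s m φ(n)/(q₀ n)
≥ c'' (τ^s/(R m)) (n/τ)^s m φ(n)/(q₀ n) ≥ c''' κ n^s φ(n)/(q₀ n)` (`card_Cut_ge`, `R κ ≤ C`). `z ∈ wP A n`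
as `4 kk z ≤ nz z ≤ 2 n`. -/
theorem local_lower {A : Finset ℕ} {a : ℕ} {s : ℝ} (hp : PB A a s) :
    ∃ c : ℝ, 0 < c ∧ ∀ q₀ : ℕ, 1 ≤ q₀ → ∀ κ : ℝ, 0 < κ → κ ≤ 1 → ∃ n₀ : ℕ, ∀ n : ℕ, n₀ ≤ n →
      c * κ * (n : ℝ) ^ s * ((n.totient : ℝ) / n) / q₀ ≤
        (((wP A n).filter (fun z => |((nz z : ℤ) : ℝ) - n| ≤ κ * n ∧
          (q₀ : ℤ) ∣ nz z - (n : ℤ))).card : ℝ) := by
  have ha : 1 ≤ a := by have := hp.a4; omega
  have ha' : (1 : ℝ) ≤ a := by exact_mod_cast ha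
  have hA1 : ∀ x ∈ A, 1 ≤ x := fun x hx => (hp.dig x hx).1
  have hD : (1 : ℝ) ≤ 12 * (a : ℝ) ^ 2 := by nlinarith
  have hs0 : 0 ≤ s := by have := hp.s1; linarith
  obtain ⟨C₁, hC₁, hfam⟩ := family (12 * (a : ℝ) ^ 2) hD
  obtain ⟨C₅, hC₅, hfresh⟩ := fresh_half hp
  have hC₁' : 0 < C₁ := by linarith
  have hC₅' : 0 < C₅ := by linarith
  have hE : 0 < 180 * (a : ℝ) ^ 2 := by positivity
  have hEs : 0 < (180 * (a : ℝ) ^ 2) ^ s := Real.rpow_pos_of_pos hE s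
  refine ⟨1 / (64 * C₅ * C₁ * (180 * (a : ℝ) ^ 2) ^ s * (3 * (108 * (a : ℝ) ^ 2 + 1))),
    by positivity, ?_⟩
  intro q₀ hq₀ κ hκ hκ1
  obtain ⟨R, m, hR, hm, hRκ, hDR, hDR2, τ₀, hτ₀⟩ := hfam q₀ hq₀ κ hκ hκ1
  have hR' : (0 : ℝ) < R := by exact_mod_cast hR
  have hm' : (0 : ℝ) < m := by exact_mod_cast hm
  have hq' : (0 : ℝ) < q₀ := by exact_mod_cast hq₀
  obtain ⟨τ, hττ₀, hτ1, hτs⟩ : ∃ τ : ℕ, τ₀ ≤ τ ∧ 1 ≤ τ ∧ C₅ * (R * m) ≤ (τ : ℝ) ^ s := by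
    obtain ⟨N, hN⟩ := exists_nat_ge (C₅ * ((R : ℝ) * m))
    have hN2 : N ≤ max τ₀ (max 1 N) := le_trans (le_max_right _ _) (le_max_right _ _)
    have h1 : 1 ≤ max τ₀ (max 1 N) := le_trans (le_max_left _ _) (le_max_right _ _)
    refine ⟨max τ₀ (max 1 N), le_max_left _ _, h1, ?_⟩
    have h1' : (1 : ℝ) ≤ ((max τ₀ (max 1 N) : ℕ) : ℝ) := by exact_mod_cast h1
    have hN2' : (N : ℝ) ≤ ((max τ₀ (max 1 N) : ℕ) : ℝ) := by exact_mod_cast hN2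
    have h3 : (((max τ₀ (max 1 N) : ℕ) : ℝ)) ^ (1 : ℝ) ≤ (((max τ₀ (max 1 N) : ℕ) : ℝ)) ^ s :=
      Real.rpow_le_rpow_of_exponent_le h1' (by have := hp.s1; linarith)
    rw [Real.rpow_one] at h3
    linarith
  have hτ' : (1 : ℝ) ≤ τ := by exact_mod_cast hτ1
  have hτspos : 0 < (τ : ℝ) ^ s := Real.rpow_pos_of_pos (by linarith) s
  obtain ⟨c, hc12, hcinj, hcsize, hcuni⟩ := hτ₀ τ hττ₀
  -- the number of scales
  obtain ⟨t₁, ht₁a, ht₁b⟩ : ∃ t₁ : ℕ, C₅ * (t₁ * (R * m : ℝ)) ≤ (τ : ℝ) ^ s ∧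
      (τ : ℝ) ^ s ≤ 2 * C₅ * (R * m) * t₁ := by
    have hpos : 0 < C₅ * ((R : ℝ) * m) := by positivity
    have hone : 1 ≤ (τ : ℝ) ^ s / (C₅ * (R * m)) := by
      rw [le_div_iff₀ hpos]; linarith
    refine ⟨⌊(τ : ℝ) ^ s / (C₅ * (R * m))⌋₊, ?_, ?_⟩
    · have h := Nat.floor_le (zero_le_one.trans hone)
      rw [le_div_iff₀ hpos] at h
      linarith
    · have h := Nat.lt_floor_add_one ((τ : ℝ) ^ s / (C₅ * (R * m)))
      have h1 : 1 ≤ ⌊(τ : ℝ) ^ s / (C₅ * (R * m))⌋₊ := by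
        rw [Nat.one_le_floor_iff]; exact hone
      have h1' : (1 : ℝ) ≤ (⌊(τ : ℝ) ^ s / (C₅ * (R * m))⌋₊ : ℝ) := by exact_mod_cast h1
      have h2 : (τ : ℝ) ^ s / (C₅ * (R * m)) ≤ 2 * (⌊(τ : ℝ) ^ s / (C₅ * (R * m))⌋₊ : ℝ) := by
        linarith
      rw [div_le_iff₀ hpos] at h2
      linarith
  -- the set of tuning words
  obtain ⟨F, hFdef⟩ : ∃ F : Finset (List ℕ),
      F = (Finset.range R ×ˢ Finset.range m).image (fun p => c p.1 p.2) := ⟨_, rfl⟩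
  have hFcard : F.card ≤ R * m := by
    rw [hFdef]
    refine Finset.card_image_le.trans ?_
    rw [Finset.card_product, Finset.card_range, Finset.card_range]
  have hFmem : ∀ ρ < R, ∀ i < m, c ρ i ∈ F := by
    intro ρ hρ i hi
    rw [hFdef]
    exact Finset.mem_image.2 ⟨(ρ, i), Finset.mem_product.2
      ⟨Finset.mem_range.2 hρ, Finset.mem_range.2 hi⟩, rfl⟩
  have hWc : ∀ ρ i, WA A (c ρ i) := by
    intro ρ i x hx
    rcases hc12 ρ i x hx with h | h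
    · rw [h]; exact hp.one
    · rw [h]; exact hp.two
  have hF1 : ∀ w ∈ F, WA A w ∧ τ ≤ kk w ∧ kk w ≤ 108 * a ^ 2 * τ := by
    intro w hw
    rw [hFdef] at hw
    obtain ⟨⟨ρ, i⟩, hpi, rfl⟩ := Finset.mem_image.1 hw
    obtain ⟨h1, h2⟩ := Finset.mem_product.1 hpi
    exact ⟨hWc ρ i, G9_size a τ R κ hκ hκ1 hτ1 hDR2 (c ρ i) ρ (Finset.mem_range.1 h1)
      (hcsize ρ (Finset.mem_range.1 h1) i (Finset.mem_range.1 h2))⟩
  obtain ⟨B, hBdef⟩ : ∃ B : ℕ, B = 4 * (a * (108 * a ^ 2 * τ)) := ⟨_, rfl⟩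
  have hB2 : 2 ≤ B := by
    have : 1 ≤ a * (108 * a ^ 2 * τ) := Nat.one_le_iff_ne_zero.2 (by positivity)
    omega
  have hfr : ∀ t < t₁, ((Cut A a (B ^ (t + 1))).card : ℝ) ≤ 2 * ((fresh A a F B t).card : ℝ) := by
    apply hfresh F τ B t₁ hτ1 hB2 (fun w hw => ⟨(hF1 w hw).1, (hF1 w hw).2.1⟩)
    refine le_trans ?_ ht₁a
    apply mul_le_mul_of_nonneg_left _ hC₅'.le
    apply mul_le_mul_of_nonneg_left _ (Nat.cast_nonneg _)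
    exact_mod_cast hFcard
  refine ⟨180 * a ^ 2 * τ * B ^ t₁ + 1, ?_⟩
  intro n hn
  have hn1 : 1 ≤ n := by omega
  have hn' : (0 : ℝ) < n := by exact_mod_cast hn1
  have hscale : ∀ t < t₁, 180 * a ^ 2 * τ * B ^ (t + 1) ≤ n := by
    intro t ht
    have h1 : B ^ (t + 1) ≤ B ^ t₁ := Nat.pow_le_pow_right (by omega) (by omega)
    calc 180 * a ^ 2 * τ * B ^ (t + 1) ≤ 180 * a ^ 2 * τ * B ^ t₁ :=
          Nat.mul_le_mul_left _ h1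
      _ ≤ n := by omega
  obtain ⟨Y, hYdef⟩ : ∃ Y : ℕ → ℕ, ∀ t, Y t = n / (90 * a ^ 2 * τ * B ^ (t + 1)) :=
    ⟨_, fun _ => rfl⟩
  have hY : ∀ t < t₁, 2 ≤ Y t ∧
      (n : ℝ) ≤ 180 * (a : ℝ) ^ 2 * τ * (((B ^ (t + 1) : ℕ) : ℝ) * ((Y t : ℕ) : ℝ)) ∧
      90 * (a : ℝ) ^ 2 * τ * (((B ^ (t + 1) : ℕ) : ℝ) * ((Y t : ℕ) : ℝ)) ≤ n := by
    intro t ht
    have hBp : 1 ≤ B ^ (t + 1) := Nat.one_le_pow _ _ (by omega)
    have h := G9_scale a τ (B ^ (t + 1)) n ha hτ1 hBp (hscale t ht)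
    rw [← hYdef t] at h
    exact h
  -- the choice of `ρ`
  have hch : ∀ x y : List ℕ, ∃ ρ : ℕ, 0 < Pl (vec y) * Pr (vec x) →
      (τ : ℝ) * (Pl (vec y) * Pr (vec x)) ≤ n →
      (n : ℝ) ≤ 12 * (a : ℝ) ^ 2 * (τ * (Pl (vec y) * Pr (vec x))) →
      ρ < R ∧ (τ : ℝ) * (1 + κ / 4) ^ ρ * (Pl (vec y) * Pr (vec x)) ≤ n ∧
        (n : ℝ) - τ * (1 + κ / 4) ^ ρ * (Pl (vec y) * Pr (vec x)) ≤ κ / 4 * n := by
    intro x y
    by_cases h : 0 < Pl (vec y) * Pr (vec x) ∧ (τ : ℝ) * (Pl (vec y) * Pr (vec x)) ≤ n ∧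
      (n : ℝ) ≤ 12 * (a : ℝ) ^ 2 * (τ * (Pl (vec y) * Pr (vec x)))
    · obtain ⟨ρ, hρ⟩ := choose_rho κ τ (12 * (a : ℝ) ^ 2) (Pl (vec y) * Pr (vec x)) n R hκ hκ1 hR
        h.1 (by linarith) h.2.1 h.2.2 hDR
      exact ⟨ρ, fun _ _ _ => hρ⟩
    · exact ⟨0, fun h1 h2 h3 => absurd ⟨h1, h2, h3⟩ h⟩
  choose ρ hρ using hch
  -- the facts about a pair
  have hpair : ∀ t < t₁, ∀ x ∈ fresh A a F B t, ∀ y ∈ Cut A a (Y t),
      WA A x ∧ WA A y ∧ ρ x y < R ∧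
      (τ : ℝ) * (1 + κ / 4) ^ (ρ x y) * (Pl (vec y) * Pr (vec x)) ≤ n ∧
        (n : ℝ) - τ * (1 + κ / 4) ^ (ρ x y) * (Pl (vec y) * Pr (vec x)) ≤ κ / 4 * n := by
    intro t ht x hx y hy
    obtain ⟨hY2, hYlo, hYhi⟩ := hY t ht
    obtain ⟨hxW, hyW, h1, h2, h3⟩ := G9_pair hp (B ^ (t + 1)) (Y t) n τ x y
      (Nat.one_le_pow _ _ (by omega)) hY2 hYlo hYhi (G9_fresh_sub A a F B t x hx) hy
    exact ⟨hxW, hyW, hρ x y h1 h2 h3⟩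
  obtain ⟨Q, hQdef⟩ : ∃ Q : List ℕ → List ℕ → Finset ℕ, ∀ x y, Q x y =
      (Finset.range m).filter (fun i =>
        (q₀ : ℤ) ∣ dt (vec y) (act (c (ρ x y) i) (vec x)) - (n : ℤ)) := ⟨_, fun _ _ => rfl⟩
  have hcount := G9_count hp.dig F τ (108 * a ^ 2) B t₁ R m hτ1
    (Nat.one_le_iff_ne_zero.2 (by positivity)) (by rw [hBdef]) hB2 c hFmem hF1 hcinj
    ((wP A n).filter (fun z => |((nz z : ℤ) : ℝ) - n| ≤ κ * n ∧ (q₀ : ℤ) ∣ nz z - (n : ℤ)))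
    Y ρ Q (fun x y => by rw [hQdef]; exact Finset.filter_subset _ _)
    (fun t ht x hx y hy => (hpair t ht x hx y hy).2.2.1)
    (by
      intro t ht x hx y hy i hi
      obtain ⟨hxW, hyW, hρR, hr1, hr2⟩ := hpair t ht x hx y hy
      rw [hQdef] at hi
      obtain ⟨hi1, hi2⟩ := Finset.mem_filter.1 hi
      have him := Finset.mem_range.1 hi1
      exact G9_word hp q₀ n κ _ hn1 hκ hκ1 x y (c (ρ x y) i) hxW hyW (hWc _ _) hr1 hr2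
        (hcsize (ρ x y) hρR i him) hi2)
  generalize hSdef : ((wP A n).filter (fun z => |((nz z : ℤ) : ℝ) - n| ≤ κ * n ∧
    (q₀ : ℤ) ∣ nz z - (n : ℤ))).card = S at hcount
  -- lower bound for the number of the indices
  have hlow : t₁ * (((n : ℝ) / (180 * (a : ℝ) ^ 2 * τ)) ^ s / 32 *
      ((m : ℝ) * n.totient / (q₀ * n))) ≤
      ((∑ t ∈ Finset.range t₁, ∑ p ∈ fresh A a F B t ×ˢ Cut A a (Y t), (Q p.1 p.2).card : ℕ) : ℝ) := by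
    have hw0 : 0 ≤ (m : ℝ) * n.totient / (q₀ * n) := by positivity
    refine G9_low t₁ _ (fun t => fresh A a F B t ×ˢ Cut A a (Y t)) Q ?_
    intro t ht
    obtain ⟨hY2, hYlo, hYhi⟩ := hY t ht
    refine G9_term hp F B t (Y t) n τ _ Q hn1 hτ1 hB2 hY2 hw0 hYlo (hfr t ht) ?_
    intro x hx y hy
    obtain ⟨_, _, hρR, _, _⟩ := hpair t ht x hx y hy
    have h := hcuni (ρ x y) hρR (vec y) (vec x) (cop_vec _) (cop_vec _) n hn1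
    rw [hQdef, div_le_iff₀ (by positivity)]
    linarith
  have hcount' : ((∑ t ∈ Finset.range t₁, ∑ p ∈ fresh A a F B t ×ˢ Cut A a (Y t),
      (Q p.1 p.2).card : ℕ) : ℝ) ≤ 3 * (108 * (a : ℝ) ^ 2 + 1) * (S : ℝ) := by
    exact_mod_cast hcount
  exact G9_final s κ C₁ C₅ (180 * (a : ℝ) ^ 2) (3 * (108 * (a : ℝ) ^ 2 + 1)) S _ n τ m R t₁
    n.totient q₀ hn1 hτ1 hm hR hq₀ hκ hC₁ hC₅ hE (by positivity) hcount' hlow ht₁b hRκ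

end Pool.Agent.LibZE10
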