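import Mathlib

set_option autoImplicit false

namespace Pool.Agent.LibZE10

private lemma H1_one_sub_sum_le (S : Finset ℕ) (a : ℕ → ℝ) (h0 : ∀ p ∈ S, 0 ≤ a p)
    (h1 : ∀ p ∈ S, a p ≤ 1) : 1 - ∑ p ∈ S, a p ≤ ∏ p ∈ S, (1 - a p) := by
  classical
  induction S using Finset.induction_on with
  | empty => simp
  | insert q S hq ih =>
    rw [Finset.sum_insert hq, Finset.prod_insert hq]
    have hih := ih (fun p hp => h0 p (Finset.mem_insert_of_mem hp))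
      (fun p hp => h1 p (Finset.mem_insert_of_mem hp))
    have hq0 := h0 q (Finset.mem_insert_self q S)
    have hq1 := h1 q (Finset.mem_insert_self q S)
    have hs : 0 ≤ ∑ p ∈ S, a p :=
      Finset.sum_nonneg (fun p hp => h0 p (Finset.mem_insert_of_mem hp))
    nlinarith [mul_le_mul_of_nonneg_left hih (sub_nonneg.2 hq1), mul_nonneg hq0 hs]

private lemma H1_totient (n : ℕ) (hn : 1 ≤ n) :
    ((n.totient : ℝ) / n) = ∏ p ∈ n.primeFactors, (1 - 1 / (p : ℝ)) := by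
  have h := Nat.totient_eq_mul_prod_factors n
  have h' : ((n.totient : ℚ) : ℝ) = ((n : ℚ) * ∏ p ∈ n.primeFactors, (1 - (p : ℚ)⁻¹) : ℚ) := by
    rw [h]
  push_cast at h'
  rw [h']
  have hn0 : (n : ℝ) ≠ 0 := by positivity
  rw [mul_div_cancel_left₀ _ hn0]
  exact Finset.prod_congr rfl (fun p _ => by rw [one_div])

private lemma H1_factor (p : ℕ) (hp : p.Prime) :
    0 < 1 - 1 / (p : ℝ) ∧ 1 - 1 / (p : ℝ) ≤ 1 ∧ 0 ≤ 1 / (p : ℝ) ∧ 1 / (p : ℝ) ≤ 1 := by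
  have h2 : (2 : ℝ) ≤ p := by exact_mod_cast hp.two_le
  have h3 : 1 / (p : ℝ) ≤ 1 / 2 := one_div_le_one_div_of_le (by norm_num) h2
  have h4 : 0 ≤ 1 / (p : ℝ) := by positivity
  refine ⟨by linarith, by linarith, h4, by linarith⟩

private lemma H1_lower (p₀ n : ℕ) (hn : 1 ≤ n)
    (hs : ∑ p ∈ n.primeFactors.filter (fun p => p₀ < p), 1 / (p : ℝ) ≤ 1 / 2) :
    1 / 2 * ∏ p ∈ (Finset.range (p₀ + 1)).filter Nat.Prime, (1 - 1 / (p : ℝ)) ≤
      ((n.totient : ℝ) / n) := by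
  classical
  rw [H1_totient n hn]
  have hsplit : ∏ p ∈ n.primeFactors, (1 - 1 / (p : ℝ)) =
      (∏ p ∈ n.primeFactors.filter (fun p => p₀ < p), (1 - 1 / (p : ℝ))) *
      (∏ p ∈ n.primeFactors.filter (fun p => ¬ p₀ < p), (1 - 1 / (p : ℝ))) :=
    (Finset.prod_filter_mul_prod_filter_not _ _ _).symm
  rw [hsplit]
  have hlarge : 1 / 2 ≤ ∏ p ∈ n.primeFactors.filter (fun p => p₀ < p), (1 - 1 / (p : ℝ)) := by
    have := H1_one_sub_sum_le (n.primeFactors.filter (fun p => p₀ < p)) (fun p => 1 / (p : ℝ))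
      (fun p hp => (H1_factor p (Nat.prime_of_mem_primeFactors (Finset.mem_filter.1 hp).1)).2.2.1)
      (fun p hp => (H1_factor p (Nat.prime_of_mem_primeFactors (Finset.mem_filter.1 hp).1)).2.2.2)
    linarith
  have hsub : n.primeFactors.filter (fun p => ¬ p₀ < p) ⊆
      (Finset.range (p₀ + 1)).filter Nat.Prime := by
    intro p hp
    rw [Finset.mem_filter] at hp ⊢
    refine ⟨Finset.mem_range.2 (by omega), Nat.prime_of_mem_primeFactors hp.1⟩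
  have hsmall : ∏ p ∈ (Finset.range (p₀ + 1)).filter Nat.Prime, (1 - 1 / (p : ℝ)) ≤
      ∏ p ∈ n.primeFactors.filter (fun p => ¬ p₀ < p), (1 - 1 / (p : ℝ)) := by
    rw [← Finset.prod_sdiff hsub]
    have h1 : ∏ p ∈ (Finset.range (p₀ + 1)).filter Nat.Prime \
        n.primeFactors.filter (fun p => ¬ p₀ < p), (1 - 1 / (p : ℝ)) ≤ 1 :=
      Finset.prod_le_one
        (fun p hp => (H1_factor p (Finset.mem_filter.1 (Finset.mem_sdiff.1 hp).1).2).1.le)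
        (fun p hp => (H1_factor p (Finset.mem_filter.1 (Finset.mem_sdiff.1 hp).1).2).2.1)
    have h2 : 0 ≤ ∏ p ∈ n.primeFactors.filter (fun p => ¬ p₀ < p), (1 - 1 / (p : ℝ)) :=
      Finset.prod_nonneg (fun p hp =>
        (H1_factor p (Nat.prime_of_mem_primeFactors (Finset.mem_filter.1 hp).1)).1.le)
    exact mul_le_of_le_one_left h2 h1
  have hP : 0 ≤ ∏ p ∈ (Finset.range (p₀ + 1)).filter Nat.Prime, (1 - 1 / (p : ℝ)) :=
    Finset.prod_nonneg (fun p hp => (H1_factor p (Finset.mem_filter.1 hp).2).1.le)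
  exact mul_le_mul hlarge hsmall hP (by linarith)

private lemma H1_count (p₀ N : ℕ) (hp₀ : 1 ≤ p₀) :
    ∑ n ∈ Finset.Ioc 0 N, ∑ p ∈ n.primeFactors.filter (fun p => p₀ < p), 1 / (p : ℝ) ≤
      (N : ℝ) / p₀ := by
  classical
  have h1 : ∀ n ∈ Finset.Ioc 0 N, ∑ p ∈ n.primeFactors.filter (fun p => p₀ < p), 1 / (p : ℝ) ≤
      ∑ d ∈ (Finset.Ioc p₀ (max p₀ N)).filter (fun d => d ∣ n), 1 / (d : ℝ) := by
    intro n hn
    rw [Finset.mem_Ioc] at hn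
    refine Finset.sum_le_sum_of_subset_of_nonneg ?_ (fun d _ _ => by positivity)
    intro p hp
    rw [Finset.mem_filter] at hp ⊢
    have hd := Nat.dvd_of_mem_primeFactors hp.1
    have hle := Nat.le_of_dvd hn.1 hd
    exact ⟨Finset.mem_Ioc.2 ⟨hp.2, (hle.trans hn.2).trans (le_max_right _ _)⟩, hd⟩
  refine (Finset.sum_le_sum h1).trans ?_
  have h2 : ∑ n ∈ Finset.Ioc 0 N, ∑ d ∈ (Finset.Ioc p₀ (max p₀ N)).filter (fun d => d ∣ n),
      1 / (d : ℝ) =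
      ∑ d ∈ Finset.Ioc p₀ (max p₀ N), ∑ n ∈ (Finset.Ioc 0 N).filter (fun n => d ∣ n),
        1 / (d : ℝ) := by
    simp_rw [Finset.sum_filter]
    exact Finset.sum_comm
  rw [h2]
  have h3 : ∀ d ∈ Finset.Ioc p₀ (max p₀ N),
      ∑ n ∈ (Finset.Ioc 0 N).filter (fun n => d ∣ n), 1 / (d : ℝ) ≤
        (N : ℝ) * ((d : ℝ) ^ 2)⁻¹ := by
    intro d hd
    rw [Finset.mem_Ioc] at hd
    rw [Finset.sum_const, Nat.Ioc_filter_dvd_card_eq_div, nsmul_eq_mul]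
    have hd0 : (0 : ℝ) < d := by
      have : 0 < d := by omega
      exact_mod_cast this
    have h4 : ((N / d : ℕ) : ℝ) ≤ (N : ℝ) / d := Nat.cast_div_le
    calc ((N / d : ℕ) : ℝ) * (1 / (d : ℝ)) ≤ (N : ℝ) / d * (1 / (d : ℝ)) :=
          mul_le_mul_of_nonneg_right h4 (by positivity)
      _ = (N : ℝ) * ((d : ℝ) ^ 2)⁻¹ := by field_simp
  refine (Finset.sum_le_sum h3).trans ?_
  rw [← Finset.mul_sum]
  have h5 : ∑ i ∈ Finset.Ioc p₀ (max p₀ N), ((i : ℝ) ^ 2)⁻¹ ≤ (p₀ : ℝ)⁻¹ := by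
    have h6 := sum_Ioc_inv_sq_le_sub (α := ℝ) (k := p₀) (n := max p₀ N) (by omega)
      (le_max_left _ _)
    have h7 : 0 ≤ (((max p₀ N : ℕ)) : ℝ)⁻¹ := by positivity
    linarith
  calc (N : ℝ) * ∑ i ∈ Finset.Ioc p₀ (max p₀ N), ((i : ℝ) ^ 2)⁻¹ ≤ (N : ℝ) * (p₀ : ℝ)⁻¹ :=
        mul_le_mul_of_nonneg_left h5 (Nat.cast_nonneg N)
    _ = (N : ℝ) / p₀ := by rw [div_eq_mul_inv]

/-- Row H1 (MEDIUM, independent). Integers with small `φ(n)/n` are rare. Choose `p₀ ≥ 4/η`. For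
`n ≥ 1`, `φ(n)/n = ∏_{p ∣ n} (1 - 1/p) ≥ ∏_{p ≤ p₀ prime} (1 - 1/p) · (1 - ∑_{p ∣ n, p > p₀} 1/p)`. The number of
the `n ≤ N` with `∑_{p ∣ n, p > p₀} 1/p > 1/2` is at most `2 ∑_{p > p₀} (1/p) (N/p) ≤ 2 N / p₀ ≤ η N`; the
others have `φ(n)/n ≥ (1/2) ∏_{p ≤ p₀} (1 - 1/p) =: κ₁`. -/
theorem totient_small (η : ℝ) (hη : 0 < η) : ∃ κ₁ : ℝ, 0 < κ₁ ∧ ∀ N : ℕ,
    (((Finset.range (N + 1)).filter (fun n : ℕ => 1 ≤ n ∧ ((n.totient : ℝ) / n) < κ₁)).card : ℝ) ≤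
      η * N := by
  classical
  obtain ⟨m, hm⟩ := exists_nat_ge (4 / η)
  set p₀ : ℕ := m + 1 with hp₀
  refine ⟨1 / 2 * ∏ p ∈ (Finset.range (p₀ + 1)).filter Nat.Prime, (1 - 1 / (p : ℝ)), ?_, ?_⟩
  · refine mul_pos (by norm_num) (Finset.prod_pos (fun p hp =>
      (H1_factor p (Finset.mem_filter.1 hp).2).1))
  · intro N
    set S := (Finset.range (N + 1)).filter (fun n : ℕ => 1 ≤ n ∧ ((n.totient : ℝ) / n) <
      1 / 2 * ∏ p ∈ (Finset.range (p₀ + 1)).filter Nat.Prime, (1 - 1 / (p : ℝ))) with hS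
    have hsub : S ⊆ Finset.Ioc 0 N := by
      intro n hn
      rw [hS, Finset.mem_filter, Finset.mem_range] at hn
      exact Finset.mem_Ioc.2 ⟨by omega, by omega⟩
    have hbig : ∀ n ∈ S, 1 / 2 ≤
        ∑ p ∈ n.primeFactors.filter (fun p => p₀ < p), 1 / (p : ℝ) := by
      intro n hn
      rw [hS, Finset.mem_filter] at hn
      by_contra hcon
      push Not at hcon
      exact absurd (H1_lower p₀ n hn.2.1 hcon.le) (not_le.2 hn.2.2)
    have h1 : (S.card : ℝ) * (1 / 2) ≤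
        ∑ n ∈ S, ∑ p ∈ n.primeFactors.filter (fun p => p₀ < p), 1 / (p : ℝ) := by
      have := Finset.sum_le_sum hbig
      rwa [Finset.sum_const, nsmul_eq_mul] at this
    have h2 : ∑ n ∈ S, ∑ p ∈ n.primeFactors.filter (fun p => p₀ < p), 1 / (p : ℝ) ≤
        ∑ n ∈ Finset.Ioc 0 N, ∑ p ∈ n.primeFactors.filter (fun p => p₀ < p), 1 / (p : ℝ) :=
      Finset.sum_le_sum_of_subset_of_nonneg hsub
        (fun n _ _ => Finset.sum_nonneg (fun p _ => by positivity))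
    have h3 := H1_count p₀ N (by omega)
    have h4 : (N : ℝ) / p₀ ≤ η / 4 * N := by
      have hp : 4 / η ≤ (p₀ : ℝ) := by
        rw [hp₀]; push_cast; linarith
      have hp0 : (0 : ℝ) < p₀ := lt_of_lt_of_le (by positivity) hp
      rw [div_le_iff₀ hp0]
      rw [div_le_iff₀ hη] at hp
      have hN : (0 : ℝ) ≤ N := Nat.cast_nonneg N
      nlinarith
    have hN : (0 : ℝ) ≤ N := Nat.cast_nonneg N
    nlinarith

end Pool.Agent.LibZE10
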