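import Pool.Agent.LibZE10.A3
import Pool.Agent.LibNW69.EA

set_option autoImplicit false

namespace Pool.Agent.LibZE10

open Pool.Agent.LibNZ69

private theorem I3_con_nil : con [] = (1, 0) := rfl

private theorem I3_con_cons (a : ℕ) (l : List ℕ) :
    con (a :: l) = (a * (con l).1 + (con l).2, (con l).1) := rfl

private theorem I3_act (l : List ℕ) : act l (0, 1) = (((con l).2 : ℤ), ((con l).1 : ℤ)) := by
  induction l with
  | nil => simp [act, I3_con_nil]
  | cons a l ih =>
    rw [I3_con_cons]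
    show gl a (act l (0, 1)) = _
    rw [ih]
    unfold gl
    ext
    · rfl
    · push_cast
      ring

private theorem I3_append (u w : List ℕ) (v : ℤ × ℤ) : act (u ++ w) v = act u (act w v) := by
  induction u with
  | nil => rfl
  | cons a u ih => simp only [List.cons_append, act, ih]

private theorem I3_nz (z : List ℕ) : nz z = ((con (2 :: (z ++ [2]))).1 : ℤ) := by
  have h1 : act (2 :: (z ++ [2])) (0, 1) = gl 2 (act z (1, 2)) := by
    show gl 2 (act (z ++ [2]) (0, 1)) = gl 2 (act z (1, 2))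
    rw [I3_append]
    simp [act, gl]
  have h2 := I3_act (2 :: (z ++ [2]))
  rw [h1] at h2
  have h3 := congrArg Prod.snd h2
  have h4 : (gl 2 (act z (1, 2))).2 = (act z (1, 2)).1 + 2 * (act z (1, 2)).2 := rfl
  rw [h4] at h3
  have h5 : nz z = 1 * (act z (1, 2)).1 + 2 * (act z (1, 2)).2 := rfl
  rw [h5, one_mul, h3]

private theorem I3_pos (l : List ℕ) (h : ∀ a ∈ l, 1 ≤ a) : 1 ≤ (con l).1 := by
  induction l with
  | nil => exact le_rfl
  | cons a l ih =>
    rw [I3_con_cons]
    have h1 := ih fun b hb => h b (List.mem_cons_of_mem _ hb)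
    have h2 := h a List.mem_cons_self
    have h3 : 1 ≤ a * (con l).1 := Nat.mul_pos h2 h1
    show 1 ≤ a * (con l).1 + (con l).2
    omega

private theorem I3_coprime (l : List ℕ) : Nat.Coprime (con l).2 (con l).1 := by
  induction l with
  | nil => exact Nat.coprime_zero_left 1 |>.2 rfl
  | cons a l ih =>
    rw [I3_con_cons]
    show Nat.Coprime (con l).1 (a * (con l).1 + (con l).2)
    rw [Nat.add_comm, Nat.coprime_add_mul_right_right]
    exact ih.symm

private theorem I3_num_pos (l : List ℕ) (h : ∀ a ∈ l, 1 ≤ a) (hl : l ≠ []) :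
    1 ≤ (con l).2 := by
  cases l with
  | nil => exact absurd rfl hl
  | cons a l => exact I3_pos l fun b hb => h b (List.mem_cons_of_mem _ hb)

private theorem I3_lt (l : List ℕ) (h : ∀ a ∈ l, 1 ≤ a) (hl : l ≠ [])
    (h2 : 2 ≤ l.getLast hl) : (con l).2 < (con l).1 := by
  cases l with
  | nil => exact absurd rfl hl
  | cons a l =>
    rw [I3_con_cons]
    show (con l).1 < a * (con l).1 + (con l).2
    by_cases hn : l = []
    · subst hn
      rw [List.getLast_singleton] at h2
      simp only [I3_con_nil]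
      omega
    · have h3 := I3_num_pos l (fun b hb => h b (List.mem_cons_of_mem _ hb)) hn
      have h4 := h a List.mem_cons_self
      have h5 : (con l).1 ≤ a * (con l).1 := Nat.le_mul_of_pos_left _ h4
      omega

private theorem I3_cf_eq (l : List ℕ) (h : ∀ a ∈ l, 1 ≤ a) :
    Pool.Agent.LibNW69.cf l = ((con l).2 : ℚ) / (con l).1 := by
  induction l with
  | nil => simp [Pool.Agent.LibNW69.cf, I3_con_nil]
  | cons a l ih =>
    have h1 := I3_pos l fun b hb => h b (List.mem_cons_of_mem _ hb)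
    have h2 := I3_pos (a :: l) h
    have h3 : ((con l).1 : ℚ) ≠ 0 := by positivity
    rw [Pool.Agent.LibNW69.cf, ih fun b hb => h b (List.mem_cons_of_mem _ hb)]
    rw [I3_con_cons] at h2 ⊢
    have h4 : (((a * (con l).1 + (con l).2 : ℕ)) : ℚ) ≠ 0 := by
      have : (0 : ℚ) < ((a * (con l).1 + (con l).2 : ℕ) : ℚ) := by exact_mod_cast h2
      exact this.ne'
    show 1 / ((a : ℚ) + ((con l).2 : ℚ) / (con l).1) =
      ((con l).1 : ℚ) / ((a * (con l).1 + (con l).2 : ℕ) : ℚ)
    have h5 : (a : ℚ) + ((con l).2 : ℚ) / (con l).1 =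
        ((a * (con l).1 + (con l).2 : ℕ) : ℚ) / (con l).1 := by
      push_cast
      field_simp
    rw [h5, one_div_div]

/-- Row I3 (SHORT/MEDIUM). `nz z = K(2 z 2)`, and `[a_1, …, a_k]` with list `l = 2 :: z ++ [2]` is
`(con l).2 / (con l).1` (`cf l`, induction), coprime, `(con l).2 < (con l).1`, last entry `2`. Compare
`LibNW69/RES.lean` (finished), lemma `mem_D`. -/
theorem mem_D (A : Finset ℕ) (hA : ∀ y ∈ A, 1 ≤ y) (h2 : 2 ∈ A) (z : List ℕ) (hz : WA A z)
    (d : ℕ) (h : nz z = (d : ℤ)) : d ∈ Pool.Agent.LibNW69.D A := by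
  have hd : (con (2 :: (z ++ [2]))).1 = d := by
    rw [I3_nz z] at h
    exact_mod_cast h
  have hne : 2 :: (z ++ [2]) ≠ [] := by simp
  have hl : ∀ y ∈ 2 :: (z ++ [2]), y ∈ A := by
    intro y hy
    rcases List.mem_cons.1 hy with hy | hy
    · rw [hy]
      exact h2
    rcases List.mem_append.1 hy with hy | hy
    · exact hz y hy
    · rw [List.mem_singleton] at hy
      rw [hy]
      exact h2
  have h1 : ∀ y ∈ 2 :: (z ++ [2]), 1 ≤ y := fun y hy => hA y (hl y hy)
  have hlast : 2 ≤ (2 :: (z ++ [2])).getLast hne := by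
    have h0 : (2 :: (z ++ [2])).getLast hne = 2 := by simp
    rw [h0]
  have h3 := I3_num_pos _ h1 hne
  have h4 := I3_lt _ h1 hne hlast
  rw [← hd]
  exact ⟨by omega, (con (2 :: (z ++ [2]))).2, h3, h4, I3_coprime _, 2 :: (z ++ [2]), hne, hl,
    hlast, (I3_cf_eq _ h1).symm⟩

end Pool.Agent.LibZE10
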