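import Mathlib

set_option autoImplicit false

namespace Pool.Agent.LibZE10

open scoped Classical in
/-- One step: `f(n) ≤ f(R b) + #(S ∩ [R b, 2 R b))` with `b = n / (2 R) + 1`. -/
private theorem J2_step (S : Set ℕ) (R n : ℕ) (hR : 1 ≤ R) :
    ((Finset.range n).filter (fun x => x ∈ S)).card ≤
      ((Finset.range (R * (n / (2 * R) + 1))).filter (fun x => x ∈ S)).card +
      ((Finset.Ico (R * (n / (2 * R) + 1)) (2 * (R * (n / (2 * R) + 1)))).filter
        (fun x => x ∈ S)).card := by
  have h1 : n < 2 * (R * (n / (2 * R) + 1)) := by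
    have := Nat.lt_div_mul_add (a := n) (b := 2 * R) (by omega)
    calc n < n / (2 * R) * (2 * R) + 2 * R := this
      _ = 2 * (R * (n / (2 * R) + 1)) := by ring
  refine le_trans (Finset.card_le_card ?_) (Finset.card_union_le _ _)
  intro x hx
  simp only [Finset.mem_union, Finset.mem_filter, Finset.mem_range, Finset.mem_Ico] at hx ⊢
  by_cases hxx : x < R * (n / (2 * R) + 1)
  · exact Or.inl ⟨hxx, hx.2⟩
  · exact Or.inr ⟨⟨by omega, by omega⟩, hx.2⟩

open scoped Classical in
/-- Row J2 (SHORT/MEDIUM, independent; compare `density_of_windows` in I2.lean). One `η` only. Let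
`f(N) = #(S ∩ [0, N])`. With `b = N / (2R) + 1` (nat division) `2 R b > N` and `R b ≤ N/2 + R`:
`f(N) ≤ f(N/2 + R) + η (N/(2R) + 1)` for `N ≥ 2 R b₀`. So `f(N) ≤ 2 η N + K` for a constant `K` (strong
induction), `≤ 4 η N` for large `N`. -/
theorem density_of_windows2 (S : Set ℕ) (R : ℕ) (hR : 1 ≤ R) (η : ℝ) (hη : 0 < η) (b₀ : ℕ)
    (h : ∀ b : ℕ, b₀ ≤ b →
      (((Finset.Ico (R * b) (2 * (R * b))).filter (fun x => x ∈ S)).card : ℝ) ≤ η * b) :
    ∃ N₀ : ℕ, ∀ N : ℕ, N₀ ≤ N →
      (((Finset.range (N + 1)).filter (fun x => x ∈ S)).card : ℝ) ≤ 4 * η * N := by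
  set n₀ : ℕ := 4 * R * (b₀ + 1) with hn₀
  have hR' : (1 : ℝ) ≤ R := by exact_mod_cast hR
  have key : ∀ n : ℕ, (((Finset.range n).filter (fun x => x ∈ S)).card : ℝ) ≤
      3 * η * n + n₀ := by
    intro n
    induction n using Nat.strong_induction_on with
    | _ n ih =>
      by_cases hn : n < n₀
      · have h1 : ((Finset.range n).filter (fun x => x ∈ S)).card ≤ n := by
          have := Finset.card_filter_le (Finset.range n) (fun x => x ∈ S)
          simpa using this
        have h2 : (((Finset.range n).filter (fun x => x ∈ S)).card : ℝ) ≤ n := by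
          exact_mod_cast h1
        have h3 : (n : ℝ) ≤ n₀ := by exact_mod_cast hn.le
        have h4 : 0 ≤ 3 * η * (n : ℝ) := by positivity
        linarith
      · have hn' : n₀ ≤ n := not_lt.mp hn
        have h4R : 4 * R ≤ n := by
          refine le_trans ?_ hn'
          rw [hn₀]
          exact Nat.le_mul_of_pos_right _ (Nat.succ_pos _)
        set b : ℕ := n / (2 * R) + 1 with hb
        have hbb : b₀ ≤ b := by
          have h5 : b₀ ≤ n / (2 * R) := by
            rw [Nat.le_div_iff_mul_le (by omega)]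
            refine le_trans ?_ hn'
            rw [hn₀]
            nlinarith
          omega
        have hdiv : n / (2 * R) * (2 * R) ≤ n := Nat.div_mul_le_self _ _
        have hRb : 2 * (R * b) ≤ n + 2 * R := by
          rw [hb]
          calc 2 * (R * (n / (2 * R) + 1)) = n / (2 * R) * (2 * R) + 2 * R := by ring
            _ ≤ n + 2 * R := by omega
        have hlt : R * b < n := by omega
        have hih := ih (R * b) hlt
        have hst := J2_step S R n hR
        rw [← hb] at hst
        have hwin := h b hbb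
        have hst' : (((Finset.range n).filter (fun x => x ∈ S)).card : ℝ) ≤
            (((Finset.range (R * b)).filter (fun x => x ∈ S)).card : ℝ) +
            (((Finset.Ico (R * b) (2 * (R * b))).filter (fun x => x ∈ S)).card : ℝ) := by
          exact_mod_cast hst
        have hRb' : 2 * ((R : ℝ) * b) ≤ n + 2 * R := by exact_mod_cast hRb
        have h4R' : 4 * (R : ℝ) ≤ n := by exact_mod_cast h4R
        have hcast : ((R * b : ℕ) : ℝ) = (R : ℝ) * b := by push_cast; ring
        rw [hcast] at hih
        have hbR : (b : ℝ) ≤ (R : ℝ) * b := by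
          have : (0 : ℝ) ≤ b := Nat.cast_nonneg b
          nlinarith
        have h6 : η * (b : ℝ) ≤ η * ((R : ℝ) * b) := mul_le_mul_of_nonneg_left hbR hη.le
        have h7 : η * (2 * ((R : ℝ) * b)) ≤ η * (n + 2 * R) := mul_le_mul_of_nonneg_left hRb' hη.le
        have h8 : η * (4 * (R : ℝ)) ≤ η * n := mul_le_mul_of_nonneg_left h4R' hη.le
        nlinarith
  obtain ⟨N₁, hN₁⟩ := exists_nat_gt (3 + (n₀ : ℝ) / η)
  refine ⟨N₁, fun N hN => ?_⟩
  have h1 := key (N + 1)
  have h2 : (N₁ : ℝ) ≤ N := by exact_mod_cast hN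
  have h3 : 3 + (n₀ : ℝ) / η ≤ N := by linarith
  have h4 : η * (3 + (n₀ : ℝ) / η) ≤ η * N :=
    mul_le_mul_of_nonneg_left h3 hη.le
  have h5 : η * (3 + (n₀ : ℝ) / η) = 3 * η + n₀ := by
    field_simp
  rw [h5] at h4
  push_cast at h1
  linarith

end Pool.Agent.LibZE10
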