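import Pool.Agent.LibZE10.I3
import Pool.Agent.LibZE10.A4

set_option autoImplicit false

namespace Pool.Agent.LibZE10

open Pool.Agent.LibNZ69

/-- the numerators `b` of the fractions `b / d` with all partial quotients in `A` -/
def numer (A : Finset ℕ) (d : ℕ) : Set ℕ :=
  {b | 1 ≤ b ∧ b < d ∧ b.Coprime d ∧ ∃ (l : List ℕ) (h : l ≠ []),
    (∀ x ∈ l, x ∈ A) ∧ 2 ≤ l.getLast h ∧ (b : ℚ) / d = Pool.Agent.LibNW69.cf l}

private theorem J3_con_nil : con [] = (1, 0) := rfl

private theorem J3_con_cons (a : ℕ) (l : List ℕ) :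
    con (a :: l) = (a * (con l).1 + (con l).2, (con l).1) := rfl

private theorem J3_act (l : List ℕ) : act l (0, 1) = (((con l).2 : ℤ), ((con l).1 : ℤ)) := by
  induction l with
  | nil => simp [act, J3_con_nil]
  | cons a l ih =>
    rw [J3_con_cons]
    show gl a (act l (0, 1)) = _
    rw [ih]
    unfold gl
    ext
    · rfl
    · push_cast
      ring

private theorem J3_append (u w : List ℕ) (v : ℤ × ℤ) : act (u ++ w) v = act u (act w v) := by
  induction u with
  | nil => rfl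
  | cons a u ih => simp only [List.cons_append, act, ih]

private theorem J3_nz (z : List ℕ) : nz z = ((con (2 :: (z ++ [2]))).1 : ℤ) := by
  have h1 : act (2 :: (z ++ [2])) (0, 1) = gl 2 (act z (1, 2)) := by
    show gl 2 (act (z ++ [2]) (0, 1)) = gl 2 (act z (1, 2))
    rw [J3_append]
    simp [act, gl]
  have h2 := J3_act (2 :: (z ++ [2]))
  rw [h1] at h2
  have h3 := congrArg Prod.snd h2
  have h4 : (gl 2 (act z (1, 2))).2 = (act z (1, 2)).1 + 2 * (act z (1, 2)).2 := rfl
  rw [h4] at h3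
  have h5 : nz z = 1 * (act z (1, 2)).1 + 2 * (act z (1, 2)).2 := rfl
  rw [h5, one_mul, h3]

private theorem J3_pos (l : List ℕ) (h : ∀ a ∈ l, 1 ≤ a) : 1 ≤ (con l).1 := by
  induction l with
  | nil => exact le_rfl
  | cons a l ih =>
    rw [J3_con_cons]
    have h1 := ih fun b hb => h b (List.mem_cons_of_mem _ hb)
    have h2 := h a List.mem_cons_self
    have h3 : 1 ≤ a * (con l).1 := Nat.mul_pos h2 h1
    show 1 ≤ a * (con l).1 + (con l).2
    omega

private theorem J3_coprime (l : List ℕ) : Nat.Coprime (con l).2 (con l).1 := by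
  induction l with
  | nil => exact Nat.coprime_zero_left 1 |>.2 rfl
  | cons a l ih =>
    rw [J3_con_cons]
    show Nat.Coprime (con l).1 (a * (con l).1 + (con l).2)
    rw [Nat.add_comm, Nat.coprime_add_mul_right_right]
    exact ih.symm

private theorem J3_num_pos (l : List ℕ) (h : ∀ a ∈ l, 1 ≤ a) (hl : l ≠ []) :
    1 ≤ (con l).2 := by
  cases l with
  | nil => exact absurd rfl hl
  | cons a l => exact J3_pos l fun b hb => h b (List.mem_cons_of_mem _ hb)

private theorem J3_lt (l : List ℕ) (h : ∀ a ∈ l, 1 ≤ a) (hl : l ≠ [])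
    (h2 : 2 ≤ l.getLast hl) : (con l).2 < (con l).1 := by
  cases l with
  | nil => exact absurd rfl hl
  | cons a l =>
    rw [J3_con_cons]
    show (con l).1 < a * (con l).1 + (con l).2
    by_cases hn : l = []
    · subst hn
      rw [List.getLast_singleton] at h2
      simp only [J3_con_nil]
      omega
    · have h3 := J3_num_pos l (fun b hb => h b (List.mem_cons_of_mem _ hb)) hn
      have h4 := h a List.mem_cons_self
      have h5 : (con l).1 ≤ a * (con l).1 := Nat.le_mul_of_pos_left _ h4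
      omega

private theorem J3_cf_eq (l : List ℕ) (h : ∀ a ∈ l, 1 ≤ a) :
    Pool.Agent.LibNW69.cf l = ((con l).2 : ℚ) / (con l).1 := by
  induction l with
  | nil => simp [Pool.Agent.LibNW69.cf, J3_con_nil]
  | cons a l ih =>
    have h1 := J3_pos l fun b hb => h b (List.mem_cons_of_mem _ hb)
    have h2 := J3_pos (a :: l) h
    have h3 : ((con l).1 : ℚ) ≠ 0 := by positivity
    rw [Pool.Agent.LibNW69.cf, ih fun b hb => h b (List.mem_cons_of_mem _ hb)]
    rw [J3_con_cons] at h2 ⊢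
    have h4 : (((a * (con l).1 + (con l).2 : ℕ)) : ℚ) ≠ 0 := by
      have : (0 : ℚ) < ((a * (con l).1 + (con l).2 : ℕ) : ℚ) := by exact_mod_cast h2
      exact this.ne'
    show 1 / ((a : ℚ) + ((con l).2 : ℚ) / (con l).1) =
      ((con l).1 : ℚ) / ((a * (con l).1 + (con l).2 : ℕ) : ℚ)
    have h5 : (a : ℚ) + ((con l).2 : ℚ) / (con l).1 =
        ((a * (con l).1 + (con l).2 : ℕ) : ℚ) / (con l).1 := by
      push_cast
      field_simp
    rw [h5, one_div_div]

private theorem J3_vec (z : List ℕ) :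
    vec z = (((con (z ++ [2])).2 : ℤ), ((con (z ++ [2])).1 : ℤ)) := by
  rw [← J3_act (z ++ [2]), J3_append]
  simp [act, gl, vec]

/-- Row J3 (MEDIUM). The word `z` with `nz z = d` gives the list `2 :: (z ++ [2])` and the numerator
`b = kk (z ++ [2]) = (vec z).2`, `d = (vec z).1 + 2 (vec z).2` (see the proof of `mem_D`, row I3). So
`b` and `d` determine `vec z` and `z` (`vec_inj`, all letters below some `a ≥ 4`). `numer A d` is finite. -/
theorem card_le_numer (A : Finset ℕ) (hA : ∀ y ∈ A, 1 ≤ y) (h2 : 2 ∈ A) (d : ℕ)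
    (F : Finset (List ℕ)) (hF : ∀ z ∈ F, WA A z ∧ nz z = (d : ℤ)) :
    F.card ≤ (numer A d).ncard := by
  classical
  have key : ∀ z ∈ F, (vec z).2 = ((con (z ++ [2])).1 : ℤ) := fun z _ => by rw [J3_vec z]
  have hinj : Set.InjOn (fun z : List ℕ => (con (z ++ [2])).1) (F : Set (List ℕ)) := by
    intro z hz z' hz' hzz
    have hz1 : z ∈ F := Finset.mem_coe.1 hz
    have hz2 : z' ∈ F := Finset.mem_coe.1 hz'
    have e1 : (con (z ++ [2])).1 = (con (z' ++ [2])).1 := hzz
    obtain ⟨a1, a2⟩ := hF z hz1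
    obtain ⟨b1, b2⟩ := hF z' hz2
    have n1 : nz z = 1 * (vec z).1 + 2 * (vec z).2 := rfl
    have n2 : nz z' = 1 * (vec z').1 + 2 * (vec z').2 := rfl
    have e2 : (vec z).2 = (vec z').2 := by rw [key z hz1, key z' hz2, e1]
    have e3 : (vec z).1 = (vec z').1 := by linarith
    have hl : ∀ w : List ℕ, WA A w → ∀ x ∈ w, 1 ≤ x ∧ x < 4 + ∑ y ∈ A, y := by
      intro w hw x hx
      have h3 : x ≤ ∑ y ∈ A, y :=
        Finset.single_le_sum (f := fun y : ℕ => y) (fun _ _ => Nat.zero_le _) (hw x hx)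
      exact ⟨hA x (hw x hx), by omega⟩
    refine vec_inj (4 + ∑ y ∈ A, y) (Nat.le_add_right _ _) z z' (hl z a1) (hl z' b1) ?_
    show (vec z).1 * (vec z').2 - (vec z).2 * (vec z').1 = 0
    rw [e2, e3]
    ring
  have hfin : (numer A d).Finite := (Set.finite_lt_nat d).subset fun b hb => hb.2.1
  have hsub : ((F.image (fun z : List ℕ => (con (z ++ [2])).1) : Finset ℕ) : Set ℕ) ⊆
      numer A d := by
    intro b hb
    obtain ⟨z, hz, rfl⟩ := Finset.mem_image.1 (Finset.mem_coe.1 hb)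
    obtain ⟨a1, a2⟩ := hF z hz
    have hd : (con (2 :: (z ++ [2]))).1 = d := by
      rw [J3_nz z] at a2
      exact_mod_cast a2
    have hne : 2 :: (z ++ [2]) ≠ [] := by simp
    have hl : ∀ y ∈ 2 :: (z ++ [2]), y ∈ A := by
      intro y hy
      rcases List.mem_cons.1 hy with hy | hy
      · rw [hy]
        exact h2
      rcases List.mem_append.1 hy with hy | hy
      · exact a1 y hy
      · rw [List.mem_singleton] at hy
        rw [hy]
        exact h2
    have h1 : ∀ y ∈ 2 :: (z ++ [2]), 1 ≤ y := fun y hy => hA y (hl y hy)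
    have hlast : 2 ≤ (2 :: (z ++ [2])).getLast hne := by
      have h0 : (2 :: (z ++ [2])).getLast hne = 2 := by simp
      rw [h0]
    have h3 := J3_num_pos _ h1 hne
    have h4 := J3_lt _ h1 hne hlast
    have h5 := J3_coprime (2 :: (z ++ [2]))
    have h6 := J3_cf_eq _ h1
    rw [hd] at h4 h5 h6
    exact ⟨h3, h4, h5, 2 :: (z ++ [2]), hne, hl, hlast, h6.symm⟩
  have hcard := Set.ncard_le_ncard hsub hfin
  rw [Set.ncard_coe_finset, Finset.card_image_of_injOn hinj] at hcard
  exact hcard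

/-- the numerator attached to a word -/
theorem numer_mem (A : Finset ℕ) (hA : ∀ y ∈ A, 1 ≤ y) (h2 : 2 ∈ A) (d : ℕ) (z : List ℕ)
    (a1 : WA A z) (a2 : nz z = (d : ℤ)) : (con (z ++ [2])).1 ∈ numer A d := by
  have hd : (con (2 :: (z ++ [2]))).1 = d := by
    rw [J3_nz z] at a2
    exact_mod_cast a2
  have hne : 2 :: (z ++ [2]) ≠ [] := by simp
  have hl : ∀ y ∈ 2 :: (z ++ [2]), y ∈ A := by
    intro y hy
    rcases List.mem_cons.1 hy with hy | hy
    · rw [hy]
      exact h2
    rcases List.mem_append.1 hy with hy | hy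
    · exact a1 y hy
    · rw [List.mem_singleton] at hy
      rw [hy]
      exact h2
  have h1 : ∀ y ∈ 2 :: (z ++ [2]), 1 ≤ y := fun y hy => hA y (hl y hy)
  have hlast : 2 ≤ (2 :: (z ++ [2])).getLast hne := by
    have h0 : (2 :: (z ++ [2])).getLast hne = 2 := by simp
    rw [h0]
  have h3 := J3_num_pos _ h1 hne
  have h4 := J3_lt _ h1 hne hlast
  have h5 := J3_coprime (2 :: (z ++ [2]))
  have h6 := J3_cf_eq _ h1
  rw [hd] at h4 h5 h6
  exact ⟨h3, h4, h5, 2 :: (z ++ [2]), hne, hl, hlast, h6.symm⟩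

/-- the denominator and the numerator determine the word -/
theorem word_inj (A : Finset ℕ) (hA : ∀ y ∈ A, 1 ≤ y) (z z' : List ℕ) (a1 : WA A z)
    (b1 : WA A z') (h : nz z = nz z') (e1 : (con (z ++ [2])).1 = (con (z' ++ [2])).1) :
    z = z' := by
  have n1 : nz z = 1 * (vec z).1 + 2 * (vec z).2 := rfl
  have n2 : nz z' = 1 * (vec z').1 + 2 * (vec z').2 := rfl
  have e2 : (vec z).2 = (vec z').2 := by
    rw [J3_vec z, J3_vec z', e1]
  have e3 : (vec z).1 = (vec z').1 := by linarith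
  have hl : ∀ w : List ℕ, WA A w → ∀ x ∈ w, 1 ≤ x ∧ x < 4 + ∑ y ∈ A, y := by
    intro w hw x hx
    have h3 : x ≤ ∑ y ∈ A, y :=
      Finset.single_le_sum (f := fun y : ℕ => y) (fun _ _ => Nat.zero_le _) (hw x hx)
    exact ⟨hA x (hw x hx), by omega⟩
  refine vec_inj (4 + ∑ y ∈ A, y) (Nat.le_add_right _ _) z z' (hl z a1) (hl z' b1) ?_
  show (vec z).1 * (vec z').2 - (vec z).2 * (vec z').1 = 0
  rw [e2, e3]
  ring

end Pool.Agent.LibZE10
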