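import Pool.Agent.LibZE10.A2
import Pool.Agent.LibZE10.A3
import Pool.Agent.LibZE10.B4

set_option autoImplicit false

namespace Pool.Agent.LibZE10

open Pool.Agent.LibNZ69

private theorem X0_sub (w : List ℕ) (x y : ℤ × ℤ) : act w (x - y) = act w x - act w y := by
  rw [sub_eq_add_neg, act_add, act_neg, ← sub_eq_add_neg]

private theorem X0_vec (p u : List ℕ) : vec (p ++ u) = act p (vec u) := by
  unfold vec
  rw [act_append]

/-- cutting a word on the prefix side -/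
private theorem X0_cut {A : Finset ℕ} {a : ℕ} (hA : ∀ x ∈ A, 1 ≤ x ∧ x < a) (ha : 1 ≤ a)
    (K Z M X : ℕ) (hX : 2 ≤ X) (hKM : K ≤ M) (hKZ : K * Z ≤ M * X)
    (w : List ℕ) (hw : WA A w) (hwZ : kk w ≤ Z) (k : ℕ) (hk : k ≤ 5 * K) :
    ∃ p u, w = p ++ u ∧ WA A p ∧ kk p ≤ a * X ∧ nm ((k : ℤ) • vec u) ≤ 15 * (M : ℤ) := by
  rcases lt_or_ge (kk w) X with h | h
  · refine ⟨w, [], by simp, hw, ?_, ?_⟩
    · calc kk w ≤ X := h.le
        _ ≤ a * X := Nat.le_mul_of_pos_left X ha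
    · rw [nm_smul, abs_of_nonneg (Int.natCast_nonneg k)]
      have e : nm (vec []) = 2 := by
        simp [vec, act, nm]
      rw [e]
      have h1 : (k : ℤ) ≤ 5 * K := by exact_mod_cast hk
      have h2 : (K : ℤ) ≤ M := by exact_mod_cast hKM
      linarith
  · have hwr : WA A w.reverse := (WA_reverse w).2 hw
    have hkr : X ≤ kk w.reverse := by rw [kk_reverse]; exact h
    obtain ⟨y, v, h1, h2, h3⟩ := exists_cut hA hX w.reverse hwr hkr
    have hb := Cut_bounds hA h2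
    have hvA : WA A v := hb.1
    refine ⟨v.reverse, y.reverse, ?_, (WA_reverse v).2 hvA, ?_, ?_⟩
    · have := congrArg List.reverse h1
      rw [List.reverse_reverse, List.reverse_append] at this
      exact this
    · rw [kk_reverse]
      exact hb.2.2.1
    · have hw2 : w = v.reverse ++ y.reverse := by
        have := congrArg List.reverse h1
        rw [List.reverse_reverse, List.reverse_append] at this
        exact this
      have hge := kk_append_ge v.reverse y.reverse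
      rw [← hw2, kk_reverse, kk_reverse] at hge
      have hXv : X ≤ kk v := hb.2.1
      have h4 : X * kk y ≤ Z := (Nat.mul_le_mul_right _ hXv).trans (hge.trans hwZ)
      have hy1 : ∀ x ∈ y.reverse, 1 ≤ x := by
        intro x hx
        rw [List.mem_reverse] at hx
        exact (hA x (h3 x hx)).1
      obtain ⟨_, _, e3, _, e5⟩ := vec_bounds y.reverse hy1
      rw [nm_smul, abs_of_nonneg (Int.natCast_nonneg k), e3]
      rw [kk_reverse] at e5
      have hXpos : (0 : ℤ) < X := by exact_mod_cast (by omega : 0 < X)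
      have h5 : (X : ℤ) * ((k : ℤ) * (vec y.reverse).2) ≤ (X : ℤ) * (15 * M) := by
        have g1 : (k : ℤ) ≤ 5 * K := by exact_mod_cast hk
        have g2 : (X : ℤ) * kk y ≤ Z := by exact_mod_cast h4
        have g3 : (K : ℤ) * Z ≤ M * X := by exact_mod_cast hKZ
        have g4 : (0 : ℤ) ≤ K := Int.natCast_nonneg _
        have g5 : (0 : ℤ) ≤ kk y := Int.natCast_nonneg _
        have g6 : (0 : ℤ) ≤ (k : ℤ) := Int.natCast_nonneg _
        calc (X : ℤ) * ((k : ℤ) * (vec y.reverse).2)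
            ≤ (X : ℤ) * ((5 * K) * (3 * kk y)) := by
              refine mul_le_mul_of_nonneg_left ?_ hXpos.le
              exact mul_le_mul g1 e5 (by linarith [(vec_bounds y.reverse hy1).1,
                (vec_bounds y.reverse hy1).2.1]) (by positivity)
          _ = 15 * (K * (X * kk y)) := by ring
          _ ≤ 15 * (K * Z) := by
              have := mul_le_mul_of_nonneg_left g2 g4
              linarith
          _ ≤ 15 * (M * X) := by linarith
          _ = (X : ℤ) * (15 * M) := by ring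
      exact le_of_mul_le_mul_left h5 hXpos

/-- The number of the translates `ζ` that can occur for a fixed real vector `x`. -/
theorem zetaCount {A : Finset ℕ} {a : ℕ} {s : ℝ} (hp : PB A a s) (c₂ : ℝ) (hc₂ : 0 ≤ c₂) :
    ∃ C : ℝ, 1 ≤ C ∧ ∀ M H Z K : ℕ, 0 < M → K ≤ M →
      (H : ℝ) * (1 + (K : ℝ) * Z / M) ≤ c₂ * M → ∀ (x : ℤ × ℤ) (B : Finset (ℤ × ℤ)),
      (∀ ζ ∈ B, ∃ k : ℕ, k ≤ 5 * K ∧ ∃ w ∈ wP A Z, ∃ t : ℤ × ℤ, nm t < H ∧
        (k : ℤ) • vec w = x - (M : ℤ) • ζ - t) →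
        (B.card : ℝ) ≤ C * (1 + (K : ℝ) * Z / M) ^ s := by
  classical
  obtain ⟨C2, hC2, hW⟩ := card_wP hp
  have hA : ∀ y ∈ A, 1 ≤ y := fun y hy => (hp.dig y hy).1
  have ha4 := hp.a4
  have ha1 : 1 ≤ a := by omega
  have haR : (1 : ℝ) ≤ a := by exact_mod_cast ha1
  have hs1 := hp.s1
  have hs2 := hp.s2
  obtain ⟨D, hD⟩ : ∃ D : ℕ, D = ⌈15 + 4 * a * c₂⌉₊ := ⟨_, rfl⟩
  have hDR : 15 + 4 * a * c₂ ≤ D := by rw [hD]; exact Nat.le_ceil _
  refine ⟨C2 * (2 * a) ^ 2 * (2 * D + 1) ^ 2, ?_, ?_⟩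
  · have h1 : (1 : ℝ) ≤ (2 * (a : ℝ)) ^ 2 := by nlinarith
    have h2 : (1 : ℝ) ≤ (2 * (D : ℝ) + 1) ^ 2 := by
      have : (0 : ℝ) ≤ D := Nat.cast_nonneg _
      nlinarith
    have h3 : (1 : ℝ) ≤ C2 * (2 * (a : ℝ)) ^ 2 := by nlinarith
    nlinarith
  intro M H Z K hM hKM hH x B hB
  have hMR : (0 : ℝ) < M := by exact_mod_cast hM
  obtain ⟨ρ, hρ⟩ : ∃ ρ : ℝ, ρ = (K : ℝ) * Z / M := ⟨_, rfl⟩
  have hρ0 : 0 ≤ ρ := by rw [hρ]; positivity
  rw [← hρ] at hH ⊢
  set X := K * Z / M + 2 with hX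
  have hX2 : 2 ≤ X := Nat.le_add_left 2 _
  have hKZ : K * Z ≤ M * X := by
    have h1 := Nat.div_add_mod (K * Z) M
    have h2 := Nat.mod_lt (K * Z) hM
    rw [hX]
    nlinarith
  have hXR : (X : ℝ) ≤ 2 * (1 + ρ) := by
    have h1 : ((K * Z / M : ℕ) : ℝ) ≤ ρ := by
      rw [hρ]
      refine Nat.cast_div_le.trans (le_of_eq ?_)
      push_cast
      rfl
    rw [hX]
    push_cast
    linarith
  set F : List ℕ × (ℤ × ℤ) → ℤ × ℤ := fun q =>
    act q.1 (((acti q.1 x).1 / (M : ℤ), (acti q.1 x).2 / (M : ℤ)) + q.2) with hF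
  have hsub : B ⊆ (wP A (a * X) ×ˢ zs D).image F := by
    intro ζ hζ
    obtain ⟨k, hk, w, hw, t, ht, hrel⟩ := hB ζ hζ
    obtain ⟨hwA, hwZ⟩ := (mem_wP hA Z w).1 hw
    obtain ⟨p, u, hpu, hpA, hpX, hnm⟩ := X0_cut hp.dig ha1 K Z M X hX2 hKM hKZ w hwA hwZ k hk
    have hp1 : ∀ y ∈ p, 1 ≤ y := fun y hy => hA y (hpA y hy)
    have e1 : act p (acti p x - (M : ℤ) • acti p ζ - acti p t) = act p ((k : ℤ) • vec u) := by
      rw [X0_sub, X0_sub, act_smul, act_smul, act_acti, act_acti, act_acti, ← hrel, hpu, X0_vec]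
    have e2 : acti p x - (M : ℤ) • acti p ζ - acti p t = (k : ℤ) • vec u := by
      have := congrArg (acti p) e1
      rwa [acti_act, acti_act] at this
    have e3 : nm (acti p t) ≤ 2 * kk p * nm t := by
      have := nm_le_act p hp1 (acti p t)
      rwa [act_acti] at this
    have e4 : ((nm ((M : ℤ) • acti p ζ - acti p x) : ℤ) : ℝ) ≤ D * M := by
      have g1 : (M : ℤ) • acti p ζ - acti p x = -((k : ℤ) • vec u) - acti p t := by
        rw [← e2]
        abel
      have g2 := nm_sub_le (-((k : ℤ) • vec u)) (acti p t)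
      rw [nm_neg] at g2
      have g3 : nm ((M : ℤ) • acti p ζ - acti p x) ≤ 15 * (M : ℤ) + 2 * kk p * nm t := by
        rw [g1]
        linarith
      have g4 : (nm ((M : ℤ) • acti p ζ - acti p x) : ℝ) ≤ 15 * (M : ℝ) + 2 * kk p * nm t := by
        exact_mod_cast g3
      have g5 : (kk p : ℝ) ≤ a * X := by exact_mod_cast hpX
      have g6 : ((nm t : ℤ) : ℝ) ≤ H := by exact_mod_cast ht.le
      have g7 : (0 : ℝ) ≤ ((nm t : ℤ) : ℝ) := by exact_mod_cast nm_nonneg t
      have g8 : (kk p : ℝ) * nm t ≤ 2 * a * (c₂ * M) := by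
        calc (kk p : ℝ) * nm t ≤ (a * X) * H := mul_le_mul g5 g6 g7 (by positivity)
          _ ≤ (a * (2 * (1 + ρ))) * H := by
              refine mul_le_mul_of_nonneg_right ?_ (Nat.cast_nonneg _)
              exact mul_le_mul_of_nonneg_left hXR (by positivity)
          _ = 2 * a * (H * (1 + ρ)) := by ring
          _ ≤ 2 * a * (c₂ * M) := mul_le_mul_of_nonneg_left hH (by positivity)
      calc (nm ((M : ℤ) • acti p ζ - acti p x) : ℝ) ≤ 15 * (M : ℝ) + 2 * kk p * nm t := g4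
        _ = 15 * (M : ℝ) + 2 * (kk p * nm t) := by ring
        _ ≤ 15 * (M : ℝ) + 2 * (2 * a * (c₂ * M)) := by linarith
        _ = (15 + 4 * a * c₂) * M := by ring
        _ ≤ D * M := mul_le_mul_of_nonneg_right hDR hMR.le
    have e5 : nm ((M : ℤ) • acti p ζ - acti p x) ≤ (D : ℤ) * M := by exact_mod_cast e4
    have hMZ : (0 : ℤ) < M := by exact_mod_cast hM
    have e6 : ∀ c y : ℤ, |(M : ℤ) * c - y| ≤ (D : ℤ) * M → |c - y / M| ≤ D := by
      intro c y h
      rw [abs_le] at h ⊢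
      have h1 := Int.emod_add_mul_ediv y (M : ℤ)
      have h2 := Int.emod_nonneg y hMZ.ne'
      have h3 := Int.emod_lt_of_pos y hMZ
      constructor
      · by_contra hcon
        rw [not_le] at hcon
        have h4 : c - y / M ≤ -(D : ℤ) - 1 := by omega
        have h5 : (M : ℤ) * (c - y / M) ≤ M * (-(D : ℤ) - 1) := mul_le_mul_of_nonneg_left h4 hMZ.le
        nlinarith [h.1]
      · by_contra hcon
        rw [not_le] at hcon
        have h4 : (D : ℤ) + 1 ≤ c - y / M := by omega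
        have h5 : (M : ℤ) * ((D : ℤ) + 1) ≤ M * (c - y / M) := mul_le_mul_of_nonneg_left h4 hMZ.le
        nlinarith [h.2]
    rw [Finset.mem_image]
    refine ⟨(p, acti p ζ - ((acti p x).1 / (M : ℤ), (acti p x).2 / (M : ℤ))), ?_, ?_⟩
    · rw [Finset.mem_product]
      refine ⟨(mem_wP hA _ _).2 ⟨hpA, hpX⟩, ?_⟩
      unfold zs
      rw [Finset.mem_product, Finset.mem_Icc, Finset.mem_Icc]
      have f1 : |(M : ℤ) * (acti p ζ).1 - (acti p x).1| ≤ (D : ℤ) * M := by
        refine le_trans ?_ e5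
        exact abs_fst_le ((M : ℤ) • acti p ζ - acti p x)
      have f2 : |(M : ℤ) * (acti p ζ).2 - (acti p x).2| ≤ (D : ℤ) * M := by
        refine le_trans ?_ e5
        exact abs_snd_le ((M : ℤ) • acti p ζ - acti p x)
      have f3 := abs_le.1 (e6 _ _ f1)
      have f4 := abs_le.1 (e6 _ _ f2)
      simp only [Prod.fst_sub, Prod.snd_sub]
      exact ⟨⟨f3.1, f3.2⟩, ⟨f4.1, f4.2⟩⟩
    · simp only [hF]
      rw [add_sub_cancel, act_acti]
  have hcard : (B.card : ℝ) ≤ ((wP A (a * X)).card : ℝ) * (2 * D + 1) ^ 2 := by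
    have h1 := (Finset.card_le_card hsub).trans Finset.card_image_le
    rw [Finset.card_product] at h1
    have h2 : (zs D).card = (2 * D + 1) * (2 * D + 1) := by
      unfold zs
      rw [Finset.card_product, Int.card_Icc]
      have : ((D : ℤ) + 1 - -(D : ℤ)).toNat = 2 * D + 1 := by omega
      rw [this]
    rw [h2] at h1
    have h3 : (B.card : ℝ) ≤ (((wP A (a * X)).card * ((2 * D + 1) * (2 * D + 1)) : ℕ) : ℝ) := by
      exact_mod_cast h1
    refine h3.trans (le_of_eq ?_)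
    push_cast
    ring
  have hwp : ((wP A (a * X)).card : ℝ) ≤ C2 * ((2 * a) ^ 2 * (1 + ρ) ^ s) := by
    refine (hW (a * X)).trans (mul_le_mul_of_nonneg_left ?_ (by linarith))
    have h1 : (((a * X : ℕ)) : ℝ) ≤ 2 * a * (1 + ρ) := by
      push_cast
      nlinarith
    calc (((a * X : ℕ)) : ℝ) ^ s ≤ (2 * a * (1 + ρ)) ^ s :=
          Real.rpow_le_rpow (Nat.cast_nonneg _) h1 (by linarith)
      _ = (2 * (a : ℝ)) ^ s * (1 + ρ) ^ s := Real.mul_rpow (by positivity) (by positivity)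
      _ ≤ (2 * (a : ℝ)) ^ (2 : ℝ) * (1 + ρ) ^ s := by
          refine mul_le_mul_of_nonneg_right ?_ (by positivity)
          exact Real.rpow_le_rpow_of_exponent_le (by linarith) hs2
      _ = (2 * a) ^ 2 * (1 + ρ) ^ s := by norm_num
  calc (B.card : ℝ) ≤ ((wP A (a * X)).card : ℝ) * (2 * D + 1) ^ 2 := hcard
    _ ≤ (C2 * ((2 * a) ^ 2 * (1 + ρ) ^ s)) * (2 * D + 1) ^ 2 :=
        mul_le_mul_of_nonneg_right hwp (by positivity)
    _ = C2 * (2 * a) ^ 2 * (2 * D + 1) ^ 2 * (1 + ρ) ^ s := by ring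

end Pool.Agent.LibZE10
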