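import Pool.Agent.LibZE10.C6

set_option autoImplicit false

namespace Pool.Agent.LibZE10

open Pool.Agent.LibNZ69

private theorem X1_fib (D : ℕ) (S : Finset ℕ) (h : ∀ k ∈ S, ∀ k' ∈ S, |(k : ℤ) - k'| ≤ D) :
    S.card ≤ D + 1 := by
  rcases S.eq_empty_or_nonempty with h0 | h0
  · subst h0; simp
  · set m := S.min' h0 with hm
    have hsub : S ⊆ Finset.Icc m (m + D) := by
      intro k hk
      rw [Finset.mem_Icc]
      have h1 : m ≤ k := Finset.min'_le S k hk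
      have h2 := h k hk m (Finset.min'_mem S h0)
      rw [abs_le] at h2
      refine ⟨h1, ?_⟩
      have := h2.2
      omega
    calc S.card ≤ (Finset.Icc m (m + D)).card := Finset.card_le_card hsub
      _ = D + 1 := by rw [Nat.card_Icc]; omega

open scoped Classical in
/-- For a fixed real vector `x` the pairs `(k, w)` with `k vec w` within `H` of `x`. -/
theorem countZeta {A : Finset ℕ} {a : ℕ} {s : ℝ} (hp : PB A a s) (C₀ : ℕ) :
    ∃ C : ℝ, 1 ≤ C ∧ ∀ H Z K : ℕ, 1 ≤ K → H ≤ Z → ∀ R : Finset ℕ, (∀ k ∈ R, K ≤ k) →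
      ∀ x : ℤ × ℤ, (((R ×ˢ Wz A Z C₀).filter
        (fun p => ∃ t : ℤ × ℤ, nm t < H ∧ (p.1 : ℤ) • vec p.2 = x - t)).card : ℝ) ≤
          C * (1 + ((Z : ℝ) ^ 2 / K) ^ (s / 2)) := by
  obtain ⟨C1, hC1, hS⟩ := countS hp C₀
  have hA : ∀ y ∈ A, 1 ≤ y := fun y hy => (hp.dig y hy).1
  refine ⟨C1 * 12 * ((C₀ : ℝ) + 1), ?_, ?_⟩
  · have : (0 : ℝ) ≤ C₀ := Nat.cast_nonneg _
    nlinarith
  intro H Z K hK hHZ R hR x
  set S := (R ×ˢ Wz A Z C₀).filter
    (fun p => ∃ t : ℤ × ℤ, nm t < H ∧ (p.1 : ℤ) • vec p.2 = x - t) with hSdef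
  set T := S.image Prod.snd with hT
  have hKR : (0 : ℝ) < K := by exact_mod_cast hK
  have hTW : T ⊆ Wz A Z C₀ := by
    intro w hw
    rw [hT, Finset.mem_image] at hw
    obtain ⟨p, hp1, rfl⟩ := hw
    exact (Finset.mem_product.1 (Finset.mem_filter.1 hp1).1).2
  have hword : ∀ w ∈ Wz A Z C₀, (∀ y ∈ w, 1 ≤ y) ∧ kk w ≤ Z ∧ Z ≤ C₀ * kk w := by
    intro w hw
    rw [mem_Wz hA] at hw
    exact ⟨fun y hy => hA y (hw.1 y hy), hw.2.1, hw.2.2⟩
  have hnm : ∀ w ∈ Wz A Z C₀, nm (vec w) ≤ 3 * (Z : ℤ) ∧ 2 * (kk w : ℤ) ≤ nm (vec w) := by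
    intro w hw
    obtain ⟨h1, h2, _⟩ := hword w hw
    obtain ⟨_, _, h3, h4, h5⟩ := vec_bounds w h1
    refine ⟨?_, by rw [h3]; exact h4⟩
    rw [h3]
    have : (kk w : ℤ) ≤ Z := by exact_mod_cast h2
    linarith
  -- the key relation
  have hrel : ∀ p ∈ S, ∀ p' ∈ S, ∃ τ : ℤ × ℤ, nm τ ≤ 2 * (Z : ℤ) ∧
      (p.1 : ℤ) • vec p.2 - (p'.1 : ℤ) • vec p'.2 = τ := by
    intro p hp1 p' hp2
    obtain ⟨t, ht, h1⟩ := (Finset.mem_filter.1 hp1).2
    obtain ⟨t', ht', h2⟩ := (Finset.mem_filter.1 hp2).2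
    refine ⟨t' - t, ?_, ?_⟩
    · have h3 := nm_sub_le t' t
      have h4 : (H : ℤ) ≤ Z := by exact_mod_cast hHZ
      linarith
    · rw [h1, h2]; abel
  have hcardT : (T.card : ℝ) ≤ C1 * (12 * (1 + ((Z : ℝ) ^ 2 / K) ^ (s / 2))) := by
    have h1 := hS Z 1 le_rfl (12 * ((Z : ℝ) ^ 2 / K)) (by positivity) T hTW
      (fun _ _ _ _ => by simp) ?_
    · refine h1.trans (mul_le_mul_of_nonneg_left ?_ (by linarith))
      have h2 : (12 * ((Z : ℝ) ^ 2 / K) / ((1 : ℕ) : ℝ)) ^ (s / 2) =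
          (12 : ℝ) ^ (s / 2) * ((Z : ℝ) ^ 2 / K) ^ (s / 2) := by
        rw [Nat.cast_one, div_one, Real.mul_rpow (by norm_num) (by positivity)]
      rw [h2]
      have h3 : (12 : ℝ) ^ (s / 2) ≤ 12 := by
        calc (12 : ℝ) ^ (s / 2) ≤ (12 : ℝ) ^ (1 : ℝ) :=
              Real.rpow_le_rpow_of_exponent_le (by norm_num) (by linarith [hp.s2])
          _ = 12 := Real.rpow_one _
      have h4 : (0 : ℝ) ≤ ((Z : ℝ) ^ 2 / K) ^ (s / 2) := by positivity
      nlinarith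
    · intro w hw w' hw'
      rw [hT, Finset.mem_image] at hw hw'
      obtain ⟨p, hp1, rfl⟩ := hw
      obtain ⟨p', hp2, rfl⟩ := hw'
      obtain ⟨τ, hτ, h1⟩ := hrel p hp1 p' hp2
      have hpR := (Finset.mem_product.1 (Finset.mem_filter.1 hp1).1)
      have hpR' := (Finset.mem_product.1 (Finset.mem_filter.1 hp2).1)
      have h2 : (p.1 : ℤ) * wdg (vec p.2) (vec p'.2) = wdg τ (vec p'.2) := by
        rw [← h1]
        simp only [wdg, Prod.fst_sub, Prod.snd_sub, Prod.smul_fst, Prod.smul_snd, smul_eq_mul]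
        ring
      have h3 : |(p.1 : ℤ) * wdg (vec p.2) (vec p'.2)| ≤ 12 * (Z : ℤ) ^ 2 := by
        rw [h2]
        have h4 := abs_wdg_le τ (vec p'.2)
        have h5 := (hnm p'.2 hpR'.2).1
        have h6 := nm_nonneg τ
        have h7 := nm_nonneg (vec p'.2)
        have h8 : nm τ * nm (vec p'.2) ≤ 2 * (Z : ℤ) * (3 * Z) :=
          mul_le_mul hτ h5 h7 (by positivity)
        calc |wdg τ (vec p'.2)| ≤ 2 * (nm τ * nm (vec p'.2)) := h4
          _ ≤ 2 * (2 * (Z : ℤ) * (3 * Z)) := by linarith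
          _ = 12 * (Z : ℤ) ^ 2 := by ring
      rw [abs_mul] at h3
      have h9 : (K : ℤ) ≤ |(p.1 : ℤ)| := by
        rw [abs_of_nonneg (by positivity)]
        exact_mod_cast hR p.1 hpR.1
      have h10 : (K : ℤ) * |wdg (vec p.2) (vec p'.2)| ≤ 12 * (Z : ℤ) ^ 2 :=
        le_trans (mul_le_mul_of_nonneg_right h9 (abs_nonneg _)) h3
      have h11 : (K : ℝ) * |(wdg (vec p.2) (vec p'.2) : ℝ)| ≤ 12 * (Z : ℝ) ^ 2 := by
        exact_mod_cast h10
      rw [← mul_div_assoc, le_div_iff₀ hKR, mul_comm]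
      exact h11
  have hcardS : (S.card : ℝ) ≤ T.card * ((C₀ : ℝ) + 1) := by
    have h1 : S.card ≤ (C₀ + 1) * T.card := by
      refine Finset.card_le_mul_card_image S (C₀ + 1) ?_
      intro w hw
      set F := S.filter (fun p => p.2 = w) with hF
      have h2 : F.card = (F.image Prod.fst).card := by
        rw [Finset.card_image_of_injOn]
        intro p hp1 p' hp2 h
        rw [Finset.mem_coe, hF, Finset.mem_filter] at hp1 hp2
        exact Prod.ext h (by rw [hp1.2, hp2.2])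
      rw [h2]
      refine X1_fib C₀ _ ?_
      intro k hk k' hk'
      rw [Finset.mem_image] at hk hk'
      obtain ⟨p, hp1, rfl⟩ := hk
      obtain ⟨p', hp2, rfl⟩ := hk'
      rw [hF, Finset.mem_filter] at hp1 hp2
      obtain ⟨τ, hτ, h3⟩ := hrel p hp1.1 p' hp2.1
      rw [hp1.2, hp2.2, ← sub_smul] at h3
      have hwW : w ∈ Wz A Z C₀ := by
        have := (Finset.mem_product.1 (Finset.mem_filter.1 hp1.1).1).2
        rwa [hp1.2] at this
      obtain ⟨_, _, h5⟩ := hword w hwW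
      have h6 := (hnm w hwW).2
      have h7 : |(p.1 : ℤ) - p'.1| * nm (vec w) ≤ 2 * (Z : ℤ) := by
        rw [← nm_smul, h3]; exact hτ
      have h8 : (Z : ℤ) ≤ C₀ * kk w := by exact_mod_cast h5
      have h9 : 1 ≤ (kk w : ℤ) := by exact_mod_cast kk_pos w (hword w hwW).1
      by_contra hcon
      rw [not_le] at hcon
      have h10 : ((C₀ : ℤ) + 1) * (2 * (kk w : ℤ)) ≤ |(p.1 : ℤ) - p'.1| * nm (vec w) :=
        mul_le_mul (by linarith) h6 (by positivity) (abs_nonneg _)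
      nlinarith
    calc (S.card : ℝ) ≤ (((C₀ + 1) * T.card : ℕ) : ℝ) := by exact_mod_cast h1
      _ = T.card * ((C₀ : ℝ) + 1) := by push_cast; ring
  calc (S.card : ℝ) ≤ T.card * ((C₀ : ℝ) + 1) := hcardS
    _ ≤ C1 * (12 * (1 + ((Z : ℝ) ^ 2 / K) ^ (s / 2))) * ((C₀ : ℝ) + 1) :=
        mul_le_mul_of_nonneg_right hcardT (by positivity)
    _ = C1 * 12 * ((C₀ : ℝ) + 1) * (1 + ((Z : ℝ) ^ 2 / K) ^ (s / 2)) := by ring

end Pool.Agent.LibZE10
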