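import Pool.Agent.LibZE10.X1
import Pool.Agent.LibZE10.X0

set_option autoImplicit false

namespace Pool.Agent.LibZE10

open Pool.Agent.LibNZ69

open scoped Classical in
/-- The number of the close pairs for one frequency `k ≤ 5 K` and the frequencies in `[K, 5 K]`. -/
theorem countRowA {A : Finset ℕ} {a : ℕ} {s : ℝ} (hp : PB A a s) (C₀ : ℕ) (c₂ : ℝ)
    (hc₂ : 0 ≤ c₂) :
    ∃ C : ℝ, 1 ≤ C ∧ ∀ M H Z K : ℕ, 0 < M → 1 ≤ K → K ≤ M → H ≤ Z →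
      (H : ℝ) * (1 + (K : ℝ) * Z / M) ≤ c₂ * M →
      ∀ R : Finset ℕ, (∀ k ∈ R, K ≤ k ∧ k ≤ 5 * K) → ∀ k : ℕ, k ≤ 5 * K →
        (((Wz A Z C₀ ×ˢ (R ×ˢ Wz A Z C₀)).filter (fun p =>
          close M H ((k : ℤ) • vec p.1) ((p.2.1 : ℤ) • vec p.2.2))).card : ℝ) ≤
          C * (Z : ℝ) ^ s * (1 + (K : ℝ) * Z / M) ^ s * (1 + ((Z : ℝ) ^ 2 / K) ^ (s / 2)) := by
  obtain ⟨C1, hC1, hZ⟩ := countZeta hp C₀
  obtain ⟨C2, hC2, hW⟩ := card_wP hp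
  obtain ⟨C3, hC3, hz0⟩ := zetaCount hp c₂ hc₂
  have hA : ∀ y ∈ A, 1 ≤ y := fun y hy => (hp.dig y hy).1
  have hs1 := hp.s1
  refine ⟨C1 * C2 * C3, ?_, ?_⟩
  · have : 1 ≤ C1 * C2 := by nlinarith
    nlinarith
  intro M H Z K hM hK hKM hHZ hH R hR k hk
  set B := 31 * (K * Z) / M with hB
  set x : List ℕ → ℤ × ℤ → ℤ × ℤ := fun w ζ => (k : ℤ) • vec w - (M : ℤ) • ζ with hx
  set F : List ℕ → (ℤ × ℤ) → Finset (List ℕ × (ℕ × List ℕ)) := fun w ζ =>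
    ((R ×ˢ Wz A Z C₀).filter (fun p => ∃ t : ℤ × ℤ, nm t < H ∧
      (p.1 : ℤ) • vec p.2 = x w ζ - t)).image (fun p => (w, p)) with hF
  set G : List ℕ → Finset (ℤ × ℤ) := fun w => (zs B).filter (fun ζ =>
    ∃ k' : ℕ, k' ≤ 5 * K ∧ ∃ w' ∈ wP A Z, ∃ t : ℤ × ℤ, nm t < H ∧
      (k' : ℤ) • vec w' = (k : ℤ) • vec w - (M : ℤ) • ζ - t) with hG
  have hMZ : (0 : ℤ) < M := by exact_mod_cast hM
  have hMR : (0 : ℝ) < M := by exact_mod_cast hM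
  have hsub : (Wz A Z C₀ ×ˢ (R ×ˢ Wz A Z C₀)).filter (fun p =>
      close M H ((k : ℤ) • vec p.1) ((p.2.1 : ℤ) • vec p.2.2)) ⊆
      (Wz A Z C₀).biUnion (fun w => (G w).biUnion (F w)) := by
    intro p hp1
    rw [Finset.mem_filter, Finset.mem_product] at hp1
    obtain ⟨⟨h1, h2⟩, t, ht, ⟨ζ1, e1⟩, ⟨ζ2, e2⟩⟩ := hp1
    have h2' := Finset.mem_product.1 h2
    have hw' := (mem_Wz hA _ _ _).1 h2'.2
    have hrel : (p.2.1 : ℤ) • vec p.2.2 = (k : ℤ) • vec p.1 - (M : ℤ) • ((ζ1, ζ2) : ℤ × ℤ) - t := by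
      ext
      · simp only [Prod.smul_fst, Prod.fst_sub, smul_eq_mul] at e1 ⊢
        linarith
      · simp only [Prod.smul_snd, Prod.snd_sub, smul_eq_mul] at e2 ⊢
        linarith
    rw [Finset.mem_biUnion]
    refine ⟨p.1, h1, ?_⟩
    rw [Finset.mem_biUnion]
    refine ⟨(ζ1, ζ2), ?_, ?_⟩
    · simp only [hG]
      rw [Finset.mem_filter]
      refine ⟨?_, p.2.1, (hR p.2.1 h2'.1).2, p.2.2, (mem_wP hA _ _).2 ⟨hw'.1, hw'.2.1⟩, t, ht,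
        hrel⟩
      rw [mem_zs]
      have hw := (mem_Wz hA _ _ _).1 h1
      have n1 : nm (vec p.1) ≤ 3 * (Z : ℤ) := by
        obtain ⟨_, _, h3, _, h5⟩ := vec_bounds p.1 (fun y hy => hA y (hw.1 y hy))
        rw [h3]
        have : (kk p.1 : ℤ) ≤ Z := by exact_mod_cast hw.2.1
        linarith
      have n2 : nm (vec p.2.2) ≤ 3 * (Z : ℤ) := by
        obtain ⟨_, _, h3, _, h5⟩ := vec_bounds p.2.2 (fun y hy => hA y (hw'.1 y hy))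
        rw [h3]
        have : (kk p.2.2 : ℤ) ≤ Z := by exact_mod_cast hw'.2.1
        linarith
      have hz1 : 1 ≤ Z := le_trans (kk_pos p.1 (fun y hy => hA y (hw.1 y hy))) hw.2.1
      have e3 : (M : ℤ) • ((ζ1, ζ2) : ℤ × ℤ) =
          (k : ℤ) • vec p.1 - (p.2.1 : ℤ) • vec p.2.2 - t := by
        rw [hrel]
        abel
      have e4 : (M : ℤ) * nm ((ζ1, ζ2) : ℤ × ℤ) ≤ 31 * ((K : ℤ) * Z) := by
        have e5 : (M : ℤ) * nm ((ζ1, ζ2) : ℤ × ℤ) =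
            nm ((k : ℤ) • vec p.1 - (p.2.1 : ℤ) • vec p.2.2 - t) := by
          rw [← e3, nm_smul, abs_of_pos hMZ]
        rw [e5]
        have a1 := nm_sub_le ((k : ℤ) • vec p.1 - (p.2.1 : ℤ) • vec p.2.2) t
        have a2 := nm_sub_le ((k : ℤ) • vec p.1) ((p.2.1 : ℤ) • vec p.2.2)
        rw [nm_smul, nm_smul, abs_of_nonneg (Int.natCast_nonneg k),
          abs_of_nonneg (Int.natCast_nonneg p.2.1)] at a2
        have b1 : (k : ℤ) ≤ 5 * K := by exact_mod_cast hk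
        have b2 : (p.2.1 : ℤ) ≤ 5 * K := by exact_mod_cast (hR p.2.1 h2'.1).2
        have b3 : (H : ℤ) ≤ Z := by exact_mod_cast hHZ
        have b4 : (1 : ℤ) ≤ K := by exact_mod_cast hK
        have b5 : (1 : ℤ) ≤ Z := by exact_mod_cast hz1
        have c1 : (k : ℤ) * nm (vec p.1) ≤ (5 * K) * (3 * Z) :=
          mul_le_mul b1 n1 (nm_nonneg _) (by positivity)
        have c2 : (p.2.1 : ℤ) * nm (vec p.2.2) ≤ (5 * K) * (3 * Z) :=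
          mul_le_mul b2 n2 (nm_nonneg _) (by positivity)
        have c3 : (Z : ℤ) ≤ K * Z := by nlinarith
        nlinarith
      rw [hB]
      push_cast
      rw [Int.le_ediv_iff_mul_le hMZ]
      linarith
    · simp only [hF, Finset.mem_image, Finset.mem_filter]
      exact ⟨p.2, ⟨h2, t, ht, hrel⟩, rfl⟩
  have hFc : ∀ w ζ, ((F w ζ).card : ℝ) ≤ C1 * (1 + ((Z : ℝ) ^ 2 / K) ^ (s / 2)) := by
    intro w ζ
    refine le_trans ?_ (hZ H Z K hK hHZ R (fun k hk => (hR k hk).1) (x w ζ))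
    exact_mod_cast Finset.card_image_le
  have hGc : ∀ w, ((G w).card : ℝ) ≤ C3 * (1 + (K : ℝ) * Z / M) ^ s := by
    intro w
    exact hz0 M H Z K hM hKM hH ((k : ℤ) • vec w) (G w)
      (fun ζ hζ => (Finset.mem_filter.1 hζ).2)
  have hWc : ((Wz A Z C₀).card : ℝ) ≤ C2 * (Z : ℝ) ^ s := by
    refine le_trans ?_ (hW Z)
    exact_mod_cast Finset.card_le_card (Finset.filter_subset _ _)
  obtain ⟨u, hu⟩ : ∃ u : ℝ, u = C1 * (1 + ((Z : ℝ) ^ 2 / K) ^ (s / 2)) := ⟨_, rfl⟩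
  obtain ⟨v, hv⟩ : ∃ v : ℝ, v = C3 * (1 + (K : ℝ) * Z / M) ^ s := ⟨_, rfl⟩
  have hu0 : 0 ≤ u := by rw [hu]; positivity
  have hv0 : 0 ≤ v := by rw [hv]; positivity
  rw [← hu] at hFc
  rw [← hv] at hGc
  have h1 : (((Wz A Z C₀ ×ˢ (R ×ˢ Wz A Z C₀)).filter (fun p =>
          close M H ((k : ℤ) • vec p.1) ((p.2.1 : ℤ) • vec p.2.2))).card : ℝ) ≤
      ∑ w ∈ Wz A Z C₀, ∑ ζ ∈ G w, ((F w ζ).card : ℝ) := by
    have h2 := (Finset.card_le_card hsub).trans Finset.card_biUnion_le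
    have h3 : ∑ w ∈ Wz A Z C₀, ((G w).biUnion (F w)).card ≤
        ∑ w ∈ Wz A Z C₀, ∑ ζ ∈ G w, (F w ζ).card :=
      Finset.sum_le_sum fun w _ => Finset.card_biUnion_le
    exact_mod_cast h2.trans h3
  have h2 : ∑ w ∈ Wz A Z C₀, ∑ ζ ∈ G w, ((F w ζ).card : ℝ) ≤
      ((Wz A Z C₀).card : ℝ) * (v * u) := by
    rw [← nsmul_eq_mul]
    refine Finset.sum_le_card_nsmul _ _ _ fun w _ => ?_
    have h3 : ∑ ζ ∈ G w, ((F w ζ).card : ℝ) ≤ ((G w).card : ℝ) * u := by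
      rw [← nsmul_eq_mul]
      exact Finset.sum_le_card_nsmul _ _ _ fun ζ _ => hFc w ζ
    exact h3.trans (mul_le_mul_of_nonneg_right (hGc w) hu0)
  calc _ ≤ _ := h1
    _ ≤ _ := h2
    _ ≤ (C2 * (Z : ℝ) ^ s) * (v * u) := mul_le_mul_of_nonneg_right hWc (by positivity)
    _ = C1 * C2 * C3 * (Z : ℝ) ^ s * (1 + (K : ℝ) * Z / M) ^ s *
        (1 + ((Z : ℝ) ^ 2 / K) ^ (s / 2)) := by
      rw [hu, hv]
      ring

end Pool.Agent.LibZE10
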