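import Pool.Agent.LibZE10.X2
import Pool.Agent.LibNZ69.F3

set_option autoImplicit false

namespace Pool.Agent.LibZE10

open Pool.Agent.LibNZ69

/-- The energy bound for frequencies in `[K, 5 K]`. -/
theorem energyA {A : Finset ℕ} {a : ℕ} {s : ℝ} (hp : PB A a s) (C₀ : ℕ) (c : ℝ)
    (hc : 0 ≤ c) :
    ∃ C : ℝ, 1 ≤ C ∧ ∀ M L K : ℕ, 1 ≤ K → K ≤ M → 2 ≤ L → 24 * (a * L) ≤ M →
      (K : ℝ) ≤ c * (L : ℝ) ^ 2 → ∀ R : Finset ℕ,
      (∀ k ∈ R, K ≤ k ∧ k ≤ 5 * K) →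
        ∑ k ∈ R, ‖gh A a M L C₀ k‖ ^ 2 ≤
          C * (L : ℝ) ^ (2 + s) * (((M / (20 * (a * L)) : ℕ) : ℝ)) ^ s *
            (1 + (K : ℝ) * ((M / (20 * (a * L)) : ℕ) : ℝ) / M) ^ s *
            (1 + ((((M / (20 * (a * L)) : ℕ) : ℝ)) ^ 2 / K) ^ (s / 2)) := by
  obtain ⟨C1, hC1, hrow⟩ := countRowA hp C₀ (1 + c) (by linarith)
  obtain ⟨C2, hC2, hcut⟩ := card_Cut_le hp
  have hA : ∀ y ∈ A, 1 ≤ y := fun y hy => (hp.dig y hy).1
  have ha4 := hp.a4
  have haR : (1 : ℝ) ≤ a := by exact_mod_cast (by omega : 1 ≤ a)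
  refine ⟨4 * (48 * a) ^ 2 * C2 * C1, ?_, ?_⟩
  · have h1 : (1 : ℝ) ≤ 4 * (48 * a) ^ 2 := by nlinarith
    have h2 : (1 : ℝ) ≤ 4 * (48 * a) ^ 2 * C2 := by nlinarith
    nlinarith
  intro M L K hK hKM hL hM hKL R hR
  set Z := M / (20 * (a * L)) with hZ
  set H := M / (24 * (a * L)) with hH
  have haL : 0 < a * L := by positivity
  have hM0 : 0 < M := by
    have : 0 < 24 * (a * L) := by positivity
    omega
  have hH1 : 1 ≤ H := by
    rw [hH, Nat.one_le_div_iff (by positivity)]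
    exact hM
  have hHZ : H ≤ Z := Nat.div_le_div_left (by omega) (by positivity)
  have hHL : 8 * (H * (3 * (a * L))) ≤ M := by
    have h1 : H * (24 * (a * L)) ≤ M := Nat.div_mul_le_self _ _
    calc 8 * (H * (3 * (a * L))) = H * (24 * (a * L)) := by ring
      _ ≤ M := h1
  have hLM : 3 * (a * L) < M := by omega
  have hHK : (H : ℝ) * (1 + (K : ℝ) * Z / M) ≤ (1 + c) * M := by
    have hMR : (0 : ℝ) < M := by exact_mod_cast hM0
    have hLR : (0 : ℝ) < L := by exact_mod_cast (by omega : 0 < L)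
    have g1 : (H : ℝ) * L ≤ M := by
      have g2 : H * L ≤ M := by
        have g3 : H * (24 * (a * L)) ≤ M := Nat.div_mul_le_self _ _
        have g4 : H * L ≤ H * (24 * (a * L)) := by
          refine Nat.mul_le_mul_left _ ?_
          nlinarith
        exact g4.trans g3
      exact_mod_cast g2
    have g5 : (Z : ℝ) * L ≤ M := by
      have g2 : Z * L ≤ M := by
        have g3 : Z * (20 * (a * L)) ≤ M := Nat.div_mul_le_self _ _
        have g4 : Z * L ≤ Z * (20 * (a * L)) := by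
          refine Nat.mul_le_mul_left _ ?_
          nlinarith
        exact g4.trans g3
      exact_mod_cast g2
    have g6 : (H : ℝ) ≤ M := by
      have : (1 : ℝ) ≤ L := by exact_mod_cast (by omega : 1 ≤ L)
      have : (0 : ℝ) ≤ H := Nat.cast_nonneg _
      nlinarith
    have g7 : (H : ℝ) * ((K : ℝ) * Z / M) ≤ c * M := by
      rw [← mul_div_assoc, div_le_iff₀ hMR]
      have g8 : (H : ℝ) * Z * (L : ℝ) ^ 2 ≤ M ^ 2 := by
        calc (H : ℝ) * Z * (L : ℝ) ^ 2 = (H * L) * (Z * L) := by ring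
          _ ≤ M * M := mul_le_mul g1 g5 (by positivity) hMR.le
          _ = M ^ 2 := by ring
      calc (H : ℝ) * ((K : ℝ) * Z) = (H * Z) * K := by ring
        _ ≤ (H * Z) * (c * (L : ℝ) ^ 2) := mul_le_mul_of_nonneg_left hKL (by positivity)
        _ = c * (H * Z * (L : ℝ) ^ 2) := by ring
        _ ≤ c * (M : ℝ) ^ 2 := mul_le_mul_of_nonneg_left g8 hc
        _ = c * M * M := by ring
    linarith
  have hdig : ∀ v ∈ Cut A a L, ∀ x ∈ v, 1 ≤ x ∧ x < a := fun v hv x hx =>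
    hp.dig x ((Cut_bounds hp.dig hv).1 x hx)
  have hinj : Set.InjOn vec (Cut A a L : Set (List ℕ)) := by
    intro v hv v' hv' h
    refine vec_inj a ha4 v v' (hdig v hv) (hdig v' hv') ?_
    rw [h]
    simp only [wdg]
    ring
  have hV : ∀ v ∈ (Cut A a L).image vec, 0 ≤ v.1 ∧ v.1 ≤ ((3 * (a * L) : ℕ) : ℤ) ∧ 0 ≤ v.2 ∧
      v.2 ≤ ((3 * (a * L) : ℕ) : ℤ) := by
    intro v hv
    rw [Finset.mem_image] at hv
    obtain ⟨u, hu, rfl⟩ := hv
    obtain ⟨h1, h2, h3, h4, h5⟩ := vec_bounds u (fun x hx => (hdig u hu x hx).1)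
    have h6 : (kk u : ℤ) ≤ a * L := by exact_mod_cast (Cut_bounds hp.dig hu).2.2.1
    push_cast
    refine ⟨h1.le, by linarith, by linarith, by linarith⟩
  set ρ : ℝ := C1 * (Z : ℝ) ^ s * (1 + (K : ℝ) * Z / M) ^ s * (1 + ((Z : ℝ) ^ 2 / K) ^ (s / 2))
    with hρdef
  have hρ0 : 0 ≤ ρ := by rw [hρdef]; positivity
  have hd := dual M H (3 * (a * L)) hH1 (by omega) hHL hLM ((Cut A a L).image vec) hV
    (Wz A Z C₀) vec R ρ hρ0 (fun k hk => hrow M H Z K hM0 hK hKM hHZ hHK R hR k (hR k hk).2)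
  have heq : ∀ k : ℕ, gh A a M L C₀ (k : ℤ) =
      ∑ v ∈ (Cut A a L).image vec, ∑ w ∈ Wz A Z C₀, ch M ((k : ℤ) * dt v (vec w)) := by
    intro k
    unfold gh
    rw [Finset.sum_image (fun x hx y hy h => hinj hx hy h)]
  have hcard : (((Cut A a L).image vec).card : ℝ) ≤ C2 * (L : ℝ) ^ s := by
    refine le_trans ?_ (hcut L)
    exact_mod_cast Finset.card_image_le
  have hMH : (M : ℝ) / H ≤ 48 * a * L := by
    have h1 : M < (H + 1) * (24 * (a * L)) := by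
      have h0 : 0 < 24 * (a * L) := by positivity
      have h00 := Nat.div_add_mod M (24 * (a * L))
      have h01 := Nat.mod_lt M h0
      rw [← hH] at h00
      nlinarith
    have h2 : M ≤ 2 * H * (24 * (a * L)) := by nlinarith
    have h3 : (M : ℝ) ≤ 2 * H * (24 * (a * L)) := by exact_mod_cast h2
    have h4 : (0 : ℝ) < H := by exact_mod_cast hH1
    rw [div_le_iff₀ h4]
    nlinarith
  have hMH0 : (0 : ℝ) ≤ (M : ℝ) / H := by positivity
  have hsq : ((M : ℝ) / H) ^ 2 ≤ (48 * a) ^ 2 * (L : ℝ) ^ 2 := by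
    calc ((M : ℝ) / H) ^ 2 ≤ (48 * a * L) ^ 2 := pow_le_pow_left₀ hMH0 hMH 2
      _ = (48 * a) ^ 2 * (L : ℝ) ^ 2 := by ring
  have hLpos : (0 : ℝ) < L := by exact_mod_cast (by omega : 0 < L)
  have hLpow : (L : ℝ) ^ (2 + s) = (L : ℝ) ^ 2 * (L : ℝ) ^ s := by
    rw [Real.rpow_add hLpos]
    norm_num
  calc ∑ k ∈ R, ‖gh A a M L C₀ k‖ ^ 2
      = ∑ k ∈ R, ‖∑ v ∈ (Cut A a L).image vec, ∑ w ∈ Wz A Z C₀,
          ch M ((k : ℤ) * dt v (vec w))‖ ^ 2 := by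
        refine Finset.sum_congr rfl fun k _ => ?_
        rw [heq k]
    _ ≤ 4 * ((M : ℝ) / H) ^ 2 * ((Cut A a L).image vec).card * ρ := hd
    _ ≤ 4 * ((48 * a) ^ 2 * (L : ℝ) ^ 2) * (C2 * (L : ℝ) ^ s) * ρ := by
        refine mul_le_mul_of_nonneg_right ?_ hρ0
        exact mul_le_mul (by linarith) hcard (Nat.cast_nonneg _) (by positivity)
    _ = 4 * (48 * a) ^ 2 * C2 * C1 * (L : ℝ) ^ (2 + s) * (Z : ℝ) ^ s *
            (1 + (K : ℝ) * (Z : ℝ) / M) ^ s * (1 + ((Z : ℝ) ^ 2 / K) ^ (s / 2)) := by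
        rw [hLpow, hρdef]
        ring

end Pool.Agent.LibZE10
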