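import Pool.Agent.LibZE10.X3
import Pool.Agent.LibZE10.E5
import Pool.Agent.LibZE10.E6

set_option autoImplicit false

namespace Pool.Agent.LibZE10

open Pool.Agent.LibNZ69

private theorem X4_nat (N : ℕ) :
    ∑ j ∈ Finset.range (N + 1), (1 / (1 + (j : ℝ))) ^ 2 ≤ 2 - 1 / ((N : ℝ) + 1) := by
  induction N with
  | zero => simp; norm_num
  | succ n ih =>
    rw [Finset.sum_range_succ]
    have h1 : (0 : ℝ) < (n : ℝ) + 1 := by positivity
    have h2 : (0 : ℝ) < (n : ℝ) + 2 := by positivity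
    have h3 : (1 / (1 + ((n + 1 : ℕ) : ℝ))) ^ 2 ≤ 1 / ((n : ℝ) + 1) - 1 / ((n : ℝ) + 2) := by
      have e1 : (1 : ℝ) + ((n + 1 : ℕ) : ℝ) = (n : ℝ) + 2 := by push_cast; ring
      rw [e1]
      have e2 : 1 / ((n : ℝ) + 1) - 1 / ((n : ℝ) + 2) = 1 / (((n : ℝ) + 1) * ((n : ℝ) + 2)) := by
        field_simp
        ring
      rw [e2, div_pow, one_pow]
      apply one_div_le_one_div_of_le
      · positivity
      · nlinarith
    have e3 : ((n + 1 : ℕ) : ℝ) + 1 = (n : ℝ) + 2 := by push_cast; ring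
    rw [e3]
    linarith

private theorem X4_half (s : Finset ℤ) (hs : Set.InjOn Int.natAbs (s : Set ℤ)) :
    ∑ m ∈ s, (1 / (1 + |(m : ℝ)|)) ^ 2 ≤ 2 := by
  have e : ∀ m ∈ s, (1 / (1 + |(m : ℝ)|)) ^ 2 = (fun j : ℕ => (1 / (1 + (j : ℝ))) ^ 2) m.natAbs := by
    intro m _
    have : |(m : ℝ)| = ((m.natAbs : ℕ) : ℝ) := by
      rw [Nat.cast_natAbs, Int.cast_abs]
    simp only [this]
  rw [Finset.sum_congr rfl e, ← Finset.sum_image (g := Int.natAbs) (s := s)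
    (f := fun j : ℕ => (1 / (1 + (j : ℝ))) ^ 2) hs]
  have h1 : s.image Int.natAbs ⊆ Finset.range ((s.image Int.natAbs).sup id + 1) := by
    intro j hj
    rw [Finset.mem_range]
    exact Nat.lt_succ_of_le (Finset.le_sup (f := id) hj)
  refine (Finset.sum_le_sum_of_subset_of_nonneg h1 (fun j _ _ => by positivity)).trans ?_
  refine (X4_nat _).trans ?_
  have : (0 : ℝ) ≤ 1 / ((((s.image Int.natAbs).sup id : ℕ) : ℝ) + 1) := by positivity
  linarith

theorem sum_weights (s : Finset ℤ) : ∑ m ∈ s, (1 / (1 + |(m : ℝ)|)) ^ 2 ≤ 4 := by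
  rw [← Finset.sum_filter_add_sum_filter_not s (fun m => 0 ≤ m)]
  have h1 : ∑ m ∈ s.filter (fun m => 0 ≤ m), (1 / (1 + |(m : ℝ)|)) ^ 2 ≤ 2 := by
    apply X4_half
    intro x hx y hy hxy
    simp only [Finset.coe_filter, Set.mem_ofPred_eq] at hx hy
    have hxy' : x.natAbs = y.natAbs := hxy
    omega
  have h2 : ∑ m ∈ s.filter (fun m => ¬ 0 ≤ m), (1 / (1 + |(m : ℝ)|)) ^ 2 ≤ 2 := by
    apply X4_half
    intro x hx y hy hxy
    simp only [Finset.coe_filter, Set.mem_ofPred_eq] at hx hy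
    have hxy' : x.natAbs = y.natAbs := hxy
    omega
  linarith

/-- the energy term -/
noncomputable def En (a : ℕ) (s : ℝ) (M L K : ℕ) : ℝ :=
  (L : ℝ) ^ (2 + s) * (((M / (20 * (a * L)) : ℕ) : ℝ)) ^ s *
    (1 + (K : ℝ) * ((M / (20 * (a * L)) : ℕ) : ℝ) / M) ^ s *
    (1 + ((((M / (20 * (a * L)) : ℕ) : ℝ)) ^ 2 / K) ^ (s / 2))

private theorem En_half (a : ℕ) (s : ℝ) (hs0 : 0 ≤ s) (hs2 : s ≤ 2) (M L K : ℕ) (hK : 1 ≤ K) :
    En a s M L ((K + 1) / 2) ≤ 2 * En a s M L K := by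
  unfold En
  set Z : ℝ := (((M / (20 * (a * L)) : ℕ) : ℝ)) with hZ
  have hZ0 : 0 ≤ Z := Nat.cast_nonneg _
  have h1 : ((((K + 1) / 2 : ℕ) : ℝ)) ≤ K := by exact_mod_cast (by omega : (K + 1) / 2 ≤ K)
  have h2 : (K : ℝ) ≤ 2 * (((K + 1) / 2 : ℕ) : ℝ) := by
    exact_mod_cast (by omega : K ≤ 2 * ((K + 1) / 2))
  have hK0 : (0 : ℝ) < K := by exact_mod_cast hK
  set K' : ℝ := (((K + 1) / 2 : ℕ) : ℝ) with hK'
  have hK'0 : 0 < K' := by linarith
  have hM0 : (0 : ℝ) ≤ M := Nat.cast_nonneg _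
  have h3 : (1 + K' * Z / M) ^ s ≤ (1 + (K : ℝ) * Z / M) ^ s := by
    have h4 : K' * Z / M ≤ (K : ℝ) * Z / M :=
      div_le_div_of_nonneg_right (mul_le_mul_of_nonneg_right h1 hZ0) hM0
    have h5 : 0 ≤ K' * Z / M := by positivity
    exact Real.rpow_le_rpow (by linarith) (by linarith) hs0
  have h6 : (1 + (Z ^ 2 / K') ^ (s / 2)) ≤ 2 * (1 + (Z ^ 2 / K) ^ (s / 2)) := by
    have h7 : Z ^ 2 / K' ≤ 2 * (Z ^ 2 / K) := by
      rw [← mul_div_assoc, div_le_div_iff₀ hK'0 hK0]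
      nlinarith [sq_nonneg Z]
    have h8 : (Z ^ 2 / K') ^ (s / 2) ≤ (2 * (Z ^ 2 / K)) ^ (s / 2) :=
      Real.rpow_le_rpow (by positivity) h7 (by linarith)
    have h9 : (2 * (Z ^ 2 / K)) ^ (s / 2) = 2 ^ (s / 2) * (Z ^ 2 / K) ^ (s / 2) :=
      Real.mul_rpow (by norm_num) (by positivity)
    have h10 : (2 : ℝ) ^ (s / 2) ≤ 2 := by
      calc (2 : ℝ) ^ (s / 2) ≤ 2 ^ (1 : ℝ) :=
            Real.rpow_le_rpow_of_exponent_le (by norm_num) (by linarith)
        _ = 2 := Real.rpow_one _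
    have h11 : 0 ≤ (Z ^ 2 / K) ^ (s / 2) := by positivity
    rw [h9] at h8
    nlinarith
  have hP : 0 ≤ (L : ℝ) ^ (2 + s) * Z ^ s := by positivity
  calc (L : ℝ) ^ (2 + s) * Z ^ s * (1 + K' * Z / M) ^ s * (1 + (Z ^ 2 / K') ^ (s / 2))
      ≤ (L : ℝ) ^ (2 + s) * Z ^ s * (1 + (K : ℝ) * Z / M) ^ s *
          (2 * (1 + (Z ^ 2 / K) ^ (s / 2))) := by
        refine mul_le_mul (mul_le_mul_of_nonneg_left h3 hP) h6 (by positivity) (by positivity)
    _ = 2 * ((L : ℝ) ^ (2 + s) * Z ^ s * (1 + (K : ℝ) * Z / M) ^ s *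
          (1 + (Z ^ 2 / K) ^ (s / 2))) := by ring

theorem En_nonneg (a : ℕ) (s : ℝ) (M L K : ℕ) : 0 ≤ En a s M L K := by
  unfold En
  positivity

theorem splitA {A : Finset ℕ} {a : ℕ} {s : ℝ} (hp : PB A a s) (r : ℕ) (hr : 3 ≤ r) (c : ℝ)
    (hc : 0 ≤ c) :
    ∃ C : ℝ, 1 ≤ C ∧ ∀ b L K M : ℕ, 1 ≤ b → M = MM a r b → 1 ≤ K → K ≤ M → 2 ≤ L → 3 * L ≤ b →
      24 * (a * L) ≤ M → (K : ℝ) ≤ c * (L : ℝ) ^ 2 → ∀ R : Finset ℕ, (∀ k ∈ R, K ≤ k ∧ k < 2 * K) →
        ∑ k ∈ R, ‖fh A a r b (k : ℤ)‖ ^ 2 ≤ C * (En a s M L K + (M : ℝ) ^ (2 * s) / K) := by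
  obtain ⟨CT, hCT, hT⟩ := transfer hp r (by omega)
  obtain ⟨CE, hCE, hE⟩ := energyA hp (5 * a * (r + 3)) c hc
  obtain ⟨CG, hCG, hG⟩ := gh_le hp
  have hs0 : 0 ≤ s := by linarith [hp.s1]
  refine ⟨CT * (4 * (2 * CE + 4 * CG ^ 2)), ?_, ?_⟩
  · have h1 : (1 : ℝ) ≤ 4 * (2 * CE + 4 * CG ^ 2) := by nlinarith
    nlinarith
  intro b L K M hb hMM hK hKM hL hLb hM hKL R hR
  subst hMM
  have hKR : (0 : ℝ) < K := by exact_mod_cast hK
  have hK1 : (1 : ℝ) ≤ K := by exact_mod_cast hK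
  set M := MM a r b with hMdef
  set w : ℤ → ℝ := fun m => 1 / (1 + |(m : ℝ)|) with hw
  set g : ℤ → ℝ := fun x => ‖gh A a M L (5 * a * (r + 3)) x‖ with hg
  have hw0 : ∀ m, 0 < w m := fun m => by
    simp only [hw]
    have := abs_nonneg (m : ℝ)
    positivity
  have hw1 : ∀ m, w m ≤ 1 := fun m => by
    simp only [hw]
    have := abs_nonneg (m : ℝ)
    rw [div_le_one (by linarith)]
    linarith
  have hcardR : (R.card : ℝ) ≤ K := by
    have h1 : R ⊆ Finset.Ico K (2 * K) := fun k hk => Finset.mem_Ico.2 (hR k hk)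
    have h2 := Finset.card_le_card h1
    rw [Nat.card_Ico] at h2
    exact_mod_cast (by omega : R.card ≤ K)
  have hMs : (M : ℝ) ^ (2 * s) = ((M : ℝ) ^ s) ^ 2 := by
    rw [mul_comm, Real.rpow_mul (Nat.cast_nonneg _)]
    norm_num
  have hterm : ∀ m : ℤ, w m ^ (r + 1) * ∑ k ∈ R, g ((k : ℤ) - m) ^ 2 ≤
      w m ^ 2 * ((2 * CE + 4 * CG ^ 2) * (En a s M L K + (M : ℝ) ^ (2 * s) / K)) := by
    intro m
    have hEn := En_nonneg a s M L K
    have hMK : 0 ≤ (M : ℝ) ^ (2 * s) / K := by positivity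
    have hS0 : 0 ≤ ∑ k ∈ R, g ((k : ℤ) - m) ^ 2 := Finset.sum_nonneg fun _ _ => sq_nonneg _
    by_cases hm : 2 * |m| ≤ (K : ℤ)
    · -- small shift
      have h1 : ∑ k ∈ R, g ((k : ℤ) - m) ^ 2 ≤ CE * (2 * En a s M L K) := by
        set f : ℕ → ℕ := fun k => ((k : ℤ) - m).toNat with hf
        have hpos : ∀ k ∈ R, ((f k : ℕ) : ℤ) = (k : ℤ) - m := by
          intro k hk
          have h2 := (hR k hk).1
          have h3 : |m| ≤ (K : ℤ) := by
            have := abs_nonneg m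
            linarith
          have h4 := (abs_le.1 h3).2
          simp only [hf]
          rw [Int.toNat_of_nonneg]
          have : (K : ℤ) ≤ k := by exact_mod_cast h2
          linarith
        have hinj : Set.InjOn f (R : Set ℕ) := by
          intro x hx y hy hxy
          have e1 := hpos x hx
          have e2 := hpos y hy
          have e3 : ((f x : ℕ) : ℤ) = f y := by exact_mod_cast hxy
          have e4 : (x : ℤ) = y := by linarith
          exact_mod_cast e4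
        have h2 : ∑ k ∈ R, g ((k : ℤ) - m) ^ 2 = ∑ k ∈ R.image f, g (k : ℤ) ^ 2 := by
          rw [Finset.sum_image hinj]
          refine Finset.sum_congr rfl fun k hk => ?_
          rw [hpos k hk]
        have h3 : ∀ k ∈ R.image f, (K + 1) / 2 ≤ k ∧ k ≤ 5 * ((K + 1) / 2) := by
          intro k hk
          obtain ⟨x, hx, rfl⟩ := Finset.mem_image.1 hk
          have e1 := hpos x hx
          obtain ⟨e2, e3⟩ := hR x hx
          have e4 : 2 * m ≤ (K : ℤ) := by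
            have := le_abs_self m
            linarith
          have e5 : -(2 * m) ≤ (K : ℤ) := by
            have := neg_abs_le m
            linarith
          omega
        have hK2 : ((((K + 1) / 2 : ℕ)) : ℝ) ≤ K := by
          exact_mod_cast (by omega : (K + 1) / 2 ≤ K)
        have h4 := hE M L ((K + 1) / 2) (by omega) (by omega) hL hM (hK2.trans hKL)
          (R.image f) h3
        rw [h2]
        refine h4.trans ?_
        have h5 := En_half a s hs0 hp.s2 M L K hK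
        have h6 : CE * (L : ℝ) ^ (2 + s) * (((M / (20 * (a * L)) : ℕ) : ℝ)) ^ s *
            (1 + ((((K + 1) / 2 : ℕ) : ℕ) : ℝ) * ((M / (20 * (a * L)) : ℕ) : ℝ) / M) ^ s *
            (1 + ((((M / (20 * (a * L)) : ℕ) : ℝ)) ^ 2 / ((((K + 1) / 2 : ℕ) : ℕ) : ℝ)) ^ (s / 2))
            = CE * En a s M L ((K + 1) / 2) := by
          unfold En
          ring
        rw [h6]
        exact mul_le_mul_of_nonneg_left h5 (by linarith)
      have h7 : w m ^ (r + 1) ≤ w m ^ 2 := pow_le_pow_of_le_one (hw0 m).le (hw1 m) (by omega)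
      calc w m ^ (r + 1) * ∑ k ∈ R, g ((k : ℤ) - m) ^ 2
          ≤ w m ^ 2 * (CE * (2 * En a s M L K)) := mul_le_mul h7 h1 hS0 (sq_nonneg _)
        _ ≤ w m ^ 2 * ((2 * CE + 4 * CG ^ 2) * (En a s M L K + (M : ℝ) ^ (2 * s) / K)) := by
            refine mul_le_mul_of_nonneg_left ?_ (sq_nonneg _)
            have h8 : 0 ≤ CG ^ 2 * En a s M L K := by positivity
            have h9 : 0 ≤ (2 * CE + 4 * CG ^ 2) * ((M : ℝ) ^ (2 * s) / K) := by positivity
            nlinarith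
    · -- large shift
      rw [not_le] at hm
      have hm' : (K : ℝ) < 2 * |(m : ℝ)| := by
        have : ((K : ℤ) : ℝ) < ((2 * |m| : ℤ) : ℝ) := by exact_mod_cast hm
        push_cast at this
        exact this
      have h1 : ∑ k ∈ R, g ((k : ℤ) - m) ^ 2 ≤ K * (CG ^ 2 * (M : ℝ) ^ (2 * s)) := by
        calc ∑ k ∈ R, g ((k : ℤ) - m) ^ 2 ≤ ∑ k ∈ R, CG ^ 2 * (M : ℝ) ^ (2 * s) := by
              refine Finset.sum_le_sum fun k _ => ?_
              have h2 := hG M L (5 * a * (r + 3)) ((k : ℤ) - m) (by omega)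
              calc g ((k : ℤ) - m) ^ 2 ≤ (CG * (M : ℝ) ^ s) ^ 2 :=
                    pow_le_pow_left₀ (norm_nonneg _) h2 2
                _ = CG ^ 2 * (M : ℝ) ^ (2 * s) := by rw [hMs]; ring
          _ = R.card * (CG ^ 2 * (M : ℝ) ^ (2 * s)) := by
              rw [Finset.sum_const, nsmul_eq_mul]
          _ ≤ K * (CG ^ 2 * (M : ℝ) ^ (2 * s)) :=
              mul_le_mul_of_nonneg_right hcardR (by positivity)
      have h2 : w m ≤ 2 / K := by
        simp only [hw]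
        rw [div_le_div_iff₀ (by have := abs_nonneg (m : ℝ); linarith) hKR]
        linarith
      have h3 : w m ^ (r + 1) ≤ w m ^ 2 * (2 / K) ^ 2 := by
        calc w m ^ (r + 1) ≤ w m ^ (2 + 2) :=
              pow_le_pow_of_le_one (hw0 m).le (hw1 m) (by omega)
          _ = w m ^ 2 * w m ^ 2 := pow_add _ _ _
          _ ≤ w m ^ 2 * (2 / K) ^ 2 :=
              mul_le_mul_of_nonneg_left (pow_le_pow_left₀ (hw0 m).le h2 2) (sq_nonneg _)
      calc w m ^ (r + 1) * ∑ k ∈ R, g ((k : ℤ) - m) ^ 2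
          ≤ (w m ^ 2 * (2 / K) ^ 2) * (K * (CG ^ 2 * (M : ℝ) ^ (2 * s))) :=
            mul_le_mul h3 h1 hS0 (by positivity)
        _ = w m ^ 2 * (4 * CG ^ 2 * ((M : ℝ) ^ (2 * s) / K)) := by
            field_simp
            ring
        _ ≤ w m ^ 2 * ((2 * CE + 4 * CG ^ 2) * (En a s M L K + (M : ℝ) ^ (2 * s) / K)) := by
            refine mul_le_mul_of_nonneg_left ?_ (sq_nonneg _)
            have h8 : 0 ≤ CE * ((M : ℝ) ^ (2 * s) / K) := by positivity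
            have h9 : 0 ≤ (2 * CE + 4 * CG ^ 2) * En a s M L K := by positivity
            nlinarith
  calc ∑ k ∈ R, ‖fh A a r b (k : ℤ)‖ ^ 2
      ≤ ∑ k ∈ R, CT * ∑ m ∈ sym a r b, w m ^ (r + 1) * g ((k : ℤ) - m) ^ 2 :=
        Finset.sum_le_sum fun k _ => hT b L hb hL hLb k
    _ = CT * ∑ m ∈ sym a r b, w m ^ (r + 1) * ∑ k ∈ R, g ((k : ℤ) - m) ^ 2 := by
        rw [← Finset.mul_sum, Finset.sum_comm]
        congr 1
        refine Finset.sum_congr rfl fun m _ => ?_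
        rw [Finset.mul_sum]
    _ ≤ CT * ∑ m ∈ sym a r b,
          w m ^ 2 * ((2 * CE + 4 * CG ^ 2) * (En a s M L K + (M : ℝ) ^ (2 * s) / K)) :=
        mul_le_mul_of_nonneg_left (Finset.sum_le_sum fun m _ => hterm m) (by linarith)
    _ = CT * ((∑ m ∈ sym a r b, w m ^ 2) *
          ((2 * CE + 4 * CG ^ 2) * (En a s M L K + (M : ℝ) ^ (2 * s) / K))) := by
        rw [Finset.sum_mul]
    _ ≤ CT * (4 * ((2 * CE + 4 * CG ^ 2) * (En a s M L K + (M : ℝ) ^ (2 * s) / K))) := by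
        refine mul_le_mul_of_nonneg_left ?_ (by linarith)
        have hEn := En_nonneg a s M L K
        exact mul_le_mul_of_nonneg_right (sum_weights _) (by positivity)
    _ = CT * (4 * (2 * CE + 4 * CG ^ 2)) * (En a s M L K + (M : ℝ) ^ (2 * s) / K) := by ring

end Pool.Agent.LibZE10
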