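import Pool.Agent.LibZE10.X4

set_option autoImplicit false

namespace Pool.Agent.LibZE10

open Pool.Agent.LibNZ69

/-- the energy term for `L` comparable with `K`, `K ≤ M^(2/3)` -/
theorem En_le1 (a : ℕ) (s c : ℝ) (ha : 1 ≤ a) (hs0 : 0 ≤ s) (hs2 : s ≤ 2) (hc : 1 ≤ c)
    (M L K : ℕ) (hM : 1 ≤ M) (hK : 1 ≤ K) (hL : 1 ≤ L) (hLK : L ≤ 2 * K)
    (hKL : (K : ℝ) ≤ c * L) (hKM : K ^ 3 ≤ M ^ 2) :
    En a s M L K ≤ 8 * (1 + c) ^ 2 * c ^ 2 *
      ((K : ℝ) ^ (-(3 * s / 2 - 2)) * (M : ℝ) ^ (2 * s)) := by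
  unfold En
  have hZnat : (M / (20 * (a * L))) * (20 * (a * L)) ≤ M := Nat.div_mul_le_self _ _
  set Z : ℝ := (((M / (20 * (a * L)) : ℕ) : ℝ)) with hZ
  have hZ0 : 0 ≤ Z := Nat.cast_nonneg _
  have hMR : (0 : ℝ) < M := by exact_mod_cast hM
  have hKR : (0 : ℝ) < K := by exact_mod_cast hK
  have hLR : (0 : ℝ) < L := by exact_mod_cast hL
  have haR : (1 : ℝ) ≤ a := by exact_mod_cast ha
  have hLZ : (L : ℝ) * Z ≤ M := by
    have h1 : Z * (20 * (a * L)) ≤ M := by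
      rw [hZ]
      exact_mod_cast hZnat
    have h2 : 0 ≤ Z * L := by positivity
    nlinarith
  have hKZ : (K : ℝ) * Z ≤ c * M := by
    calc (K : ℝ) * Z ≤ (c * L) * Z := mul_le_mul_of_nonneg_right hKL hZ0
      _ = c * (L * Z) := by ring
      _ ≤ c * M := mul_le_mul_of_nonneg_left hLZ (by linarith)
  have h1 : (1 + (K : ℝ) * Z / M) ^ s ≤ (1 + c) ^ 2 := by
    have h2 : (K : ℝ) * Z / M ≤ c := by
      rw [div_le_iff₀ hMR]
      exact hKZ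
    have h3 : 0 ≤ (K : ℝ) * Z / M := by positivity
    calc (1 + (K : ℝ) * Z / M) ^ s ≤ (1 + c) ^ s :=
          Real.rpow_le_rpow (by linarith) (by linarith) hs0
      _ ≤ (1 + c) ^ (2 : ℝ) := Real.rpow_le_rpow_of_exponent_le (by linarith) hs2
      _ = (1 + c) ^ 2 := by norm_num
  have h4 : (L : ℝ) ^ (2 + s) * Z ^ s ≤ 4 * (K : ℝ) ^ 2 * (M : ℝ) ^ s := by
    have e1 : (L : ℝ) ^ (2 + s) = (L : ℝ) ^ 2 * (L : ℝ) ^ s := by
      rw [Real.rpow_add hLR]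
      norm_num
    have e2 : (L : ℝ) ^ s * Z ^ s = ((L : ℝ) * Z) ^ s := (Real.mul_rpow hLR.le hZ0).symm
    have e3 : ((L : ℝ) * Z) ^ s ≤ (M : ℝ) ^ s := Real.rpow_le_rpow (by positivity) hLZ hs0
    have e4 : (L : ℝ) ^ 2 ≤ 4 * (K : ℝ) ^ 2 := by
      have : (L : ℝ) ≤ 2 * K := by exact_mod_cast hLK
      calc (L : ℝ) ^ 2 ≤ (2 * K) ^ 2 := pow_le_pow_left₀ hLR.le this 2
        _ = 4 * (K : ℝ) ^ 2 := by ring
    rw [e1, mul_assoc, e2]
    exact mul_le_mul e4 e3 (by positivity) (by positivity)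
  have h5 : (Z ^ 2 / K) ^ (s / 2) ≤ c ^ 2 * ((M : ℝ) ^ s * (K : ℝ) ^ (-(3 * s / 2))) := by
    have e1 : Z ≤ c * M / K := by
      rw [le_div_iff₀ hKR, mul_comm]
      exact hKZ
    have e2 : Z ^ 2 / K ≤ (c * M) ^ 2 / (K : ℝ) ^ 3 := by
      calc Z ^ 2 / K ≤ (c * M / K) ^ 2 / K :=
            div_le_div_of_nonneg_right (pow_le_pow_left₀ hZ0 e1 2) hKR.le
        _ = (c * M) ^ 2 / (K : ℝ) ^ 3 := by
            rw [div_pow, div_div]
            congr 1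
    have hcM : 0 ≤ c * M := by positivity
    have e3 : ((c * M) ^ 2 / (K : ℝ) ^ 3) ^ (s / 2) = (c * M) ^ s * (K : ℝ) ^ (-(3 * s / 2)) := by
      rw [Real.div_rpow (by positivity) (by positivity), Real.rpow_neg hKR.le, ← div_eq_mul_inv]
      congr 1
      · rw [← Real.rpow_natCast, ← Real.rpow_mul hcM]
        congr 1
        push_cast
        ring
      · rw [← Real.rpow_natCast, ← Real.rpow_mul hKR.le]
        congr 1
        push_cast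
        ring
    have e4 : (c * M) ^ s ≤ c ^ 2 * (M : ℝ) ^ s := by
      rw [Real.mul_rpow (by linarith) hMR.le]
      refine mul_le_mul_of_nonneg_right ?_ (by positivity)
      calc c ^ s ≤ c ^ (2 : ℝ) := Real.rpow_le_rpow_of_exponent_le hc hs2
        _ = c ^ 2 := by norm_num
    calc (Z ^ 2 / K) ^ (s / 2) ≤ ((c * M) ^ 2 / (K : ℝ) ^ 3) ^ (s / 2) :=
          Real.rpow_le_rpow (by positivity) e2 (by linarith)
      _ = (c * M) ^ s * (K : ℝ) ^ (-(3 * s / 2)) := e3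
      _ ≤ c ^ 2 * (M : ℝ) ^ s * (K : ℝ) ^ (-(3 * s / 2)) :=
          mul_le_mul_of_nonneg_right e4 (by positivity)
      _ = c ^ 2 * ((M : ℝ) ^ s * (K : ℝ) ^ (-(3 * s / 2))) := by ring
  have h6 : 1 + (Z ^ 2 / K) ^ (s / 2) ≤ c ^ 2 * (1 + (M : ℝ) ^ s * (K : ℝ) ^ (-(3 * s / 2))) := by
    have : (1 : ℝ) ≤ c ^ 2 := by nlinarith
    linarith
  have e5 : (K : ℝ) ^ 2 * (K : ℝ) ^ (-(3 * s / 2)) = (K : ℝ) ^ (-(3 * s / 2 - 2)) := by
    rw [show (K : ℝ) ^ 2 = (K : ℝ) ^ (2 : ℝ) by norm_num, ← Real.rpow_add hKR]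
    congr 1
    ring
  have e6 : (M : ℝ) ^ s * (M : ℝ) ^ s = (M : ℝ) ^ (2 * s) := by
    rw [← Real.rpow_add hMR]
    congr 1
    ring
  have e7 : (K : ℝ) ^ 2 * (M : ℝ) ^ s ≤ (K : ℝ) ^ (-(3 * s / 2 - 2)) * (M : ℝ) ^ (2 * s) := by
    have f1 : (K : ℝ) ^ (3 * s / 2) ≤ (M : ℝ) ^ s := by
      have f2 : ((K : ℝ) ^ 3) ^ (s / 2) ≤ ((M : ℝ) ^ 2) ^ (s / 2) :=
        Real.rpow_le_rpow (by positivity) (by exact_mod_cast hKM) (by linarith)
      have f3 : ((K : ℝ) ^ 3) ^ (s / 2) = (K : ℝ) ^ (3 * s / 2) := by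
        rw [← Real.rpow_natCast, ← Real.rpow_mul hKR.le]
        congr 1
        push_cast
        ring
      have f4 : ((M : ℝ) ^ 2) ^ (s / 2) = (M : ℝ) ^ s := by
        rw [← Real.rpow_natCast, ← Real.rpow_mul hMR.le]
        congr 1
        push_cast
        ring
      rwa [f3, f4] at f2
    have f5 : (K : ℝ) ^ 2 = (K : ℝ) ^ (-(3 * s / 2 - 2)) * (K : ℝ) ^ (3 * s / 2) := by
      rw [← Real.rpow_add hKR]
      rw [show -(3 * s / 2 - 2) + 3 * s / 2 = (2 : ℝ) by ring]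
      norm_num
    rw [f5, ← e6, mul_assoc]
    refine mul_le_mul_of_nonneg_left ?_ (by positivity)
    exact mul_le_mul_of_nonneg_right f1 (by positivity)
  calc (L : ℝ) ^ (2 + s) * Z ^ s * (1 + (K : ℝ) * Z / M) ^ s * (1 + (Z ^ 2 / K) ^ (s / 2))
      ≤ (4 * (K : ℝ) ^ 2 * (M : ℝ) ^ s) * (1 + c) ^ 2 *
          (c ^ 2 * (1 + (M : ℝ) ^ s * (K : ℝ) ^ (-(3 * s / 2)))) := by
        refine mul_le_mul (mul_le_mul h4 h1 (by positivity) (by positivity)) h6 (by positivity)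
          (by positivity)
    _ = 4 * (1 + c) ^ 2 * c ^ 2 * ((K : ℝ) ^ 2 * (M : ℝ) ^ s +
          ((K : ℝ) ^ 2 * (K : ℝ) ^ (-(3 * s / 2))) * ((M : ℝ) ^ s * (M : ℝ) ^ s)) := by ring
    _ = 4 * (1 + c) ^ 2 * c ^ 2 *
      ((K : ℝ) ^ 2 * (M : ℝ) ^ s + (K : ℝ) ^ (-(3 * s / 2 - 2)) * (M : ℝ) ^ (2 * s)) := by
        rw [e5, e6]
    _ ≤ 4 * (1 + c) ^ 2 * c ^ 2 *
      ((K : ℝ) ^ (-(3 * s / 2 - 2)) * (M : ℝ) ^ (2 * s) +
        (K : ℝ) ^ (-(3 * s / 2 - 2)) * (M : ℝ) ^ (2 * s)) := by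
        refine mul_le_mul_of_nonneg_left ?_ (by positivity)
        linarith
    _ = 8 * (1 + c) ^ 2 * c ^ 2 *
      ((K : ℝ) ^ (-(3 * s / 2 - 2)) * (M : ℝ) ^ (2 * s)) := by ring

/-- the energy term for `L` comparable with `M K^(-1/2)`, `K ≥ M^(2/3)` -/
theorem En_le2 (a : ℕ) (s c : ℝ) (ha : 1 ≤ a) (hs0 : 0 ≤ s) (hs2 : s ≤ 2) (hc : 1 ≤ c)
    (M L K : ℕ) (hM : 1 ≤ M) (hK : 1 ≤ K) (hL : 1 ≤ L)
    (h1 : (L : ℝ) ^ 2 * K ≤ c ^ 2 * (M : ℝ) ^ 2) (h2 : (M : ℝ) ^ 2 ≤ c ^ 2 * ((L : ℝ) ^ 2 * K))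
    (hKM : M ^ 2 ≤ K ^ 3) :
    En a s M L K ≤ 4 * c ^ 4 * (1 + c ^ 2) * ((M : ℝ) ^ 2 * (K : ℝ) ^ (3 * s / 2 - 1)) := by
  unfold En
  have hZnat : (M / (20 * (a * L))) * (20 * (a * L)) ≤ M := Nat.div_mul_le_self _ _
  set Z : ℝ := (((M / (20 * (a * L)) : ℕ) : ℝ)) with hZ
  have hZ0 : 0 ≤ Z := Nat.cast_nonneg _
  have hMR : (0 : ℝ) < M := by exact_mod_cast hM
  have hKR : (0 : ℝ) < K := by exact_mod_cast hK
  have hLR : (0 : ℝ) < L := by exact_mod_cast hL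
  have haR : (1 : ℝ) ≤ a := by exact_mod_cast ha
  have hLZ : (L : ℝ) * Z ≤ M := by
    have h1 : Z * (20 * (a * L)) ≤ M := by
      rw [hZ]
      exact_mod_cast hZnat
    have h2 : 0 ≤ Z * L := by positivity
    nlinarith
  have hLZ2 : (L : ℝ) ^ 2 * Z ^ 2 ≤ (M : ℝ) ^ 2 := by
    calc (L : ℝ) ^ 2 * Z ^ 2 = (L * Z) ^ 2 := by ring
      _ ≤ (M : ℝ) ^ 2 := pow_le_pow_left₀ (by positivity) hLZ 2
  have hL2 : 0 < (L : ℝ) ^ 2 := by positivity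
  have hZK : Z ^ 2 ≤ c ^ 2 * K := by
    have h3 : (L : ℝ) ^ 2 * Z ^ 2 ≤ (L : ℝ) ^ 2 * (c ^ 2 * K) := by
      calc (L : ℝ) ^ 2 * Z ^ 2 ≤ (M : ℝ) ^ 2 := hLZ2
        _ ≤ c ^ 2 * ((L : ℝ) ^ 2 * K) := h2
        _ = (L : ℝ) ^ 2 * (c ^ 2 * K) := by ring
    exact le_of_mul_le_mul_left h3 hL2
  have h4 : (Z ^ 2 / K) ^ (s / 2) ≤ c ^ 2 := by
    have e1 : Z ^ 2 / K ≤ c ^ 2 := by
      rw [div_le_iff₀ hKR]
      exact hZK
    have hc2 : (1 : ℝ) ≤ c ^ 2 := by nlinarith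
    calc (Z ^ 2 / K) ^ (s / 2) ≤ (c ^ 2) ^ (s / 2) :=
          Real.rpow_le_rpow (by positivity) e1 (by linarith)
      _ ≤ (c ^ 2) ^ (1 : ℝ) := Real.rpow_le_rpow_of_exponent_le hc2 (by linarith)
      _ = c ^ 2 := Real.rpow_one _
  have h5 : (L : ℝ) ^ (2 + s) * Z ^ s ≤ c ^ 2 * (M : ℝ) ^ 2 / K * (M : ℝ) ^ s := by
    have e1 : (L : ℝ) ^ (2 + s) = (L : ℝ) ^ 2 * (L : ℝ) ^ s := by
      rw [Real.rpow_add hLR]
      norm_num
    have e2 : (L : ℝ) ^ s * Z ^ s = ((L : ℝ) * Z) ^ s := (Real.mul_rpow hLR.le hZ0).symm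
    have e3 : ((L : ℝ) * Z) ^ s ≤ (M : ℝ) ^ s := Real.rpow_le_rpow (by positivity) hLZ hs0
    have e4 : (L : ℝ) ^ 2 ≤ c ^ 2 * (M : ℝ) ^ 2 / K := by
      rw [le_div_iff₀ hKR]
      exact h1
    rw [e1, mul_assoc, e2]
    exact mul_le_mul e4 e3 (by positivity) (by positivity)
  have h6 : (1 + (K : ℝ) * Z / M) ^ s ≤ 4 * c ^ 2 * ((K : ℝ) ^ (3 * s / 2) / (M : ℝ) ^ s) := by
    obtain ⟨u, hu⟩ : ∃ u : ℝ, u = (K : ℝ) * Z / M := ⟨_, rfl⟩
    rw [← hu]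
    have hu0 : 0 ≤ u := by rw [hu]; positivity
    have e1 : u ^ 2 ≤ c ^ 2 * ((K : ℝ) ^ 3 / (M : ℝ) ^ 2) := by
      rw [hu, div_pow, ← mul_div_assoc]
      refine div_le_div_of_nonneg_right ?_ (by positivity)
      calc ((K : ℝ) * Z) ^ 2 = (K : ℝ) ^ 2 * Z ^ 2 := by ring
        _ ≤ (K : ℝ) ^ 2 * (c ^ 2 * K) := mul_le_mul_of_nonneg_left hZK (by positivity)
        _ = c ^ 2 * (K : ℝ) ^ 3 := by ring
    have e2 : 1 ≤ (K : ℝ) ^ 3 / (M : ℝ) ^ 2 := by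
      rw [le_div_iff₀ (by positivity), one_mul]
      exact_mod_cast hKM
    have hc2 : (1 : ℝ) ≤ c ^ 2 := by nlinarith
    have e3 : (1 + u) ^ 2 ≤ (4 * c ^ 2) * ((K : ℝ) ^ 3 / (M : ℝ) ^ 2) := by
      nlinarith [sq_nonneg (1 - u)]
    have e4 : (1 + u) ^ s = ((1 + u) ^ 2) ^ (s / 2) := by
      rw [← Real.rpow_natCast, ← Real.rpow_mul (by linarith)]
      congr 1
      push_cast
      ring
    rw [e4]
    calc ((1 + u) ^ 2) ^ (s / 2) ≤ ((4 * c ^ 2) * ((K : ℝ) ^ 3 / (M : ℝ) ^ 2)) ^ (s / 2) :=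
          Real.rpow_le_rpow (by positivity) e3 (by linarith)
      _ = (4 * c ^ 2) ^ (s / 2) * ((K : ℝ) ^ 3 / (M : ℝ) ^ 2) ^ (s / 2) :=
          Real.mul_rpow (by positivity) (by positivity)
      _ ≤ (4 * c ^ 2) ^ (1 : ℝ) * ((K : ℝ) ^ 3 / (M : ℝ) ^ 2) ^ (s / 2) := by
          refine mul_le_mul_of_nonneg_right ?_ (by positivity)
          exact Real.rpow_le_rpow_of_exponent_le (by linarith) (by linarith)
      _ = 4 * c ^ 2 * ((K : ℝ) ^ (3 * s / 2) / (M : ℝ) ^ s) := by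
          rw [Real.rpow_one, Real.div_rpow (by positivity) (by positivity)]
          congr 2
          · rw [← Real.rpow_natCast, ← Real.rpow_mul hKR.le]
            congr 1
            push_cast
            ring
          · rw [← Real.rpow_natCast, ← Real.rpow_mul hMR.le]
            congr 1
            push_cast
            ring
  have hMs : (0 : ℝ) < (M : ℝ) ^ s := by positivity
  have e8 : (K : ℝ) ^ (3 * s / 2) = (K : ℝ) ^ (3 * s / 2 - 1) * K := by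
    rw [← Real.rpow_add_one hKR.ne']
    congr 1
    ring
  calc (L : ℝ) ^ (2 + s) * Z ^ s * (1 + (K : ℝ) * Z / M) ^ s * (1 + (Z ^ 2 / K) ^ (s / 2))
      ≤ (c ^ 2 * (M : ℝ) ^ 2 / K * (M : ℝ) ^ s) *
          (4 * c ^ 2 * ((K : ℝ) ^ (3 * s / 2) / (M : ℝ) ^ s)) * (1 + c ^ 2) := by
        refine mul_le_mul (mul_le_mul h5 h6 (by positivity) (by positivity)) (by linarith)
          (by positivity) (by positivity)
    _ = 4 * c ^ 4 * (1 + c ^ 2) * ((M : ℝ) ^ 2 * (K : ℝ) ^ (3 * s / 2 - 1)) := by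
        rw [e8]
        field_simp

/-- The block of the frequencies `[K, 2 K)`. -/
theorem blockA {A : Finset ℕ} {a : ℕ} {s : ℝ} (hp : PB A a s) (r : ℕ) (hr : 3 ≤ r) :
    ∃ C : ℝ, 1 ≤ C ∧ ∀ b K M : ℕ, 6 ≤ b → M = MM a r b → 1 ≤ K → K ≤ M →
      ∀ R : Finset ℕ, (∀ k ∈ R, K ≤ k ∧ k < 2 * K) →
        ∑ k ∈ R, ‖fh A a r b (k : ℤ)‖ ^ 2 ≤
          C * ((M : ℝ) ^ 2 * (K : ℝ) ^ (3 * s / 2 - 1) +
            (K : ℝ) ^ (-(3 * s / 2 - 2)) * (M : ℝ) ^ (2 * s)) := by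
  have ha : 1 ≤ a := le_trans (by norm_num) hp.a4
  have haR : (1 : ℝ) ≤ a := by exact_mod_cast ha
  have hrR : (0 : ℝ) ≤ r := Nat.cast_nonneg r
  have hs1 := hp.s1
  have hs2 := hp.s2
  obtain ⟨D, hD⟩ : ∃ D : ℕ, D = 20 * a * (r + 3) := ⟨_, rfl⟩
  have hD1 : 1 ≤ D := by
    rw [hD]
    have : 0 < 20 * a * (r + 3) := by positivity
    omega
  obtain ⟨c, hc⟩ : ∃ c : ℝ, c = 12 * (D : ℝ) := ⟨_, rfl⟩
  have hDR : (1 : ℝ) ≤ D := by exact_mod_cast hD1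
  have hc1 : 1 ≤ c := by
    rw [hc]
    linarith
  obtain ⟨C1, hC1, hsp⟩ := splitA hp r hr (c ^ 2) (by positivity)
  refine ⟨C1 * (8 * (1 + c) ^ 2 * c ^ 2 + 4 * c ^ 4 * (1 + c ^ 2) + 1), ?_, ?_⟩
  · have : 0 ≤ 8 * (1 + c) ^ 2 * c ^ 2 + 4 * c ^ 4 * (1 + c ^ 2) := by positivity
    nlinarith
  intro b K M hb hMM hK hKM R hR
  have hM1 : 1 ≤ M := le_trans hK hKM
  have hMD : M = D * b := by
    rw [hMM, hD]
    rfl
  have hKR : (1 : ℝ) ≤ K := by exact_mod_cast hK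
  have hKMR : (K : ℝ) ≤ M := by exact_mod_cast hKM
  have h24 : ∀ L : ℕ, 3 * L ≤ b → 24 * (a * L) ≤ M := by
    intro L hLb
    have h1 : 24 * (a * L) = 8 * a * (3 * L) := by ring
    rw [h1, hMD, hD]
    have h3 : 8 * a ≤ 20 * a * (r + 3) := by nlinarith
    exact Nat.mul_le_mul h3 hLb
  -- the choice of `L`
  have hch : ∃ L : ℕ, 2 ≤ L ∧ 3 * L ≤ b ∧ (K : ℝ) ≤ c ^ 2 * (L : ℝ) ^ 2 ∧
      En a s M L K ≤ 8 * (1 + c) ^ 2 * c ^ 2 *
        ((K : ℝ) ^ (-(3 * s / 2 - 2)) * (M : ℝ) ^ (2 * s)) +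
      4 * c ^ 4 * (1 + c ^ 2) * ((M : ℝ) ^ 2 * (K : ℝ) ^ (3 * s / 2 - 1)) := by
    rcases le_total (K ^ 3) (M ^ 2) with hcase | hcase
    · obtain ⟨L, hLdef⟩ : ∃ L : ℕ, L = min (2 * K) (b / 3) := ⟨_, rfl⟩
      have hL2 : 2 ≤ L := by
        rw [hLdef, le_min_iff]
        omega
      have hLb : 3 * L ≤ b := by
        have : L ≤ b / 3 := by rw [hLdef]; exact min_le_right _ _
        omega
      have hLK : L ≤ 2 * K := by rw [hLdef]; exact min_le_left _ _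
      have hLR : (1 : ℝ) ≤ L := by exact_mod_cast (by omega : 1 ≤ L)
      have hKL : (K : ℝ) ≤ c * L := by
        rcases le_total (2 * K) (b / 3) with h | h
        · have h1 : L = 2 * K := by rw [hLdef]; exact min_eq_left h
          rw [h1]
          push_cast
          nlinarith
        · have h1 : L = b / 3 := by rw [hLdef]; exact min_eq_right h
          have h2 : b ≤ 6 * L := by omega
          have h3 : (b : ℝ) ≤ 6 * L := by exact_mod_cast h2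
          have h4 : (M : ℝ) = D * b := by exact_mod_cast hMD
          calc (K : ℝ) ≤ M := hKMR
            _ = D * b := h4
            _ ≤ D * (6 * L) := mul_le_mul_of_nonneg_left h3 (by positivity)
            _ ≤ c * L := by
                rw [hc]
                nlinarith
      refine ⟨L, hL2, hLb, ?_, ?_⟩
      · have h1 : c * L ≤ c ^ 2 * (L : ℝ) ^ 2 := by
          have h2 : 1 ≤ c * L := by nlinarith
          calc c * (L : ℝ) = (c * L) * 1 := by ring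
            _ ≤ (c * L) * (c * L) := mul_le_mul_of_nonneg_left h2 (by positivity)
            _ = c ^ 2 * (L : ℝ) ^ 2 := by ring
        linarith
      · have h6 := En_le1 a s c ha (by linarith) hs2 hc1 M L K hM1 hK (by omega) hLK hKL hcase
        have h7 : 0 ≤ 4 * c ^ 4 * (1 + c ^ 2) * ((M : ℝ) ^ 2 * (K : ℝ) ^ (3 * s / 2 - 1)) := by
          positivity
        linarith
    · obtain ⟨T, hT⟩ : ∃ T : ℕ, T = Nat.sqrt (M ^ 2 / K) := ⟨_, rfl⟩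
      have hT1 : 1 ≤ T := by
        rw [hT, Nat.le_sqrt]
        rw [Nat.le_div_iff_mul_le (by omega)]
        nlinarith
      have hT2 : T ^ 2 * K ≤ M ^ 2 := by
        have h1 : T * T ≤ M ^ 2 / K := by
          rw [hT]
          exact Nat.sqrt_le _
        have h2 := Nat.div_mul_le_self (M ^ 2) K
        calc T ^ 2 * K = (T * T) * K := by ring
          _ ≤ (M ^ 2 / K) * K := Nat.mul_le_mul_right _ h1
          _ ≤ M ^ 2 := h2
      have hT3 : M ^ 2 ≤ 4 * (T ^ 2 * K) := by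
        have h1 : M ^ 2 / K < (T + 1) * (T + 1) := by
          rw [hT]
          exact Nat.lt_succ_sqrt _
        rw [Nat.div_lt_iff_lt_mul (by omega)] at h1
        have h2 : (T + 1) * (T + 1) ≤ 4 * T ^ 2 := by nlinarith
        have h3 : (T + 1) * (T + 1) * K ≤ 4 * T ^ 2 * K := Nat.mul_le_mul_right _ h2
        calc M ^ 2 ≤ (T + 1) * (T + 1) * K := h1.le
          _ ≤ 4 * T ^ 2 * K := h3
          _ = 4 * (T ^ 2 * K) := by ring
      have hTM : T ≤ M := by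
        have h1 : T ^ 2 ≤ M ^ 2 := by
          calc T ^ 2 ≤ T ^ 2 * K := Nat.le_mul_of_pos_right _ (by omega)
            _ ≤ M ^ 2 := hT2
        exact (Nat.pow_le_pow_iff_left (by norm_num)).1 h1
      obtain ⟨L, hLdef⟩ : ∃ L : ℕ, L = max 2 (T / (3 * D)) := ⟨_, rfl⟩
      have hL2 : 2 ≤ L := by rw [hLdef]; exact le_max_left _ _
      have hLb : 3 * L ≤ b := by
        rw [hLdef]
        rcases le_total 2 (T / (3 * D)) with h | h
        · rw [max_eq_right h]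
          have h1 : T / (3 * D) ≤ b / 3 := by
            calc T / (3 * D) ≤ (D * b) / (3 * D) := Nat.div_le_div_right (hMD ▸ hTM)
              _ = b / 3 := by
                  rw [mul_comm 3 D]
                  exact Nat.mul_div_mul_left b 3 (by omega)
          omega
        · rw [max_eq_left h]
          omega
      have hLT : L ≤ 2 * T := by
        rw [hLdef]
        refine max_le (by omega) ?_
        exact (Nat.div_le_self _ _).trans (by omega)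
      have hTL : T ≤ 6 * D * L := by
        have h1 : T / (3 * D) ≤ L := by rw [hLdef]; exact le_max_right _ _
        have h2 := Nat.div_add_mod T (3 * D)
        have h3 := Nat.mod_lt T (by omega : 3 * D > 0)
        have h4 : 3 * D * (T / (3 * D)) ≤ 3 * D * L := Nat.mul_le_mul_left _ h1
        have h5 : 3 * D ≤ 3 * D * L := Nat.le_mul_of_pos_right _ (by omega)
        have h6 : 6 * D * L = 3 * D * L + 3 * D * L := by ring
        omega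
      have g1 : (L : ℝ) ^ 2 * K ≤ c ^ 2 * (M : ℝ) ^ 2 := by
        have h1 : (L : ℝ) ≤ 2 * T := by exact_mod_cast hLT
        have h2 : ((T : ℝ)) ^ 2 * K ≤ (M : ℝ) ^ 2 := by exact_mod_cast hT2
        have h3 : (L : ℝ) ^ 2 ≤ 4 * (T : ℝ) ^ 2 := by
          calc (L : ℝ) ^ 2 ≤ (2 * T) ^ 2 := pow_le_pow_left₀ (Nat.cast_nonneg _) h1 2
            _ = 4 * (T : ℝ) ^ 2 := by ring
        have h4 : (4 : ℝ) ≤ c ^ 2 := by
          rw [hc]
          nlinarith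
        calc (L : ℝ) ^ 2 * K ≤ 4 * (T : ℝ) ^ 2 * K :=
              mul_le_mul_of_nonneg_right h3 (by linarith)
          _ = 4 * ((T : ℝ) ^ 2 * K) := by ring
          _ ≤ 4 * (M : ℝ) ^ 2 := by linarith
          _ ≤ c ^ 2 * (M : ℝ) ^ 2 := mul_le_mul_of_nonneg_right h4 (by positivity)
      have g2 : (M : ℝ) ^ 2 ≤ c ^ 2 * ((L : ℝ) ^ 2 * K) := by
        have h1 : (M : ℝ) ^ 2 ≤ 4 * ((T : ℝ) ^ 2 * K) := by exact_mod_cast hT3
        have h2 : (T : ℝ) ≤ 6 * D * L := by exact_mod_cast hTL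
        have h3 : (T : ℝ) ^ 2 ≤ (6 * D * L) ^ 2 := pow_le_pow_left₀ (Nat.cast_nonneg _) h2 2
        calc (M : ℝ) ^ 2 ≤ 4 * ((T : ℝ) ^ 2 * K) := h1
          _ ≤ 4 * ((6 * D * L) ^ 2 * K) := by
              have := mul_le_mul_of_nonneg_right h3 (by linarith : (0 : ℝ) ≤ K)
              linarith
          _ = c ^ 2 * ((L : ℝ) ^ 2 * K) := by
              rw [hc]
              ring
      refine ⟨L, hL2, hLb, ?_, ?_⟩
      · have h1 : (K : ℝ) * K ≤ (c ^ 2 * (L : ℝ) ^ 2) * K := by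
          calc (K : ℝ) * K ≤ (M : ℝ) * M := mul_le_mul hKMR hKMR (by linarith) (by linarith)
            _ = (M : ℝ) ^ 2 := by ring
            _ ≤ c ^ 2 * ((L : ℝ) ^ 2 * K) := g2
            _ = (c ^ 2 * (L : ℝ) ^ 2) * K := by ring
        exact le_of_mul_le_mul_right h1 (by linarith)
      · have h6 := En_le2 a s c ha (by linarith) hs2 hc1 M L K hM1 hK (by omega) g1 g2 hcase
        have h7 : 0 ≤ 8 * (1 + c) ^ 2 * c ^ 2 *
            ((K : ℝ) ^ (-(3 * s / 2 - 2)) * (M : ℝ) ^ (2 * s)) := by positivity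
        linarith
  obtain ⟨L, hL2, hLb, hKL, hEn⟩ := hch
  have h5 := hsp b L K M (by omega) hMM hK hKM hL2 hLb (h24 L hLb) hKL R hR
  have h7 : (M : ℝ) ^ (2 * s) / K ≤ (K : ℝ) ^ (-(3 * s / 2 - 2)) * (M : ℝ) ^ (2 * s) := by
    rw [div_eq_mul_inv, mul_comm]
    refine mul_le_mul_of_nonneg_right ?_ (by positivity)
    rw [← Real.rpow_neg_one]
    exact Real.rpow_le_rpow_of_exponent_le hKR (by linarith)
  obtain ⟨U, hU⟩ : ∃ U : ℝ, U = (M : ℝ) ^ 2 * (K : ℝ) ^ (3 * s / 2 - 1) := ⟨_, rfl⟩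
  obtain ⟨V, hV⟩ : ∃ V : ℝ, V = (K : ℝ) ^ (-(3 * s / 2 - 2)) * (M : ℝ) ^ (2 * s) := ⟨_, rfl⟩
  have hU0 : 0 ≤ U := by rw [hU]; positivity
  have hV0 : 0 ≤ V := by rw [hV]; positivity
  rw [← hU, ← hV] at hEn ⊢
  rw [← hV] at h7
  obtain ⟨p, hp'⟩ : ∃ p : ℝ, p = 8 * (1 + c) ^ 2 * c ^ 2 := ⟨_, rfl⟩
  obtain ⟨q, hq'⟩ : ∃ q : ℝ, q = 4 * c ^ 4 * (1 + c ^ 2) := ⟨_, rfl⟩
  have hp0 : 0 ≤ p := by rw [hp']; positivity
  have hq0 : 0 ≤ q := by rw [hq']; positivity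
  rw [← hp', ← hq'] at hEn ⊢
  calc ∑ k ∈ R, ‖fh A a r b (k : ℤ)‖ ^ 2 ≤ C1 * (En a s M L K + (M : ℝ) ^ (2 * s) / K) := h5
    _ ≤ C1 * ((p * V + q * U) + V) :=
        mul_le_mul_of_nonneg_left (add_le_add hEn h7) (by linarith)
    _ ≤ C1 * ((p + q + 1) * (U + V)) := by
        refine mul_le_mul_of_nonneg_left ?_ (by linarith)
        have h8 : 0 ≤ p * U := by positivity
        have h9 : 0 ≤ q * V := by positivity
        nlinarith
    _ = C1 * (p + q + 1) * (U + V) := by ring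

end Pool.Agent.LibZE10
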