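import Pool.Agent.LibZE10.X5

set_option autoImplicit false

namespace Pool.Agent.LibZE10

open Pool.Agent.LibNZ69

/-- The sum over the frequencies `2 ^ i₀ ≤ k ≤ M / 2` with a decaying weight. -/
theorem sumA {A : Finset ℕ} {a : ℕ} {s : ℝ} (hp : PB A a s) (r : ℕ) (hr : 3 ≤ r) :
    ∃ C : ℝ, 1 ≤ C ∧ ∀ b i₀ M H : ℕ, 6 ≤ b → M = MM a r b → 1 ≤ H → ∀ ψ : ℕ → ℝ,
      (∀ k, 0 ≤ ψ k) → (∀ k, 1 ≤ k → 2 * k ≤ M → ψ k ≤ 1 ∧ ψ k ≤ (M : ℝ) / (H * k)) →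
        ∑ k ∈ (Finset.range M).filter (fun k => 2 ^ i₀ ≤ k ∧ 2 * k ≤ M),
          ‖fh A a r b (k : ℤ)‖ ^ 2 * ψ k ^ 2 ≤
          C * (((M : ℝ) / H) ^ (3 * s / 2 - 1) * (M : ℝ) ^ 2 * ((Nat.log 2 M : ℝ) + 1) +
            ((2 : ℝ) ^ (-(3 * s / 2 - 2))) ^ i₀ * (M : ℝ) ^ (2 * s)) := by
  obtain ⟨C1, hC1, hbl⟩ := blockA hp r hr
  have hs1 := hp.s1
  have hs2 := hp.s2
  obtain ⟨ρ, hρ⟩ : ∃ ρ : ℝ, ρ = (2 : ℝ) ^ (-(3 * s / 2 - 2)) := ⟨_, rfl⟩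
  have hρ0 : 0 < ρ := by rw [hρ]; positivity
  have hρ1 : ρ < 1 := by
    rw [hρ]
    exact Real.rpow_lt_one_of_one_lt_of_neg (by norm_num) (by linarith)
  rw [← hρ]
  have hD : 0 < 1 - ρ := by linarith
  have hD1 : 1 ≤ 1 / (1 - ρ) := by
    rw [le_div_iff₀ hD]
    linarith
  obtain ⟨e, he⟩ : ∃ e : ℝ, e = 3 * s / 2 - 1 := ⟨_, rfl⟩
  have he0 : 0 < e := by rw [he]; linarith
  have he2 : e ≤ 2 := by rw [he]; linarith
  rw [← he] at hbl ⊢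
  refine ⟨C1 * (1 / (1 - ρ)), by nlinarith, ?_⟩
  intro b i₀ M H hb hMM hH ψ hψ0 hψ
  have hHR : (0 : ℝ) < H := by exact_mod_cast hH
  set S := (Finset.range M).filter (fun k => 2 ^ i₀ ≤ k ∧ 2 * k ≤ M) with hS
  have hSmem : ∀ k ∈ S, k < M ∧ 2 ^ i₀ ≤ k ∧ 2 * k ≤ M := by
    intro k hk
    rw [hS, Finset.mem_filter, Finset.mem_range] at hk
    exact ⟨hk.1, hk.2.1, hk.2.2⟩
  have hk1 : ∀ k ∈ S, 1 ≤ k := fun k hk => le_trans Nat.one_le_two_pow (hSmem k hk).2.1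
  have hmaps : ∀ k ∈ S, Nat.log 2 k ∈ Finset.Ico i₀ (Nat.log 2 M + 1) := by
    intro k hk
    obtain ⟨h1, h2, h3⟩ := hSmem k hk
    rw [Finset.mem_Ico]
    have hk0 : k ≠ 0 := by have := hk1 k hk; omega
    constructor
    · exact (Nat.le_log_iff_pow_le (by norm_num) hk0).2 h2
    · exact Nat.lt_succ_of_le (Nat.log_mono_right h1.le)
  have hblock : ∀ i ∈ Finset.Ico i₀ (Nat.log 2 M + 1),
      ∑ k ∈ S.filter (fun k => Nat.log 2 k = i), ‖fh A a r b (k : ℤ)‖ ^ 2 * ψ k ^ 2 ≤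
        C1 * (((M : ℝ) / H) ^ e * (M : ℝ) ^ 2 + ρ ^ i * (M : ℝ) ^ (2 * s)) := by
    intro i hi
    set F := S.filter (fun k => Nat.log 2 k = i) with hF
    rcases F.eq_empty_or_nonempty with h0 | ⟨k₀, hk₀⟩
    · rw [h0, Finset.sum_empty]
      positivity
    have hFK : ∀ k ∈ F, 2 ^ i ≤ k ∧ k < 2 * 2 ^ i := by
      intro k hk
      rw [hF, Finset.mem_filter] at hk
      have hk0 : k ≠ 0 := by have := hk1 k hk.1; omega
      constructor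
      · rw [← hk.2]
        exact Nat.pow_log_le_self 2 hk0
      · rw [← hk.2, mul_comm, ← pow_succ]
        exact Nat.lt_pow_succ_log_self (by norm_num) k
    have hKM : 2 ^ i ≤ M := by
      have h1 := (hFK k₀ hk₀).1
      have h2 := (hSmem k₀ (Finset.mem_filter.1 hk₀).1).1
      omega
    have h3 := hbl b (2 ^ i) M hb hMM Nat.one_le_two_pow hKM F hFK
    obtain ⟨K, hK⟩ : ∃ K : ℝ, K = (((2 ^ i : ℕ)) : ℝ) := ⟨_, rfl⟩
    have hK1 : 1 ≤ K := by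
      rw [hK]
      exact_mod_cast Nat.one_le_two_pow
    have hK0 : 0 < K := by linarith
    have hKρ : K ^ (-(3 * s / 2 - 2)) = ρ ^ i := by
      rw [hK, hρ]
      push_cast
      rw [← Real.rpow_natCast, ← Real.rpow_natCast, ← Real.rpow_mul (by norm_num),
        ← Real.rpow_mul (by norm_num)]
      congr 1
      ring
    rw [← hK, hKρ] at h3
    obtain ⟨t, ht⟩ : ∃ t : ℝ, t = min 1 ((M : ℝ) / (H * K)) := ⟨_, rfl⟩
    have hM0 : (0 : ℝ) < M := by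
      have : 0 < M := lt_of_lt_of_le (Nat.pos_of_ne_zero (by positivity)) hKM
      exact_mod_cast this
    have ht0 : 0 < t := by
      rw [ht]
      exact lt_min zero_lt_one (by positivity)
    have ht1 : t ≤ 1 := by rw [ht]; exact min_le_left _ _
    have ht2 : t * K ≤ (M : ℝ) / H := by
      have h4 : t ≤ (M : ℝ) / (H * K) := by rw [ht]; exact min_le_right _ _
      calc t * K ≤ (M : ℝ) / (H * K) * K := mul_le_mul_of_nonneg_right h4 hK0.le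
        _ = (M : ℝ) / H := by field_simp
    have hψt : ∀ k ∈ F, ψ k ^ 2 ≤ t ^ 2 := by
      intro k hk
      have hkS := (Finset.mem_filter.1 hk).1
      obtain ⟨e1, e2⟩ := hψ k (hk1 k hkS) (hSmem k hkS).2.2
      refine pow_le_pow_left₀ (hψ0 k) ?_ 2
      rw [ht]
      refine le_min e1 (e2.trans ?_)
      have e3 : K ≤ (k : ℝ) := by
        rw [hK]
        exact_mod_cast (hFK k hk).1
      apply div_le_div_of_nonneg_left (Nat.cast_nonneg _) (by positivity)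
      exact mul_le_mul_of_nonneg_left e3 hHR.le
    have h5 : ∑ k ∈ F, ‖fh A a r b (k : ℤ)‖ ^ 2 * ψ k ^ 2 ≤
        (∑ k ∈ F, ‖fh A a r b (k : ℤ)‖ ^ 2) * t ^ 2 := by
      rw [Finset.sum_mul]
      exact Finset.sum_le_sum fun k hk => mul_le_mul_of_nonneg_left (hψt k hk) (sq_nonneg _)
    have h6 : t ^ 2 * K ^ e ≤ ((M : ℝ) / H) ^ e := by
      have g1 : t ^ 2 ≤ t ^ e := by
        calc t ^ 2 = t ^ (2 : ℝ) := by norm_num
          _ ≤ t ^ e := Real.rpow_le_rpow_of_exponent_ge ht0 ht1 he2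
      calc t ^ 2 * K ^ e ≤ t ^ e * K ^ e := mul_le_mul_of_nonneg_right g1 (by positivity)
        _ = (t * K) ^ e := (Real.mul_rpow ht0.le hK0.le).symm
        _ ≤ ((M : ℝ) / H) ^ e := Real.rpow_le_rpow (by positivity) ht2 he0.le
    have h7 : t ^ 2 ≤ 1 := pow_le_one₀ ht0.le ht1
    calc ∑ k ∈ F, ‖fh A a r b (k : ℤ)‖ ^ 2 * ψ k ^ 2
        ≤ (∑ k ∈ F, ‖fh A a r b (k : ℤ)‖ ^ 2) * t ^ 2 := h5
      _ ≤ (C1 * ((M : ℝ) ^ 2 * K ^ e + ρ ^ i * (M : ℝ) ^ (2 * s))) * t ^ 2 :=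
          mul_le_mul_of_nonneg_right h3 (sq_nonneg _)
      _ = C1 * ((t ^ 2 * K ^ e) * (M : ℝ) ^ 2 + t ^ 2 * (ρ ^ i * (M : ℝ) ^ (2 * s))) := by ring
      _ ≤ C1 * (((M : ℝ) / H) ^ e * (M : ℝ) ^ 2 + 1 * (ρ ^ i * (M : ℝ) ^ (2 * s))) := by
          refine mul_le_mul_of_nonneg_left ?_ (by linarith)
          exact add_le_add (mul_le_mul_of_nonneg_right h6 (by positivity))
            (mul_le_mul_of_nonneg_right h7 (by positivity))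
      _ = C1 * (((M : ℝ) / H) ^ e * (M : ℝ) ^ 2 + ρ ^ i * (M : ℝ) ^ (2 * s)) := by rw [one_mul]
  have hgeom : ∑ i ∈ Finset.Ico i₀ (Nat.log 2 M + 1), ρ ^ i ≤ ρ ^ i₀ / (1 - ρ) :=
    geom_sum_Ico_le_of_lt_one hρ0.le hρ1
  have hcard : (((Finset.Ico i₀ (Nat.log 2 M + 1)).card : ℕ) : ℝ) ≤ (Nat.log 2 M : ℝ) + 1 := by
    rw [Nat.card_Ico]
    exact_mod_cast (by omega : Nat.log 2 M + 1 - i₀ ≤ Nat.log 2 M + 1)
  have hA0 : 0 ≤ ((M : ℝ) / H) ^ e * (M : ℝ) ^ 2 := by positivity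
  calc ∑ k ∈ S, ‖fh A a r b (k : ℤ)‖ ^ 2 * ψ k ^ 2
      = ∑ i ∈ Finset.Ico i₀ (Nat.log 2 M + 1), ∑ k ∈ S.filter (fun k => Nat.log 2 k = i),
          ‖fh A a r b (k : ℤ)‖ ^ 2 * ψ k ^ 2 := (Finset.sum_fiberwise_of_maps_to hmaps _).symm
    _ ≤ ∑ i ∈ Finset.Ico i₀ (Nat.log 2 M + 1),
          C1 * (((M : ℝ) / H) ^ e * (M : ℝ) ^ 2 + ρ ^ i * (M : ℝ) ^ (2 * s)) :=
        Finset.sum_le_sum hblock
    _ = C1 * ((((Finset.Ico i₀ (Nat.log 2 M + 1)).card : ℕ) : ℝ) *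
          (((M : ℝ) / H) ^ e * (M : ℝ) ^ 2) +
          (∑ i ∈ Finset.Ico i₀ (Nat.log 2 M + 1), ρ ^ i) * (M : ℝ) ^ (2 * s)) := by
        rw [← Finset.mul_sum, Finset.sum_add_distrib, Finset.sum_const, nsmul_eq_mul,
          Finset.sum_mul]
    _ ≤ C1 * (((Nat.log 2 M : ℝ) + 1) * (((M : ℝ) / H) ^ e * (M : ℝ) ^ 2) +
          (ρ ^ i₀ / (1 - ρ)) * (M : ℝ) ^ (2 * s)) := by
        refine mul_le_mul_of_nonneg_left ?_ (by linarith)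
        exact add_le_add (mul_le_mul_of_nonneg_right hcard hA0)
          (mul_le_mul_of_nonneg_right hgeom (by positivity))
    _ ≤ C1 * ((1 / (1 - ρ)) * (((Nat.log 2 M : ℝ) + 1) * (((M : ℝ) / H) ^ e * (M : ℝ) ^ 2)) +
          (ρ ^ i₀ / (1 - ρ)) * (M : ℝ) ^ (2 * s)) := by
        refine mul_le_mul_of_nonneg_left ?_ (by linarith)
        have h1 : 0 ≤ ((Nat.log 2 M : ℝ) + 1) * (((M : ℝ) / H) ^ e * (M : ℝ) ^ 2) := by positivity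
        nlinarith
    _ = C1 * (1 / (1 - ρ)) * (((M : ℝ) / H) ^ e * (M : ℝ) ^ 2 * ((Nat.log 2 M : ℝ) + 1) +
            ρ ^ i₀ * (M : ℝ) ^ (2 * s)) := by ring

end Pool.Agent.LibZE10
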