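import Pool.Agent.LibZE10.F1

set_option autoImplicit false

namespace Pool.Agent.LibZE10

open Pool.Agent.LibNZ69

private theorem X7_conj (M : ℕ) (x : ℤ) : (starRingEnd ℂ) (ch M x) = ch M (-x) := by
  unfold ch
  rw [← Complex.exp_conj]
  congr 1
  simp only [map_div₀, map_mul, Complex.conj_ofReal, Complex.conj_I, Complex.conj_natCast,
    map_intCast, map_ofNat]
  push_cast
  ring

theorem norm_fh_symm (A : Finset ℕ) (a r b : ℕ) (hM : 0 < MM a r b) (k : ℤ) :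
    ‖fh A a r b (((MM a r b : ℕ) : ℤ) - k)‖ = ‖fh A a r b k‖ := by
  have h1 : fh A a r b (((MM a r b : ℕ) : ℤ) - k) = (starRingEnd ℂ) (fh A a r b k) := by
    unfold fh
    rw [map_sum]
    refine Finset.sum_congr rfl fun z _ => ?_
    rw [map_mul, X7_conj, Complex.conj_ofReal]
    congr 1
    rw [show ((((MM a r b : ℕ) : ℤ)) - k) * nz z = -(k * nz z) + ((MM a r b : ℕ) : ℤ) * nz z by
      ring, ch_periodic _ hM]
  rw [h1, RCLike.norm_conj]

theorem psi_symm (M H : ℕ) (hM : 0 < M) (k : ℤ) : psi M 1 H ((M : ℤ) - k) = psi M 1 H k := by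
  unfold psi
  congr 1
  refine Finset.sum_bij (fun h _ => -h) ?_ ?_ ?_ ?_
  · intro h hh
    rw [Finset.mem_Icc] at hh ⊢
    constructor <;> linarith [hh.1, hh.2]
  · intro x _ y _ hxy
    simpa using hxy
  · intro h hh
    refine ⟨-h, ?_, by simp⟩
    rw [Finset.mem_Icc] at hh ⊢
    constructor <;> linarith [hh.1, hh.2]
  · intro h _
    have e : (((M : ℤ)) - k) * ((1 : ℕ) * h) = k * ((1 : ℕ) * (-h)) + (M : ℤ) * h := by
      push_cast
      ring
    rw [e, ch_periodic M hM]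

theorem psi_zero (M H : ℕ) : psi M 1 H 0 = 1 := by
  unfold psi
  have hH : (2 * (H : ℂ) + 1) ≠ 0 := by
    have : ((2 * H + 1 : ℕ) : ℂ) ≠ 0 := Nat.cast_ne_zero.mpr (Nat.succ_ne_zero (2 * H))
    push_cast at this
    exact this
  have h1 : ∀ h ∈ Finset.Icc (-(H : ℤ)) H, ch M (0 * (((1 : ℕ) : ℤ) * h)) = 1 := by
    intro h _
    unfold ch
    simp
  rw [Finset.sum_congr rfl h1, Finset.sum_const, nsmul_eq_mul, mul_one, Int.card_Icc]
  have h2 : ((H : ℤ) + 1 - -(H : ℤ)).toNat = 2 * H + 1 := by omega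
  rw [h2]
  push_cast
  exact div_self hH

theorem one_sub_psi_le (M H k : ℕ) (hM : 0 < M) :
    ‖1 - psi M 1 H k‖ ≤ 2 * Real.pi * k * H / M := by
  have h := psi_close M 1 H k k 1 0 hM (dvd_refl 1) le_rfl (by simp)
  refine h.trans (le_of_eq ?_)
  push_cast
  ring

theorem one_sub_psi_le_two (M H : ℕ) (k : ℤ) : ‖1 - psi M 1 H k‖ ≤ 2 := by
  have h1 := norm_psi_le M 1 H k
  have h2 := norm_sub_le (1 : ℂ) (psi M 1 H k)
  rw [norm_one] at h2
  linarith

private theorem X7_ch_eq (M : ℕ) (x : ℤ) :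
    ch M x = Complex.exp (Complex.I * ((2 * Real.pi * x / M : ℝ) : ℂ)) := by
  unfold ch
  congr 1
  push_cast
  ring

private theorem X7_lower (M k : ℕ) (hM : 0 < M) (hk : 2 * k ≤ M) :
    4 * (k : ℝ) / M ≤ ‖ch M (k : ℤ) - 1‖ := by
  have hM' : (0 : ℝ) < M := by exact_mod_cast hM
  have hkR : 2 * (k : ℝ) ≤ M := by exact_mod_cast hk
  rw [X7_ch_eq, Complex.norm_exp_I_mul_ofReal_sub_one, Real.norm_eq_abs, abs_mul,
    abs_of_pos (by norm_num : (0 : ℝ) < 2)]
  have h1 : (2 * Real.pi * ((k : ℤ) : ℝ) / M) / 2 = Real.pi * k / M := by push_cast; ring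
  rw [h1]
  have h6 : 0 ≤ Real.pi * (k : ℝ) / M := by positivity
  have h7 : Real.pi * (k : ℝ) / M ≤ Real.pi / 2 := by
    rw [div_le_iff₀ hM']
    nlinarith [Real.pi_pos]
  have h8 := Real.mul_le_sin h6 h7
  have h9 : 2 / Real.pi * (Real.pi * (k : ℝ) / M) = 2 * (k : ℝ) / M := by
    have := Real.pi_ne_zero
    field_simp
  rw [h9] at h8
  have h10 : 0 ≤ 2 * (k : ℝ) / M := by positivity
  rw [abs_of_nonneg (by linarith)]
  have h11 : 4 * (k : ℝ) / M = 2 * (2 * (k : ℝ) / M) := by ring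
  rw [h11]
  linarith

/-- the decay of the kernel -/
theorem psi_decay (M H k : ℕ) (hH : 1 ≤ H) (hk : 1 ≤ k) (hkM : 2 * k ≤ M) :
    ‖psi M 1 H k‖ ≤ (M : ℝ) / (H * k) := by
  have hM : 0 < M := by omega
  have hMR : (0 : ℝ) < M := by exact_mod_cast hM
  have hHR : (0 : ℝ) < H := by exact_mod_cast hH
  have hkR : (0 : ℝ) < k := by exact_mod_cast hk
  have hpos : (0 : ℝ) < 2 * (H : ℝ) + 1 := by positivity
  have hn : ‖(2 * (H : ℂ) + 1)‖ = 2 * (H : ℝ) + 1 := by
    have : (2 * (H : ℂ) + 1) = ((2 * (H : ℝ) + 1 : ℝ) : ℂ) := by push_cast; rfl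
    rw [this, Complex.norm_real, Real.norm_eq_abs, abs_of_pos hpos]
  set S : ℂ := ∑ h ∈ Finset.Icc (-(H : ℤ)) H, ch M ((k : ℤ) * (((1 : ℕ) : ℤ) * h)) with hS
  have h1 : S = ch M ((k : ℤ) * (-(H : ℤ))) * ∑ j ∈ Finset.range (2 * H + 1),
      (ch M (k : ℤ)) ^ j := by
    rw [hS, Finset.mul_sum]
    symm
    refine Finset.sum_bij (fun (j : ℕ) _ => (j : ℤ) - H) ?_ ?_ ?_ ?_
    · intro j hj
      have := Finset.mem_range.1 hj
      rw [Finset.mem_Icc]
      omega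
    · intro x _ y _ hxy
      omega
    · intro h hh
      rw [Finset.mem_Icc] at hh
      refine ⟨(h + H).toNat, ?_, ?_⟩
      · rw [Finset.mem_range]; omega
      · omega
    · intro j _
      have e : ∀ j : ℕ, (ch M (k : ℤ)) ^ j = ch M ((k : ℤ) * j) := by
        intro j
        induction j with
        | zero => simp [ch]
        | succ n ih =>
          rw [pow_succ, ih, ← ch_add]
          have e0 : (k : ℤ) * ((n + 1 : ℕ) : ℤ) = (k : ℤ) * n + k := by push_cast; ring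
          rw [e0]
      rw [e, ← ch_add]
      congr 1
      push_cast
      ring
  have h2 : ‖S‖ * ‖ch M (k : ℤ) - 1‖ ≤ 2 := by
    rw [h1, norm_mul, norm_ch, one_mul, ← norm_mul, geom_sum_mul]
    refine (norm_sub_le _ _).trans ?_
    rw [norm_pow, norm_ch, one_pow, norm_one]
    norm_num
  have h3 := X7_lower M k hM hkM
  have h4 : ‖S‖ * (4 * (k : ℝ) / M) ≤ 2 :=
    (mul_le_mul_of_nonneg_left h3 (norm_nonneg _)).trans h2
  have h5 : ‖S‖ ≤ M / (2 * k) := by
    rw [le_div_iff₀ (by positivity)]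
    have h6 : ‖S‖ * (4 * (k : ℝ) / M) = (‖S‖ * (4 * k)) / M := by ring
    rw [h6, div_le_iff₀ hMR] at h4
    linarith
  have h7 : psi M 1 H k = S / (2 * (H : ℂ) + 1) := by
    rw [hS]
    unfold psi
    rfl
  rw [h7, norm_div, hn, div_le_div_iff₀ hpos (by positivity)]
  have h8 : ‖S‖ * (2 * k) ≤ M := by
    rwa [le_div_iff₀ (by positivity)] at h5
  have h9 : 0 ≤ ‖S‖ * k := by positivity
  nlinarith [norm_nonneg S]

end Pool.Agent.LibZE10
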