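import Pool.Agent.LibZE10.X6
import Pool.Agent.LibZE10.X7

set_option autoImplicit false

namespace Pool.Agent.LibZE10

open Pool.Agent.LibNZ69

private theorem X8_parseval (A : Finset ℕ) (a r b H H' : ℕ) (hM : 0 < MM a r b) :
    ∑ x ∈ Finset.range (MM a r b), (GG A a r b 1 H x -
      (∑ h ∈ Finset.Icc (-(H' : ℤ)) H', GG A a r b 1 H (x - ((1 : ℕ) : ℤ) * h)) /
        (2 * (H' : ℝ) + 1)) ^ 2 =
      (1 / ((MM a r b : ℕ) : ℝ)) * ∑ k ∈ Finset.range (MM a r b),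
        (‖fh A a r b k‖ ^ 2 * ‖psi (MM a r b) 1 H k‖ ^ 2) * ‖1 - psi (MM a r b) 1 H' k‖ ^ 2 := by
  set Ω : Finset (List ℕ × ℤ) := wP A (NN r b) ×ˢ Finset.Icc (-(H : ℤ)) H with hΩ
  set n : List ℕ × ℤ → ℤ := fun p => nz p.1 + p.2 with hn
  set φ : List ℕ × ℤ → ℝ := fun p => Ph r (4 * b) (nz p.1) / (2 * (H : ℝ) + 1) with hφ
  have hF : ∀ x : ℤ, GG A a r b 1 H x =
      ∑ z ∈ Ω, if ((MM a r b : ℕ) : ℤ) ∣ n z - x then φ z else 0 := by
    intro x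
    rw [hΩ, Finset.sum_product, Finset.sum_comm]
    unfold GG FF
    rw [Finset.sum_div]
    refine Finset.sum_congr rfl fun h _ => ?_
    rw [Finset.sum_div]
    refine Finset.sum_congr rfl fun z _ => ?_
    simp only [hn, hφ]
    have e : nz z - (x - ((1 : ℕ) : ℤ) * h) = nz z + h - x := by push_cast; ring
    rw [e]
    split_ifs
    · rfl
    · exact zero_div _
  have h1 := parseval (MM a r b) hM Ω n φ 1 H' (fun x => GG A a r b 1 H x) hF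
  rw [h1]
  congr 1
  refine Finset.sum_congr rfl fun k _ => ?_
  congr 1
  have h2 : ∑ z ∈ Ω, (φ z : ℂ) * ch (MM a r b) ((k : ℤ) * n z) =
      fh A a r b k * psi (MM a r b) 1 H k := by
    rw [hΩ, Finset.sum_product]
    unfold fh psi
    rw [Finset.sum_mul]
    refine Finset.sum_congr rfl fun z _ => ?_
    rw [← mul_div_assoc, Finset.mul_sum, Finset.sum_div]
    refine Finset.sum_congr rfl fun h _ => ?_
    simp only [hn, hφ]
    have e : (k : ℤ) * (nz z + h) = k * nz z + k * (((1 : ℕ) : ℤ) * h) := by push_cast; ring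
    rw [e, ch_add]
    push_cast
    ring
  rw [h2, norm_mul, mul_pow]

/-- The `L²` bound for the averages over `[-H, H]` and over `[-H, H] + [-H', H']`. -/
theorem l2A {A : Finset ℕ} {a : ℕ} {s : ℝ} (hp : PB A a s) (r : ℕ) (hr : 3 ≤ r) :
    ∃ C : ℝ, 1 ≤ C ∧ ∀ b i₀ M H H' : ℕ, 6 ≤ b → M = MM a r b → 1 ≤ H →
      ∑ x ∈ Finset.range M, (GG A a r b 1 H x -
        (∑ h ∈ Finset.Icc (-(H' : ℤ)) H', GG A a r b 1 H (x - ((1 : ℕ) : ℤ) * h)) /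
          (2 * (H' : ℝ) + 1)) ^ 2 ≤
        C / M * (((H' : ℝ) / M) ^ 2 * 8 ^ i₀ * (M : ℝ) ^ (2 * s) +
          (((M : ℝ) / H) ^ (3 * s / 2 - 1) * (M : ℝ) ^ 2 * ((Nat.log 2 M : ℝ) + 1) +
            ((2 : ℝ) ^ (-(3 * s / 2 - 2))) ^ i₀ * (M : ℝ) ^ (2 * s))) := by
  obtain ⟨C1, hC1, hsum⟩ := sumA hp r hr
  obtain ⟨C2, hC2, hfh⟩ := fh_le hp
  have ha : 1 ≤ a := le_trans (by norm_num) hp.a4
  refine ⟨2 * (C2 ^ 2 * 40 + 4 * C1), by nlinarith, ?_⟩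
  intro b i₀ M H H' hb hMM hH
  have hM0 : 0 < MM a r b := by
    unfold MM
    positivity
  have hpar := X8_parseval A a r b H H' hM0
  rw [← hMM] at hpar hM0
  rw [hpar]
  have hMR : (0 : ℝ) < M := by exact_mod_cast hM0
  have hMs : (M : ℝ) ^ (2 * s) = ((M : ℝ) ^ s) ^ 2 := by
    rw [mul_comm, Real.rpow_mul (Nat.cast_nonneg _)]
    norm_num
  set T : ℕ → ℝ := fun k => (‖fh A a r b (k : ℤ)‖ ^ 2 * ‖psi M 1 H (k : ℤ)‖ ^ 2) *
    ‖1 - psi M 1 H' (k : ℤ)‖ ^ 2 with hT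
  have hT0 : ∀ k, 0 ≤ T k := fun k => by simp only [hT]; positivity
  set S := (Finset.range M).filter (fun k => 2 * k ≤ M) with hS
  have hsplit : ∑ k ∈ Finset.range M, T k ≤ 2 * ∑ k ∈ S, T k := by
    rw [← Finset.sum_filter_add_sum_filter_not (Finset.range M) (fun k => 2 * k ≤ M)]
    have h1 : ∑ k ∈ (Finset.range M).filter (fun k => ¬ 2 * k ≤ M), T k ≤ ∑ k ∈ S, T k := by
      have hinj : Set.InjOn (fun k => M - k)
          ((Finset.range M).filter (fun k => ¬ 2 * k ≤ M) : Set ℕ) := by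
        intro x hx y hy hxy
        rw [Finset.mem_coe, Finset.mem_filter, Finset.mem_range] at hx hy
        simp only at hxy
        omega
      have h2 : ∑ k ∈ (Finset.range M).filter (fun k => ¬ 2 * k ≤ M), T k =
          ∑ k ∈ ((Finset.range M).filter (fun k => ¬ 2 * k ≤ M)).image (fun k => M - k), T k := by
        rw [Finset.sum_image hinj]
        refine Finset.sum_congr rfl fun k hk => ?_
        rw [Finset.mem_filter, Finset.mem_range] at hk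
        simp only [hT]
        have e : ((M - k : ℕ) : ℤ) = (M : ℤ) - k := by
          rw [Nat.cast_sub hk.1.le]
        rw [e, psi_symm M H hM0, psi_symm M H' hM0]
        have e2 := norm_fh_symm A a r b (hMM ▸ hM0) (k : ℤ)
        rw [← hMM] at e2
        rw [e2]
      rw [h2]
      refine Finset.sum_le_sum_of_subset_of_nonneg ?_ (fun k _ _ => hT0 k)
      intro x hx
      obtain ⟨k, hk, rfl⟩ := Finset.mem_image.1 hx
      rw [Finset.mem_filter, Finset.mem_range] at hk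
      rw [hS, Finset.mem_filter, Finset.mem_range]
      omega
    have h3 : ∑ k ∈ (Finset.range M).filter (fun k => 2 * k ≤ M), T k = ∑ k ∈ S, T k := by
      rw [hS]
    linarith
  have hsmall : ∑ k ∈ S.filter (fun k => ¬ 2 ^ i₀ ≤ k), T k ≤
      C2 ^ 2 * 40 * (((H' : ℝ) / M) ^ 2 * 8 ^ i₀ * (M : ℝ) ^ (2 * s)) := by
    have h1 : ∀ k ∈ S.filter (fun k => ¬ 2 ^ i₀ ≤ k), T k ≤
        C2 ^ 2 * (M : ℝ) ^ (2 * s) * (40 * (4 ^ i₀ * ((H' : ℝ) / M) ^ 2)) := by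
      intro k hk
      rw [Finset.mem_filter, not_le] at hk
      have hk2 : (k : ℝ) ≤ 2 ^ i₀ := by exact_mod_cast hk.2.le
      simp only [hT]
      have e1 : ‖fh A a r b (k : ℤ)‖ ^ 2 * ‖psi M 1 H (k : ℤ)‖ ^ 2 ≤
          C2 ^ 2 * (M : ℝ) ^ (2 * s) := by
        have e2 := hfh r b (k : ℤ)
        rw [← hMM] at e2
        have e3 : ‖fh A a r b (k : ℤ)‖ ^ 2 ≤ (C2 * (M : ℝ) ^ s) ^ 2 :=
          pow_le_pow_left₀ (norm_nonneg _) e2 2
        have e4 : ‖psi M 1 H (k : ℤ)‖ ^ 2 ≤ 1 :=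
          pow_le_one₀ (norm_nonneg _) (norm_psi_le M 1 H k)
        calc ‖fh A a r b (k : ℤ)‖ ^ 2 * ‖psi M 1 H (k : ℤ)‖ ^ 2
            ≤ (C2 * (M : ℝ) ^ s) ^ 2 * 1 := mul_le_mul e3 e4 (sq_nonneg _) (sq_nonneg _)
          _ = C2 ^ 2 * (M : ℝ) ^ (2 * s) := by rw [hMs]; ring
      have e5 : ‖1 - psi M 1 H' (k : ℤ)‖ ^ 2 ≤ 40 * (4 ^ i₀ * ((H' : ℝ) / M) ^ 2) := by
        have e6 := one_sub_psi_le M H' k hM0
        have e7 : 2 * Real.pi * k * H' / M ≤ 2 * Real.pi * (2 ^ i₀ * ((H' : ℝ) / M)) := by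
          have : 2 * Real.pi * (k : ℝ) * H' / M = 2 * Real.pi * (k * ((H' : ℝ) / M)) := by ring
          rw [this]
          refine mul_le_mul_of_nonneg_left ?_ (by positivity)
          exact mul_le_mul_of_nonneg_right hk2 (by positivity)
        calc ‖1 - psi M 1 H' (k : ℤ)‖ ^ 2 ≤ (2 * Real.pi * (2 ^ i₀ * ((H' : ℝ) / M))) ^ 2 :=
              pow_le_pow_left₀ (norm_nonneg _) (e6.trans e7) 2
          _ = (4 * Real.pi ^ 2) * (4 ^ i₀ * ((H' : ℝ) / M) ^ 2) := by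
              have : (4 : ℝ) ^ i₀ = (2 ^ i₀) ^ 2 := by
                rw [← pow_mul, mul_comm, pow_mul]
                norm_num
              rw [this]
              ring
          _ ≤ 40 * (4 ^ i₀ * ((H' : ℝ) / M) ^ 2) := by
              refine mul_le_mul_of_nonneg_right ?_ (by positivity)
              have := Real.pi_lt_d2
              have h0 := Real.pi_pos
              nlinarith
      exact mul_le_mul e1 e5 (sq_nonneg _) (by positivity)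
    have hcard : ((S.filter (fun k => ¬ 2 ^ i₀ ≤ k)).card : ℝ) ≤ 2 ^ i₀ := by
      have h2 : S.filter (fun k => ¬ 2 ^ i₀ ≤ k) ⊆ Finset.range (2 ^ i₀) := by
        intro k hk
        rw [Finset.mem_filter, not_le] at hk
        exact Finset.mem_range.2 hk.2
      have h3 := Finset.card_le_card h2
      rw [Finset.card_range] at h3
      exact_mod_cast h3
    calc ∑ k ∈ S.filter (fun k => ¬ 2 ^ i₀ ≤ k), T k
        ≤ ∑ k ∈ S.filter (fun k => ¬ 2 ^ i₀ ≤ k),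
            C2 ^ 2 * (M : ℝ) ^ (2 * s) * (40 * (4 ^ i₀ * ((H' : ℝ) / M) ^ 2)) :=
          Finset.sum_le_sum h1
      _ = ((S.filter (fun k => ¬ 2 ^ i₀ ≤ k)).card : ℝ) *
            (C2 ^ 2 * (M : ℝ) ^ (2 * s) * (40 * (4 ^ i₀ * ((H' : ℝ) / M) ^ 2))) := by
          rw [Finset.sum_const, nsmul_eq_mul]
      _ ≤ 2 ^ i₀ * (C2 ^ 2 * (M : ℝ) ^ (2 * s) * (40 * (4 ^ i₀ * ((H' : ℝ) / M) ^ 2))) :=
          mul_le_mul_of_nonneg_right hcard (by positivity)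
      _ = C2 ^ 2 * 40 * (((H' : ℝ) / M) ^ 2 * (2 ^ i₀ * 4 ^ i₀) * (M : ℝ) ^ (2 * s)) := by ring
      _ = C2 ^ 2 * 40 * (((H' : ℝ) / M) ^ 2 * 8 ^ i₀ * (M : ℝ) ^ (2 * s)) := by
          rw [← mul_pow]
          norm_num
  have hlarge : ∑ k ∈ S.filter (fun k => 2 ^ i₀ ≤ k), T k ≤
      4 * (C1 * (((M : ℝ) / H) ^ (3 * s / 2 - 1) * (M : ℝ) ^ 2 * ((Nat.log 2 M : ℝ) + 1) +
            ((2 : ℝ) ^ (-(3 * s / 2 - 2))) ^ i₀ * (M : ℝ) ^ (2 * s))) := by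
    have h1 := hsum b i₀ M H hb hMM hH (fun k => ‖psi M 1 H (k : ℤ)‖) (fun k => norm_nonneg _)
      (fun k hk hkM => ⟨norm_psi_le M 1 H k, psi_decay M H k hH hk hkM⟩)
    have h2 : S.filter (fun k => 2 ^ i₀ ≤ k) =
        (Finset.range M).filter (fun k => 2 ^ i₀ ≤ k ∧ 2 * k ≤ M) := by
      ext k
      simp only [hS, Finset.mem_filter, Finset.mem_range]
      tauto
    rw [h2]
    refine le_trans ?_ (mul_le_mul_of_nonneg_left h1 (by norm_num))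
    rw [Finset.mul_sum]
    refine Finset.sum_le_sum fun k _ => ?_
    simp only [hT]
    have e1 : ‖1 - psi M 1 H' (k : ℤ)‖ ^ 2 ≤ 4 := by
      calc ‖1 - psi M 1 H' (k : ℤ)‖ ^ 2 ≤ 2 ^ 2 :=
            pow_le_pow_left₀ (norm_nonneg _) (one_sub_psi_le_two M H' k) 2
        _ = 4 := by norm_num
    have e2 : 0 ≤ ‖fh A a r b (k : ℤ)‖ ^ 2 * ‖psi M 1 H (k : ℤ)‖ ^ 2 := by positivity
    nlinarith
  have htot : ∑ k ∈ S, T k ≤ (C2 ^ 2 * 40 + 4 * C1) *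
      (((H' : ℝ) / M) ^ 2 * 8 ^ i₀ * (M : ℝ) ^ (2 * s) +
          (((M : ℝ) / H) ^ (3 * s / 2 - 1) * (M : ℝ) ^ 2 * ((Nat.log 2 M : ℝ) + 1) +
            ((2 : ℝ) ^ (-(3 * s / 2 - 2))) ^ i₀ * (M : ℝ) ^ (2 * s))) := by
    rw [← Finset.sum_filter_add_sum_filter_not S (fun k => 2 ^ i₀ ≤ k)]
    have hX : 0 ≤ ((H' : ℝ) / M) ^ 2 * 8 ^ i₀ * (M : ℝ) ^ (2 * s) := by positivity
    have hY : 0 ≤ (((M : ℝ) / H) ^ (3 * s / 2 - 1) * (M : ℝ) ^ 2 * ((Nat.log 2 M : ℝ) + 1) +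
            ((2 : ℝ) ^ (-(3 * s / 2 - 2))) ^ i₀ * (M : ℝ) ^ (2 * s)) := by positivity
    have h1 : 0 ≤ C1 * (((H' : ℝ) / M) ^ 2 * 8 ^ i₀ * (M : ℝ) ^ (2 * s)) := by positivity
    have h2 : 0 ≤ C2 ^ 2 * (((M : ℝ) / H) ^ (3 * s / 2 - 1) * (M : ℝ) ^ 2 * ((Nat.log 2 M : ℝ) + 1) +
            ((2 : ℝ) ^ (-(3 * s / 2 - 2))) ^ i₀ * (M : ℝ) ^ (2 * s)) := by positivity
    nlinarith
  have hfin : ∑ k ∈ Finset.range M, T k ≤ 2 * ((C2 ^ 2 * 40 + 4 * C1) *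
      (((H' : ℝ) / M) ^ 2 * 8 ^ i₀ * (M : ℝ) ^ (2 * s) +
          (((M : ℝ) / H) ^ (3 * s / 2 - 1) * (M : ℝ) ^ 2 * ((Nat.log 2 M : ℝ) + 1) +
            ((2 : ℝ) ^ (-(3 * s / 2 - 2))) ^ i₀ * (M : ℝ) ^ (2 * s)))) := by linarith
  calc (1 / (M : ℝ)) * ∑ k ∈ Finset.range M, T k
      ≤ (1 / (M : ℝ)) * (2 * ((C2 ^ 2 * 40 + 4 * C1) *
      (((H' : ℝ) / M) ^ 2 * 8 ^ i₀ * (M : ℝ) ^ (2 * s) +
          (((M : ℝ) / H) ^ (3 * s / 2 - 1) * (M : ℝ) ^ 2 * ((Nat.log 2 M : ℝ) + 1) +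
            ((2 : ℝ) ^ (-(3 * s / 2 - 2))) ^ i₀ * (M : ℝ) ^ (2 * s))))) :=
        mul_le_mul_of_nonneg_left hfin (by positivity)
    _ = _ := by ring

end Pool.Agent.LibZE10
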