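import Pool.Agent.LibZE10.F1
import Pool.Agent.LibZE10.E2
import Pool.Agent.LibZE10.G9

set_option autoImplicit false

namespace Pool.Agent.LibZE10

open Pool.Agent.LibNZ69

theorem FF_nonneg (A : Finset ℕ) (a r b : ℕ) (x : ℤ) : 0 ≤ FF A a r b x := by
  unfold FF
  refine Finset.sum_nonneg fun z _ => ?_
  split_ifs
  · exact Ph_nonneg _ _ _
  · exact le_refl _

/-- the average of the average over `[-H', H']` -/
theorem GG_avg (A : Finset ℕ) (a r b H H' H'' : ℕ) (hH : H + H'' ≤ H') (x : ℤ) :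
    ∑ y ∈ Finset.Icc (-(H'' : ℤ)) H'', FF A a r b (x - y) ≤
      ∑ h ∈ Finset.Icc (-(H' : ℤ)) H', GG A a r b 1 H (x - ((1 : ℕ) : ℤ) * h) := by
  have hpos : (0 : ℝ) < 2 * (H : ℝ) + 1 := by positivity
  unfold GG
  rw [← Finset.sum_div, le_div_iff₀ hpos, Finset.sum_comm]
  have h1 : ∀ g ∈ Finset.Icc (-(H : ℤ)) H, ∑ y ∈ Finset.Icc (-(H'' : ℤ)) H'', FF A a r b (x - y) ≤
      ∑ h ∈ Finset.Icc (-(H' : ℤ)) H',
        FF A a r b (x - ((1 : ℕ) : ℤ) * h - ((1 : ℕ) : ℤ) * g) := by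
    intro g hg
    rw [Finset.mem_Icc] at hg
    have hinj : Set.InjOn (fun y : ℤ => y - g) (Finset.Icc (-(H'' : ℤ)) H'' : Set ℤ) := by
      intro u _ v _ huv
      simpa using huv
    have h2 : ∑ y ∈ Finset.Icc (-(H'' : ℤ)) H'', FF A a r b (x - y) =
        ∑ h ∈ (Finset.Icc (-(H'' : ℤ)) H'').image (fun y : ℤ => y - g),
          FF A a r b (x - ((1 : ℕ) : ℤ) * h - ((1 : ℕ) : ℤ) * g) := by
      rw [Finset.sum_image hinj]
      refine Finset.sum_congr rfl fun y _ => ?_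
      congr 1
      push_cast
      ring
    rw [h2]
    refine Finset.sum_le_sum_of_subset_of_nonneg ?_ (fun _ _ _ => FF_nonneg _ _ _ _ _)
    intro u hu
    obtain ⟨y, hy, rfl⟩ := Finset.mem_image.1 hu
    rw [Finset.mem_Icc] at hy ⊢
    constructor
    · have : (H : ℤ) + H'' ≤ H' := by exact_mod_cast hH
      linarith [hg.1, hg.2, hy.1, hy.2]
    · have : (H : ℤ) + H'' ≤ H' := by exact_mod_cast hH
      linarith [hg.1, hg.2, hy.1, hy.2]
  have hcard : (((Finset.Icc (-(H : ℤ)) H).card : ℕ) : ℝ) = 2 * (H : ℝ) + 1 := by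
    rw [Int.card_Icc]
    have h2 : ((H : ℤ) + 1 - -(H : ℤ)).toNat = 2 * H + 1 := by omega
    rw [h2]
    push_cast
    ring
  calc (∑ y ∈ Finset.Icc (-(H'' : ℤ)) H'', FF A a r b (x - y)) * (2 * (H : ℝ) + 1)
      = ∑ g ∈ Finset.Icc (-(H : ℤ)) H, ∑ y ∈ Finset.Icc (-(H'' : ℤ)) H'', FF A a r b (x - y) := by
        rw [Finset.sum_const, nsmul_eq_mul, hcard, mul_comm]
    _ ≤ _ := Finset.sum_le_sum h1

/-- lower bound for the sum over an interval by the number of the words -/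
theorem FF_sum_lower (A : Finset ℕ) (a r b H'' x : ℕ) (hr : 3 ≤ r) (hb : 1 ≤ b) (κ : ℝ)
    (hκH : κ * x ≤ H'') (hκb : κ * x ≤ b) (hx1 : (5 + r) * b ≤ x) (hx2 : x < 2 * ((5 + r) * b)) :
    ((1 : ℝ) / 4) ^ r * (((wP A x).filter (fun z => |((nz z : ℤ) : ℝ) - x| ≤ κ * x)).card : ℝ) ≤
      ∑ y ∈ Finset.Icc (-(H'' : ℤ)) H'', FF A a r b ((x : ℤ) - y) := by
  set Zs := (wP A x).filter (fun z => |((nz z : ℤ) : ℝ) - x| ≤ κ * x) with hZs
  have hsub : Zs ⊆ wP A (NN r b) := by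
    intro z hz
    have h1 := (Finset.mem_filter.1 hz).1
    unfold wP at h1 ⊢
    rw [Finset.mem_filter, Finset.mem_biUnion] at h1 ⊢
    obtain ⟨⟨n, hn, hz⟩, hk⟩ := h1
    have hxN : x ≤ NN r b := by
      unfold NN
      nlinarith
    rw [Finset.mem_range] at hn
    exact ⟨⟨n, Finset.mem_range.2 (by omega), hz⟩, hk.trans hxN⟩
  have hFF : ∀ y : ℤ, ∑ z ∈ Zs, (if nz z = (x : ℤ) - y then Ph r (4 * b) (nz z) else 0) ≤
      FF A a r b ((x : ℤ) - y) := by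
    intro y
    unfold FF
    refine le_trans (Finset.sum_le_sum fun z _ => ?_)
      (Finset.sum_le_sum_of_subset_of_nonneg hsub fun z _ _ => ?_)
    · by_cases h1 : nz z = (x : ℤ) - y
      · rw [if_pos h1, if_pos (by rw [h1, sub_self]; exact dvd_zero _)]
      · rw [if_neg h1]
        split_ifs
        · exact Ph_nonneg _ _ _
        · exact le_refl _
    · split_ifs
      · exact Ph_nonneg _ _ _
      · exact le_refl _
  have h1 : ∀ z ∈ Zs, ((1 : ℝ) / 4) ^ r ≤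
      ∑ y ∈ Finset.Icc (-(H'' : ℤ)) H'',
        (if nz z = (x : ℤ) - y then Ph r (4 * b) (nz z) else 0) := by
    intro z hz
    have hz2 : |((nz z : ℤ) : ℝ) - x| ≤ κ * x := (Finset.mem_filter.1 hz).2
    have hz3 : |((nz z : ℤ) : ℝ) - x| ≤ H'' := hz2.trans hκH
    have hz4 : |((nz z : ℤ) : ℝ) - x| ≤ b := hz2.trans hκb
    have hz5 : |nz z - (x : ℤ)| ≤ (H'' : ℤ) := by
      have : ((|nz z - (x : ℤ)| : ℤ) : ℝ) ≤ ((H'' : ℤ) : ℝ) := by
        push_cast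
        exact hz3
      exact_mod_cast this
    have hz6 : |nz z - (x : ℤ)| ≤ (b : ℤ) := by
      have : ((|nz z - (x : ℤ)| : ℤ) : ℝ) ≤ ((b : ℤ) : ℝ) := by
        push_cast
        exact hz4
      exact_mod_cast this
    rw [abs_le] at hz5 hz6
    have hmid : ((1 : ℝ) / 4) ^ r ≤ Ph r (4 * b) (nz z) := by
      refine Ph_middle r b hb (nz z) ?_ ?_
      · have e1 : (5 + (r : ℤ)) * b ≤ x := by exact_mod_cast hx1
        have e2 : (5 + (r : ℤ)) * b = (4 + (r : ℤ)) * b + b := by ring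
        linarith [hz6.1]
      · have e1 : (x : ℤ) < 2 * ((5 + (r : ℤ)) * b) := by exact_mod_cast hx2
        have e2 : 2 * ((5 + (r : ℤ)) * b) + b ≤ (8 + 3 * (r : ℤ)) * b := by
          have e3 : (3 : ℤ) ≤ r := by exact_mod_cast hr
          have e4 : (0 : ℤ) ≤ b := Int.natCast_nonneg b
          nlinarith
        linarith [hz6.2]
    have hmem : (x : ℤ) - nz z ∈ Finset.Icc (-(H'' : ℤ)) H'' := by
      rw [Finset.mem_Icc]
      constructor <;> linarith [hz5.1, hz5.2]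
    refine hmid.trans ?_
    have h2 := Finset.single_le_sum (f := fun y : ℤ =>
      (if nz z = (x : ℤ) - y then Ph r (4 * b) (nz z) else 0))
      (fun y _ => by
        split_ifs
        · exact Ph_nonneg _ _ _
        · exact le_refl _) hmem
    refine le_trans (le_of_eq ?_) h2
    rw [if_pos (by ring)]
  calc ((1 : ℝ) / 4) ^ r * (Zs.card : ℝ) = ∑ z ∈ Zs, ((1 : ℝ) / 4) ^ r := by
        rw [Finset.sum_const, nsmul_eq_mul, mul_comm]
    _ ≤ ∑ z ∈ Zs, ∑ y ∈ Finset.Icc (-(H'' : ℤ)) H'',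
        (if nz z = (x : ℤ) - y then Ph r (4 * b) (nz z) else 0) := Finset.sum_le_sum h1
    _ = ∑ y ∈ Finset.Icc (-(H'' : ℤ)) H'', ∑ z ∈ Zs,
        (if nz z = (x : ℤ) - y then Ph r (4 * b) (nz z) else 0) := Finset.sum_comm
    _ ≤ _ := Finset.sum_le_sum fun y _ => hFF y

/-- the lower bound for the long average -/
theorem avg_lower {A : Finset ℕ} {a : ℕ} {s : ℝ} (hp : PB A a s) (r : ℕ) (hr : 3 ≤ r) :
    ∃ c : ℝ, 0 < c ∧ ∀ κ : ℝ, 0 < κ → κ * (5 + r) ≤ 1 → ∃ b₀ : ℕ, ∀ b M H H' : ℕ, b₀ ≤ b →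
      M = MM a r b → H' = ⌊κ * M⌋₊ → 4 * H ≤ H' → ∀ x : ℕ, (5 + r) * b ≤ x →
        x < 2 * ((5 + r) * b) →
        c * (M : ℝ) ^ (s - 1) * ((x.totient : ℝ) / x) ≤
          (∑ h ∈ Finset.Icc (-(H' : ℤ)) H', GG A a r b 1 H ((x : ℤ) - ((1 : ℕ) : ℤ) * h)) /
            (2 * (H' : ℝ) + 1) := by
  obtain ⟨c₁, hc₁, hloc⟩ := local_lower hp
  have ha4 := hp.a4
  have haR : (1 : ℝ) ≤ a := by exact_mod_cast (by omega : 1 ≤ a)
  have hrR : (3 : ℝ) ≤ r := by exact_mod_cast hr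
  have hs1 := hp.s1
  have hs2 := hp.s2
  have hP : 0 < ((1 : ℝ) / 4) ^ r := by positivity
  refine ⟨((1 : ℝ) / 4) ^ r * c₁ / (6 * (20 * a) ^ 2), by positivity, ?_⟩
  intro κ hκ hκr
  have hκ1 : κ ≤ 1 := by nlinarith
  obtain ⟨n₀, hn₀⟩ := hloc 1 le_rfl (κ / 2) (by linarith) (by linarith)
  refine ⟨max (max 1 n₀) ⌈8 / κ⌉₊, ?_⟩
  intro b M H H' hb hMM hH' hH x hx1 hx2
  have hb1 : 1 ≤ b := le_trans (le_trans (le_max_left _ _) (le_max_left _ _)) hb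
  have hbn : n₀ ≤ b := le_trans (le_trans (le_max_right _ _) (le_max_left _ _)) hb
  have hbκ : 8 / κ ≤ b := by
    have h1 : ⌈8 / κ⌉₊ ≤ b := le_trans (le_max_right _ _) hb
    exact (Nat.le_ceil _).trans (by exact_mod_cast h1)
  have hbR : (1 : ℝ) ≤ b := by exact_mod_cast hb1
  have hMb : (M : ℝ) = 20 * a * (r + 3) * b := by
    rw [hMM]
    unfold MM
    push_cast
    ring
  have hMbig : (b : ℝ) ≤ M := by
    rw [hMb]
    have : (1 : ℝ) ≤ 20 * a * (r + 3) := by nlinarith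
    nlinarith
  have hM0 : (0 : ℝ) < M := by linarith
  have hκM : 8 ≤ κ * M := by
    rw [div_le_iff₀ hκ] at hbκ
    nlinarith
  have hH'1 : (H' : ℝ) ≤ κ * M := by
    rw [hH']
    exact Nat.floor_le (by positivity)
  have hH'2 : κ * M - 1 < H' := by
    rw [hH']
    exact Nat.sub_one_lt_floor _
  have hx1R : (5 + (r : ℝ)) * b ≤ x := by exact_mod_cast hx1
  have hx2R : (x : ℝ) ≤ 2 * ((5 + (r : ℝ)) * b) := by exact_mod_cast hx2.le
  have hx0 : (0 : ℝ) < x := by nlinarith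
  have hxM : (x : ℝ) ≤ M := by
    rw [hMb]
    have h1 : 2 * (5 + (r : ℝ)) ≤ 20 * a * (r + 3) := by nlinarith
    nlinarith
  set H'' := H' - H with hH''
  have hHR : 4 * (H : ℝ) ≤ H' := by exact_mod_cast hH
  have hHle : H ≤ H' := by omega
  have hH''R : (H'' : ℝ) = H' - H := by
    rw [hH'', Nat.cast_sub hHle]
  have hκH : κ / 2 * x ≤ H'' := by
    rw [hH''R]
    have h1 : κ / 2 * x ≤ κ / 2 * M := mul_le_mul_of_nonneg_left hxM (by linarith)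
    nlinarith
  have hκb : κ / 2 * x ≤ b := by
    calc κ / 2 * x ≤ κ / 2 * (2 * ((5 + (r : ℝ)) * b)) :=
          mul_le_mul_of_nonneg_left hx2R (by linarith)
      _ = (κ * (5 + r)) * b := by ring
      _ ≤ 1 * b := mul_le_mul_of_nonneg_right hκr (by linarith)
      _ = b := one_mul _
  have h1 := FF_sum_lower A a r b H'' x hr hb1 (κ / 2) hκH hκb hx1 hx2
  have h2 := GG_avg A a r b H H' H'' (by omega) (x : ℤ)
  have hxn : n₀ ≤ x := by
    have h3 : (5 + r) * b ≥ b := Nat.le_mul_of_pos_left b (by omega)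
    omega
  have h3 := hn₀ x hxn
  have h4 : (((wP A x).filter (fun z => |((nz z : ℤ) : ℝ) - x| ≤ κ / 2 * x ∧
      (((1 : ℕ)) : ℤ) ∣ nz z - (x : ℤ))).card : ℝ) ≤
      (((wP A x).filter (fun z => |((nz z : ℤ) : ℝ) - x| ≤ κ / 2 * x)).card : ℝ) := by
    exact_mod_cast Finset.card_le_card (fun z hz => by
      rw [Finset.mem_filter] at hz ⊢
      exact ⟨hz.1, hz.2.1⟩)
  have h5 : c₁ * (κ / 2) * (x : ℝ) ^ s * ((x.totient : ℝ) / x) ≤
      (((wP A x).filter (fun z => |((nz z : ℤ) : ℝ) - x| ≤ κ / 2 * x)).card : ℝ) := by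
    refine le_trans ?_ (h3.trans h4)
    rw [Nat.cast_one, div_one]
  have hden : 0 < 2 * (H' : ℝ) + 1 := by positivity
  rw [le_div_iff₀ hden]
  have hden2 : 2 * (H' : ℝ) + 1 ≤ 3 * (κ * M) := by linarith
  have hφ : 0 ≤ (x.totient : ℝ) / x := by positivity
  have hMs : (M : ℝ) ^ (s - 1) * M = (M : ℝ) ^ s := by
    rw [← Real.rpow_add_one hM0.ne']
    congr 1
    ring
  have hxs : (M : ℝ) ^ s ≤ (20 * a) ^ 2 * (x : ℝ) ^ s := by
    have h6 : (M : ℝ) ≤ 20 * a * x := by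
      rw [hMb]
      have h7 : ((r : ℝ) + 3) * b ≤ x := by nlinarith
      nlinarith
    have h20 : (1 : ℝ) ≤ 20 * a := by linarith
    calc (M : ℝ) ^ s ≤ (20 * a * x) ^ s := Real.rpow_le_rpow hM0.le h6 (by linarith)
      _ = (20 * (a : ℝ)) ^ s * (x : ℝ) ^ s := Real.mul_rpow (by positivity) hx0.le
      _ ≤ (20 * (a : ℝ)) ^ (2 : ℝ) * (x : ℝ) ^ s := by
          refine mul_le_mul_of_nonneg_right ?_ (by positivity)
          exact Real.rpow_le_rpow_of_exponent_le h20 hs2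
      _ = (20 * a) ^ 2 * (x : ℝ) ^ s := by norm_num
  calc ((1 : ℝ) / 4) ^ r * c₁ / (6 * (20 * a) ^ 2) * (M : ℝ) ^ (s - 1) *
        ((x.totient : ℝ) / x) * (2 * (H' : ℝ) + 1)
      ≤ ((1 : ℝ) / 4) ^ r * c₁ / (6 * (20 * a) ^ 2) * (M : ℝ) ^ (s - 1) *
        ((x.totient : ℝ) / x) * (3 * (κ * M)) :=
        mul_le_mul_of_nonneg_left hden2 (by positivity)
    _ = ((1 : ℝ) / 4) ^ r * c₁ * κ / (2 * (20 * a) ^ 2) * ((M : ℝ) ^ (s - 1) * M) *
        ((x.totient : ℝ) / x) := by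
        field_simp
        ring
    _ = ((1 : ℝ) / 4) ^ r * c₁ * κ / (2 * (20 * a) ^ 2) * (M : ℝ) ^ s *
        ((x.totient : ℝ) / x) := by rw [hMs]
    _ ≤ ((1 : ℝ) / 4) ^ r * c₁ * κ / (2 * (20 * a) ^ 2) * ((20 * a) ^ 2 * (x : ℝ) ^ s) *
        ((x.totient : ℝ) / x) := by
        refine mul_le_mul_of_nonneg_right (mul_le_mul_of_nonneg_left hxs (by positivity)) hφ
    _ = ((1 : ℝ) / 4) ^ r * (c₁ * (κ / 2) * (x : ℝ) ^ s * ((x.totient : ℝ) / x)) := by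
        field_simp
    _ ≤ ((1 : ℝ) / 4) ^ r *
        (((wP A x).filter (fun z => |((nz z : ℤ) : ℝ) - x| ≤ κ / 2 * x)).card : ℝ) :=
        mul_le_mul_of_nonneg_left h5 hP.le
    _ ≤ ∑ y ∈ Finset.Icc (-(H'' : ℤ)) H'', FF A a r b ((x : ℤ) - y) := h1
    _ ≤ ∑ h ∈ Finset.Icc (-(H' : ℤ)) H', GG A a r b 1 H ((x : ℤ) - ((1 : ℕ) : ℤ) * h) := h2

end Pool.Agent.LibZE10
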