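import Mathlib

set_option autoImplicit false

namespace Pool.Agent.LibZE10

open Filter Topology

theorem asym1 (θ κ : ℝ) (hθ : θ < 1) (hκ : 0 < κ) :
    ∀ᶠ y : ℝ in atTop, 4 * (y ^ θ + 1) ≤ κ * y - 1 := by
  have h1 : ∀ᶠ y : ℝ in atTop, y ^ (-(1 - θ)) < κ / 8 :=
    (tendsto_rpow_neg_atTop (by linarith : (0 : ℝ) < 1 - θ)).eventually
      (gt_mem_nhds (by positivity))
  filter_upwards [h1, eventually_ge_atTop (10 / κ), eventually_gt_atTop 0] with y h2 h3 h4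
  have h5 : y ^ θ = y * y ^ (-(1 - θ)) := by
    have e : y ^ θ = y ^ (1 + -(1 - θ)) := by congr 1; ring
    rw [e, Real.rpow_add h4, Real.rpow_one]
  rw [div_le_iff₀ hκ] at h3
  have h6 : y * y ^ (-(1 - θ)) ≤ y * (κ / 8) := mul_le_mul_of_nonneg_left h2.le h4.le
  rw [h5]
  nlinarith

theorem asym2 (θ₁ θ D : ℝ) (hθ₁ : 0 < θ₁) (hθ : θ₁ < θ) (hD : 0 < D) :
    ∀ᶠ y : ℝ in atTop, y ^ θ₁ + 1 ≤ (y / D) ^ θ := by
  have h1 : ∀ᶠ y : ℝ in atTop, y ^ (-(θ - θ₁)) < (1 / D) ^ θ / 2 :=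
    (tendsto_rpow_neg_atTop (by linarith : (0 : ℝ) < θ - θ₁)).eventually
      (gt_mem_nhds (by positivity))
  filter_upwards [h1, eventually_ge_atTop 1] with y h2 h3
  have h4 : 0 < y := by linarith
  have h5 : y ^ θ₁ = y ^ θ * y ^ (-(θ - θ₁)) := by
    rw [← Real.rpow_add h4]
    congr 1
    ring
  have h6 : 1 ≤ y ^ θ₁ := Real.one_le_rpow h3 hθ₁.le
  have h7 : (y / D) ^ θ = y ^ θ * (1 / D) ^ θ := by
    rw [← Real.mul_rpow h4.le (by positivity)]
    congr 1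
    ring
  have h8 : y ^ θ * y ^ (-(θ - θ₁)) ≤ y ^ θ * ((1 / D) ^ θ / 2) :=
    mul_le_mul_of_nonneg_left h2.le (by positivity)
  rw [h7]
  linarith

theorem asym3 (p q η : ℝ) (hpq : p < q) (hη : 0 < η) :
    ∀ᶠ y : ℝ in atTop, y ^ p * (Real.log y / Real.log 2 + 1) ≤ η * y ^ q := by
  have hl2 : 0 < Real.log 2 := Real.log_pos (by norm_num)
  have hc : 0 < q - p := by linarith
  have h1 := (isLittleO_log_rpow_atTop hc).bound
    (show (0 : ℝ) < η * Real.log 2 / 2 by positivity)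
  have h2 : ∀ᶠ y : ℝ in atTop, y ^ (-(q - p)) < η / 2 :=
    (tendsto_rpow_neg_atTop hc).eventually (gt_mem_nhds (by positivity))
  filter_upwards [h1, h2, eventually_ge_atTop 1] with y h3 h4 h5
  have h6 : 0 < y := by linarith
  have h7 : 0 < y ^ (q - p) := by positivity
  rw [Real.norm_eq_abs, Real.norm_eq_abs, abs_of_pos h7] at h3
  have h8 : Real.log y ≤ η * Real.log 2 / 2 * y ^ (q - p) := (le_abs_self _).trans h3
  have h9 : Real.log y / Real.log 2 ≤ η / 2 * y ^ (q - p) := by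
    rw [div_le_iff₀ hl2]
    linarith
  have h10 : 1 ≤ η / 2 * y ^ (q - p) := by
    rw [Real.rpow_neg h6.le] at h4
    have h11 : (y ^ (q - p))⁻¹ * y ^ (q - p) = 1 := inv_mul_cancel₀ h7.ne'
    have h12 := mul_le_mul_of_nonneg_right h4.le h7.le
    linarith
  have h13 : y ^ q = y ^ p * y ^ (q - p) := by
    rw [← Real.rpow_add h6]
    congr 1
    ring
  have h14 : 0 < y ^ p := by positivity
  calc y ^ p * (Real.log y / Real.log 2 + 1) ≤ y ^ p * (η * y ^ (q - p)) :=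
        mul_le_mul_of_nonneg_left (by linarith) h14.le
    _ = η * y ^ q := by rw [h13]; ring

theorem natLog_le (n : ℕ) : (Nat.log 2 n : ℝ) ≤ Real.log n / Real.log 2 := by
  have hl2 : 0 < Real.log 2 := Real.log_pos (by norm_num)
  rcases Nat.eq_zero_or_pos n with rfl | hn
  · simp
  · rw [le_div_iff₀ hl2]
    have h1 : 2 ^ Nat.log 2 n ≤ n := Nat.pow_log_le_self 2 hn.ne'
    have h2 : ((2 : ℝ) ^ Nat.log 2 n) ≤ n := by exact_mod_cast h1
    calc (Nat.log 2 n : ℝ) * Real.log 2 = Real.log ((2 : ℝ) ^ Nat.log 2 n) := by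
          rw [Real.log_pow]
      _ ≤ Real.log n := Real.log_le_log (by positivity) h2

end Pool.Agent.LibZE10
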