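import Pool.Agent.LibZE10.A3
import Pool.Agent.LibZE10.B6
import Pool.Agent.LibZE10.E2

set_option autoImplicit false

namespace Pool.Agent.LibZE10

open Pool.Agent.LibNZ69

/-- the average is at most the number of the words with `nz z` near `x` -/
theorem GG_upper {A : Finset ℕ} (hA : ∀ y ∈ A, 1 ≤ y) (a b H x : ℕ) (ha : 4 ≤ a)
    (hx : x < 2 * ((5 + 3) * b)) (hH : 4 * H ≤ MM a 3 b) :
    GG A a 3 b 1 H x * (2 * (H : ℝ) + 1) ≤
      (((wP A (NN 3 b)).filter (fun z => |nz z - (x : ℤ)| ≤ (H : ℤ))).card : ℝ) := by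
  have hpos : (0 : ℝ) < 2 * (H : ℝ) + 1 := by positivity
  unfold GG
  rw [div_mul_cancel₀ _ hpos.ne']
  unfold FF
  rw [Finset.sum_comm]
  have hM : ((MM a 3 b : ℕ) : ℤ) = 120 * a * b := by
    unfold MM
    push_cast
    ring
  have ha' : (4 : ℤ) ≤ a := by exact_mod_cast ha
  have hb0 : (0 : ℤ) ≤ b := Int.natCast_nonneg _
  have hab : 4 * (b : ℤ) ≤ a * b := mul_le_mul_of_nonneg_right ha' hb0
  have hx' : (x : ℤ) < 16 * b := by
    have : x < 16 * b := by omega
    exact_mod_cast this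
  have hx0 : (0 : ℤ) ≤ x := Int.natCast_nonneg _
  have hH' : 4 * (H : ℤ) ≤ 120 * a * b := by
    rw [← hM]
    exact_mod_cast hH
  have hb1 : (0 : ℤ) < b := by linarith
  have hterm : ∀ z ∈ wP A (NN 3 b), ∑ h ∈ Finset.Icc (-(H : ℤ)) H,
      (if ((MM a 3 b : ℕ) : ℤ) ∣ nz z - ((x : ℤ) - ((1 : ℕ) : ℤ) * h) then Ph 3 (4 * b) (nz z)
        else 0) ≤ if |nz z - (x : ℤ)| ≤ (H : ℤ) then (1 : ℝ) else 0 := by
    intro z hz
    obtain ⟨h1, h2⟩ := (mem_wP hA _ _).1 hz
    have h3 := nz_bounds z (fun y hy => hA y (h1 y hy))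
    have hN : (kk z : ℤ) ≤ 24 * b := by
      have : kk z ≤ 24 * b := by
        refine h2.trans (le_of_eq ?_)
        unfold NN
        ring
      exact_mod_cast this
    have hk0 : (0 : ℤ) ≤ kk z := Int.natCast_nonneg _
    have key : ∀ h ∈ Finset.Icc (-(H : ℤ)) H,
        (if ((MM a 3 b : ℕ) : ℤ) ∣ nz z - ((x : ℤ) - ((1 : ℕ) : ℤ) * h) then
          Ph 3 (4 * b) (nz z) else 0) ≤ if h = (x : ℤ) - nz z then (1 : ℝ) else 0 := by
      intro h hh
      rw [Finset.mem_Icc] at hh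
      split_ifs with g1 g2 g3
      · exact Ph_le_one _ _ _
      · exfalso
        apply g2
        rw [hM] at g1
        have h5 : nz z - ((x : ℤ) - ((1 : ℕ) : ℤ) * h) = 0 := by
          apply Int.eq_zero_of_abs_lt_dvd g1
          rw [abs_lt]
          push_cast
          constructor
          · nlinarith [hh.1, hh.2, h3.1]
          · nlinarith [hh.1, hh.2, h3.2]
        push_cast at h5
        linarith
      · exact zero_le_one
      · exact le_refl _
    refine (Finset.sum_le_sum key).trans ?_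
    rw [Finset.sum_ite_eq' (Finset.Icc (-(H : ℤ)) H) ((x : ℤ) - nz z) (fun _ => (1 : ℝ))]
    have hiff : ((x : ℤ) - nz z ∈ Finset.Icc (-(H : ℤ)) H) ↔ |nz z - (x : ℤ)| ≤ (H : ℤ) := by
      rw [Finset.mem_Icc, abs_le]
      constructor
      · rintro ⟨h1, h2⟩
        constructor <;> linarith
      · rintro ⟨h1, h2⟩
        constructor <;> linarith
    by_cases hc : |nz z - (x : ℤ)| ≤ (H : ℤ)
    · rw [if_pos hc, if_pos (hiff.2 hc)]
    · rw [if_neg hc, if_neg (fun h => hc (hiff.1 h))]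
  refine (Finset.sum_le_sum hterm).trans (le_of_eq ?_)
  rw [Finset.sum_ite, Finset.sum_const_zero, add_zero, Finset.sum_const, nsmul_eq_mul, mul_one]

end Pool.Agent.LibZE10
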