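import Pool.Agent.LibZE10.X8
import Pool.Agent.LibZE10.X9
import Pool.Agent.LibZE10.Y1
import Pool.Agent.LibZE10.Y5
import Pool.Agent.LibZE10.H1

set_option autoImplicit false

namespace Pool.Agent.LibZE10

open Pool.Agent.LibNZ69 Filter Topology

open scoped Classical in
/-- the words with `nz z` within `x ^ θ` of `x` -/
noncomputable def Wn (A : Finset ℕ) (θ : ℝ) (x : ℕ) : Finset (List ℕ) :=
  (wP A x).filter (fun z => |((nz z : ℤ) : ℝ) - x| ≤ (x : ℝ) ^ θ)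

/-- the exceptional set -/
def SE (A : Finset ℕ) (θ s c : ℝ) : Set ℕ :=
  {x : ℕ | ((Wn A θ x).card : ℝ) < c * (x : ℝ) ^ (θ + s - 1)}

open scoped Classical in
/-- The exceptional set in a dyadic window. -/
theorem windowB {A : Finset ℕ} {a : ℕ} {s : ℝ} (hp : PB A a s) (θ : ℝ)
    (hθ : 2 - s < θ * (3 * s - 2)) (hθ1 : θ < 1) (η : ℝ) (hη : 0 < η) :
    ∃ c' : ℝ, 0 < c' ∧ ∃ b₀ : ℕ, ∀ b : ℕ, b₀ ≤ b →
      (((Finset.Ico (8 * b) (2 * (8 * b))).filter (fun x => x ∈ SE A θ s c')).card : ℝ) ≤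
        η * b := by
  obtain ⟨C, hC, hl2⟩ := l2A hp 3 le_rfl
  obtain ⟨c, hc, havg⟩ := avg_lower hp 3 le_rfl
  obtain ⟨κ₁, hκ₁, htot⟩ := totient_small (η / 32) (by positivity)
  have ha4 := hp.a4
  have hs1 := hp.s1
  have hs2 := hp.s2
  have haR : (1 : ℝ) ≤ a := by exact_mod_cast (by omega : 1 ≤ a)
  have h3s : 0 < 3 * s - 2 := by linarith
  have hθ0 : 0 < θ := by
    by_contra hcon
    rw [not_lt] at hcon
    have : θ * (3 * s - 2) ≤ 0 := mul_nonpos_of_nonpos_of_nonneg hcon h3s.le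
    linarith
  have hθe : (1 - θ) * (3 * s / 2 - 1) + 2 < 2 * s := by nlinarith
  obtain ⟨δ, hδ⟩ : ∃ δ : ℝ, δ = η / 2 * (c * κ₁ / 2) ^ 2 / (120 * a * C) := ⟨_, rfl⟩
  have hδ0 : 0 < δ := by rw [hδ]; positivity
  obtain ⟨ρ, hρ⟩ : ∃ ρ : ℝ, ρ = (2 : ℝ) ^ (-(3 * s / 2 - 2)) := ⟨_, rfl⟩
  have hρ0 : 0 < ρ := by rw [hρ]; positivity
  have hρ1 : ρ < 1 := by
    rw [hρ]
    exact Real.rpow_lt_one_of_one_lt_of_neg (by norm_num) (by linarith)
  obtain ⟨i₀, hi₀⟩ := exists_pow_lt_of_lt_one (show (0 : ℝ) < δ / 3 by positivity) hρ1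
  obtain ⟨κ, hκ⟩ : ∃ κ : ℝ, κ = min (1 / 8) (δ / (3 * 8 ^ i₀)) := ⟨_, rfl⟩
  have hκ0 : 0 < κ := by
    rw [hκ]
    exact lt_min (by norm_num) (by positivity)
  have hκ8 : κ ≤ 1 / 8 := by rw [hκ]; exact min_le_left _ _
  have hκδ : κ ^ 2 * 8 ^ i₀ ≤ δ / 3 := by
    have h1 : κ ≤ δ / (3 * 8 ^ i₀) := by rw [hκ]; exact min_le_right _ _
    have h2 : κ ^ 2 ≤ κ := by nlinarith
    have h3 : (0 : ℝ) < 8 ^ i₀ := by positivity
    calc κ ^ 2 * 8 ^ i₀ ≤ δ / (3 * 8 ^ i₀) * 8 ^ i₀ :=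
          mul_le_mul_of_nonneg_right (h2.trans h1) h3.le
      _ = δ / 3 := by field_simp
  obtain ⟨b₁, hb₁⟩ := havg κ hκ0 (by push_cast; linarith)
  obtain ⟨E2, hE2⟩ : ∃ E2 : ℝ, E2 = (30 * (a : ℝ)) ^ 2 := ⟨_, rfl⟩
  have hE20 : 0 < E2 := by rw [hE2]; positivity
  have hev := (asym1 θ κ hθ1 hκ0).and
      (asym3 ((1 - θ) * (3 * s / 2 - 1) + 2) (2 * s) (δ / 3 / E2) hθe (by positivity))
  obtain ⟨Y₀, hY₀⟩ := eventually_atTop.1 hev
  refine ⟨c * κ₁ / 4, by positivity, max (max 6 b₁) ⌈Y₀⌉₊, ?_⟩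
  intro b hb
  have hb6 : 6 ≤ b := le_trans (le_trans (le_max_left _ _) (le_max_left _ _)) hb
  have hbb₁ : b₁ ≤ b := le_trans (le_trans (le_max_right _ _) (le_max_left _ _)) hb
  have hbY : Y₀ ≤ b := by
    have h1 : ⌈Y₀⌉₊ ≤ b := le_trans (le_max_right _ _) hb
    exact (Nat.le_ceil _).trans (by exact_mod_cast h1)
  obtain ⟨M, hM⟩ : ∃ M : ℕ, M = MM a 3 b := ⟨_, rfl⟩
  have hMn : M = 120 * a * b := by
    rw [hM]
    unfold MM
    ring
  have hMb : (M : ℝ) = 120 * a * b := by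
    rw [hMn]
    push_cast
    ring
  have hbR : (6 : ℝ) ≤ b := by exact_mod_cast hb6
  have hMbig : (b : ℝ) ≤ M := by
    rw [hMb]
    nlinarith
  have hM0 : (0 : ℝ) < M := by linarith
  have hM1 : (1 : ℝ) ≤ M := by linarith
  obtain ⟨e1, e3⟩ := hY₀ M (by linarith)
  obtain ⟨y, hy⟩ : ∃ y : ℝ, y = (8 * (b : ℝ)) ^ θ := ⟨_, rfl⟩
  have hy1 : 1 ≤ y := by
    rw [hy]
    exact Real.one_le_rpow (by linarith) hθ0.le
  obtain ⟨H, hH⟩ : ∃ H : ℕ, H = ⌊y⌋₊ := ⟨_, rfl⟩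
  obtain ⟨H', hH'⟩ : ∃ H' : ℕ, H' = ⌊κ * M⌋₊ := ⟨_, rfl⟩
  have hH1 : 1 ≤ H := by
    rw [hH]
    exact (Nat.one_le_floor_iff _).2 hy1
  have hH1R : (1 : ℝ) ≤ H := by exact_mod_cast hH1
  have hHy : (H : ℝ) ≤ y := by rw [hH]; exact Nat.floor_le (by linarith)
  have hyH : y < H + 1 := by rw [hH]; exact Nat.lt_floor_add_one _
  have hyM : y ≤ (M : ℝ) ^ θ := by
    rw [hy]
    refine Real.rpow_le_rpow (by positivity) ?_ hθ0.le
    rw [hMb]
    nlinarith
  have hMθ0 : 0 < (M : ℝ) ^ θ := by positivity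
  have hHlo : (M : ℝ) ^ θ / (30 * a) ≤ H := by
    have g1 : (M : ℝ) = (15 * a) * (8 * b) := by rw [hMb]; ring
    have g2 : (M : ℝ) ^ θ = (15 * (a : ℝ)) ^ θ * y := by
      rw [g1, Real.mul_rpow (by positivity) (by positivity), hy]
    have g3 : (15 * (a : ℝ)) ^ θ ≤ 15 * a := by
      calc (15 * (a : ℝ)) ^ θ ≤ (15 * (a : ℝ)) ^ (1 : ℝ) :=
            Real.rpow_le_rpow_of_exponent_le (by linarith) hθ1.le
        _ = 15 * a := Real.rpow_one _
    rw [div_le_iff₀ (by positivity), g2]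
    calc (15 * (a : ℝ)) ^ θ * y ≤ (15 * a) * y := mul_le_mul_of_nonneg_right g3 (by linarith)
      _ ≤ (15 * a) * (2 * H) := mul_le_mul_of_nonneg_left (by linarith) (by positivity)
      _ = H * (30 * a) := by ring
  have hH'1 : (H' : ℝ) ≤ κ * M := by rw [hH']; exact Nat.floor_le (by positivity)
  have hH'2 : κ * M - 1 < H' := by rw [hH']; exact Nat.sub_one_lt_floor _
  have h4H : 4 * H ≤ H' := by
    have : (4 : ℝ) * H ≤ H' := by linarith
    exact_mod_cast this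
  have h4HM : 4 * H ≤ MM a 3 b := by
    rw [← hM]
    have : (H' : ℝ) ≤ M := by nlinarith
    have h2 : H' ≤ M := by exact_mod_cast this
    omega
  have hA : ∀ y ∈ A, 1 ≤ y := fun y hy => (hp.dig y hy).1
  set S := (Finset.Ico (8 * b) (2 * (8 * b))).filter (fun x => x ∈ SE A θ s (c * κ₁ / 4)) with hS
  -- the small totients
  have hS1 : ((S.filter (fun x : ℕ => ((x.totient : ℝ) / x) < κ₁)).card : ℝ) ≤ η / 2 * b := by
    have h1 := htot (16 * b)
    have h2 : S.filter (fun x : ℕ => ((x.totient : ℝ) / x) < κ₁) ⊆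
        (Finset.range (16 * b + 1)).filter (fun n : ℕ => 1 ≤ n ∧ ((n.totient : ℝ) / n) < κ₁) := by
      intro x hx
      rw [Finset.mem_filter, hS, Finset.mem_filter, Finset.mem_Ico] at hx
      rw [Finset.mem_filter, Finset.mem_range]
      refine ⟨by omega, by omega, hx.2⟩
    have h3 : ((S.filter (fun x : ℕ => ((x.totient : ℝ) / x) < κ₁)).card : ℝ) ≤
        (((Finset.range (16 * b + 1)).filter
          (fun n : ℕ => 1 ≤ n ∧ ((n.totient : ℝ) / n) < κ₁)).card : ℝ) := by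
      exact_mod_cast Finset.card_le_card h2
    refine h3.trans (h1.trans (le_of_eq ?_))
    push_cast
    ring
  -- the others
  have hS2 : ((S.filter (fun x : ℕ => ¬ ((x.totient : ℝ) / x) < κ₁)).card : ℝ) ≤ η / 2 * b := by
    set F := S.filter (fun x : ℕ => ¬ ((x.totient : ℝ) / x) < κ₁) with hF
    set g : ℕ → ℝ := fun x => (GG A a 3 b 1 H (x : ℤ) -
        (∑ h ∈ Finset.Icc (-(H' : ℤ)) H', GG A a 3 b 1 H ((x : ℤ) - ((1 : ℕ) : ℤ) * h)) /
          (2 * (H' : ℝ) + 1)) ^ 2 with hg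
    have hg0 : ∀ x, 0 ≤ g x := fun x => sq_nonneg _
    have h1 : ∑ x ∈ Finset.range M, g x ≤ C / M * (δ * (M : ℝ) ^ (2 * s)) := by
      refine (hl2 b i₀ M H H' hb6 hM hH1).trans ?_
      refine mul_le_mul_of_nonneg_left ?_ (by positivity)
      have t1 : ((H' : ℝ) / M) ^ 2 * 8 ^ i₀ * (M : ℝ) ^ (2 * s) ≤ δ / 3 * (M : ℝ) ^ (2 * s) := by
        refine mul_le_mul_of_nonneg_right ?_ (by positivity)
        have t2 : (H' : ℝ) / M ≤ κ := by
          rw [div_le_iff₀ hM0]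
          exact hH'1
        exact (mul_le_mul_of_nonneg_right (pow_le_pow_left₀ (by positivity) t2 2)
          (by positivity)).trans hκδ
      have t3 : ((M : ℝ) / H) ^ (3 * s / 2 - 1) * (M : ℝ) ^ 2 * ((Nat.log 2 M : ℝ) + 1) ≤
          δ / 3 * (M : ℝ) ^ (2 * s) := by
        have t4 : ((M : ℝ) / H) ^ (3 * s / 2 - 1) ≤
            E2 * (M : ℝ) ^ ((1 - θ) * (3 * s / 2 - 1)) := by
          have t5 : (M : ℝ) / H ≤ 30 * a * (M : ℝ) ^ (1 - θ) := by
            rw [Real.rpow_sub hM0, Real.rpow_one]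
            have t9 : 0 < (M : ℝ) ^ θ / (30 * a) := by positivity
            calc (M : ℝ) / H ≤ M / ((M : ℝ) ^ θ / (30 * a)) :=
                  div_le_div_of_nonneg_left hM0.le t9 hHlo
              _ = 30 * a * (M / (M : ℝ) ^ θ) := by field_simp
          calc ((M : ℝ) / H) ^ (3 * s / 2 - 1) ≤
                (30 * a * (M : ℝ) ^ (1 - θ)) ^ (3 * s / 2 - 1) :=
                Real.rpow_le_rpow (by positivity) t5 (by linarith)
            _ = (30 * (a : ℝ)) ^ (3 * s / 2 - 1) * ((M : ℝ) ^ (1 - θ)) ^ (3 * s / 2 - 1) :=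
                Real.mul_rpow (by positivity) (by positivity)
            _ ≤ (30 * (a : ℝ)) ^ (2 : ℝ) * ((M : ℝ) ^ (1 - θ)) ^ (3 * s / 2 - 1) := by
                refine mul_le_mul_of_nonneg_right ?_ (by positivity)
                exact Real.rpow_le_rpow_of_exponent_le (by linarith) (by linarith)
            _ = E2 * (M : ℝ) ^ ((1 - θ) * (3 * s / 2 - 1)) := by
                rw [← Real.rpow_mul hM0.le, hE2]
                norm_num
        have t6 : (M : ℝ) ^ ((1 - θ) * (3 * s / 2 - 1) + 2) =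
            (M : ℝ) ^ ((1 - θ) * (3 * s / 2 - 1)) * (M : ℝ) ^ 2 := by
          rw [Real.rpow_add hM0]
          norm_num
        have t7 := natLog_le M
        calc ((M : ℝ) / H) ^ (3 * s / 2 - 1) * (M : ℝ) ^ 2 * ((Nat.log 2 M : ℝ) + 1)
            ≤ (E2 * (M : ℝ) ^ ((1 - θ) * (3 * s / 2 - 1))) * (M : ℝ) ^ 2 *
                (Real.log M / Real.log 2 + 1) :=
              mul_le_mul (mul_le_mul_of_nonneg_right t4 (by positivity)) (by linarith)
                (by positivity) (by positivity)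
          _ = E2 * ((M : ℝ) ^ ((1 - θ) * (3 * s / 2 - 1) + 2) *
                (Real.log M / Real.log 2 + 1)) := by rw [t6]; ring
          _ ≤ E2 * (δ / 3 / E2 * (M : ℝ) ^ (2 * s)) := mul_le_mul_of_nonneg_left e3 hE20.le
          _ = δ / 3 * (M : ℝ) ^ (2 * s) := by field_simp
      have t8 : ((2 : ℝ) ^ (-(3 * s / 2 - 2))) ^ i₀ * (M : ℝ) ^ (2 * s) ≤
          δ / 3 * (M : ℝ) ^ (2 * s) := by
        rw [← hρ]
        exact mul_le_mul_of_nonneg_right hi₀.le (by positivity)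
      linarith
    have h2 : ∀ x ∈ F, (c * κ₁ / 2 * (M : ℝ) ^ (s - 1)) ^ 2 ≤ g x := by
      intro x hx
      rw [hF, Finset.mem_filter, hS, Finset.mem_filter, Finset.mem_Ico, not_lt] at hx
      obtain ⟨⟨⟨hx1, hx2⟩, hxS⟩, hxφ⟩ := hx
      have hx8 : (8 * (b : ℝ)) ≤ x := by exact_mod_cast hx1
      have hx16 : (x : ℝ) ≤ 2 * (8 * b) := by exact_mod_cast hx2.le
      have hx0 : (0 : ℝ) < x := by linarith
      have hxM : (x : ℝ) ≤ M := by
        rw [hMb]
        nlinarith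
      have hyx : y ≤ (x : ℝ) ^ θ := by
        rw [hy]
        exact Real.rpow_le_rpow (by positivity) hx8 hθ0.le
      have hxy : (x : ℝ) ^ θ ≤ 2 * y := by
        calc (x : ℝ) ^ θ ≤ (2 * (8 * (b : ℝ))) ^ θ := Real.rpow_le_rpow hx0.le hx16 hθ0.le
          _ = (2 : ℝ) ^ θ * y := by
              rw [Real.mul_rpow (by norm_num) (by positivity), hy]
          _ ≤ 2 * y := by
              refine mul_le_mul_of_nonneg_right ?_ (by linarith)
              calc (2 : ℝ) ^ θ ≤ (2 : ℝ) ^ (1 : ℝ) :=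
                    Real.rpow_le_rpow_of_exponent_le (by norm_num) hθ1.le
                _ = 2 := Real.rpow_one _
      have hxθx : (x : ℝ) ^ θ ≤ x := by
        calc (x : ℝ) ^ θ ≤ (x : ℝ) ^ (1 : ℝ) :=
              Real.rpow_le_rpow_of_exponent_le (by linarith) hθ1.le
          _ = x := Real.rpow_one _
      have hup := GG_upper hA a b H x ha4 (by omega) h4HM
      have hsubW : (wP A (NN 3 b)).filter (fun z => |nz z - (x : ℤ)| ≤ (H : ℤ)) ⊆ Wn A θ x := by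
        intro z hz
        rw [Finset.mem_filter] at hz
        obtain ⟨hz1, hz2⟩ := hz
        obtain ⟨hzA, _⟩ := (mem_wP hA _ _).1 hz1
        have hz3 : |((nz z : ℤ) : ℝ) - x| ≤ H := by
          have : ((|nz z - (x : ℤ)| : ℤ) : ℝ) ≤ ((H : ℤ) : ℝ) := by exact_mod_cast hz2
          push_cast at this
          exact this
        have hz4 : |((nz z : ℤ) : ℝ) - x| ≤ (x : ℝ) ^ θ := by linarith
        unfold Wn
        rw [Finset.mem_filter]
        refine ⟨(mem_wP hA _ _).2 ⟨hzA, ?_⟩, hz4⟩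
        have h5 := (nz_bounds z (fun y hy => hA y (hzA y hy))).1
        have h6 : (4 * (kk z : ℝ)) ≤ ((nz z : ℤ) : ℝ) := by exact_mod_cast h5
        have h7 := (abs_le.1 hz4).2
        have h8 : (kk z : ℝ) ≤ x := by linarith
        exact_mod_cast h8
      have hWn : ((Wn A θ x).card : ℝ) < c * κ₁ / 4 * (x : ℝ) ^ (θ + s - 1) := hxS
      have hGG : GG A a 3 b 1 H (x : ℤ) ≤ c * κ₁ / 2 * (M : ℝ) ^ (s - 1) := by
        have hden : (0 : ℝ) < 2 * (H : ℝ) + 1 := by positivity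
        have g1 : GG A a 3 b 1 H (x : ℤ) * (2 * (H : ℝ) + 1) ≤
            (c * κ₁ / 2 * (M : ℝ) ^ (s - 1)) * (2 * (H : ℝ) + 1) := by
          calc GG A a 3 b 1 H (x : ℤ) * (2 * (H : ℝ) + 1)
              ≤ (((wP A (NN 3 b)).filter (fun z => |nz z - (x : ℤ)| ≤ (H : ℤ))).card : ℝ) := hup
            _ ≤ ((Wn A θ x).card : ℝ) := by exact_mod_cast Finset.card_le_card hsubW
            _ ≤ c * κ₁ / 4 * (x : ℝ) ^ (θ + s - 1) := hWn.le
            _ = c * κ₁ / 4 * ((x : ℝ) ^ θ * (x : ℝ) ^ (s - 1)) := by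
                rw [← Real.rpow_add hx0]
                congr 2
                ring
            _ ≤ c * κ₁ / 4 * ((2 * (2 * (H : ℝ) + 1)) * (M : ℝ) ^ (s - 1)) := by
                refine mul_le_mul_of_nonneg_left ?_ (by positivity)
                refine mul_le_mul (by linarith) ?_ (by positivity) (by positivity)
                exact Real.rpow_le_rpow hx0.le hxM (by linarith)
            _ = (c * κ₁ / 2 * (M : ℝ) ^ (s - 1)) * (2 * (H : ℝ) + 1) := by ring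
        exact le_of_mul_le_mul_right g1 hden
      have hlow := hb₁ b M H H' hbb₁ hM hH' h4H x (by omega) (by omega)
      simp only [hg]
      have hlow2 : c * κ₁ * (M : ℝ) ^ (s - 1) ≤
          (∑ h ∈ Finset.Icc (-(H' : ℤ)) H', GG A a 3 b 1 H ((x : ℤ) - ((1 : ℕ) : ℤ) * h)) /
            (2 * (H' : ℝ) + 1) := by
        refine le_trans ?_ hlow
        have h7 : c * κ₁ * (M : ℝ) ^ (s - 1) = c * (M : ℝ) ^ (s - 1) * κ₁ := by ring
        rw [h7]
        exact mul_le_mul_of_nonneg_left hxφ (by positivity)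
      obtain ⟨V, hV⟩ : ∃ V : ℝ, V =
          (∑ h ∈ Finset.Icc (-(H' : ℤ)) H', GG A a 3 b 1 H ((x : ℤ) - ((1 : ℕ) : ℤ) * h)) /
            (2 * (H' : ℝ) + 1) := ⟨_, rfl⟩
      rw [← hV] at hlow2 ⊢
      have hsq : (GG A a 3 b 1 H (x : ℤ) - V) ^ 2 = (V - GG A a 3 b 1 H (x : ℤ)) ^ 2 := by ring
      rw [hsq]
      refine pow_le_pow_left₀ (by positivity) ?_ 2
      linarith
    have h3 : (F.card : ℝ) * (c * κ₁ / 2 * (M : ℝ) ^ (s - 1)) ^ 2 ≤
        C / M * (δ * (M : ℝ) ^ (2 * s)) := by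
      calc (F.card : ℝ) * (c * κ₁ / 2 * (M : ℝ) ^ (s - 1)) ^ 2
          = ∑ x ∈ F, (c * κ₁ / 2 * (M : ℝ) ^ (s - 1)) ^ 2 := by
            rw [Finset.sum_const, nsmul_eq_mul]
        _ ≤ ∑ x ∈ F, g x := Finset.sum_le_sum h2
        _ ≤ ∑ x ∈ Finset.range M, g x := by
            refine Finset.sum_le_sum_of_subset_of_nonneg ?_ (fun x _ _ => hg0 x)
            intro x hx
            rw [hF, Finset.mem_filter, hS, Finset.mem_filter, Finset.mem_Ico] at hx
            rw [Finset.mem_range]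
            have : 16 * b ≤ M := by
              rw [hMn]
              nlinarith
            omega
        _ ≤ _ := h1
    have h4 : (M : ℝ) ^ (s - 1) * M = (M : ℝ) ^ s := by
      rw [← Real.rpow_add_one hM0.ne']
      congr 1
      ring
    have h5 : (M : ℝ) ^ (2 * s) = ((M : ℝ) ^ s) ^ 2 := by
      rw [mul_comm, Real.rpow_mul hM0.le]
      norm_num
    have hMs0 : 0 < ((M : ℝ) ^ s) ^ 2 := by positivity
    have h6 : (F.card : ℝ) * (c * κ₁ / 2) ^ 2 ≤ C * δ * M := by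
      have h7 : ((F.card : ℝ) * (c * κ₁ / 2) ^ 2) * ((M : ℝ) ^ s) ^ 2 ≤
          (C * δ * M) * ((M : ℝ) ^ s) ^ 2 := by
        calc ((F.card : ℝ) * (c * κ₁ / 2) ^ 2) * ((M : ℝ) ^ s) ^ 2
            = ((F.card : ℝ) * (c * κ₁ / 2 * (M : ℝ) ^ (s - 1)) ^ 2) * (M : ℝ) ^ 2 := by
              rw [← h4]
              ring
          _ ≤ (C / M * (δ * (M : ℝ) ^ (2 * s))) * (M : ℝ) ^ 2 :=
              mul_le_mul_of_nonneg_right h3 (by positivity)
          _ = (C * δ * M) * ((M : ℝ) ^ s) ^ 2 := by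
              rw [h5]
              field_simp
      exact le_of_mul_le_mul_right h7 hMs0
    have h8 : C * δ * M = (η / 2 * b) * (c * κ₁ / 2) ^ 2 := by
      rw [hMb, hδ]
      field_simp
    rw [h8] at h6
    exact le_of_mul_le_mul_right h6 (by positivity)
  have hcard : (S.card : ℝ) =
      ((S.filter (fun x : ℕ => ((x.totient : ℝ) / x) < κ₁)).card : ℝ) +
      ((S.filter (fun x : ℕ => ¬ ((x.totient : ℝ) / x) < κ₁)).card : ℝ) := by
    exact_mod_cast (Finset.card_filter_add_card_filter_not (s := S)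
      (fun x : ℕ => ((x.totient : ℝ) / x) < κ₁)).symm
  rw [hcard]
  linarith

end Pool.Agent.LibZE10
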