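import Pool.Agent.LibZE10.Y6
import Pool.Agent.LibZE10.J0
import Pool.Agent.LibZE10.J2
import Pool.Agent.LibZE10.J3
import Pool.Agent.LibNW69.H2
import Pool.Agent.LibNW69.E4

set_option autoImplicit false

namespace Pool.Agent.LibZE10

open Pool.Agent.LibNZ69

/-- the fractions `b / d` with all partial quotients in `A` and `|d - n| ≤ n ^ θ` -/
def fracs (A : Finset ℕ) (θ : ℝ) (n : ℕ) : Set (ℕ × ℕ) :=
  {p | |(p.1 : ℝ) - n| ≤ (n : ℝ) ^ θ ∧ p.2 ∈ numer A p.1}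

theorem fracs_finite (A : Finset ℕ) (θ : ℝ) (n : ℕ) : (fracs A θ n).Finite := by
  refine ((Set.finite_Iic ⌈(n : ℝ) + (n : ℝ) ^ θ⌉₊).prod
    (Set.finite_Iic ⌈(n : ℝ) + (n : ℝ) ^ θ⌉₊)).subset ?_
  rintro ⟨d, b⟩ ⟨h1, h2⟩
  have h3 : (d : ℝ) ≤ (n : ℝ) + (n : ℝ) ^ θ := by
    have := (abs_le.1 h1).2
    simp only at this
    linarith
  have h4 : d ≤ ⌈(n : ℝ) + (n : ℝ) ^ θ⌉₊ := by
    have := h3.trans (Nat.le_ceil _)
    exact_mod_cast this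
  have h5 : b < d := h2.2.1
  exact ⟨h4, (by simp only [Set.mem_Iic]; omega)⟩

theorem card_Wn_le (A : Finset ℕ) (hA : ∀ y ∈ A, 1 ≤ y) (h2 : 2 ∈ A) (θ : ℝ) (n : ℕ) :
    (Wn A θ n).card ≤ (fracs A θ n).ncard := by
  classical
  have hWA : ∀ z ∈ Wn A θ n, WA A z ∧ |((nz z : ℤ) : ℝ) - n| ≤ (n : ℝ) ^ θ := by
    intro z hz
    unfold Wn at hz
    rw [Finset.mem_filter] at hz
    exact ⟨((mem_wP hA _ _).1 hz.1).1, hz.2⟩
  have hnz : ∀ z ∈ Wn A θ n, ((((nz z).toNat : ℕ)) : ℤ) = nz z := by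
    intro z hz
    have h4 := nz_bounds z (fun y hy => hA y ((hWA z hz).1 y hy))
    refine Int.toNat_of_nonneg ?_
    have : (0 : ℤ) ≤ kk z := Int.natCast_nonneg _
    linarith [h4.1]
  set f : List ℕ → ℕ × ℕ := fun z => ((nz z).toNat, (con (z ++ [2])).1) with hf
  have hinj : Set.InjOn f (Wn A θ n : Set (List ℕ)) := by
    intro z hz z' hz' hzz
    have e1 : (nz z).toNat = (nz z').toNat := congrArg Prod.fst hzz
    have e2 : (con (z ++ [2])).1 = (con (z' ++ [2])).1 := congrArg Prod.snd hzz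
    have e3 : nz z = nz z' := by
      rw [← hnz z hz, ← hnz z' hz', e1]
    exact word_inj A hA z z' (hWA z hz).1 (hWA z' hz').1 e3 e2
  have hsub : (((Wn A θ n).image f : Finset (ℕ × ℕ)) : Set (ℕ × ℕ)) ⊆ fracs A θ n := by
    intro p hp
    obtain ⟨z, hz, rfl⟩ := Finset.mem_image.1 (Finset.mem_coe.1 hp)
    refine ⟨?_, numer_mem A hA h2 _ z (hWA z hz).1 (hnz z hz).symm⟩
    have h3 := (hWA z hz).2
    have h4 : (((((nz z).toNat : ℕ)) : ℤ) : ℝ) = ((nz z : ℤ) : ℝ) := by rw [hnz z hz]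
    push_cast at h4
    simp only [hf]
    rw [h4]
    exact h3
  have hcard := Set.ncard_le_ncard hsub (fracs_finite A θ n)
  rw [Set.ncard_coe_finset, Finset.card_image_of_injOn hinj] at hcard
  exact hcard

theorem main_PB2 {A : Finset ℕ} {a : ℕ} {s : ℝ} (hp : PB A a s) (θ : ℝ)
    (hθ : 2 - s < θ * (3 * s - 2)) (hθ1 : θ < 1) (ε : ℝ) (hε : 0 < ε) :
    ∃ c : ℝ, 0 < c ∧ ∃ N₀ : ℕ, ∀ N : ℕ, N₀ ≤ N →
      (1 - ε) * N ≤ (({n : ℕ | 1 ≤ n ∧ n ≤ N ∧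
        c * (n : ℝ) ^ (θ + s - 1) ≤ ((fracs A θ n).ncard : ℝ)}.ncard : ℕ) : ℝ) := by
  classical
  obtain ⟨c, hc, b₀, hb⟩ := windowB hp θ hθ hθ1 (ε / 8) (by positivity)
  obtain ⟨N₀, hN⟩ := density_of_windows2 (SE A θ s c) 8 (by norm_num) (ε / 8) (by positivity) b₀
    (fun b hb0 => hb b hb0)
  refine ⟨c, hc, N₀, fun N hN0 => ?_⟩
  have h1 := hN N hN0
  have hA : ∀ y ∈ A, 1 ≤ y := fun y hy => (hp.dig y hy).1
  obtain ⟨S, hS⟩ : ∃ S : Set ℕ, S = SE A θ s c := ⟨_, rfl⟩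
  rw [← hS] at h1
  have hsub : (((Finset.range (N + 1)).filter (fun x => ¬ x ∈ S)).erase 0 : Finset ℕ) ⊆
      (Finset.range (N + 1)).filter (fun n => 1 ≤ n ∧ n ≤ N ∧
        c * (n : ℝ) ^ (θ + s - 1) ≤ ((fracs A θ n).ncard : ℝ)) := by
    intro d hd
    rw [Finset.mem_erase, Finset.mem_filter] at hd
    obtain ⟨hd0, hdN, hdS⟩ := hd
    rw [Finset.mem_filter]
    have h2 : c * (d : ℝ) ^ (θ + s - 1) ≤ ((Wn A θ d).card : ℝ) := by
      rw [hS] at hdS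
      by_contra hcon
      rw [not_le] at hcon
      exact hdS hcon
    have h3 : ((Wn A θ d).card : ℝ) ≤ ((fracs A θ d).ncard : ℝ) := by
      exact_mod_cast card_Wn_le A hA hp.two θ d
    have h7 := Finset.mem_range.1 hdN
    exact ⟨hdN, by omega, by omega, h2.trans h3⟩
  have hset : {n : ℕ | 1 ≤ n ∧ n ≤ N ∧
        c * (n : ℝ) ^ (θ + s - 1) ≤ ((fracs A θ n).ncard : ℝ)} =
      (((Finset.range (N + 1)).filter (fun n => 1 ≤ n ∧ n ≤ N ∧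
        c * (n : ℝ) ^ (θ + s - 1) ≤ ((fracs A θ n).ncard : ℝ)) : Finset ℕ) : Set ℕ) := by
    ext x
    rw [Finset.mem_coe, Finset.mem_filter, Finset.mem_range]
    constructor
    · intro hx
      exact ⟨by have := hx.2.1; omega, hx⟩
    · intro hx
      exact hx.2
  rw [hset, Set.ncard_coe_finset]
  have hadd : ((Finset.range (N + 1)).filter (fun x => x ∈ S)).card +
      ((Finset.range (N + 1)).filter (fun x => ¬ x ∈ S)).card = N + 1 := by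
    rw [Finset.card_filter_add_card_filter_not, Finset.card_range]
  have h8 := Finset.card_le_card hsub
  have h9 := Finset.pred_card_le_card_erase
    (s := (Finset.range (N + 1)).filter (fun x => ¬ x ∈ S)) (a := 0)
  have h10 : N ≤ ((Finset.range (N + 1)).filter (fun x => x ∈ S)).card +
      ((Finset.range (N + 1)).filter (fun n => 1 ≤ n ∧ n ≤ N ∧
        c * (n : ℝ) ^ (θ + s - 1) ≤ ((fracs A θ n).ncard : ℝ))).card := by omega
  have h11 : (N : ℝ) ≤ (((Finset.range (N + 1)).filter (fun x => x ∈ S)).card : ℝ) +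
      (((Finset.range (N + 1)).filter (fun n => 1 ≤ n ∧ n ≤ N ∧
        c * (n : ℝ) ^ (θ + s - 1) ≤ ((fracs A θ n).ncard : ℝ))).card : ℝ) := by exact_mod_cast h10
  have hN' : (0 : ℝ) ≤ (N : ℝ) := Nat.cast_nonneg _
  have h12 : 0 ≤ ε * (N : ℝ) := by positivity
  linarith

/-- the exact exponent is at least twice the Hausdorff dimension -/
theorem dim_PB (A : Finset ℕ) (hA : ∀ x ∈ A, 1 ≤ x) (h1 : 1 ∈ A) (h2 : 2 ∈ A)
    (hd : 2 / 3 < dimH (Pool.Agent.LibNW69.E A)) :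
    2 / 3 < (dimH (Pool.Agent.LibNW69.E A)).toReal ∧
      (dimH (Pool.Agent.LibNW69.E A)).toReal ≤ 1 ∧
      ∃ (a : ℕ) (s : ℝ), PB A a s ∧ 2 * (dimH (Pool.Agent.LibNW69.E A)).toReal ≤ s := by
  have htop : dimH (Pool.Agent.LibNW69.E A) ≠ ⊤ := by
    have h3 : dimH (Pool.Agent.LibNW69.E A) ≤ dimH (Set.univ : Set ℝ) :=
      dimH_mono (Set.subset_univ _)
    rw [Real.dimH_univ] at h3
    exact ne_top_of_le_ne_top ENNReal.one_ne_top h3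
  have hδle : (dimH (Pool.Agent.LibNW69.E A)).toReal ≤ 1 := by
    have h3 : dimH (Pool.Agent.LibNW69.E A) ≤ dimH (Set.univ : Set ℝ) :=
      dimH_mono (Set.subset_univ _)
    rw [Real.dimH_univ] at h3
    have h4 := ENNReal.toReal_mono ENNReal.one_ne_top h3
    rw [ENNReal.toReal_one] at h4
    exact h4
  have hcert : ∀ t : ℝ, 0 < t → t < 2 * (dimH (Pool.Agent.LibNW69.E A)).toReal →
      ∃ c : ℝ, 0 < c ∧ ∀ l : ℕ, c ≤ ZZ A t l := by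
    intro t ht htd
    obtain ⟨c, hc0, hc⟩ := Pool.Agent.LibNW69.cert_of_dimH A hA t ht (by
      rw [ENNReal.ofReal_lt_iff_lt_toReal (by linarith) htop]
      linarith)
    refine ⟨c, hc0, fun l => ?_⟩
    refine le_trans (hc l) (le_of_eq ?_)
    unfold ZZ
    refine Finset.sum_congr rfl fun w _ => ?_
    rw [act01]
    push_cast
    rfl
  have hd' : (2 / 3 : ℝ) < (dimH (Pool.Agent.LibNW69.E A)).toReal := by
    have h3 : ((2 / 3 : ENNReal)).toReal < (dimH (Pool.Agent.LibNW69.E A)).toReal :=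
      ENNReal.toReal_strict_mono htop hd
    refine lt_of_eq_of_lt ?_ h3
    rw [ENNReal.toReal_div]
    norm_num
  obtain ⟨σ, hσ1, hσ2⟩ := exists_between (show (4 / 3 : ℝ) <
    2 * (dimH (Pool.Agent.LibNW69.E A)).toReal by linarith)
  obtain ⟨c, hc0, hc⟩ := hcert σ (by linarith) hσ2
  obtain ⟨s, hs, hmax⟩ := exists_PB2 A (max 4 (A.sup id + 1)) h1 h2 (fun x hx => by
      refine ⟨hA x hx, ?_⟩
      have h3 : id x ≤ A.sup id := Finset.le_sup hx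
      have h4 : x ≤ A.sup id := h3
      have h5 := le_max_right 4 (A.sup id + 1)
      omega) (le_max_left _ _) σ c hσ1 hc0 hc
  have hle : 2 * (dimH (Pool.Agent.LibNW69.E A)).toReal ≤ s := by
    refine le_of_forall_lt fun t ht => ?_
    obtain ⟨t', ht1, ht2⟩ := exists_between ht
    by_cases hp : 0 < t'
    · obtain ⟨c', hc1, hc2⟩ := hcert t' hp ht2
      exact lt_of_lt_of_le ht1 (hmax t' c' hc1 hc2)
    · have := hs.s1
      linarith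
  exact ⟨hd', hδle, _, s, hs, hle⟩

/-- the case of `A = {1, 2, 3}` -/
theorem three_PB : ∃ s : ℝ, PB {1, 2, 3} 4 s ∧ 141 / 100 ≤ s := by
  have hcert : ∀ l : ℕ, (1 / 4 : ℝ) ≤ ZZ {1, 2, 3} (141 / 100) l := by
    intro l
    refine le_trans (Pool.Agent.LibNW69.cert_sum3 l) (le_of_eq ?_)
    unfold ZZ
    refine Finset.sum_congr rfl fun w _ => ?_
    rw [act01]
    push_cast
    rfl
  obtain ⟨s, hs, hmax⟩ := exists_PB2 {1, 2, 3} 4 (by simp) (by simp) (fun x hx => by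
      simp only [Finset.mem_insert, Finset.mem_singleton] at hx
      omega) (by norm_num) (141 / 100) (1 / 4) (by norm_num) (by norm_num) hcert
  exact ⟨s, hs, hmax (141 / 100) (1 / 4) (by norm_num) hcert⟩

theorem theta_of_dim (δ s θ : ℝ) (h1 : 2 / 3 < δ) (h2 : δ ≤ 1) (h3 : 2 * δ ≤ s)
    (hθ : (1 - δ) / (3 * δ - 1) < θ) : 2 - s < θ * (3 * s - 2) := by
  have hδ3 : 0 < 3 * δ - 1 := by linarith
  have hθ0 : 0 < θ := lt_of_le_of_lt (div_nonneg (by linarith) hδ3.le) hθ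
  rw [div_lt_iff₀ hδ3] at hθ
  have h5 : (2 * δ) * (1 + 3 * θ) ≤ s * (1 + 3 * θ) :=
    mul_le_mul_of_nonneg_right h3 (by linarith)
  nlinarith

/-- a smaller exponent in the lower bound -/
theorem weaken (A : Finset ℕ) (θ C u v : ℝ) (hC : 0 < C) (huv : v ≤ u) (ε : ℝ) (N : ℕ)
    (h : (1 - ε) * N ≤ (({n : ℕ | 1 ≤ n ∧ n ≤ N ∧
      C * (n : ℝ) ^ u ≤ ((fracs A θ n).ncard : ℝ)}.ncard : ℕ) : ℝ)) :
    (1 - ε) * N ≤ (({n : ℕ | 1 ≤ n ∧ n ≤ N ∧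
      C * (n : ℝ) ^ v ≤ ((fracs A θ n).ncard : ℝ)}.ncard : ℕ) : ℝ) := by
  refine h.trans ?_
  have hsub : {n : ℕ | 1 ≤ n ∧ n ≤ N ∧ C * (n : ℝ) ^ u ≤ ((fracs A θ n).ncard : ℝ)} ⊆
      {n : ℕ | 1 ≤ n ∧ n ≤ N ∧ C * (n : ℝ) ^ v ≤ ((fracs A θ n).ncard : ℝ)} := by
    intro d hd
    refine ⟨hd.1, hd.2.1, le_trans ?_ hd.2.2⟩
    have h6 : (1 : ℝ) ≤ (d : ℝ) := by exact_mod_cast hd.1
    exact mul_le_mul_of_nonneg_left (Real.rpow_le_rpow_of_exponent_le h6 huv) hC.le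
  have hfin : {n : ℕ | 1 ≤ n ∧ n ≤ N ∧
      C * (n : ℝ) ^ v ≤ ((fracs A θ n).ncard : ℝ)}.Finite :=
    (Set.finite_Iic N).subset fun d hd => hd.2.1
  exact_mod_cast Set.ncard_le_ncard hsub hfin

theorem main_dim2 (A : Finset ℕ) (hA : ∀ x ∈ A, 1 ≤ x) (h1 : 1 ∈ A) (h2 : 2 ∈ A)
    (hd : 2 / 3 < dimH (Pool.Agent.LibNW69.E A)) (θ : ℝ)
    (hθ : (1 - (dimH (Pool.Agent.LibNW69.E A)).toReal) /
      (3 * (dimH (Pool.Agent.LibNW69.E A)).toReal - 1) < θ) (hθ1 : θ < 1)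
    (ε : ℝ) (hε : 0 < ε) :
    ∃ c : ℝ, 0 < c ∧ ∃ N₀ : ℕ, ∀ N : ℕ, N₀ ≤ N →
      (1 - ε) * N ≤ (({n : ℕ | 1 ≤ n ∧ n ≤ N ∧
        c * (n : ℝ) ^ (θ + 2 * (dimH (Pool.Agent.LibNW69.E A)).toReal - 1) ≤
          ((fracs A θ n).ncard : ℝ)}.ncard : ℕ) : ℝ) := by
  obtain ⟨h3, h4, a, s, hs, hle⟩ := dim_PB A hA h1 h2 hd
  obtain ⟨C, hC, N₀, hN⟩ := main_PB2 hs θ (theta_of_dim _ s θ h3 h4 hle hθ) hθ1 ε hε
  exact ⟨C, hC, N₀, fun N hN0 => weaken A θ C _ _ hC (by linarith) ε N (hN N hN0)⟩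

theorem main_three2 (ε : ℝ) (hε : 0 < ε) :
    ∃ c : ℝ, 0 < c ∧ ∃ N₀ : ℕ, ∀ N : ℕ, N₀ ≤ N →
      (1 - ε) * N ≤ (({n : ℕ | 1 ≤ n ∧ n ≤ N ∧
        c * (n : ℝ) ^ (27 / 40 : ℝ) ≤
          ((fracs {1, 2, 3} (53 / 200) n).ncard : ℝ)}.ncard : ℕ) : ℝ) := by
  obtain ⟨s, hs, hσ⟩ := three_PB
  obtain ⟨C, hC, N₀, hN⟩ := main_PB2 hs (53 / 200) (by linarith) (by norm_num) ε hε
  exact ⟨C, hC, N₀, fun N hN0 => weaken _ _ C _ _ hC (by linarith) ε N (hN N hN0)⟩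

end Pool.Agent.LibZE10
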