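import Pool.Agent.LibZE10.Y7

set_option autoImplicit false

namespace Pool.Agent.LibZE10

open Filter Topology

/-- from lower bounds to the limit -/
theorem tendsto_of_lower (T : Set ℕ)
    (h : ∀ ε : ℝ, 0 < ε → ∃ N₀ : ℕ, ∀ N : ℕ, N₀ ≤ N →
      (1 - ε) * N ≤ (({n : ℕ | 1 ≤ n ∧ n ≤ N ∧ n ∈ T}.ncard : ℕ) : ℝ)) :
    Tendsto (fun N : ℕ => (({n : ℕ | n ≤ N ∧ n ∈ T}.ncard : ℝ)) / N) atTop (𝓝 1) := by
  rw [Metric.tendsto_atTop]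
  intro ε hε
  obtain ⟨N₀, hN⟩ := h (ε / 2) (by positivity)
  obtain ⟨N₁, hN₁⟩ := exists_nat_gt (2 / ε)
  refine ⟨max N₀ (N₁ + 1), fun N hN0 => ?_⟩
  have h1 : N₀ ≤ N := le_trans (le_max_left _ _) hN0
  have h2 : N₁ + 1 ≤ N := le_trans (le_max_right _ _) hN0
  have hNpos : (0 : ℝ) < (N : ℝ) := by
    have : 0 < N := by omega
    exact_mod_cast this
  have hNε : 2 / ε < (N : ℝ) := by
    have h3 : (N₁ : ℝ) ≤ (N : ℝ) := by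
      have : N₁ ≤ N := by omega
      exact_mod_cast this
    linarith
  have hfin : {n : ℕ | n ≤ N ∧ n ∈ T}.Finite := (Set.finite_Iic N).subset fun d hd => hd.1
  have hlow : (({n : ℕ | 1 ≤ n ∧ n ≤ N ∧ n ∈ T}.ncard : ℕ) : ℝ) ≤
      (({n : ℕ | n ≤ N ∧ n ∈ T}.ncard : ℕ) : ℝ) := by
    have hsub : {n : ℕ | 1 ≤ n ∧ n ≤ N ∧ n ∈ T} ⊆ {n : ℕ | n ≤ N ∧ n ∈ T} :=
      fun d hd => ⟨hd.2.1, hd.2.2⟩
    exact_mod_cast Set.ncard_le_ncard hsub hfin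
  have hup : (({n : ℕ | n ≤ N ∧ n ∈ T}.ncard : ℕ) : ℝ) ≤ N + 1 := by
    have h3 : {n : ℕ | n ≤ N ∧ n ∈ T}.ncard ≤ (((Finset.range (N + 1) : Finset ℕ)) : Set ℕ).ncard := by
      refine Set.ncard_le_ncard (fun d hd => ?_) (Finset.finite_toSet _)
      rw [Finset.coe_range]
      have := hd.1
      simp only [Set.mem_Iio]
      omega
    rw [Set.ncard_coe_finset, Finset.card_range] at h3
    exact_mod_cast h3
  have h3 := hN N h1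
  obtain ⟨P, hP⟩ : ∃ P : ℝ, P = (({n : ℕ | n ≤ N ∧ n ∈ T}.ncard : ℕ) : ℝ) := ⟨_, rfl⟩
  rw [← hP] at hlow hup ⊢
  have h4 : 1 < ε / 2 * N := by
    rw [div_lt_iff₀ hε] at hNε
    linarith
  have h5 : P / N - 1 = (P - N) / N := by
    field_simp
  rw [Real.dist_eq, h5, abs_div, abs_of_pos hNpos, div_lt_iff₀ hNpos, abs_lt]
  constructor <;> nlinarith

/-- the integers with an element of `D A` within `n ^ θ` -/
def near (A : Finset ℕ) (θ : ℝ) : Set ℕ :=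
  {n : ℕ | ∃ d ∈ Pool.Agent.LibNW69.D A, |(d : ℝ) - n| ≤ (n : ℝ) ^ θ}

theorem mem_near (A : Finset ℕ) (θ θ' : ℝ) (hθ : θ' ≤ θ) (n : ℕ) (hn : 1 ≤ n)
    (h : 0 < (fracs A θ' n).ncard) : n ∈ near A θ := by
  have h1 : (fracs A θ' n).Nonempty := by
    rw [Set.nonempty_iff_ne_empty]
    intro he
    rw [he, Set.ncard_empty] at h
    omega
  obtain ⟨⟨d, b⟩, h2, h3, h4, h5⟩ := h1
  have hn1 : (1 : ℝ) ≤ n := by exact_mod_cast hn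
  refine ⟨d, ⟨?_, b, h3, h4, h5⟩, h2.trans (Real.rpow_le_rpow_of_exponent_le hn1 hθ)⟩
  simp only at h3 h4
  omega

theorem near_PB {A : Finset ℕ} {a : ℕ} {s : ℝ} (hp : PB A a s) (θ : ℝ)
    (hθ : 2 - s < θ * (3 * s - 2)) :
    Tendsto (fun N : ℕ => (({n : ℕ | n ≤ N ∧ n ∈ near A θ}.ncard : ℝ)) / N) atTop (𝓝 1) := by
  have hs1 := hp.s1
  obtain ⟨θ', hθ'⟩ : ∃ θ' : ℝ, θ' = min θ (2 / 3) := ⟨_, rfl⟩
  have h1 : 2 - s < θ' * (3 * s - 2) := by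
    rw [hθ']
    rcases le_total θ (2 / 3) with h | h
    · rw [min_eq_left h]
      exact hθ
    · rw [min_eq_right h]
      linarith
  have h2 : θ' < 1 := by
    rw [hθ']
    exact lt_of_le_of_lt (min_le_right _ _) (by norm_num)
  have h3 : θ' ≤ θ := by rw [hθ']; exact min_le_left _ _
  refine tendsto_of_lower (near A θ) fun ε hε => ?_
  obtain ⟨c, hc, N₀, hN⟩ := main_PB2 hp θ' h1 h2 ε hε
  refine ⟨N₀, fun N hN0 => (hN N hN0).trans ?_⟩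
  have hfin : {n : ℕ | 1 ≤ n ∧ n ≤ N ∧ n ∈ near A θ}.Finite :=
    (Set.finite_Iic N).subset fun d hd => hd.2.1
  have hsub : {n : ℕ | 1 ≤ n ∧ n ≤ N ∧
      c * (n : ℝ) ^ (θ' + s - 1) ≤ ((fracs A θ' n).ncard : ℝ)} ⊆
      {n : ℕ | 1 ≤ n ∧ n ≤ N ∧ n ∈ near A θ} := by
    rintro n ⟨g1, g2, g3⟩
    refine ⟨g1, g2, mem_near A θ θ' h3 n g1 ?_⟩
    have hn0 : (0 : ℝ) < n := by exact_mod_cast g1
    have g4 : (0 : ℝ) < ((fracs A θ' n).ncard : ℝ) :=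
      lt_of_lt_of_le (mul_pos hc (Real.rpow_pos_of_pos hn0 _)) g3
    exact_mod_cast g4
  exact_mod_cast Set.ncard_le_ncard hsub hfin

theorem main_dim (A : Finset ℕ) (hA : ∀ x ∈ A, 1 ≤ x) (h1 : 1 ∈ A) (h2 : 2 ∈ A)
    (hd : 2 / 3 < dimH (Pool.Agent.LibNW69.E A)) (θ : ℝ)
    (hθ : (1 - (dimH (Pool.Agent.LibNW69.E A)).toReal) /
      (3 * (dimH (Pool.Agent.LibNW69.E A)).toReal - 1) < θ) :
    Tendsto (fun N : ℕ => (({n : ℕ | n ≤ N ∧ n ∈ near A θ}.ncard : ℝ)) / N) atTop (𝓝 1) := by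
  obtain ⟨h3, h4, a, s, hs, hle⟩ := dim_PB A hA h1 h2 hd
  exact near_PB hs θ (theta_of_dim _ s θ h3 h4 hle hθ)

theorem main_three :
    Tendsto (fun N : ℕ => (({n : ℕ | n ≤ N ∧ n ∈ near {1, 2, 3} (53 / 200)}.ncard : ℝ)) / N) atTop
      (𝓝 1) := by
  obtain ⟨s, hs, hσ⟩ := three_PB
  exact near_PB hs (53 / 200) (by linarith)

end Pool.Agent.LibZE10
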